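import Pool.Agent.H.MP_86f3ed_an.Ty.ELim

open scoped InnerProductSpace Topology
open Filter ContinuousLinearMap

namespace Pool.Agent.MP_86f3ed.Ty

open Pin

variable {H : Type*} [NormedAddCommGroup H] [InnerProductSpace ℂ H] [CompleteSpace H]

theorem EFin_sa {𝔄 : StarSubalgebra ℂ (H →L[ℂ] H)}
    (hcl : IsClosed (𝔄 : Set (H →L[ℂ] H))) {T : H →L[ℂ] H}
    (h : ∀ v ∈ 𝔄, star v * v = 1 → v * star v = 1 → T * v = v * T) {a : H →L[ℂ] H}
    (ha : a ∈ 𝔄) (hsa : IsSelfAdjoint a) (hn : ‖a‖ ≤ 1) : T * a = a * T := by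
  have hspec : ∀ t ∈ spectrum ℝ a, 0 ≤ 1 - t ^ 2 := by
    intro t ht
    have h1 : ‖t‖ ≤ 1 := (spectrum.norm_le_norm_mul_of_mem ht).trans (by
      calc ‖a‖ * ‖(1 : H →L[ℂ] H)‖ ≤ 1 * 1 :=
            mul_le_mul hn ContinuousLinearMap.norm_id_le (norm_nonneg _) zero_le_one
        _ = 1 := one_mul 1)
    rw [Real.norm_eq_abs] at h1
    nlinarith [abs_nonneg t, sq_abs t]
  have hcont : ContinuousOn (fun t : ℝ => √(1 - t ^ 2)) (spectrum ℝ a) := by fun_prop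
  set s : H →L[ℂ] H := cfc (fun t : ℝ => √(1 - t ^ 2)) a with hs
  have hsA : s ∈ 𝔄 := cfc_mem (𝕜 := ℝ) (𝕜' := ℂ) (hs := hcl) _ ha
  have hss : star s = s := (cfc_predicate (fun t : ℝ => √(1 - t ^ 2)) a : IsSelfAdjoint s)
  have has : star a = a := hsa
  have hs2 : s * s = 1 - a * a := by
    rw [hs, ← cfc_mul _ _ a hcont hcont]
    have h1 : cfc (fun t : ℝ => √(1 - t ^ 2) * √(1 - t ^ 2)) a = cfc (fun t : ℝ => 1 - t ^ 2) a := by
      apply cfc_congr
      intro t ht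
      exact Real.mul_self_sqrt (hspec t ht)
    rw [h1, cfc_sub (fun _ : ℝ => (1 : ℝ)) (fun t : ℝ => t ^ 2) a (by fun_prop) (by fun_prop),
      cfc_const_one ℝ a, cfc_pow_id a 2, pow_two]
  have hcomm : a * s = s * a := by
    have h1 : a * s = cfc (fun t : ℝ => t * √(1 - t ^ 2)) a := by
      rw [cfc_mul (fun t : ℝ => t) (fun t : ℝ => √(1 - t ^ 2)) a (by fun_prop) hcont, cfc_id' ℝ a]
    have h2 : s * a = cfc (fun t : ℝ => √(1 - t ^ 2) * t) a := by
      rw [cfc_mul (fun t : ℝ => √(1 - t ^ 2)) (fun t : ℝ => t) a hcont (by fun_prop), cfc_id' ℝ a]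
    rw [h1, h2]
    congr 1
    funext t
    exact mul_comm _ _
  set v : H →L[ℂ] H := a + Complex.I • s with hv
  have hvA : v ∈ 𝔄 := add_mem ha (𝔄.smul_mem hsA _)
  have hsv : star v = a - Complex.I • s := by
    rw [hv, star_add, star_smul, has, hss, sub_eq_add_neg, ← neg_smul]
    congr 2
    exact Complex.conj_I
  have hI : Complex.I * Complex.I = -1 := Complex.I_mul_I
  have h1 : star v * v = 1 := by
    rw [hsv, hv, sub_mul, mul_add, mul_add, smul_mul_smul_comm, mul_smul_comm, smul_mul_assoc, hI,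
      hs2, hcomm]
    simp only [neg_smul, one_smul]
    abel
  have h2 : v * star v = 1 := by
    rw [hsv, hv, add_mul, mul_sub, mul_sub, smul_mul_smul_comm, mul_smul_comm, smul_mul_assoc, hI,
      hs2, hcomm]
    simp only [neg_smul, one_smul]
    abel
  have h3 := h v hvA h1 h2
  have h4 := h (star v) (star_mem hvA) (by rw [star_star]; exact h2) (by rw [star_star]; exact h1)
  have h5 : v + star v = (2 : ℂ) • a := by
    rw [hsv, hv, two_smul]
    abel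
  have h6 : T * ((2 : ℂ) • a) = ((2 : ℂ) • a) * T := by
    rw [← h5, mul_add, add_mul, h3, h4]
  rw [mul_smul_comm, smul_mul_assoc] at h6
  exact smul_right_injective _ (two_ne_zero : (2 : ℂ) ≠ 0) h6

theorem EFin_sa' {𝔄 : StarSubalgebra ℂ (H →L[ℂ] H)}
    (hcl : IsClosed (𝔄 : Set (H →L[ℂ] H))) {T : H →L[ℂ] H}
    (h : ∀ v ∈ 𝔄, star v * v = 1 → v * star v = 1 → T * v = v * T) {a : H →L[ℂ] H}
    (ha : a ∈ 𝔄) (hsa : star a = a) : T * a = a * T := by
  have hpos : (0 : ℝ) < ‖a‖ + 1 := by positivity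
  set r : ℝ := (‖a‖ + 1)⁻¹ with hr
  have hr0 : 0 < r := inv_pos.2 hpos
  have h1 : T * ((r : ℂ) • a) = ((r : ℂ) • a) * T := by
    refine EFin_sa hcl h (𝔄.smul_mem ha _) ?_ ?_
    · show star ((r : ℂ) • a) = (r : ℂ) • a
      rw [star_smul, hsa]
      congr 1
      exact Complex.conj_ofReal r
    · rw [norm_smul, Complex.norm_real, Real.norm_eq_abs, abs_of_pos hr0, hr,
        inv_mul_le_iff₀ hpos]
      linarith
  rw [mul_smul_comm, smul_mul_assoc] at h1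
  exact smul_right_injective _ (Complex.ofReal_ne_zero.2 hr0.ne') h1

/-- An operator which commutes with the unitaries of a closed star algebra is in the commutant.

PROOF. Every `a ∈ 𝔄` is a combination `a = b + i c` of selfadjoint elements of `𝔄`
(`b = (1/2)(a + star a)`, `c = (-i/2)(a - star a)`), so we may assume `a` selfadjoint and, after
scaling, `‖a‖ ≤ 1`. Then `a = (1/2) (v + star v)` with `v = a + i √(1 - a²) ∈ 𝔄`
(`√(1 - a²) = cfc (fun t => √(1 - t^2)) a ∈ 𝔄` by `cfc_mem (𝕜 := ℝ) (𝕜' := ℂ) (hs := hcl)`, see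
`exists_slots` in `Pin/Slot.lean`), and `star v * v = v * star v = a² + (1 - a²) = 1` because the
spectrum of `a` is in `[-1, 1]` (`cfc_mul`, `cfc_congr`). -/
theorem mem_Com_of_unitaries {𝔄 : StarSubalgebra ℂ (H →L[ℂ] H)}
    (hcl : IsClosed (𝔄 : Set (H →L[ℂ] H))) {T : H →L[ℂ] H}
    (h : ∀ v ∈ 𝔄, star v * v = 1 → v * star v = 1 → T * v = v * T) : T ∈ Com 𝔄 := by
  rw [mem_Com]
  intro a ha
  have hb : T * (a + star a) = (a + star a) * T := by
    refine EFin_sa' hcl h (add_mem ha (star_mem ha)) ?_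
    rw [star_add, star_star, add_comm]
  have hc : T * (Complex.I • (a - star a)) = (Complex.I • (a - star a)) * T := by
    refine EFin_sa' hcl h (𝔄.smul_mem (sub_mem ha (star_mem ha)) _) ?_
    rw [star_smul, star_sub, star_star]
    have : star Complex.I = -Complex.I := Complex.conj_I
    rw [this, neg_smul, ← smul_neg, neg_sub]
  rw [mul_smul_comm, smul_mul_assoc] at hc
  have hc' : T * (a - star a) = (a - star a) * T := smul_right_injective _ Complex.I_ne_zero hc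
  have h2 : T * ((2 : ℂ) • a) = ((2 : ℂ) • a) * T := by
    have : (2 : ℂ) • a = (a + star a) + (a - star a) := by
      rw [two_smul]
      abel
    rw [this, mul_add, add_mul, hb, hc']
  rw [mul_smul_comm, smul_mul_assoc] at h2
  exact (smul_right_injective _ (two_ne_zero : (2 : ℂ) ≠ 0) h2).symm

/-- The type free main theorem in operator form.

PROOF. If `(1 : H →L[ℂ] H) = 0` every operator is `0` and `E = LinearMap.id` works. Otherwise let
`I` be the type of finite sets (`Finset`) of elements of the subtype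
`{v : H →L[ℂ] H // v ∈ 𝔄 ∧ star v * v = 1 ∧ v * star v = 1}`. For `s : I` let `p = s.card + 1` and let
`u : Fin p → ..` be `1` at `0` and an enumeration of `s` at the other indices (`Fin.cons 1 ..` with
`s.equivFin` or `Finset.equivFin`). `exists_loop` (with `hT`) gives a loop and `exists_fin_ce` gives
`E_s` with `IsCE 𝔄 E_s` and `E_s Z * v = v * E_s Z` for `v ∈ s`. Take an ultrafilter `≤ atTop` on `I`
and the limit `E` from `exists_limit_ce`. For every unitary `v ∈ 𝔄` eventually `v ∈ s`, so in the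
limit `E Z * v = v * E Z` (`⟪x, v (E_s Z y)⟫ = ⟪star v x, E_s Z y⟫`); `mem_Com_of_unitaries`
gives `E Z ∈ Com 𝔄`. -/
theorem exists_ce_onto {𝔄 : StarSubalgebra ℂ (H →L[ℂ] H)} (hcl : IsClosed (𝔄 : Set (H →L[ℂ] H)))
    (hPI : PurelyInfinite (Com 𝔄 : Set (H →L[ℂ] H)))
    (hPI' : PurelyInfinite (Com (Com 𝔄) : Set (H →L[ℂ] H)))
    (hT : ∀ Ω : H, Cyc (Com 𝔄) Ω → Cyc (Com (Com 𝔄)) Ω → ∃ J, TomitaJ (Com (Com 𝔄)) Ω J)
    (hNC : NCen 𝔄) :
    ∃ E : (H →L[ℂ] H) →ₗ[ℂ] (H →L[ℂ] H), IsCE 𝔄 E ∧ ∀ Z, E Z ∈ Com 𝔄 := by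
  classical
  by_cases h1 : (1 : H →L[ℂ] H) = 0
  · have hz : ∀ S : H →L[ℂ] H, S = 0 := fun S => by rw [← mul_one S, h1, mul_zero]
    refine ⟨LinearMap.id, ⟨fun Z => le_rfl, fun a _ b _ Z => ?_, rfl, fun Z x => ?_⟩, fun Z => ?_⟩
    · rfl
    · have hx : x = 0 := by
        have := congrArg (fun S : H →L[ℂ] H => S x) h1
        exact this
      rw [hx, inner_zero_left]
      simp
    · rw [hz (LinearMap.id Z)]
      exact (Com 𝔄).zero_mem
  set U := {v : H →L[ℂ] H // v ∈ 𝔄 ∧ star v * v = 1 ∧ v * star v = 1} with hU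
  have hfin : ∀ s : Finset U, ∃ E : (H →L[ℂ] H) →ₗ[ℂ] (H →L[ℂ] H), IsCE 𝔄 E ∧
      ∀ v ∈ s, ∀ Z, E Z * (v : H →L[ℂ] H) = (v : H →L[ℂ] H) * E Z := by
    intro s
    have hp : 0 < s.card + 1 := Nat.succ_pos _
    set u : Fin (s.card + 1) → H →L[ℂ] H :=
      Fin.cons 1 (fun i => ((s.equivFin.symm i : U) : H →L[ℂ] H)) with hu
    have hall : ∀ j, u j ∈ 𝔄 ∧ star (u j) * u j = 1 ∧ u j * star (u j) = 1 := by
      intro j
      refine Fin.cases ?_ (fun i => ?_) j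
      · simp only [hu, Fin.cons_zero]
        exact ⟨one_mem _, by rw [star_one, one_mul], by rw [star_one, one_mul]⟩
      · simp only [hu, Fin.cons_succ]
        exact (s.equivFin.symm i : U).2
    have hu0 : u ⟨0, hp⟩ = 1 := rfl
    obtain ⟨L⟩ := exists_loop h1 hPI hPI' hT hp u (fun j => (hall j).1) (fun j => (hall j).2.1) hu0
    obtain ⟨E, hE, hEu⟩ := exists_fin_ce hcl hPI' hNC hp (fun j => (hall j).1)
      (fun j => (hall j).2.1) (fun j => (hall j).2.2) hu0 L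
    refine ⟨E, hE, fun v hv Z => ?_⟩
    have h2 := hEu (Fin.succ (s.equivFin ⟨v, hv⟩)) Z
    simp only [hu, Fin.cons_succ, Equiv.symm_apply_apply] at h2
    exact h2
  choose E hE hEv using hfin
  set 𝒰 : Ultrafilter (Finset U) := Ultrafilter.of atTop with h𝒰
  have h𝒰le : (𝒰 : Filter (Finset U)) ≤ atTop := Ultrafilter.of_le _
  obtain ⟨E', hE', hlim⟩ := exists_limit_ce 𝒰 E hE
  refine ⟨E', hE', fun Z => mem_Com_of_unitaries hcl fun v hvA hv1 hv2 => ?_⟩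
  refine ContinuousLinearMap.ext fun y => ?_
  refine ext_inner_left ℂ fun x => ?_
  have ha : Tendsto (fun s => ⟪x, E s Z (v y)⟫_ℂ) 𝒰 (𝓝 ⟪x, E' Z (v y)⟫_ℂ) := hlim Z x (v y)
  have hb : Tendsto (fun s => ⟪star v x, E s Z y⟫_ℂ) 𝒰 (𝓝 ⟪star v x, E' Z y⟫_ℂ) :=
    hlim Z (star v x) y
  have hev : ∀ᶠ s : Finset U in 𝒰, ⟪star v x, E s Z y⟫_ℂ = ⟪x, E s Z (v y)⟫_ℂ := by
    have h3 : ∀ᶠ s : Finset U in atTop, {(⟨v, hvA, hv1, hv2⟩ : U)} ≤ s := eventually_ge_atTop _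
    refine (h3.filter_mono h𝒰le).mono fun s hs => ?_
    have hmem : (⟨v, hvA, hv1, hv2⟩ : U) ∈ s := hs (Finset.mem_singleton_self _)
    have h4 := hEv s ⟨v, hvA, hv1, hv2⟩ hmem Z
    have h5 : E s Z (v y) = v (E s Z y) := congrArg (fun S : H →L[ℂ] H => S y) h4
    rw [h5, star_eq_adjoint, adjoint_inner_left]
  have h6 : ⟪star v x, E' Z y⟫_ℂ = ⟪x, E' Z (v y)⟫_ℂ :=
    tendsto_nhds_unique (hb.congr' hev) ha
  show ⟪x, E' Z (v y)⟫_ℂ = ⟪x, v (E' Z y)⟫_ℂ
  rw [← h6, star_eq_adjoint, adjoint_inner_left]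

theorem injCom_type_free {𝔄 : StarSubalgebra ℂ (H →L[ℂ] H)}
    (hcl : IsClosed (𝔄 : Set (H →L[ℂ] H)))
    (hPI : PurelyInfinite (Com 𝔄 : Set (H →L[ℂ] H)))
    (hPI' : PurelyInfinite (Com (Com 𝔄) : Set (H →L[ℂ] H)))
    (hT : ∀ Ω : H, Cyc (Com 𝔄) Ω → Cyc (Com (Com 𝔄)) Ω → ∃ J, TomitaJ (Com (Com 𝔄)) Ω J)
    (hNC : NCen 𝔄) : InjCom 𝔄 := by
  obtain ⟨E, hE, hEm⟩ := exists_ce_onto hcl hPI hPI' hT hNC
  refine ⟨E, hE.norm_le, hEm, fun S hS => ?_⟩
  have h := hE.bimod S hS 1 (Com 𝔄).one_mem 1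
  rw [mul_one, mul_one, mul_one, hE.one, mul_one] at h
  exact h

end Pool.Agent.MP_86f3ed.Ty
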