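import Pool.Agent.H.MP_86f3ed_an.Ty.TomC2
import Pool.Agent.H.MP_86f3ed_an.Sf.Spec

open scoped InnerProductSpace Topology
open Filter ContinuousLinearMap

namespace Pool.Agent.MP_86f3ed.Ty

open Pin

variable {H : Type*} [NormedAddCommGroup H] [InnerProductSpace ℂ H] [CompleteSpace H]

theorem TomL1_star (a : H →L[ℂ] H) (x y : H) : ⟪(star a) x, y⟫_ℂ = ⟪x, a y⟫_ℂ := by
  rw [ContinuousLinearMap.star_eq_adjoint]; exact ContinuousLinearMap.adjoint_inner_left _ _ _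

/-- The clamp to `[0, 2]`. -/
noncomputable def TomL1_k (s : ℝ) : ℝ := max 0 (min s 2)

theorem TomL1_k0 (s : ℝ) : 0 ≤ TomL1_k s := le_max_left _ _

theorem TomL1_k2 (s : ℝ) : TomL1_k s ≤ 2 := max_le (by norm_num) (min_le_right _ _)

theorem TomL1_k2' (s : ℝ) : 0 ≤ 2 - TomL1_k s := by linarith [TomL1_k2 s]

theorem TomL1_kc : Continuous TomL1_k := by unfold TomL1_k; fun_prop

theorem TomL1_k_of {s : ℝ} (h0 : 0 ≤ s) (h2 : s ≤ 2) : TomL1_k s = s := by
  unfold TomL1_k; rw [min_eq_left h2, max_eq_right h0]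

/-- The denominator. -/
noncomputable def TomL1_d (τ s : ℝ) : ℝ := Real.exp τ * TomL1_k s + Real.exp (-τ) * (2 - TomL1_k s)

theorem TomL1_d_pos (τ s : ℝ) : 0 < TomL1_d τ s := by
  unfold TomL1_d
  have h1 := TomL1_k0 s
  have h2 := TomL1_k2' s
  have h3 := Real.exp_pos τ
  have h4 := Real.exp_pos (-τ)
  rcases h1.eq_or_lt with h | h
  · rw [← h]; simp; positivity
  · have := mul_pos h3 h
    have := mul_nonneg h4.le h2
    linarith

theorem TomL1_d_cont : Continuous (Function.uncurry TomL1_d) := by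
  have := TomL1_kc
  unfold TomL1_d
  show Continuous fun p : ℝ × ℝ => _
  fun_prop

/-- The kernel with the clamp. -/
noncomputable def TomL1_f (τ s : ℝ) : ℝ := ker (TomL1_k s) (2 - TomL1_k s) τ

theorem TomL1_f_eq (τ s : ℝ) : TomL1_f τ s =
    2 * ((TomL1_d τ s)⁻¹ * Real.sqrt (TomL1_k s * (2 - TomL1_k s))) := by
  unfold TomL1_f ker TomL1_d
  rw [div_eq_mul_inv]; ring

theorem TomL1_f_cont : Continuous (Function.uncurry TomL1_f) := by
  have h1 := TomL1_kc
  have h2 := TomL1_d_cont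
  have h3 : Function.uncurry TomL1_f = fun p : ℝ × ℝ =>
      2 * ((Function.uncurry TomL1_d p)⁻¹ * Real.sqrt (TomL1_k p.2 * (2 - TomL1_k p.2))) := by
    funext p; exact TomL1_f_eq _ _
  rw [h3]
  have h4 : Continuous fun p : ℝ × ℝ => (Function.uncurry TomL1_d p)⁻¹ :=
    h2.inv₀ fun p => (TomL1_d_pos _ _).ne'
  fun_prop

theorem TomL1_f0 (τ s : ℝ) : 0 ≤ TomL1_f τ s := ker_nonneg (TomL1_k0 s) (TomL1_k2' s) τ

theorem TomL1_f1 (τ s : ℝ) : TomL1_f τ s ≤ 1 := ker_le_one (TomL1_k0 s) (TomL1_k2' s) τ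

theorem TomL1_fc (τ : ℝ) : Continuous (TomL1_f τ) :=
  TomL1_f_cont.comp (Continuous.prodMk_right τ)

/-- The integral of the kernel. -/
noncomputable def TomL1_F (c s : ℝ) : ℝ := ∫ τ in (-c)..c, TomL1_f τ s

theorem TomL1_Fc (c : ℝ) : Continuous (TomL1_F c) := by
  have h : Continuous (Function.uncurry fun s τ => TomL1_f τ s) :=
    TomL1_f_cont.comp continuous_swap
  exact intervalIntegral.continuous_parametric_intervalIntegral_of_continuous' h (-c) c

theorem TomL1_F0 {c : ℝ} (hc : 0 ≤ c) (s : ℝ) : 0 ≤ TomL1_F c s :=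
  integral_ker_nonneg (TomL1_k0 s) (TomL1_k2' s) hc

theorem TomL1_Fpi (c s : ℝ) : TomL1_F c s ≤ Real.pi :=
  integral_ker_le (TomL1_k0 s) (TomL1_k2' s) c

theorem TomL1_spec {R : H →L[ℂ] H} (hR : star R = R) (h0 : ∀ x, 0 ≤ (⟪x, R x⟫_ℂ).re)
    (h2 : ∀ x, (⟪x, R x⟫_ℂ).re ≤ 2 * ‖x‖ ^ 2) {s : ℝ} (hs : s ∈ spectrum ℝ R) :
    0 ≤ s ∧ s ≤ 2 := by
  have hsa : IsSelfAdjoint R := hR
  have hre : ∀ x, RCLike.re ⟪R x, x⟫_ℂ = (⟪x, R x⟫_ℂ).re := fun x => inner_re_symm _ _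
  constructor
  · have h : 0 ≤ R := by
      rw [ContinuousLinearMap.nonneg_iff_isPositive, ContinuousLinearMap.isPositive_def']
      exact ⟨hsa, fun x => by rw [reApplyInnerSelf_apply, hre]; exact h0 x⟩
    exact spectrum_nonneg_of_nonneg h hs
  · have h : R ≤ algebraMap ℝ (H →L[ℂ] H) 2 := by
      rw [← sub_nonneg, ContinuousLinearMap.nonneg_iff_isPositive,
        ContinuousLinearMap.isPositive_def']
      have e : algebraMap ℝ (H →L[ℂ] H) 2 = 1 + 1 := by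
        rw [map_ofNat]; exact one_add_one_eq_two.symm
      rw [e]
      refine ⟨?_, fun x => ?_⟩
      · refine IsSelfAdjoint.sub ?_ hsa
        exact (IsSelfAdjoint.one _).add (IsSelfAdjoint.one _)
      · rw [reApplyInnerSelf_apply, sub_apply, inner_sub_left, map_sub, hre, add_apply]
        have h3 : RCLike.re ⟪(1 : H →L[ℂ] H) x + (1 : H →L[ℂ] H) x, x⟫_ℂ = 2 * ‖x‖ ^ 2 := by
          show RCLike.re ⟪x + x, x⟫_ℂ = 2 * ‖x‖ ^ 2
          rw [inner_add_left, map_add, inner_self_eq_norm_sq]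
          ring
        rw [h3]
        linarith [h2 x]
    exact (le_algebraMap_iff_spectrum_le hsa).mp h s hs

theorem TomL1_lin {R : H →L[ℂ] H} (hR : IsSelfAdjoint R) (a b : ℝ) :
    cfc (fun s : ℝ => a * s + b * (2 - s)) R =
      (a : ℂ) • R + (b : ℂ) • ((2 : ℂ) • (1 : H →L[ℂ] H) - R) := by
  have e1 : cfc (fun s : ℝ => a * s + b * (2 - s)) R =
      cfc (fun s : ℝ => a * s) R + cfc (fun s : ℝ => b * (2 - s)) R :=
    cfc_add (a := R) (f := fun s : ℝ => a * s) (g := fun s : ℝ => b * (2 - s))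
      (hf := by fun_prop) (hg := by fun_prop)
  have e2 : cfc (fun s : ℝ => a * s) R = a • R := by
    rw [cfc_const_mul a (fun s : ℝ => s) R (by fun_prop)]
    rw [cfc_id' ℝ R hR]
  have e3 : cfc (fun s : ℝ => b * (2 - s)) R = b • ((2 : ℂ) • (1 : H →L[ℂ] H) - R) := by
    rw [cfc_const_mul b (fun s : ℝ => 2 - s) R (by fun_prop),
      cfc_sub (fun _ : ℝ => (2 : ℝ)) (fun s : ℝ => s) R (by fun_prop) (by fun_prop),
      cfc_id' ℝ R hR, cfc_const 2 R hR, map_ofNat]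
    congr 2
    rw [two_smul]
    exact one_add_one_eq_two.symm
  rw [e1, e2, e3, Complex.coe_smul, Complex.coe_smul]

/-- The vector form of the integral formula. -/
theorem lim_vec {R T : H →L[ℂ] H} (hR : star R = R) (h0 : ∀ x, 0 ≤ (⟪x, R x⟫_ℂ).re)
    (h2 : ∀ x, (⟪x, R x⟫_ℂ).re ≤ 2 * ‖x‖ ^ 2) (hT : T = CFC.sqrt ((2 : ℂ) • R - R * R))
    (hinj : ∀ x, T x = 0 → x = 0) (w : H) (v : ℝ → H)
    (hv : ∀ τ : ℝ, (Real.exp τ : ℂ) • R (v τ) + (Real.exp (-τ) : ℂ) • ((2 : ℂ) • v τ - R (v τ)) =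
      (2 : ℂ) • T w) (u : H) :
    Continuous v ∧
      Tendsto (fun c : ℝ => ∫ τ in (-c)..c, ⟪u, v τ⟫_ℂ) atTop (𝓝 (Real.pi * ⟪u, w⟫_ℂ)) := by
  have hsa : IsSelfAdjoint R := hR
  have hspec : ∀ s ∈ spectrum ℝ R, TomL1_k s = s := fun s hs =>
    TomL1_k_of (TomL1_spec hR h0 h2 hs).1 (TomL1_spec hR h0 h2 hs).2
  have hmul : ∀ f g : ℝ → ℝ, Continuous f → Continuous g →
      cfc f R * cfc g R = cfc (fun s => f s * g s) R := fun f g hf hg =>
    (cfc_mul f g R hf.continuousOn hg.continuousOn).symm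
  have hkc := TomL1_kc
  have hgc : Continuous fun s => Real.sqrt (TomL1_k s * (2 - TomL1_k s)) := by fun_prop
  have hg2 : ∀ s, Real.sqrt (TomL1_k s * (2 - TomL1_k s)) *
      Real.sqrt (TomL1_k s * (2 - TomL1_k s)) = TomL1_k s * (2 - TomL1_k s) := fun s =>
    Real.mul_self_sqrt (mul_nonneg (TomL1_k0 s) (TomL1_k2' s))
  have hT' : T = cfc (fun s => Real.sqrt (TomL1_k s * (2 - TomL1_k s))) R := by
    rw [hT]
    refine CFC.sqrt_unique ?_ (cfc_nonneg fun s _ => Real.sqrt_nonneg _)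
    rw [hmul _ _ hgc hgc]
    simp only [hg2]
    have e1 : cfc (fun s => TomL1_k s * (2 - TomL1_k s)) R =
        cfc (fun s : ℝ => (1 * s + 1 * (2 - s)) * s - s * s) R := by
      refine cfc_congr fun s hs => ?_
      show TomL1_k s * (2 - TomL1_k s) = _
      rw [hspec s hs]; ring
    rw [e1, cfc_sub (fun s : ℝ => (1 * s + 1 * (2 - s)) * s) (fun s : ℝ => s * s) R
        (by fun_prop) (by fun_prop),
      cfc_mul (fun s : ℝ => 1 * s + 1 * (2 - s)) (fun s : ℝ => s) R (by fun_prop) (by fun_prop),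
      cfc_mul (fun s : ℝ => s) (fun s : ℝ => s) R (by fun_prop) (by fun_prop),
      cfc_id' ℝ R hsa, TomL1_lin hsa]
    simp
  have hTs : star T = T := by
    rw [hT']
    exact (cfc_predicate (fun s => Real.sqrt (TomL1_k s * (2 - TomL1_k s))) R :
      IsSelfAdjoint (cfc (fun s => Real.sqrt (TomL1_k s * (2 - TomL1_k s))) R))
  have hTT' : ∀ x y, ⟪T x, y⟫_ℂ = ⟪x, T y⟫_ℂ := fun x y => by
    conv_lhs => rw [← hTs]
    exact TomL1_star T x y
  -- the operators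
  have hdc : ∀ τ, Continuous (TomL1_d τ) := fun τ =>
    TomL1_d_cont.comp (Continuous.prodMk_right τ)
  have hD : ∀ τ, cfc (TomL1_d τ) R =
      (Real.exp τ : ℂ) • R + (Real.exp (-τ) : ℂ) • ((2 : ℂ) • (1 : H →L[ℂ] H) - R) := by
    intro τ
    rw [← TomL1_lin hsa]
    refine cfc_congr fun s hs => ?_
    show Real.exp τ * TomL1_k s + Real.exp (-τ) * (2 - TomL1_k s) = _
    rw [hspec s hs]
  have hvB : ∀ τ, v τ = cfc (TomL1_f τ) R w := by
    intro τ
    have hic : Continuous fun s => (TomL1_d τ s)⁻¹ :=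
      (hdc τ).inv₀ fun s => (TomL1_d_pos τ s).ne'
    have e1 : cfc (fun s => (TomL1_d τ s)⁻¹) R * cfc (TomL1_d τ) R = 1 := by
      rw [hmul _ _ hic (hdc τ), ← cfc_one ℝ R hsa]
      refine cfc_congr fun s _ => ?_
      simp [inv_mul_cancel₀ (TomL1_d_pos τ s).ne']
    have e2 : cfc (TomL1_f τ) R = (2 : ℝ) • (cfc (fun s => (TomL1_d τ s)⁻¹) R * T) := by
      have hc : Continuous fun s => (TomL1_d τ s)⁻¹ *
        Real.sqrt (TomL1_k s * (2 - TomL1_k s)) := hic.mul hgc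
      rw [hT', hmul _ _ hic hgc, ← cfc_const_mul 2 _ R hc.continuousOn]
      exact cfc_congr fun s _ => TomL1_f_eq τ s
    have e3 : cfc (TomL1_d τ) R (v τ) = (2 : ℂ) • T w := by
      rw [hD, ← hv τ]; rfl
    calc v τ = (cfc (fun s => (TomL1_d τ s)⁻¹) R * cfc (TomL1_d τ) R) (v τ) := by rw [e1]; rfl
      _ = cfc (fun s => (TomL1_d τ s)⁻¹) R (cfc (TomL1_d τ) R (v τ)) := rfl
      _ = _ := by
        rw [e3, e2, map_smul, two_smul, two_smul]
        rfl
  refine ⟨?_, ?_⟩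
  · -- continuity
    have hco : ∀ (τ : ℝ) (y : H), ‖y‖ ≤ Real.exp |τ| / 2 * ‖(Real.exp τ : ℂ) • R y +
        (Real.exp (-τ) : ℂ) • ((2 : ℂ) • y - R y)‖ := by
      intro τ y
      rcases (norm_nonneg y).eq_or_lt with h | h
      · rw [← h]; positivity
      have h3 := h0 y
      have h4 := h2 y
      have h5 : (⟪y, (Real.exp τ : ℂ) • R y + (Real.exp (-τ) : ℂ) • ((2 : ℂ) • y - R y)⟫_ℂ).re =
          Real.exp τ * (⟪y, R y⟫_ℂ).re + Real.exp (-τ) * (2 * ‖y‖ ^ 2 - (⟪y, R y⟫_ℂ).re) := by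
        rw [inner_add_right, inner_smul_right, inner_smul_right, inner_sub_right,
          inner_smul_right, Complex.add_re, Complex.re_ofReal_mul, Complex.re_ofReal_mul,
          Complex.sub_re, inner_self_eq_norm_sq_to_K]
        congr 3
        have e0 : ∀ r : ℝ, (2 * ((r : ℝ) : ℂ) ^ 2).re = 2 * r ^ 2 := fun r => by
          have : (2 * ((r : ℝ) : ℂ) ^ 2) = ((2 * r ^ 2 : ℝ) : ℂ) := by push_cast; ring
          rw [this, Complex.ofReal_re]
        exact e0 _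
      have h6 : Real.exp (-|τ|) * (2 * ‖y‖ ^ 2) ≤ Real.exp τ * (⟪y, R y⟫_ℂ).re +
          Real.exp (-τ) * (2 * ‖y‖ ^ 2 - (⟪y, R y⟫_ℂ).re) := by
        have e1 : Real.exp (-|τ|) ≤ Real.exp τ := Real.exp_le_exp.mpr (neg_abs_le τ)
        have e2 : Real.exp (-|τ|) ≤ Real.exp (-τ) :=
          Real.exp_le_exp.mpr (neg_le_neg (le_abs_self τ))
        have e3 := mul_le_mul_of_nonneg_right e1 h3
        have e4 := mul_le_mul_of_nonneg_right e2 (sub_nonneg.mpr h4)
        nlinarith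
      have h7 := (Complex.re_le_norm _).trans (norm_inner_le_norm y
        ((Real.exp τ : ℂ) • R y + (Real.exp (-τ) : ℂ) • ((2 : ℂ) • y - R y)))
      rw [h5] at h7
      have h8 := h6.trans h7
      have h9 : Real.exp (-|τ|) * (2 * ‖y‖) ≤ ‖(Real.exp τ : ℂ) • R y +
          (Real.exp (-τ) : ℂ) • ((2 : ℂ) • y - R y)‖ := by
        refine le_of_mul_le_mul_left ?_ h
        linarith
      have h10 : Real.exp |τ| * Real.exp (-|τ|) = 1 := by rw [← Real.exp_add]; simp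
      calc ‖y‖ = Real.exp |τ| / 2 * (Real.exp (-|τ|) * (2 * ‖y‖)) := by
            linear_combination (-‖y‖) * h10
        _ ≤ _ := mul_le_mul_of_nonneg_left h9 (by positivity)
    rw [continuous_iff_continuousAt]
    intro σ
    rw [ContinuousAt, tendsto_iff_norm_sub_tendsto_zero]
    refine squeeze_zero (fun _ => norm_nonneg _) (g := fun τ => Real.exp |τ| / 2 *
      ‖((Real.exp σ : ℂ) - (Real.exp τ : ℂ)) • R (v σ) +
        ((Real.exp (-σ) : ℂ) - (Real.exp (-τ) : ℂ)) • ((2 : ℂ) • v σ - R (v σ))‖)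
      (fun τ => ?_) ?_
    · refine (hco τ (v τ - v σ)).trans (le_of_eq ?_)
      congr 2
      have e1 := hv τ
      have e2 := hv σ
      rw [← e2] at e1
      rw [map_sub, smul_sub, smul_sub (2 : ℂ)]
      have e3 : (Real.exp (-τ) : ℂ) • ((2 : ℂ) • v τ - (2 : ℂ) • v σ - (R (v τ) - R (v σ))) =
          (Real.exp (-τ) : ℂ) • ((2 : ℂ) • v τ - R (v τ)) -
          (Real.exp (-τ) : ℂ) • ((2 : ℂ) • v σ - R (v σ)) := by
        rw [← smul_sub (Real.exp (-τ) : ℂ)]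
        congr 1
        abel
      rw [e3, sub_smul, sub_smul]
      have e4 : (Real.exp τ : ℂ) • R (v τ) - (Real.exp τ : ℂ) • R (v σ) +
          ((Real.exp (-τ) : ℂ) • ((2 : ℂ) • v τ - R (v τ)) -
          (Real.exp (-τ) : ℂ) • ((2 : ℂ) • v σ - R (v σ))) =
          ((Real.exp τ : ℂ) • R (v τ) + (Real.exp (-τ) : ℂ) • ((2 : ℂ) • v τ - R (v τ))) -
          (Real.exp τ : ℂ) • R (v σ) - (Real.exp (-τ) : ℂ) • ((2 : ℂ) • v σ - R (v σ)) := by
        abel
      rw [e4, e1]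
      abel
    · refine Continuous.tendsto' ?_ _ _ ?_
      · fun_prop
      · simp
  · -- the integral
    set E : ℝ → H →L[ℂ] H := fun c => cfc (fun s => TomL1_F c s - Real.pi) R with hE
    have hFc : ∀ c, Continuous fun s => TomL1_F c s - Real.pi := fun c =>
      (TomL1_Fc c).sub continuous_const
    have hEn : ∀ c, 0 ≤ c → ‖E c‖ ≤ Real.pi := by
      intro c hc
      refine norm_cfc_le Real.pi_pos.le fun s _ => ?_
      have h3 := TomL1_F0 hc s
      have h4 := TomL1_Fpi c s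
      rw [Real.norm_eq_abs, abs_le]
      constructor <;> linarith [Real.pi_pos]
    have hint : ∀ c, 0 ≤ c → ∫ τ in (-c)..c, ⟪u, v τ⟫_ℂ = Real.pi * ⟪u, w⟫_ℂ + ⟪u, E c w⟫_ℂ := by
      intro c hc
      have e1 : cfc (fun s => TomL1_F c s - Real.pi) R = cfc (TomL1_F c) R -
          (Real.pi : ℂ) • (1 : H →L[ℂ] H) := by
        rw [cfc_sub (TomL1_F c) (fun _ => Real.pi) R (TomL1_Fc c).continuousOn (by fun_prop),
          cfc_const Real.pi R hsa, Algebra.algebraMap_eq_smul_one, Complex.coe_smul]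
      have hbd : ∀ᵐ x ∂(MeasureTheory.volume.restrict (Set.Ioc (-c) c)), ∀ z ∈ spectrum ℝ R,
          ‖TomL1_f x z‖ ≤ (fun _ => (1 : ℝ)) x :=
        Filter.Eventually.of_forall fun x z _ => by
          rw [Real.norm_of_nonneg (TomL1_f0 _ _)]; exact TomL1_f1 _ _
      have hfin : MeasureTheory.HasFiniteIntegral (fun _ : ℝ => (1 : ℝ))
          (MeasureTheory.volume.restrict (Set.Ioc (-c) c)) :=
        MeasureTheory.hasFiniteIntegral_const _
      have e2 := cfc_setIntegral (μ := MeasureTheory.volume) (s := Set.Ioc (-c) c)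
        measurableSet_Ioc TomL1_f (fun _ => (1 : ℝ)) R TomL1_f_cont.continuousOn hbd hfin hsa
      have hio := integrableOn_cfc (μ := MeasureTheory.volume) (s := Set.Ioc (-c) c)
        measurableSet_Ioc TomL1_f (fun _ => (1 : ℝ)) R TomL1_f_cont.continuousOn hbd hfin hsa
      have e3 : cfc (TomL1_F c) R = ∫ τ in Set.Ioc (-c) c, cfc (TomL1_f τ) R := by
        rw [← e2]
        refine cfc_congr fun s _ => ?_
        show TomL1_F c s = _
        unfold TomL1_F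
        rw [intervalIntegral.integral_of_le (by linarith)]
      have e4 : ∫ τ in (-c)..c, ⟪u, v τ⟫_ℂ = ⟪u, cfc (TomL1_F c) R w⟫_ℂ := by
        rw [intervalIntegral.integral_of_le (by linarith), e3]
        set L : (H →L[ℂ] H) →L[ℂ] ℂ := (innerSL ℂ u).comp (ContinuousLinearMap.apply ℂ H w)
          with hL
        have e5 := L.integral_comp_comm hio
        rw [show ⟪u, (∫ τ in Set.Ioc (-c) c, cfc (TomL1_f τ) R) w⟫_ℂ =
          L (∫ τ in Set.Ioc (-c) c, cfc (TomL1_f τ) R) from rfl, ← e5]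
        refine MeasureTheory.integral_congr_ae (Filter.Eventually.of_forall fun τ => ?_)
        show ⟪u, v τ⟫_ℂ = ⟪u, cfc (TomL1_f τ) R w⟫_ℂ
        rw [hvB]
      rw [e4, hE]
      show _ = _ + ⟪u, (cfc (fun s => TomL1_F c s - Real.pi) R) w⟫_ℂ
      rw [e1, sub_apply, inner_sub_right, smul_apply, inner_smul_right]
      show _ = _ + (_ - _ * ⟪u, w⟫_ℂ)
      ring
    have hdense : ∀ δ : ℝ, 0 < δ → ∃ u', ‖u - T (T u')‖ < δ := by
      intro δ hδ
      have h1 : (LinearMap.range ((T * T : H →L[ℂ] H) : H →ₗ[ℂ] H))ᗮ = ⊥ := by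
        rw [Submodule.eq_bot_iff]
        intro x hx
        rw [Submodule.mem_orthogonal] at hx
        refine hinj x (hinj _ ?_)
        have h3 := hx (T (T (T (T x)))) ⟨T (T x), rfl⟩
        have h4 : ⟪T (T (T (T x))), x⟫_ℂ = ⟪T (T x), T (T x)⟫_ℂ := by
          rw [hTT', hTT']
        rw [h4] at h3
        exact inner_self_eq_zero.mp h3
      have h2' := (Submodule.topologicalClosure_eq_top_iff).mpr h1
      have h3 : u ∈ (LinearMap.range ((T * T : H →L[ℂ] H) : H →ₗ[ℂ] H)).topologicalClosure := by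
        rw [h2']; trivial
      have h4 : u ∈ closure ((LinearMap.range ((T * T : H →L[ℂ] H) : H →ₗ[ℂ] H)) : Set H) := h3
      rw [Metric.mem_closure_iff] at h4
      obtain ⟨y, ⟨u', rfl⟩, hy⟩ := h4 δ hδ
      exact ⟨u', by rw [dist_eq_norm] at hy; exact hy⟩
    have hsmall : ∀ ε : ℝ, 0 < ε → ∃ c₀ : ℝ, ∀ c, c₀ ≤ c → 0 ≤ c → ‖T * T * E c‖ ≤ ε := by
      intro ε hε
      obtain ⟨c₀, hc₀⟩ := tendsto_integral_ker_unif hε
      refine ⟨c₀, fun c hc hc0 => ?_⟩
      have hTT : T * T * E c = cfc (fun s => (Real.sqrt (TomL1_k s * (2 - TomL1_k s)) *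
          Real.sqrt (TomL1_k s * (2 - TomL1_k s))) * (TomL1_F c s - Real.pi)) R := by
        rw [hT', hE, hmul _ _ hgc hgc]
        exact hmul _ _ (hgc.mul hgc) (hFc c)
      rw [hTT]
      refine norm_cfc_le hε.le fun s _ => ?_
      rw [hg2]
      have h3 := hc₀ c hc (TomL1_k s) ⟨TomL1_k0 s, TomL1_k2 s⟩
      have h4 := TomL1_Fpi c s
      have h5 : TomL1_F c s = ∫ τ in (-c)..c, ker (TomL1_k s) (2 - TomL1_k s) τ := rfl
      rw [← h5] at h3
      have h6 := mul_nonneg (TomL1_k0 s) (TomL1_k2' s)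
      rw [Real.norm_eq_abs, abs_mul, abs_of_nonneg h6, abs_of_nonpos (by linarith)]
      linarith
    rw [Metric.tendsto_atTop]
    intro ε hε
    obtain ⟨u', hu'⟩ := hdense (ε / (2 * (Real.pi * ‖w‖ + 1)))
      (by have := Real.pi_pos; positivity)
    obtain ⟨c₀, hc₀⟩ := hsmall (ε / (2 * (‖u'‖ * ‖w‖ + 1))) (by positivity)
    refine ⟨max c₀ 0, fun c hc => ?_⟩
    have hc1 := (le_max_left _ _).trans hc
    have hc2 := (le_max_right _ _).trans hc
    rw [hint c hc2, dist_eq_norm, add_sub_cancel_left]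
    have e1 : ⟪u, E c w⟫_ℂ = ⟪u - T (T u'), E c w⟫_ℂ + ⟪u', (T * T * E c) w⟫_ℂ := by
      have : ⟪u', (T * T * E c) w⟫_ℂ = ⟪T (T u'), E c w⟫_ℂ := by
        rw [hTT', hTT']
        rfl
      rw [this, ← inner_add_left, sub_add_cancel]
    rw [e1]
    refine lt_of_le_of_lt (norm_add_le _ _) ?_
    have b1 : ‖⟪u - T (T u'), E c w⟫_ℂ‖ ≤ ε / 2 := by
      refine (norm_inner_le_norm _ _).trans ?_
      have h3 : ‖E c w‖ ≤ Real.pi * ‖w‖ :=
        (le_opNorm _ _).trans (mul_le_mul_of_nonneg_right (hEn c hc2) (norm_nonneg _))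
      calc ‖u - T (T u')‖ * ‖E c w‖ ≤ (ε / (2 * (Real.pi * ‖w‖ + 1))) * (Real.pi * ‖w‖) :=
            mul_le_mul hu'.le h3 (norm_nonneg _) (by have := Real.pi_pos; positivity)
        _ ≤ ε / 2 := by
            have hp : 0 ≤ Real.pi * ‖w‖ := by have := Real.pi_pos; positivity
            rw [div_mul_eq_mul_div, div_le_div_iff₀ (by positivity) two_pos]
            nlinarith
    have b2 : ‖⟪u', (T * T * E c) w⟫_ℂ‖ < ε / 2 := by
      refine lt_of_le_of_lt (norm_inner_le_norm _ _) ?_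
      have h3 : ‖(T * T * E c) w‖ ≤ (ε / (2 * (‖u'‖ * ‖w‖ + 1))) * ‖w‖ :=
        (le_opNorm _ _).trans (mul_le_mul_of_nonneg_right (hc₀ c hc1 hc2) (norm_nonneg _))
      calc ‖u'‖ * ‖(T * T * E c) w‖ ≤ ‖u'‖ * ((ε / (2 * (‖u'‖ * ‖w‖ + 1))) * ‖w‖) :=
            mul_le_mul_of_nonneg_left h3 (norm_nonneg _)
        _ = ε * (‖u'‖ * ‖w‖) / (2 * (‖u'‖ * ‖w‖ + 1)) := by ring
        _ < ε / 2 := by
            have hp : 0 ≤ ‖u'‖ * ‖w‖ := by positivity
            rw [div_lt_div_iff₀ (by positivity) two_pos]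
            nlinarith
    linarith

end Pool.Agent.MP_86f3ed.Ty
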