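import Pool.Agent.H.MP_86f3ed_an.Ty.TomC

open scoped InnerProductSpace Topology
open Filter ContinuousLinearMap

namespace Pool.Agent.MP_86f3ed.Ty

open Pin

variable {H : Type*} [NormedAddCommGroup H] [InnerProductSpace ℂ H] [CompleteSpace H]

/-- A selfadjoint injective operator has dense range. -/
theorem L2_dense {W : H →L[ℂ] H} (hs : star W = W) (hinj : ∀ x, W x = 0 → x = 0) (u : H) {ε : ℝ}
    (hε : 0 < ε) : ∃ u', ‖u - W u'‖ < ε := by
  set K : Submodule ℂ H := LinearMap.range (W : H →ₗ[ℂ] H) with hK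
  have h1 : Kᗮ = ⊥ := by
    rw [Submodule.eq_bot_iff]
    intro x hx
    apply hinj
    have h2 : ⟪W (W x), x⟫_ℂ = 0 := by
      rw [Submodule.mem_orthogonal] at hx
      exact hx _ ⟨W x, rfl⟩
    have h3 : ⟪W x, W x⟫_ℂ = 0 := by
      have h4 : ⟪(adjoint W) (W x), x⟫_ℂ = ⟪W x, W x⟫_ℂ := adjoint_inner_left _ _ _
      rw [← star_eq_adjoint, hs, h2] at h4
      exact h4.symm
    exact inner_self_eq_zero.mp h3
  have h4 : K.topologicalClosure = ⊤ := (Submodule.topologicalClosure_eq_top_iff).mpr h1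
  have h5 : u ∈ closure (K : Set H) := by
    have : u ∈ K.topologicalClosure := h4 ▸ Submodule.mem_top
    exact this
  obtain ⟨w, ⟨u', rfl⟩, hw⟩ := Metric.mem_closure_iff.mp h5 ε hε
  exact ⟨u', by rw [← dist_eq_norm]; exact hw⟩

/-- The cut-off function. -/
noncomputable def L2_f (η s : ℝ) : ℝ := max 0 (min 1 (min ((s - η) / η) ((2 - η - s) / η)))

/-- The clamp. -/
noncomputable def L2_c (η s : ℝ) : ℝ := max η (min (2 - η) s)

/-- The quotient function. -/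
noncomputable def L2_g (η s : ℝ) : ℝ := (2 - L2_c η s) / L2_c η s

theorem L2_f_cont (η : ℝ) : Continuous (L2_f η) := by
  unfold L2_f
  fun_prop

theorem L2_f_nonneg (η s : ℝ) : 0 ≤ L2_f η s := le_max_left _ _

theorem L2_f_le (η s : ℝ) : L2_f η s ≤ 1 := max_le zero_le_one (min_le_left _ _)

theorem L2_f_zero {η s : ℝ} (hη : 0 < η) (h : s ≤ η ∨ 2 - η ≤ s) : L2_f η s = 0 := by
  unfold L2_f
  apply max_eq_left
  rcases h with h | h
  · refine (min_le_right _ _).trans ((min_le_left _ _).trans ?_)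
    exact div_nonpos_of_nonpos_of_nonneg (by linarith) hη.le
  · refine (min_le_right _ _).trans ((min_le_right _ _).trans ?_)
    exact div_nonpos_of_nonpos_of_nonneg (by linarith) hη.le

theorem L2_f_one {η s : ℝ} (hη : 0 < η) (h1 : 2 * η ≤ s) (h2 : s ≤ 2 - 2 * η) :
    L2_f η s = 1 := by
  unfold L2_f
  have h3 : (1 : ℝ) ≤ (s - η) / η := by rw [le_div_iff₀ hη]; linarith
  have h4 : (1 : ℝ) ≤ (2 - η - s) / η := by rw [le_div_iff₀ hη]; linarith
  rw [min_eq_left (le_min h3 h4)]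
  exact max_eq_right zero_le_one

theorem L2_c_cont (η : ℝ) : Continuous (L2_c η) := by
  unfold L2_c
  fun_prop

theorem L2_c_ge (η s : ℝ) : η ≤ L2_c η s := le_max_left _ _

theorem L2_c_le {η : ℝ} (hη : η ≤ 1) (s : ℝ) : L2_c η s ≤ 2 - η :=
  max_le (by linarith) (min_le_left _ _)

theorem L2_c_eq {η s : ℝ} (h1 : η ≤ s) (h2 : s ≤ 2 - η) : L2_c η s = s := by
  unfold L2_c
  rw [min_eq_right h2, max_eq_right h1]

theorem L2_g_cont {η : ℝ} (hη : 0 < η) : Continuous (L2_g η) := by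
  unfold L2_g
  exact (continuous_const.sub (L2_c_cont η)).div (L2_c_cont η)
    fun s => (lt_of_lt_of_le hη (L2_c_ge η s)).ne'

theorem L2_g_ge {η : ℝ} (hη : 0 < η) (hη1 : η ≤ 1) (s : ℝ) : η / 2 ≤ L2_g η s := by
  unfold L2_g
  have h1 := L2_c_ge η s
  have h2 := L2_c_le hη1 s
  rw [le_div_iff₀ (lt_of_lt_of_le hη h1)]
  nlinarith

theorem L2_gf {η : ℝ} (hη : 0 < η) (s : ℝ) : s * L2_g η s * L2_f η s = (2 - s) * L2_f η s := by
  by_cases h : s ≤ η ∨ 2 - η ≤ s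
  · rw [L2_f_zero hη h, mul_zero, mul_zero]
  · push Not at h
    have hs : 0 < s := hη.trans h.1
    unfold L2_g
    rw [L2_c_eq h.1.le h.2.le, mul_div_cancel₀ _ hs.ne']

theorem L2_gs {η : ℝ} (hη : 0 < η) (s : ℝ) :
    √(2 * s - s * s) * L2_f η s = s * √(L2_g η s) * L2_f η s := by
  by_cases h : s ≤ η ∨ 2 - η ≤ s
  · rw [L2_f_zero hη h, mul_zero, mul_zero]
  · push Not at h
    have hs : 0 < s := hη.trans h.1
    unfold L2_g
    rw [L2_c_eq h.1.le h.2.le]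
    congr 1
    have h1 : 2 * s - s * s = s ^ 2 * ((2 - s) / s) := by
      field_simp
    rw [h1, Real.sqrt_mul (sq_nonneg s), Real.sqrt_sq hs.le]

theorem L2_ff {η s : ℝ} (hη : 0 < η) (h0 : 0 ≤ s) (h2 : s ≤ 2) :
    |(1 - L2_f η s) * (s * (2 - s))| ≤ 4 * η := by
  have h3 := L2_f_nonneg η s
  have h4 := L2_f_le η s
  have h5 : 0 ≤ s * (2 - s) := mul_nonneg h0 (by linarith)
  rw [abs_of_nonneg (mul_nonneg (by linarith) h5)]
  by_cases h6 : 2 * η ≤ s ∧ s ≤ 2 - 2 * η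
  · rw [L2_f_one hη h6.1 h6.2, sub_self, zero_mul]
    linarith
  · have h7 : s * (2 - s) ≤ 4 * η := by
      by_cases h8 : 2 * η ≤ s
      · have h9 : 2 - 2 * η < s := by
          by_contra h10
          exact h6 ⟨h8, by linarith⟩
        nlinarith
      · push Not at h8
        nlinarith
    calc (1 - L2_f η s) * (s * (2 - s)) ≤ 1 * (s * (2 - s)) :=
          mul_le_mul_of_nonneg_right (by linarith) h5
      _ ≤ 4 * η := by linarith

section cf

variable {R : H →L[ℂ] H} (hR : star R = R) (h0 : ∀ x, 0 ≤ (⟪x, R x⟫_ℂ).re)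
    (h2 : ∀ x, (⟪x, R x⟫_ℂ).re ≤ 2 * ‖x‖ ^ 2)

include hR h0 in
theorem L2_pos : 0 ≤ R := by
  rw [ContinuousLinearMap.nonneg_iff_isPositive, ContinuousLinearMap.isPositive_def']
  refine ⟨hR, fun x => ?_⟩
  rw [reApplyInnerSelf_apply, inner_re_symm]
  exact h0 x

include hR h2 in
theorem L2_pos2 : 0 ≤ (2 : ℂ) • (1 : H →L[ℂ] H) - R := by
  refine L2_pos (by rw [star_sub, star_smul, star_one, hR]; simp) fun x => ?_
  have h3 : ((2 : ℂ) • (1 : H →L[ℂ] H) - R) x = (2 : ℂ) • x - R x := rfl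
  rw [h3, inner_sub_right, inner_smul_right, Complex.sub_re, inner_self_eq_norm_sq_to_K]
  have h4 : (((2 : ℂ) * ((‖x‖ : ℝ) : ℂ) ^ 2)).re = 2 * ‖x‖ ^ 2 := by
    have : ((2 : ℂ) * ((‖x‖ : ℝ) : ℂ) ^ 2) = ((2 * ‖x‖ ^ 2 : ℝ) : ℂ) := by push_cast; rfl
    rw [this, Complex.ofReal_re]
  have h5 := h2 x
  have h6 : ((2 : ℂ) * ((‖x‖ : ℂ)) ^ 2).re = 2 * ‖x‖ ^ 2 := h4
  rw [show ((2 : ℂ) * (RCLike.ofReal ‖x‖ : ℂ) ^ 2).re = 2 * ‖x‖ ^ 2 from h4]
  linarith

include hR h0 h2 in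
theorem L2_spec {s : ℝ} (hs : s ∈ spectrum ℝ R) : 0 ≤ s ∧ s ≤ 2 := by
  have hsa : IsSelfAdjoint R := hR
  refine ⟨spectrum_nonneg_of_nonneg (L2_pos hR h0) hs, ?_⟩
  have h3 : R ≤ algebraMap ℝ (H →L[ℂ] H) 2 := by
    have h4 := L2_pos2 hR h2
    rw [sub_nonneg] at h4
    have h5 : (2 : ℂ) • (1 : H →L[ℂ] H) = algebraMap ℝ (H →L[ℂ] H) 2 := by
      rw [Algebra.algebraMap_eq_smul_one, two_smul, two_smul]
    rwa [h5] at h4
  exact (le_algebraMap_iff_spectrum_le hsa).mp h3 s hs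

include hR in
theorem L2_two : (2 : ℂ) • (1 : H →L[ℂ] H) - R = cfc (fun s : ℝ => 2 - s) R := by
  have hsa : IsSelfAdjoint R := hR
  rw [cfc_sub (fun _ => (2 : ℝ)) (fun s => s) R, cfc_const (2 : ℝ) R, cfc_id' ℝ R, Algebra.algebraMap_eq_smul_one,
    two_smul, two_smul]

include hR in
theorem L2_quad : (2 : ℂ) • R - R * R = cfc (fun s : ℝ => 2 * s - s * s) R := by
  have hsa : IsSelfAdjoint R := hR
  rw [cfc_sub (fun s : ℝ => 2 * s) (fun s => s * s) R, cfc_mul (fun s : ℝ => s) (fun s => s) R,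
    cfc_const_mul (2 : ℝ) (fun s => s) R, cfc_id' ℝ R, two_smul, two_smul]

theorem L2_sqrt {R : H →L[ℂ] H} {f : ℝ → ℝ} (hf : Continuous f)
    (h : ∀ s ∈ spectrum ℝ R, 0 ≤ f s) :
    CFC.sqrt (cfc f R) = cfc (fun s => √(f s)) R := by
  refine CFC.sqrt_unique ?_ (cfc_nonneg fun s _ => Real.sqrt_nonneg _)
  rw [← cfc_mul (fun s => √(f s)) (fun s => √(f s)) R (by fun_prop) (by fun_prop)]
  exact cfc_congr fun s hs => Real.mul_self_sqrt (h s hs)

end cf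

/-- Cut-offs for two vectors. -/
theorem L2_cut {R : H →L[ℂ] H} (hR : star R = R) (h0 : ∀ x, 0 ≤ (⟪x, R x⟫_ℂ).re)
    (h2 : ∀ x, (⟪x, R x⟫_ℂ).re ≤ 2 * ‖x‖ ^ 2) (hinj : ∀ x, R x = 0 → x = 0)
    (hinj2 : ∀ x, R x = (2 : ℂ) • x → x = 0) (u v : H) {ε : ℝ} (hε : 0 < ε) :
    ∃ (F g : H →L[ℂ] H) (δ : ℝ), 0 < δ ∧ star F = F ∧ ‖F‖ ≤ 1 ∧ ‖u - F u‖ ≤ ε ∧ ‖v - F v‖ ≤ ε ∧
      (∀ a : H →L[ℂ] H, a * R = R * a → a * F = F * a) ∧
      (∀ a : H →L[ℂ] H, a * R = R * a → a * g = g * a) ∧ star g = g ∧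
      (∀ x, δ * ‖x‖ ^ 2 ≤ (⟪x, g x⟫_ℂ).re) ∧ R * g * F = ((2 : ℂ) • 1 - R) * F ∧
      CFC.sqrt ((2 : ℂ) • R - R * R) * F = R * CFC.sqrt g * F := by
  have hsa : IsSelfAdjoint R := hR
  set W : H →L[ℂ] H := R * ((2 : ℂ) • 1 - R) with hW
  have hWc : W = cfc (fun s : ℝ => s * (2 - s)) R := by
    rw [hW, L2_two hR, cfc_mul (fun s : ℝ => s) (fun s => 2 - s) R, cfc_id' ℝ R]
  have hcs : ∀ f : ℝ → ℝ, star (cfc f R) = cfc f R := fun f =>
    (cfc_predicate f R : IsSelfAdjoint (cfc f R))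
  have hWs : star W = W := by
    rw [hWc]
    exact hcs _
  have hWi : ∀ x, W x = 0 → x = 0 := by
    intro x hx
    have h3 : (2 : ℂ) • x - R x = 0 := hinj _ hx
    refine hinj2 x ?_
    rw [sub_eq_zero] at h3
    exact h3.symm
  obtain ⟨u', hu⟩ := L2_dense hWs hWi u (half_pos hε)
  obtain ⟨v', hv⟩ := L2_dense hWs hWi v (half_pos hε)
  set D : ℝ := ‖u'‖ + ‖v'‖ + 1 with hD
  have hD0 : 0 < D := by positivity
  set η : ℝ := min 1 (ε / (8 * D)) with hη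
  have hη0 : 0 < η := lt_min one_pos (by positivity)
  have hη1 : η ≤ 1 := min_le_left _ _
  have hη2 : 4 * η * D ≤ ε / 2 := by
    have h3 : η ≤ ε / (8 * D) := min_le_right _ _
    rw [le_div_iff₀ (by positivity)] at h3
    linarith
  have hfc := L2_f_cont η
  have hgc := L2_g_cont hη0
  set F : H →L[ℂ] H := cfc (L2_f η) R with hF
  set g : H →L[ℂ] H := cfc (L2_g η) R with hg
  have hFF : (1 - F) * W = cfc (fun s : ℝ => (1 - L2_f η s) * (s * (2 - s))) R := by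
    rw [hWc, hF, cfc_mul (fun s : ℝ => 1 - L2_f η s) (fun s => s * (2 - s)) R (by fun_prop)
      (by fun_prop), cfc_sub (fun _ => (1 : ℝ)) (L2_f η) R (by fun_prop) (by fun_prop),
      cfc_const_one ℝ R]
  have hFn : ‖(1 - F) * W‖ ≤ 4 * η := by
    rw [hFF]
    refine norm_cfc_le (by positivity) fun s hs => ?_
    rw [Real.norm_eq_abs]
    exact L2_ff hη0 (L2_spec hR h0 h2 hs).1 (L2_spec hR h0 h2 hs).2
  have hF1 : ‖1 - F‖ ≤ 1 := by
    have h3 : 1 - F = cfc (fun s : ℝ => 1 - L2_f η s) R := by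
      rw [cfc_sub (fun _ => (1 : ℝ)) (L2_f η) R (by fun_prop) (by fun_prop), cfc_const_one ℝ R]
    rw [h3]
    refine norm_cfc_le zero_le_one fun s _ => ?_
    rw [Real.norm_eq_abs, abs_le]
    have := L2_f_nonneg η s
    have := L2_f_le η s
    constructor <;> linarith
  have happ : ∀ x x' : H, ‖x - W x'‖ < ε / 2 → ‖x'‖ ≤ D → ‖x - F x‖ ≤ ε := by
    intro x x' hx hx'
    have h3 : x - F x = (1 - F) (x - W x') + ((1 - F) * W) x' := by
      show x - F x = ((x - W x') - F (x - W x')) + (W x' - F (W x'))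
      rw [map_sub]
      abel
    rw [h3]
    calc ‖(1 - F) (x - W x') + ((1 - F) * W) x'‖
        ≤ ‖(1 - F) (x - W x')‖ + ‖((1 - F) * W) x'‖ := norm_add_le _ _
      _ ≤ ‖1 - F‖ * ‖x - W x'‖ + ‖(1 - F) * W‖ * ‖x'‖ := add_le_add (le_opNorm _ _) (le_opNorm _ _)
      _ ≤ 1 * (ε / 2) + 4 * η * D := by
          refine add_le_add (mul_le_mul hF1 hx.le (norm_nonneg _) zero_le_one)
            (mul_le_mul hFn hx' (norm_nonneg _) (by positivity))
      _ ≤ ε := by linarith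
  refine ⟨F, g, η / 2, half_pos hη0, hcs _, ?_, happ u u' hu ?_, happ v v' hv ?_, ?_, ?_,
    hcs _, ?_, ?_, ?_⟩
  · refine norm_cfc_le zero_le_one fun s _ => ?_
    rw [Real.norm_eq_abs, abs_of_nonneg (L2_f_nonneg η s)]
    exact L2_f_le η s
  · rw [hD]
    linarith [norm_nonneg v']
  · rw [hD]
    linarith [norm_nonneg u']
  · intro a ha
    have h3 : Commute R a := ha.symm
    exact (h3.cfc_real (L2_f η)).eq.symm
  · intro a ha
    have h3 : Commute R a := ha.symm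
    exact (h3.cfc_real (L2_g η)).eq.symm
  · intro x
    have h3 : 0 ≤ g - algebraMap ℝ (H →L[ℂ] H) (η / 2) := by
      rw [hg, ← cfc_const (η / 2) R, ← cfc_sub (L2_g η) (fun _ => η / 2) R (by fun_prop)
        (by fun_prop)]
      exact cfc_nonneg fun s _ => sub_nonneg.mpr (L2_g_ge hη0 hη1 s)
    rw [ContinuousLinearMap.nonneg_iff_isPositive] at h3
    have h4 := h3.re_inner_nonneg_right x
    have h5 : (g - algebraMap ℝ (H →L[ℂ] H) (η / 2)) x = g x - ((η / 2 : ℝ) : ℂ) • x := by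
      rw [Algebra.algebraMap_eq_smul_one]
      rfl
    rw [h5, inner_sub_right, inner_smul_right, map_sub, inner_self_eq_norm_sq_to_K] at h4
    have h6 : RCLike.re ((((η / 2 : ℝ)) : ℂ) * ((‖x‖ : ℝ) : ℂ) ^ 2) = η / 2 * ‖x‖ ^ 2 := by
      have : ((((η / 2 : ℝ)) : ℂ) * ((‖x‖ : ℝ) : ℂ) ^ 2) = ((η / 2 * ‖x‖ ^ 2 : ℝ) : ℂ) := by
        push_cast; rfl
      rw [this]
      exact Complex.ofReal_re _
    have h7 : RCLike.re ((((η / 2 : ℝ)) : ℂ) * (RCLike.ofReal ‖x‖ : ℂ) ^ 2) = η / 2 * ‖x‖ ^ 2 := h6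
    rw [h7] at h4
    have h8 : RCLike.re ⟪x, g x⟫_ℂ = (⟪x, g x⟫_ℂ).re := rfl
    rw [h8] at h4
    linarith
  · rw [L2_two hR]
    have h3 : R * g * F = cfc (fun s : ℝ => s * L2_g η s * L2_f η s) R := by
      rw [cfc_mul (fun s : ℝ => s * L2_g η s) (L2_f η) R (by fun_prop) (by fun_prop),
        cfc_mul (fun s : ℝ => s) (L2_g η) R (by fun_prop) (by fun_prop), cfc_id' ℝ R]
    rw [h3, hF, ← cfc_mul (fun s : ℝ => 2 - s) (L2_f η) R (by fun_prop) (by fun_prop)]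
    exact cfc_congr fun s _ => L2_gf hη0 s
  · have h3 : CFC.sqrt ((2 : ℂ) • R - R * R) = cfc (fun s : ℝ => √(2 * s - s * s)) R := by
      rw [L2_quad hR, L2_sqrt (by fun_prop)]
      intro s hs
      have h4 := L2_spec hR h0 h2 hs
      nlinarith [h4.1, h4.2]
    have h5 : CFC.sqrt g = cfc (fun s : ℝ => √(L2_g η s)) R := by
      rw [hg, L2_sqrt hgc]
      intro s _
      exact (by positivity : 0 ≤ η / 2).trans (L2_g_ge hη0 hη1 s)
    have h6 : R * cfc (fun s : ℝ => √(L2_g η s)) R * F =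
        cfc (fun s : ℝ => s * √(L2_g η s) * L2_f η s) R := by
      rw [cfc_mul (fun s : ℝ => s * √(L2_g η s)) (L2_f η) R (by fun_prop) (by fun_prop),
        cfc_mul (fun s : ℝ => s) (fun s => √(L2_g η s)) R (by fun_prop) (by fun_prop), cfc_id' ℝ R]
    rw [h3, h5, h6, hF, ← cfc_mul (fun s : ℝ => √(2 * s - s * s)) (L2_f η) R (by fun_prop)
      (by fun_prop)]
    exact cfc_congr fun s _ => L2_gs hη0 s

/-- Cut-offs commuting with `R`. -/
theorem exists_cut {R : H →L[ℂ] H} (hR : star R = R) (h0 : ∀ x, 0 ≤ (⟪x, R x⟫_ℂ).re)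
    (h2 : ∀ x, (⟪x, R x⟫_ℂ).re ≤ 2 * ‖x‖ ^ 2) (hinj : ∀ x, R x = 0 → x = 0)
    (hinj2 : ∀ x, R x = (2 : ℂ) • x → x = 0) (u : H) {ε : ℝ} (hε : 0 < ε) :
    ∃ (F g : H →L[ℂ] H) (δ : ℝ), 0 < δ ∧ star F = F ∧ ‖F‖ ≤ 1 ∧ ‖u - F u‖ ≤ ε ∧
      (∀ a : H →L[ℂ] H, a * R = R * a → a * F = F * a) ∧
      (∀ a : H →L[ℂ] H, a * R = R * a → a * g = g * a) ∧ star g = g ∧
      (∀ x, δ * ‖x‖ ^ 2 ≤ (⟪x, g x⟫_ℂ).re) ∧ R * g * F = ((2 : ℂ) • 1 - R) * F ∧
      CFC.sqrt ((2 : ℂ) • R - R * R) * F = R * CFC.sqrt g * F := by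
  obtain ⟨F, g, δ, h1, h3, h4, h5, -, h6⟩ := L2_cut hR h0 h2 hinj hinj2 u u hε
  exact ⟨F, g, δ, h1, h3, h4, h5, h6⟩

/-- Cancellation of an injective selfadjoint operator on both sides. -/
theorem L2_cancel {R Z : H →L[ℂ] H} (hR : star R = R) (hinj : ∀ x, R x = 0 → x = 0)
    (h : R * Z * R = 0) : Z = 0 := by
  have h1 : Z * R = 0 := by
    ext x
    have h2 : R (Z (R x)) = 0 := congrArg (fun S : H →L[ℂ] H => S x) h
    exact hinj _ h2
  have h3 : R * star Z = 0 := by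
    have h4 := congrArg star h1
    rwa [star_mul, star_zero, hR] at h4
  have h5 : star Z = 0 := by
    ext x
    have h6 : R ((star Z) x) = 0 := congrArg (fun S : H →L[ℂ] H => S x) h3
    exact hinj _ h6
  rw [← star_star Z, h5, star_zero]

/-- The equation for the truncated family. -/
theorem L2_eq {R T X F g q x E : H →L[ℂ] H} {p r : ℂ} (hR : star R = R)
    (hinj : ∀ x, R x = 0 → x = 0) (hT : star T = T) (hF : star F = F) (hg : star g = g)
    (hq : star q = q) (hE : star E = E) (hFR : R * F = F * R) (hEF : E * F = F * E)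
    (hTF : T * F = F * T) (e1 : R * g * F = E * F) (e2 : T * F = R * q * F)
    (hx : p • (R * x * E) + r • (E * x * R) = (2 : ℂ) • (T * X * T)) :
    p • (F * x * F * g) + r • (g * (F * x * F)) = (2 : ℂ) • (q * (F * X * F) * q) := by
  have e1' : F * g * R = F * E := by
    have h := congrArg star e1
    rw [star_mul, star_mul, star_mul, hR, hg, hF, hE] at h
    rw [mul_assoc]
    exact h
  have e2' : F * q * R = F * T := by
    have h := congrArg star e2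
    rw [star_mul, star_mul, star_mul, hR, hq, hF, hT] at h
    rw [mul_assoc]
    exact h.symm
  rw [← sub_eq_zero]
  refine L2_cancel hR hinj ?_
  have k1 : R * (F * x * F * g) * R = F * (R * x * E) * F := by
    calc R * (F * x * F * g) * R = (R * F) * x * (F * g * R) := by simp only [mul_assoc]
      _ = (F * R) * x * (E * F) := by rw [hFR, e1', hEF]
      _ = F * (R * x * E) * F := by simp only [mul_assoc]
  have k2 : R * (g * (F * x * F)) * R = F * (E * x * R) * F := by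
    calc R * (g * (F * x * F)) * R = (R * g * F) * x * (F * R) := by simp only [mul_assoc]
      _ = (F * E) * x * (R * F) := by rw [e1, hEF, hFR]
      _ = F * (E * x * R) * F := by simp only [mul_assoc]
  have k3 : R * (q * (F * X * F) * q) * R = F * (T * X * T) * F := by
    calc R * (q * (F * X * F) * q) * R = (R * q * F) * X * (F * q * R) := by
          simp only [mul_assoc]
      _ = (F * T) * X * (T * F) := by rw [← e2, e2', hTF]
      _ = F * (T * X * T) * F := by simp only [mul_assoc]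
  have k4 : R * (p • (F * x * F * g) + r • (g * (F * x * F)) -
      (2 : ℂ) • (q * (F * X * F) * q)) * R = F * (p • (R * x * E) + r • (E * x * R) -
      (2 : ℂ) • (T * X * T)) * F := by
    rw [mul_sub, mul_add, sub_mul, add_mul, mul_smul_comm, mul_smul_comm, mul_smul_comm,
      smul_mul_assoc, smul_mul_assoc, smul_mul_assoc, k1, k2, k3, mul_sub, mul_add, sub_mul,
      add_mul, mul_smul_comm, mul_smul_comm, mul_smul_comm, smul_mul_assoc, smul_mul_assoc,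
      smul_mul_assoc]
  rw [k4, hx, sub_self, mul_zero, zero_mul]

/-- The decay. -/
theorem L2_decay {R T X E x : H →L[ℂ] H} {τ C : ℝ} (hC : ‖x‖ ≤ C) (hTT : T * T = R * E)
    (hRE : R * E = E * R)
    (hx : (Real.exp τ : ℂ) • (R * x * E) + (Real.exp (-τ) : ℂ) • (E * x * R) =
      (2 : ℂ) • (T * X * T)) :
    ‖T * T * x * (T * T)‖ ≤ 2 * (‖E‖ * ‖R‖ * (2 * ‖T * X * T‖ + ‖E‖ * ‖R‖ * C)) *
      (1 / (Real.exp τ + Real.exp (-τ))) := by
  set D : ℝ := 2 * ‖T * X * T‖ + ‖E‖ * ‖R‖ * C with hD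
  have hC0 : 0 ≤ C := (norm_nonneg _).trans hC
  have hD0 : 0 ≤ D := by positivity
  have ha := Real.exp_pos τ
  have hb := Real.exp_pos (-τ)
  have hab : Real.exp τ * Real.exp (-τ) = 1 := by rw [← Real.exp_add]; simp
  have g1 : T * T * x * (T * T) = E * (R * x * E) * R := by
    calc T * T * x * (T * T) = (E * R) * x * (E * R) := by rw [hTT, hRE]
      _ = _ := by simp only [mul_assoc]
  have g2 : T * T * x * (T * T) = R * (E * x * R) * E := by
    calc T * T * x * (T * T) = (R * E) * x * (R * E) := by rw [hTT]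
      _ = _ := by simp only [mul_assoc]
  have n1 : ‖R * x * E‖ ≤ ‖E‖ * ‖R‖ * C := by
    calc ‖R * x * E‖ ≤ ‖R‖ * ‖x‖ * ‖E‖ := (norm_mul_le _ _).trans
          (mul_le_mul_of_nonneg_right (norm_mul_le _ _) (norm_nonneg _))
      _ ≤ ‖R‖ * C * ‖E‖ := by gcongr
      _ = _ := by ring
  have n2 : ‖E * x * R‖ ≤ ‖E‖ * ‖R‖ * C := by
    calc ‖E * x * R‖ ≤ ‖E‖ * ‖x‖ * ‖R‖ := (norm_mul_le _ _).trans
          (mul_le_mul_of_nonneg_right (norm_mul_le _ _) (norm_nonneg _))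
      _ ≤ ‖E‖ * C * ‖R‖ := by gcongr
      _ = _ := by ring
  have nn : ∀ {r : ℝ} (_ : 0 ≤ r) (Z : H →L[ℂ] H), ‖(r : ℂ) • Z‖ = r * ‖Z‖ := by
    intro r hr Z
    rw [norm_smul, Complex.norm_real, Real.norm_of_nonneg hr]
  have n3 : Real.exp τ * ‖R * x * E‖ ≤ 2 * ‖T * X * T‖ + Real.exp (-τ) * ‖E * x * R‖ := by
    rw [← nn ha.le, ← nn hb.le, eq_sub_of_add_eq hx]
    refine (norm_sub_le _ _).trans ?_
    have h3 : ‖(2 : ℂ) • (T * X * T)‖ ≤ 2 * ‖T * X * T‖ := by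
      refine (norm_smul_le _ _).trans ?_
      simp
    linarith
  have n4 : Real.exp (-τ) * ‖E * x * R‖ ≤ 2 * ‖T * X * T‖ + Real.exp τ * ‖R * x * E‖ := by
    rw [← nn ha.le, ← nn hb.le, eq_sub_of_add_eq' hx]
    refine (norm_sub_le _ _).trans ?_
    have h3 : ‖(2 : ℂ) • (T * X * T)‖ ≤ 2 * ‖T * X * T‖ := by
      refine (norm_smul_le _ _).trans ?_
      simp
    linarith
  rw [mul_one_div, le_div_iff₀ (by positivity)]
  rcases le_total 0 τ with h | h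
  · have hb1 : Real.exp (-τ) ≤ 1 := by rw [Real.exp_le_one_iff]; linarith
    have m1 : Real.exp τ * ‖R * x * E‖ ≤ D := by
      refine n3.trans (add_le_add le_rfl ?_)
      calc Real.exp (-τ) * ‖E * x * R‖ ≤ 1 * ‖E * x * R‖ :=
            mul_le_mul_of_nonneg_right hb1 (norm_nonneg _)
        _ ≤ _ := by rw [one_mul]; exact n2
    have m2 : (Real.exp τ + Real.exp (-τ)) * ‖R * x * E‖ ≤ 2 * D := by
      have : Real.exp (-τ) ≤ Real.exp τ := Real.exp_le_exp.mpr (by linarith)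
      have := mul_le_mul_of_nonneg_right this (norm_nonneg (R * x * E))
      linarith
    calc ‖T * T * x * (T * T)‖ * (Real.exp τ + Real.exp (-τ))
        ≤ (‖E‖ * ‖R * x * E‖ * ‖R‖) * (Real.exp τ + Real.exp (-τ)) := by
          refine mul_le_mul_of_nonneg_right ?_ (by positivity)
          rw [g1]
          exact (norm_mul_le _ _).trans
            (mul_le_mul_of_nonneg_right (norm_mul_le _ _) (norm_nonneg _))
      _ = (‖E‖ * ‖R‖) * ((Real.exp τ + Real.exp (-τ)) * ‖R * x * E‖) := by ring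
      _ ≤ (‖E‖ * ‖R‖) * (2 * D) := mul_le_mul_of_nonneg_left m2 (by positivity)
      _ = _ := by ring
  · have hb1 : Real.exp τ ≤ 1 := by rw [Real.exp_le_one_iff]; linarith
    have m1 : Real.exp (-τ) * ‖E * x * R‖ ≤ D := by
      refine n4.trans (add_le_add le_rfl ?_)
      calc Real.exp τ * ‖R * x * E‖ ≤ 1 * ‖R * x * E‖ :=
            mul_le_mul_of_nonneg_right hb1 (norm_nonneg _)
        _ ≤ _ := by rw [one_mul]; exact n1
    have m2 : (Real.exp τ + Real.exp (-τ)) * ‖E * x * R‖ ≤ 2 * D := by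
      have : Real.exp τ ≤ Real.exp (-τ) := Real.exp_le_exp.mpr (by linarith)
      have := mul_le_mul_of_nonneg_right this (norm_nonneg (E * x * R))
      linarith
    calc ‖T * T * x * (T * T)‖ * (Real.exp τ + Real.exp (-τ))
        ≤ (‖R‖ * ‖E * x * R‖ * ‖E‖) * (Real.exp τ + Real.exp (-τ)) := by
          refine mul_le_mul_of_nonneg_right ?_ (by positivity)
          rw [g2]
          exact (norm_mul_le _ _).trans
            (mul_le_mul_of_nonneg_right (norm_mul_le _ _) (norm_nonneg _))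
      _ = (‖E‖ * ‖R‖) * ((Real.exp τ + Real.exp (-τ)) * ‖E * x * R‖) := by ring
      _ ≤ (‖E‖ * ‖R‖) * (2 * D) := mul_le_mul_of_nonneg_left m2 (by positivity)
      _ = _ := by ring

/-- Limits of approximations. -/
theorem L2_lim (φ : ℝ → ℂ) (L : ℂ)
    (h : ∀ ε : ℝ, 0 < ε → ∃ (ψ : ℝ → ℂ) (M : ℂ), Continuous ψ ∧
      Tendsto (fun c : ℝ => ∫ τ in (-c)..c, ψ τ) atTop (𝓝 M) ∧
      (∀ τ, ‖φ τ - ψ τ‖ ≤ ε * (1 / (Real.exp τ + Real.exp (-τ)))) ∧ ‖L - M‖ ≤ ε) :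
    Continuous φ ∧ Tendsto (fun c : ℝ => ∫ τ in (-c)..c, φ τ) atTop (𝓝 L) := by
  have hw1 : ∀ τ : ℝ, 1 / (Real.exp τ + Real.exp (-τ)) ≤ 1 := by
    intro τ
    have ha := Real.exp_pos τ
    have hb := Real.exp_pos (-τ)
    rw [div_le_one (by positivity)]
    rcases le_total 0 τ with h | h
    · have := Real.one_le_exp h
      linarith
    · have := Real.one_le_exp (neg_nonneg.mpr h)
      linarith
  have hφ : Continuous φ := by
    refine continuous_of_uniform_approx_of_continuous fun U hU => ?_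
    obtain ⟨ε, hε, hεU⟩ := Metric.mem_uniformity_dist.mp hU
    obtain ⟨ψ, M, hψ, -, h3, -⟩ := h (ε / 2) (half_pos hε)
    refine ⟨ψ, hψ, fun τ => hεU ?_⟩
    rw [dist_eq_norm]
    have h4 := mul_le_mul_of_nonneg_left (hw1 τ) (half_pos hε).le
    linarith [h3 τ]
  refine ⟨hφ, ?_⟩
  rw [Metric.tendsto_atTop]
  intro ε hε
  have hπ := Real.pi_pos
  set ε' : ℝ := ε / (2 * (Real.pi + 2)) with hε'
  have hε'0 : 0 < ε' := by positivity
  obtain ⟨ψ, M, hψ, hM, h3, h4⟩ := h ε' hε'0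
  rw [Metric.tendsto_atTop] at hM
  obtain ⟨N, hN⟩ := hM ε' hε'0
  refine ⟨max N 0, fun c hc => ?_⟩
  have hc0 : 0 ≤ c := (le_max_right _ _).trans hc
  have hcN : N ≤ c := (le_max_left _ _).trans hc
  have h5 := hN c hcN
  rw [dist_eq_norm] at h5 ⊢
  have h6 : ‖∫ τ in (-c)..c, (φ τ - ψ τ)‖ ≤ ε' * Real.pi := by
    have h7 : ‖∫ τ in (-c)..c, (φ τ - ψ τ)‖ ≤
        ∫ τ in (-c)..c, ε' * (1 / (Real.exp τ + Real.exp (-τ))) := by
      refine intervalIntegral.norm_integral_le_of_norm_le (by linarith)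
        (Eventually.of_forall fun τ _ => h3 τ) ?_
      exact ((integrable_weight.const_mul ε').intervalIntegrable)
    rw [intervalIntegral.integral_const_mul] at h7
    exact h7.trans (mul_le_mul_of_nonneg_left (integral_weight_le c hc0) hε'0.le)
  have h8 : ∫ τ in (-c)..c, (φ τ - ψ τ) = (∫ τ in (-c)..c, φ τ) - ∫ τ in (-c)..c, ψ τ :=
    intervalIntegral.integral_sub (hφ.intervalIntegrable _ _) (hψ.intervalIntegrable _ _)
  have h9 : (∫ τ in (-c)..c, φ τ) - L = (∫ τ in (-c)..c, (φ τ - ψ τ)) +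
      ((∫ τ in (-c)..c, ψ τ) - M) - (L - M) := by
    rw [h8]
    ring
  rw [h9]
  have h10 : ‖(∫ τ in (-c)..c, (φ τ - ψ τ)) + ((∫ τ in (-c)..c, ψ τ) - M) - (L - M)‖ ≤
      ε' * Real.pi + ε' + ε' :=
    (norm_sub_le _ _).trans (add_le_add ((norm_add_le _ _).trans (add_le_add h6 h5.le)) h4)
  have h11 : ε' * Real.pi + ε' + ε' = ε / 2 := by
    rw [hε']
    field_simp
    ring
  linarith

/-- The operator form of the integral formula. -/
theorem lim_op {R T X : H →L[ℂ] H} (hR : star R = R) (h0 : ∀ x, 0 ≤ (⟪x, R x⟫_ℂ).re)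
    (h2 : ∀ x, (⟪x, R x⟫_ℂ).re ≤ 2 * ‖x‖ ^ 2) (hinj : ∀ x, R x = 0 → x = 0)
    (hinj2 : ∀ x, R x = (2 : ℂ) • x → x = 0) (hT : T = CFC.sqrt ((2 : ℂ) • R - R * R))
    (x : ℝ → H →L[ℂ] H) {C : ℝ} (hC : ∀ τ, ‖x τ‖ ≤ C)
    (hx : ∀ τ : ℝ, (Real.exp τ : ℂ) • (R * x τ * ((2 : ℂ) • 1 - R)) +
      (Real.exp (-τ) : ℂ) • (((2 : ℂ) • 1 - R) * x τ * R) = (2 : ℂ) • (T * X * T)) (u v : H) :
    Continuous (fun τ => ⟪T (T u), x τ (T (T v))⟫_ℂ) ∧
      Tendsto (fun c : ℝ => ∫ τ in (-c)..c, ⟪T (T u), x τ (T (T v))⟫_ℂ) atTop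
        (𝓝 (Real.pi * ⟪T (T u), X (T (T v))⟫_ℂ)) := by
  set E : H →L[ℂ] H := (2 : ℂ) • 1 - R with hE
  have hsa : IsSelfAdjoint R := hR
  have hcs : ∀ f : ℝ → ℝ, star (cfc f R) = cfc f R := fun f =>
    (cfc_predicate f R : IsSelfAdjoint (cfc f R))
  have hspec : ∀ s ∈ spectrum ℝ R, 0 ≤ 2 * s - s * s := by
    intro s hs
    have h4 := L2_spec hR h0 h2 hs
    nlinarith [h4.1, h4.2]
  have hTc : T = cfc (fun s : ℝ => √(2 * s - s * s)) R := by
    rw [hT, L2_quad hR, L2_sqrt (by fun_prop) hspec]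
  have hTs : star T = T := by
    rw [hTc]
    exact hcs _
  have hEc : E = cfc (fun s : ℝ => 2 - s) R := L2_two hR
  have hEs : star E = E := by
    rw [hEc]
    exact hcs _
  have hTT : T * T = R * E := by
    rw [hTc, ← cfc_mul (fun s : ℝ => √(2 * s - s * s)) (fun s : ℝ => √(2 * s - s * s)) R
      (by fun_prop) (by fun_prop), hEc]
    have h3 : R * cfc (fun s : ℝ => 2 - s) R = cfc (fun s : ℝ => s * (2 - s)) R := by
      rw [cfc_mul (fun s : ℝ => s) (fun s => 2 - s) R, cfc_id' ℝ R]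
    rw [h3]
    refine cfc_congr fun s hs => ?_
    show √(2 * s - s * s) * √(2 * s - s * s) = s * (2 - s)
    rw [Real.mul_self_sqrt (hspec s hs)]
    ring
  have hRE : R * E = E * R := by
    rw [hE, mul_sub, sub_mul]
    simp
  have hTR : T * R = R * T := by
    rw [hTc]
    exact ((Commute.refl R).cfc_real _).eq
  set D : ℝ := 2 * (‖E‖ * ‖R‖ * (2 * ‖T * X * T‖ + ‖E‖ * ‖R‖ * C)) with hD
  have hdec : ∀ τ, ‖T * T * x τ * (T * T)‖ ≤ D * (1 / (Real.exp τ + Real.exp (-τ))) :=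
    fun τ => L2_decay (hC τ) hTT hRE (hx τ)
  have hC0 : 0 ≤ C := (norm_nonneg _).trans (hC 0)
  have hD0 : 0 ≤ D := by positivity
  have hin : ∀ (Z : H →L[ℂ] H) (a b : H), ⟪T (T a), Z (T (T b))⟫_ℂ =
      ⟪a, (T * T * Z * (T * T)) b⟫_ℂ := by
    intro Z a b
    have h3 : ∀ y z : H, ⟪T y, z⟫_ℂ = ⟪y, T z⟫_ℂ := by
      intro y z
      have h4 : ⟪(adjoint T) y, z⟫_ℂ = ⟪y, T z⟫_ℂ := adjoint_inner_left _ _ _
      rwa [← star_eq_adjoint, hTs] at h4
    rw [h3, h3]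
    rfl
  refine L2_lim _ _ fun ε hε => ?_
  set B : ℝ := (D + Real.pi * ‖T * T * X * (T * T)‖ + 1) * (‖u‖ + ‖v‖ + 1) with hB
  have hB0 : 0 < B := by
    have := Real.pi_pos
    positivity
  obtain ⟨F, g, δ, hδ, hF, hF1, hu, hv, hFc, hgc, hg, hgδ, e1, e2⟩ :=
    L2_cut hR h0 h2 hinj hinj2 u v (div_pos hε hB0)
  rw [← hT] at e2
  have hFR : R * F = F * R := hFc R rfl
  have hTF : T * F = F * T := hFc T hTR
  have hEF : E * F = F * E := hFc E hRE.symm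
  have hgE : 0 ≤ g := by
    refine L2_pos hg fun y => ?_
    exact (mul_nonneg hδ.le (sq_nonneg _)).trans (hgδ y)
  have hq : star (CFC.sqrt g) = CFC.sqrt g := (CFC.sqrt_nonneg g).isSelfAdjoint
  have hy : ∀ τ : ℝ, (Real.exp τ : ℂ) • ((F * x τ * F) * g) +
      (Real.exp (-τ) : ℂ) • (g * (F * x τ * F)) =
      (2 : ℂ) • (CFC.sqrt g * (F * X * F) * CFC.sqrt g) := fun τ =>
    L2_eq hR hinj hTs hF hg hq hEs hFR hEF hTF e1 e2 (hx τ)
  obtain ⟨hc1, hc2⟩ := core hδ hg hg hgδ hgδ (fun τ => F * x τ * F) hy (T (T u)) (T (T v))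
  have hFin : ∀ Z : H →L[ℂ] H, ⟪T (T u), (F * Z * F) (T (T v))⟫_ℂ =
      ⟪F u, (T * T * Z * (T * T)) (F v)⟫_ℂ := by
    intro Z
    have h3 : ∀ y z : H, ⟪F y, z⟫_ℂ = ⟪y, F z⟫_ℂ := by
      intro y z
      have h4 : ⟪(adjoint F) y, z⟫_ℂ = ⟪y, F z⟫_ℂ := adjoint_inner_left _ _ _
      rwa [← star_eq_adjoint, hF] at h4
    rw [hin, h3]
    have h4 : T * T * F = F * (T * T) := by rw [mul_assoc, hTF, ← mul_assoc, hTF, mul_assoc]
    have h5 : T * T * (F * Z * F) * (T * T) = F * (T * T * Z * (T * T)) * F := by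
      calc T * T * (F * Z * F) * (T * T) = (T * T * F) * Z * (F * (T * T)) := by
            simp only [mul_assoc]
        _ = (F * (T * T)) * Z * (T * T * F) := by rw [h4]
        _ = F * (T * T * Z * (T * T)) * F := by simp only [mul_assoc]
    rw [h5]
    rfl
  have hest : ∀ Z : H →L[ℂ] H, ‖⟪u, Z v⟫_ℂ - ⟪F u, Z (F v)⟫_ℂ‖ ≤ ‖Z‖ * (ε / B) * (‖u‖ + ‖v‖) := by
    intro Z
    have h3 : ⟪u, Z v⟫_ℂ - ⟪F u, Z (F v)⟫_ℂ = ⟪u - F u, Z v⟫_ℂ + ⟪F u, Z (v - F v)⟫_ℂ := by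
      rw [inner_sub_left, map_sub, inner_sub_right]
      ring
    rw [h3]
    have hεB : 0 ≤ ε / B := (div_pos hε hB0).le
    have h4 : ‖⟪u - F u, Z v⟫_ℂ‖ ≤ (ε / B) * (‖Z‖ * ‖v‖) :=
      (norm_inner_le_norm _ _).trans (mul_le_mul hu (le_opNorm _ _) (norm_nonneg _) hεB)
    have hFu : ‖F u‖ ≤ ‖u‖ := by
      calc ‖F u‖ ≤ ‖F‖ * ‖u‖ := le_opNorm _ _
        _ ≤ 1 * ‖u‖ := mul_le_mul_of_nonneg_right hF1 (norm_nonneg _)
        _ = ‖u‖ := one_mul _
    have h5 : ‖⟪F u, Z (v - F v)⟫_ℂ‖ ≤ ‖u‖ * (‖Z‖ * (ε / B)) := by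
      refine (norm_inner_le_norm _ _).trans (mul_le_mul hFu ?_ (norm_nonneg _) (norm_nonneg _))
      exact (le_opNorm _ _).trans (mul_le_mul_of_nonneg_left hv (norm_nonneg _))
    calc ‖⟪u - F u, Z v⟫_ℂ + ⟪F u, Z (v - F v)⟫_ℂ‖
        ≤ (ε / B) * (‖Z‖ * ‖v‖) + ‖u‖ * (‖Z‖ * (ε / B)) :=
          (norm_add_le _ _).trans (add_le_add h4 h5)
      _ = _ := by ring
  have hsmall : ∀ K : ℝ, 0 ≤ K → K ≤ D + Real.pi * ‖T * T * X * (T * T)‖ + 1 →
      K * (ε / B) * (‖u‖ + ‖v‖) ≤ ε := by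
    intro K hK0 hK
    have h3 : K * (‖u‖ + ‖v‖) ≤ B := by
      rw [hB]
      exact mul_le_mul hK (by linarith) (by positivity) (hK0.trans hK)
    calc K * (ε / B) * (‖u‖ + ‖v‖) = (K * (‖u‖ + ‖v‖)) * (ε / B) := by ring
      _ ≤ B * (ε / B) := mul_le_mul_of_nonneg_right h3 (div_pos hε hB0).le
      _ = ε := mul_div_cancel₀ _ hB0.ne'
  refine ⟨_, _, hc1, hc2, fun τ => ?_, ?_⟩
  · rw [hin, hFin]
    refine (hest _).trans ?_
    have hw : 0 < Real.exp τ + Real.exp (-τ) := by positivity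
    have hw' : 0 ≤ 1 / (Real.exp τ + Real.exp (-τ)) := by positivity
    calc ‖T * T * x τ * (T * T)‖ * (ε / B) * (‖u‖ + ‖v‖)
        ≤ (D * (1 / (Real.exp τ + Real.exp (-τ)))) * (ε / B) * (‖u‖ + ‖v‖) := by
          have h3 := hdec τ
          have h4 : 0 ≤ ε / B := (div_pos hε hB0).le
          gcongr
      _ = (D * (ε / B) * (‖u‖ + ‖v‖)) * (1 / (Real.exp τ + Real.exp (-τ))) := by ring
      _ ≤ ε * (1 / (Real.exp τ + Real.exp (-τ))) := by
          refine mul_le_mul_of_nonneg_right (hsmall D hD0 ?_) hw'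
          have := Real.pi_pos
          have : 0 ≤ Real.pi * ‖T * T * X * (T * T)‖ := by positivity
          linarith
  · rw [hin, hFin, ← mul_sub, norm_mul, Complex.norm_real, Real.norm_of_nonneg Real.pi_pos.le]
    have h3 := mul_le_mul_of_nonneg_left (hest (T * T * X * (T * T))) Real.pi_pos.le
    refine h3.trans ?_
    rw [← mul_assoc, ← mul_assoc]
    refine hsmall _ (mul_nonneg Real.pi_pos.le (norm_nonneg _)) ?_
    linarith

end Pool.Agent.MP_86f3ed.Ty
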