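import Pool.Agent.H.MP_86f3ed_an.Ty.TomD
import Pool.Agent.H.MP_86f3ed_an.Ty.TomL1
import Pool.Agent.H.MP_86f3ed_an.Ty.TomL2

open scoped InnerProductSpace Topology
open Filter ContinuousLinearMap

namespace Pool.Agent.MP_86f3ed.Ty

open Pin

variable {H : Type*} [NormedAddCommGroup H] [InnerProductSpace ℂ H] [CompleteSpace H]

theorem TomG_adj (a : H →L[ℂ] H) (x y : H) : ⟪(star a) x, y⟫_ℂ = ⟪x, a y⟫_ℂ :=
  ContinuousLinearMap.adjoint_inner_left a y x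

theorem TomG_adj' (a : H →L[ℂ] H) (x y : H) : ⟪a x, y⟫_ℂ = ⟪x, (star a) y⟫_ℂ := by
  have h := TomG_adj (star a) x y
  rwa [star_star] at h

theorem TomG_dense {D : Set H} (hD : Dense D) {x : H} (h : ∀ y ∈ D, ⟪y, x⟫_ℂ = 0) : x = 0 := by
  have h1 : ∀ y : H, ⟪y, x⟫_ℂ = 0 := by
    intro y
    have hc : IsClosed {y : H | ⟪y, x⟫_ℂ = 0} :=
      isClosed_eq (continuous_id.inner continuous_const) continuous_const
    have hs : closure D ⊆ {y : H | ⟪y, x⟫_ℂ = 0} := closure_minimal (fun y hy => h y hy) hc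
    exact hs (hD y)
  exact inner_self_eq_zero.mp (h1 x)

namespace Std

variable (S : Std H)

/-- `T² z Ω` is again a vector of `N Ω`. -/
theorem exists_TT {z : H →L[ℂ] H} (hz : z ∈ Com S.M) :
    ∃ b ∈ Com S.M, b S.Ω = S.T (S.T (z S.Ω)) ∧ (star b) S.Ω = S.T (S.T ((star z) S.Ω)) := by
  obtain ⟨a, haM, ha1, ha2, -⟩ := S.exists_r0 hz
  have haC : a ∈ Com S.swap.M := by
    show a ∈ Com (Com S.M)
    rw [S.bic]
    exact haM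
  obtain ⟨b, hbM, hb1, hb2, -⟩ := S.swap.exists_r0 haC
  refine ⟨b, hbM, ?_, ?_⟩
  · rw [S.T_T, ← ha1, ← S.swap_R]
    exact hb1
  · rw [S.T_T, ← ha2, ← S.swap_R]
    exact hb2

/-- The vectors `b Ω` with `b` in `N` and `b Ω` in `T² N Ω` are dense. -/
theorem TT_dense (x : H) (h : ∀ b ∈ Com S.M, ∀ z ∈ Com S.M, b S.Ω = S.T (S.T (z S.Ω)) →
    ⟪b S.Ω, x⟫_ℂ = 0) : x = 0 := by
  apply S.T_inj
  apply S.T_inj
  refine TomG_dense S.cycN ?_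
  rintro y ⟨z, hz, rfl⟩
  obtain ⟨b, hb, hb1, -⟩ := S.exists_TT hz
  have h1 := h b hb z hz hb1
  rw [hb1] at h1
  rw [TomG_adj', S.T_star, TomG_adj', S.T_star] at h1
  exact h1

theorem TomG_x {b : H →L[ℂ] H} (hb : b ∈ Com S.M) : ∃ x : ℝ → H →L[ℂ] H, (∀ τ, x τ ∈ S.M) ∧
    (∀ τ, ‖x τ‖ ≤ ‖b‖) ∧ ∀ τ, S.Sol b (x τ) τ := by
  choose x hx1 hx2 hx3 using fun τ : ℝ => S.exists_tau hb τ
  exact ⟨x, hx1, hx2, hx3⟩

theorem TomG_lim {b X : H →L[ℂ] H} (hb : b ∈ Com S.M) (hX : ∀ x, X x = S.J (b (S.J x)))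
    {x : ℝ → H →L[ℂ] H} (hx1 : ∀ τ, x τ ∈ S.M) (hx3 : ∀ τ, S.Sol b (x τ) τ) (u : H) :
    Continuous (fun τ => x τ S.Ω) ∧
      Tendsto (fun c : ℝ => ∫ τ in (-c)..c, ⟪u, x τ S.Ω⟫_ℂ) atTop
        (𝓝 (Real.pi * ⟪u, X S.Ω⟫_ℂ)) := by
  refine lim_vec S.R_star S.R_nonneg S.R_le rfl (fun y hy => S.T_inj hy) (X S.Ω)
    (fun τ => x τ S.Ω) (fun τ => ?_) u
  have h1 := S.Sol_vec hb (hx1 τ) (hx3 τ)
  rw [S.R2_apply] at h1
  rw [h1, hX, S.J_Ω]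
  congr 1
  exact (S.T_J (b S.Ω)).symm

theorem conj_comm_one {b X : H →L[ℂ] H} (hb : b ∈ Com S.M)
    (hX : ∀ x, X x = S.J (b (S.J x))) {z₁ w₁ z₂ w₂ : H →L[ℂ] H} (hz₁ : z₁ ∈ Com S.M)
    (hw₁ : w₁ ∈ Com S.M) (h₁ : z₁ S.Ω = S.T (S.T (w₁ S.Ω))) (hz₂ : z₂ ∈ Com S.M)
    (hw₂ : w₂ ∈ Com S.M) (h₂ : z₂ S.Ω = S.T (S.T (w₂ S.Ω))) :
    ⟪z₂ S.Ω, z₁ (X S.Ω)⟫_ℂ = ⟪z₂ S.Ω, X (z₁ S.Ω)⟫_ℂ := by
  obtain ⟨x, hx1, hx2, hx3⟩ := S.TomG_x hb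
  have hL := (S.TomG_lim hb hX hx1 hx3 ((star z₁) (z₂ S.Ω))).2
  have hR := (lim_op (R := S.R) (T := S.T) (X := X) S.R_star S.R_nonneg S.R_le
    (fun y hy => S.R_inj hy) (fun y hy => S.R_inj2 hy) rfl x hx2 (fun τ => by
      ext v
      have h1 := S.Sol_op hb (hx1 τ) (hx3 τ) v
      simp only [S.R2_apply] at h1
      have h2 : (((2 : ℂ) • 1 - S.R : H →L[ℂ] H)) v = (2 : ℂ) • v - S.R v := rfl
      show (Real.exp τ : ℂ) • S.R (x τ (((2 : ℂ) • 1 - S.R : H →L[ℂ] H) v)) +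
        (Real.exp (-τ) : ℂ) • (((2 : ℂ) • 1 - S.R : H →L[ℂ] H)) (x τ (S.R v)) =
        (2 : ℂ) • S.T (X (S.T v))
      have h3 : (((2 : ℂ) • 1 - S.R : H →L[ℂ] H)) (x τ (S.R v)) =
        (2 : ℂ) • x τ (S.R v) - S.R (x τ (S.R v)) := rfl
      rw [h2, h3, h1, hX, S.J_T, S.T_J]) (w₂ S.Ω) (w₁ S.Ω)).2
  rw [← h₁, ← h₂] at hR
  have he : ∀ τ, ⟪(star z₁) (z₂ S.Ω), x τ S.Ω⟫_ℂ = ⟪z₂ S.Ω, x τ (z₁ S.Ω)⟫_ℂ := by
    intro τ
    rw [TomG_adj, S.comm (hx1 τ) hz₁]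
  simp only [he] at hL
  have h4 := tendsto_nhds_unique hL hR
  have hpi : (Real.pi : ℂ) ≠ 0 := by exact_mod_cast Real.pi_ne_zero
  have h5 := mul_left_cancel₀ hpi h4
  rw [TomG_adj] at h5
  exact h5

theorem TomG_starX {b X : H →L[ℂ] H} (hX : ∀ x, X x = S.J (b (S.J x))) (y : H) :
    (star X) y = S.J ((star b) (S.J y)) := by
  obtain ⟨X', h1, -, h3⟩ := S.exists_conj b
  have h4 : X = X' := by
    ext v
    rw [hX, h1]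
  rw [h4]
  exact h3 y

theorem conj_star_vec {b X : H →L[ℂ] H} (hb : b ∈ Com S.M)
    (hX : ∀ x, X x = S.J (b (S.J x))) {w : H →L[ℂ] H} (hw : w ∈ Com S.M) :
    ⟪(star X) S.Ω, w S.Ω⟫_ℂ = ⟪(star w) S.Ω, X S.Ω⟫_ℂ := by
  obtain ⟨x, hx1, -, hx3⟩ := S.TomG_x hb
  obtain ⟨hcont, hL⟩ := S.TomG_lim hb hX hx1 hx3 ((star w) S.Ω)
  have hR := (lim_vec S.R_star S.R_nonneg S.R_le (T := S.T) rfl (fun y hy => S.T_inj hy)
    ((star X) S.Ω) (fun τ => (star (x (-τ))) S.Ω) (fun τ => by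
      have h1 := S.Sol_vec_star hb (hx1 (-τ)) (hx3 (-τ))
      rw [neg_neg, S.R2_apply] at h1
      rw [h1, S.TomG_starX hX, S.J_Ω]
      congr 1
      exact (S.T_J ((star b) S.Ω)).symm) (w S.Ω)).2
  have he : ∀ τ, ⟪w S.Ω, (star (x τ)) S.Ω⟫_ℂ =
      (Complex.conjCLE : ℂ →L[ℝ] ℂ) ⟪(star w) S.Ω, x τ S.Ω⟫_ℂ := by
    intro τ
    have h1 : ⟪(star w) S.Ω, x τ S.Ω⟫_ℂ = ⟪(star (x τ)) S.Ω, w S.Ω⟫_ℂ := by
      rw [TomG_adj, TomG_adj, S.comm (hx1 τ) hw]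
    rw [h1]
    show _ = (starRingEnd ℂ) _
    rw [inner_conj_symm]
  have h2 : ∀ c : ℝ, ∫ τ in (-c)..c, ⟪w S.Ω, (star (x (-τ))) S.Ω⟫_ℂ =
      (Complex.conjCLE : ℂ →L[ℝ] ℂ) (∫ τ in (-c)..c, ⟪(star w) S.Ω, x τ S.Ω⟫_ℂ) := by
    intro c
    have h3 : ∫ τ in (-c)..c, ⟪w S.Ω, (star (x (-τ))) S.Ω⟫_ℂ =
        ∫ τ in (-c)..c, ⟪w S.Ω, (star (x τ)) S.Ω⟫_ℂ := by
      have h4 := intervalIntegral.integral_comp_neg (a := -c) (b := c)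
        (fun τ => ⟪w S.Ω, (star (x τ)) S.Ω⟫_ℂ)
      rw [neg_neg] at h4
      exact h4
    rw [h3]
    simp only [he]
    apply ContinuousLinearMap.intervalIntegral_comp_comm
    exact (continuous_const.inner hcont).intervalIntegrable _ _
  simp only [h2] at hR
  have hL' := ((Complex.conjCLE : ℂ →L[ℝ] ℂ).continuous.tendsto _).comp hL
  have h5 := tendsto_nhds_unique hR hL'
  have hpi : (Real.pi : ℂ) ≠ 0 := by exact_mod_cast Real.pi_ne_zero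
  have h6 : (Complex.conjCLE : ℂ →L[ℝ] ℂ) ((Real.pi : ℂ) * ⟪(star w) S.Ω, X S.Ω⟫_ℂ) =
      (Real.pi : ℂ) * (starRingEnd ℂ) ⟪(star w) S.Ω, X S.Ω⟫_ℂ := by
    show (starRingEnd ℂ) _ = _
    rw [map_mul, Complex.conj_ofReal]
  rw [h6] at h5
  have h7 := mul_left_cancel₀ hpi h5
  have h8 := congrArg (starRingEnd ℂ) h7
  rw [inner_conj_symm, Complex.conj_conj] at h8
  exact h8

/-- Half of Tomita's theorem. -/
theorem conj_mem {b X : H →L[ℂ] H} (hb : b ∈ Com S.M) (hX : ∀ x, X x = S.J (b (S.J x))) :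
    X ∈ S.M := by
  have hsb : star b ∈ Com S.M := star_mem hb
  have hsX : ∀ x, (star X) x = S.J ((star b) (S.J x)) := S.TomG_starX hX
  have step : ∀ {c Y : H →L[ℂ] H}, c ∈ Com S.M → (∀ x, Y x = S.J (c (S.J x))) →
      ∀ z₁ ∈ Com S.M, ∀ w₁ ∈ Com S.M, z₁ S.Ω = S.T (S.T (w₁ S.Ω)) →
        z₁ (Y S.Ω) = Y (z₁ S.Ω) := by
    intro c Y hc hY z₁ hz₁ w₁ hw₁ h₁
    rw [← sub_eq_zero]
    refine S.TT_dense _ (fun z₂ hz₂ w₂ hw₂ h₂ => ?_)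
    rw [inner_sub_right, sub_eq_zero]
    exact S.conj_comm_one hc hY hz₁ hw₁ h₁ hz₂ hw₂ h₂
  have key : ∀ z ∈ Com S.M, X (z S.Ω) = z (X S.Ω) := by
    intro z hz
    rw [← sub_eq_zero]
    refine S.TT_dense _ (fun z₁ hz₁ w₁ hw₁ h₁ => ?_)
    rw [inner_sub_right, sub_eq_zero]
    have h2 : star z₁ * z ∈ Com S.M := mul_mem (star_mem hz₁) hz
    have h3 := S.conj_star_vec hb hX h2
    have h4 : (star (star z₁ * z)) S.Ω = (star z) (z₁ S.Ω) := by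
      rw [star_mul, star_star]
      rfl
    have h5 : (star z₁ * z) S.Ω = (star z₁) (z S.Ω) := rfl
    rw [h4, h5, ← TomG_adj', step hsb hsX z₁ hz₁ w₁ hw₁ h₁, TomG_adj, TomG_adj] at h3
    exact h3
  rw [← S.bic, mem_Com]
  intro z hz
  have h1 : ∀ y : H, z (X y) = X (z y) := by
    intro y
    have hc : IsClosed {y : H | z (X y) = X (z y)} :=
      isClosed_eq (z.continuous.comp X.continuous) (X.continuous.comp z.continuous)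
    have hs : closure {x : H | ∃ a ∈ Com S.M, x = a S.Ω} ⊆ {y : H | z (X y) = X (z y)} := by
      refine closure_minimal ?_ hc
      rintro _ ⟨z', hz', rfl⟩
      show z (X (z' S.Ω)) = X (z (z' S.Ω))
      have h2 := key (z * z') (mul_mem hz hz')
      have h3 : (z * z') S.Ω = z (z' S.Ω) := rfl
      have h4 : (z * z') (X S.Ω) = z (z' (X S.Ω)) := rfl
      rw [h3, h4] at h2
      rw [h2, key z' hz']
    exact hs (S.cycN y)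
  ext y
  exact h1 y

end Std

/-- Tomita's theorem. -/
theorem exists_tomitaJ (M : StarSubalgebra ℂ (H →L[ℂ] H)) (bic : Com (Com M) = M) (Ω : H)
    (cycM : Cyc M Ω) (cycN : Cyc (Com M) Ω) : ∃ J : H → H, TomitaJ M Ω J := by
  let S : Std H := ⟨M, bic, Ω, cycM, cycN⟩
  have h2J : ∀ x : H, S.J ((2 : ℂ) • x) = (2 : ℂ) • S.J x := by
    intro x
    rw [S.J_smul]
    congr 1
    exact Complex.conj_ofNat 2
  refine ⟨S.J, ⟨S.J_add, S.J_smul, S.J_inner, S.J_J, S.J_Ω, ?_, ?_, ?_, ?_⟩⟩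
  · intro a ha
    obtain ⟨X, hX, -, -⟩ := S.exists_conj a
    refine ⟨X, ?_, fun x => (hX x).symm⟩
    have haC : a ∈ Com S.swap.M := by
      show a ∈ Com (Com M)
      rw [bic]
      exact ha
    have hX' : ∀ x, X x = S.swap.J (a (S.swap.J x)) := by
      intro x
      rw [S.swap_J]
      exact hX x
    exact S.swap.conj_mem haC hX'
  · intro b hb
    obtain ⟨X, hX, -, -⟩ := S.exists_conj b
    exact ⟨X, S.conj_mem hb hX, fun x => (hX x).symm⟩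
  · intro e he hs h
    have h1 : S.R (e Ω) = e Ω := S.R_cent he hs h
    have h2 : S.T (e Ω) = e Ω := S.T_of_R h1
    have h3 : S.A ((star e) Ω) = (2 : ℂ) • e Ω - S.R (e Ω) := S.A_M he
    rw [hs, h1] at h3
    have h4 : S.J (S.T (e Ω)) = S.A (e Ω) := S.J_T (e Ω)
    rw [h2, h3] at h4
    rw [h4, two_smul]
    abel
  · intro a ha hs
    have h3 : S.A ((star a) Ω) = (2 : ℂ) • a Ω - S.R (a Ω) := S.A_M ha
    rw [hs] at h3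
    set ξ : H := a Ω with hξ
    have h4 : ⟪S.A ξ, S.J ξ⟫_ℂ = ⟪ξ, S.T ξ⟫_ℂ := by
      rw [← S.J_T, S.J_inner]
    have h5 : S.R (S.J ξ) = S.T ξ := by
      have h6 : S.R (S.J ξ) = (2 : ℂ) • S.J ξ - S.J (S.R ξ) := by
        rw [S.J_R]
        abel
      have h7 : S.J (S.A ξ) = (2 : ℂ) • S.J ξ - S.J (S.R ξ) := by
        have h8 : S.A ξ + S.R ξ = (2 : ℂ) • ξ := by
          rw [h3]
          abel
        have h9 : S.J (S.A ξ) + S.J (S.R ξ) = (2 : ℂ) • S.J ξ := by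
          rw [← S.J_add, h8, h2J]
        exact eq_sub_of_add_eq h9
      rw [h6, ← h7, ← S.J_T, S.J_J]
    have h6 : ⟪S.R ξ, S.J ξ⟫_ℂ = ⟪ξ, S.T ξ⟫_ℂ := by
      rw [TomG_adj', S.R_star, h5]
    have h7 : ⟪(2 : ℂ) • ξ, S.J ξ⟫_ℂ = ⟪ξ, S.T ξ⟫_ℂ + ⟪ξ, S.T ξ⟫_ℂ := by
      have h8 : (2 : ℂ) • ξ = S.A ξ + S.R ξ := by
        rw [h3]
        abel
      rw [h8, inner_add_left, h4, h6]
    rw [inner_smul_left, Complex.conj_ofNat] at h7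
    have h8 : ⟪ξ, S.J ξ⟫_ℂ = ⟪ξ, S.T ξ⟫_ℂ := by
      have h9 : (2 : ℂ) * ⟪ξ, S.J ξ⟫_ℂ = 2 * ⟪ξ, S.T ξ⟫_ℂ := by
        rw [h7]
        ring
      exact mul_left_cancel₀ two_ne_zero h9
    rw [h8]
    exact S.T_nonneg ξ

end Pool.Agent.MP_86f3ed.Ty
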