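import Pool.Agent.H.MP_86f3ed_an.Ty.TomI

open scoped InnerProductSpace Topology
open Filter ContinuousLinearMap

namespace Pool.Agent.MP_86f3ed.Ty

open Pin

variable {H : Type*} [NormedAddCommGroup H] [InnerProductSpace ℂ H] [CompleteSpace H]

theorem TomPI_zero {M : StarSubalgebra ℂ (H →L[ℂ] H)} {Ω : H} {J : H → H}
    (hJ : TomitaJ M Ω J) : J 0 = 0 := by
  have h := hJ.smul 0 0
  simpa using h

/-- The commutant of a purely infinite algebra with a modular conjugation is purely infinite. -/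
theorem purelyInfinite_com {M : StarSubalgebra ℂ (H →L[ℂ] H)} {Ω : H} {J : H → H}
    (hJ : TomitaJ M Ω J) (hPI : PurelyInfinite (M : Set (H →L[ℂ] H))) :
    PurelyInfinite (Com M : Set (H →L[ℂ] H)) := by
  intro p hp hps hpp hp0
  obtain ⟨q, hq, hqx⟩ := hJ.N_to_M p hp
  have hpJ : ∀ z, p (J z) = J (q z) := fun z => by rw [← hqx, hJ.invol]
  have hps' : ∀ x y, ⟪p x, y⟫_ℂ = ⟪x, p y⟫_ℂ := fun x y => by
    conv_lhs => rw [← hps]
    rw [star_eq_adjoint, adjoint_inner_left]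
  have hinn : ∀ x y, ⟪J x, y⟫_ℂ = ⟪J y, x⟫_ℂ := fun x y => by
    conv_lhs => rw [← hJ.invol y]
    rw [hJ.inner]
  have hqs : star q = q := by
    rw [star_eq_adjoint]
    refine ((ContinuousLinearMap.eq_adjoint_iff _ _).mpr fun x y => ?_).symm
    rw [← hqx, ← hqx, hinn, ← hps', ← hJ.inner (J (p (J y))) x, hJ.invol]
  have hqq : q * q = q := by
    ext x
    show q (q x) = q x
    rw [← hqx (q x), ← hpJ, ← hqx x]
    have h1 : p (p (J x)) = p (J x) := congrArg (fun T : H →L[ℂ] H => T (J x)) hpp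
    rw [h1]
  have hq0 : q ≠ 0 := by
    intro h0
    apply hp0
    ext x
    have h1 : p x = J (q (J x)) := by rw [← hpJ, hJ.invol]
    rw [h1, h0]
    show J 0 = 0
    exact TomPI_zero hJ
  obtain ⟨v, hv, w, hw, hvv, hww, hvw, hqv, hqw⟩ := hPI q hq hqs hqq hq0
  obtain ⟨v', hv', hvx⟩ := hJ.M_to_N v hv
  obtain ⟨w', hw', hwx⟩ := hJ.M_to_N w hw
  have key : ∀ (a b a' b' : H →L[ℂ] H), (∀ x, J (a (J x)) = a' x) → (∀ x, J (b (J x)) = b' x) →
      ∀ x y, ⟪a' x, b' y⟫_ℂ = ⟪J y, (star b * a) (J x)⟫_ℂ := by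
    intro a b a' b' ha hb x y
    rw [← ha, ← hb, hJ.inner]
    show _ = ⟪J y, star b (a (J x))⟫_ℂ
    rw [star_eq_adjoint, adjoint_inner_right]
  have one : ∀ (a a' : H →L[ℂ] H), (∀ x, J (a (J x)) = a' x) → star a * a = 1 →
      star a' * a' = 1 := by
    intro a a' ha h1
    ext y
    refine ext_inner_left ℂ fun x => ?_
    show ⟪x, star a' (a' y)⟫_ℂ = ⟪x, y⟫_ℂ
    rw [star_eq_adjoint, adjoint_inner_right, key a a a' a' ha ha, h1]
    show ⟪J y, J x⟫_ℂ = _
    rw [hJ.inner]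
  have fixp : ∀ (a a' : H →L[ℂ] H), (∀ x, J (a (J x)) = a' x) → q * a = a → p * a' = a' := by
    intro a a' ha h1
    ext x
    show p (a' x) = a' x
    rw [← ha, hpJ]
    have h2 : q (a (J x)) = a (J x) := congrArg (fun T : H →L[ℂ] H => T (J x)) h1
    rw [h2]
  refine ⟨v', hv', w', hw', one v v' hvx hvv, one w w' hwx hww, ?_, fixp v v' hvx hqv,
    fixp w w' hwx hqw⟩
  have hwv : star w * v = 0 := by
    have := congrArg star hvw
    rwa [star_mul, star_star, star_zero] at this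
  ext y
  refine ext_inner_left ℂ fun x => ?_
  show ⟪x, star v' (w' y)⟫_ℂ = ⟪x, 0⟫_ℂ
  rw [star_eq_adjoint, adjoint_inner_right, key v w v' w' hvx hwx, hwv]
  show ⟪J y, (0 : H)⟫_ℂ = _
  rw [inner_zero_right, inner_zero_right]

end Pool.Agent.MP_86f3ed.Ty
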