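import Pool.Agent.H.MP_86f3ed_an.Pin.Main

open scoped InnerProductSpace Topology
open Filter ContinuousLinearMap

namespace Pool.Agent.MP_86f3ed.Ty

open Pin

variable {H : Type*} [NormedAddCommGroup H] [InnerProductSpace ℂ H] [CompleteSpace H]

/-- `J` is a modular conjugation for the pair `M`, `Com M` and the vector `Ω`. -/
structure TomitaJ (M : StarSubalgebra ℂ (H →L[ℂ] H)) (Ω : H) (J : H → H) : Prop where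
  add : ∀ x y, J (x + y) = J x + J y
  smul : ∀ (c : ℂ) x, J (c • x) = (starRingEnd ℂ) c • J x
  inner : ∀ x y, ⟪J x, J y⟫_ℂ = ⟪y, x⟫_ℂ
  invol : ∀ x, J (J x) = x
  fix : J Ω = Ω
  M_to_N : ∀ a ∈ M, ∃ b ∈ Com M, ∀ x, J (a (J x)) = b x
  N_to_M : ∀ b ∈ Com M, ∃ a ∈ M, ∀ x, J (b (J x)) = a x
  cent : ∀ e ∈ M, star e = e → (∀ a ∈ M, ⟪Ω, e (a Ω)⟫_ℂ = ⟪Ω, a (e Ω)⟫_ℂ) → J (e Ω) = e Ω
  pos : ∀ a ∈ M, star a = a → 0 ≤ (⟪a Ω, J (a Ω)⟫_ℂ).re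

/-- Cyclic vector. -/
def Cyc (M : StarSubalgebra ℂ (H →L[ℂ] H)) (Ω : H) : Prop := Dense {x : H | ∃ a ∈ M, x = a Ω}

end Pool.Agent.MP_86f3ed.Ty
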