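import Pool.Agent.H.MP_86f3ed_an.Ty.TomI
import Pool.Agent.H.MP_86f3ed_an.Trc.Root

open scoped InnerProductSpace Topology
open Filter ContinuousLinearMap

namespace Pool.Agent.MP_86f3ed.Ty

open Pin

variable {H : Type*} [NormedAddCommGroup H] [InnerProductSpace ℂ H] [CompleteSpace H] {n : ℕ}

variable (H) in
/-- The Hilbert space of `n` copies of `H`. -/
abbrev KK (n : ℕ) : Type _ := PiLp 2 (fun _ : Fin n => H)

theorem amp_mul' (S T : H →L[ℂ] H) : (amp (S * T) : KK H n →L[ℂ] KK H n) = amp S * amp T := by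
  ext1 v
  refine ext_pr fun i => ?_
  show pr H i (amp (S * T) v) = pr H i (amp S (amp T v))
  rw [pr_amp, pr_amp, pr_amp]; rfl

theorem amp_star' (S : H →L[ℂ] H) : (amp (star S) : KK H n →L[ℂ] KK H n) = star (amp S) := by
  rw [star_eq_adjoint, star_eq_adjoint]
  refine (ContinuousLinearMap.eq_adjoint_iff _ _).mpr fun x y => ?_
  rw [← sum_inner_pr, ← sum_inner_pr]
  refine Finset.sum_congr rfl fun i _ => ?_
  rw [pr_amp, pr_amp, adjoint_inner_left]

variable (H n) in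
/-- The diagonal representation of `B(H)` on `n` copies of `H`. -/
noncomputable def am : (H →L[ℂ] H) →⋆ₐ[ℂ] (KK H n →L[ℂ] KK H n) where
  toFun S := amp S
  map_one' := by
    ext1 v
    refine ext_pr fun i => ?_
    rw [pr_amp]; rfl
  map_mul' := amp_mul'
  map_zero' := by
    ext1 v
    refine ext_pr fun i => ?_
    rw [pr_amp]
    show (0 : H) = pr H i 0
    rw [map_zero]
  map_add' S T := by
    ext1 v
    refine ext_pr fun i => ?_
    show pr H i (amp (S + T) v) = pr H i (amp S v + amp T v)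
    rw [map_add, pr_amp, pr_amp, pr_amp]; rfl
  commutes' c := by
    ext1 v
    refine ext_pr fun i => ?_
    rw [pr_amp]
    show c • pr H i v = pr H i (c • v)
    rw [map_smul]
  map_star' := amp_star'

theorem pr_am (S : H →L[ℂ] H) (i : Fin n) (v : KK H n) : pr H i (am H n S v) = S (pr H i v) :=
  pr_amp S i v

theorem norm_am_le (S : H →L[ℂ] H) : ‖am H n S‖ ≤ ‖S‖ :=
  NonUnitalStarAlgHom.norm_apply_le (am H n) S

theorem norm_am_apply_le (S : H →L[ℂ] H) (v : KK H n) : ‖am H n S v‖ ≤ ‖S‖ * ‖v‖ :=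
  (le_opNorm _ _).trans (mul_le_mul_of_nonneg_right (norm_am_le S) (norm_nonneg _))

theorem am_mul_apply (S T : H →L[ℂ] H) (v : KK H n) :
    am H n (S * T) v = am H n S (am H n T v) := by
  rw [map_mul]; rfl

theorem am_one_apply (v : KK H n) : am H n 1 v = v := by
  rw [map_one]; rfl

theorem inner_am_left (S : H →L[ℂ] H) (v w : KK H n) :
    ⟪am H n S v, w⟫_ℂ = ⟪v, am H n (star S) w⟫_ℂ := by
  rw [map_star, star_eq_adjoint, adjoint_inner_right]

theorem norm_sq_am (v : KK H n) : ‖v‖ ^ 2 = ∑ i, ‖pr H i v‖ ^ 2 := by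
  have h := sum_inner_pr v v
  have h2 : ∀ x : H, (‖x‖ ^ 2 : ℝ) = RCLike.re ⟪x, x⟫_ℂ := fun x => norm_sq_eq_re_inner (𝕜 := ℂ) x
  rw [norm_sq_eq_re_inner (𝕜 := ℂ) v, ← h, map_sum]
  exact Finset.sum_congr rfl fun i _ => (h2 _).symm

/-- The vector functional `Z ↦ ⟪v, Z v⟫` of a vector of `n` copies. -/
noncomputable def vf (v : KK H n) (Z : H →L[ℂ] H) : ℂ := ⟪v, am H n Z v⟫_ℂ

theorem vf_star_mul (v : KK H n) (c : H →L[ℂ] H) :
    vf v (star c * c) = ((‖am H n c v‖ ^ 2 : ℝ) : ℂ) := by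
  rw [vf, am_mul_apply, ← inner_am_left, inner_self_eq_norm_sq_to_K]
  push_cast
  rfl

theorem norm_vf_le (v : KK H n) (Z : H →L[ℂ] H) : ‖vf v Z‖ ≤ ‖v‖ ^ 2 * ‖Z‖ := by
  refine (norm_inner_le_norm _ _).trans ?_
  have h := norm_am_apply_le Z v
  calc ‖v‖ * ‖am H n Z v‖ ≤ ‖v‖ * (‖Z‖ * ‖v‖) := mul_le_mul_of_nonneg_left h (norm_nonneg _)
    _ = ‖v‖ ^ 2 * ‖Z‖ := by ring

theorem vf_conj (v : KK H n) (a Z : H →L[ℂ] H) : vf v (star a * Z * a) = vf (am H n a v) Z := by
  rw [vf, vf, am_mul_apply, am_mul_apply, ← inner_am_left]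

theorem vf_star (v : KK H n) (Z : H →L[ℂ] H) : vf v (star Z) = (starRingEnd ℂ) (vf v Z) := by
  rw [vf, vf, ← inner_am_left, inner_conj_symm]

/-- The operators which commute with the diagonal representation. -/
def IsR (V : KK H n →L[ℂ] KK H n) : Prop := ∀ (S : H →L[ℂ] H) (v : KK H n),
  V (am H n S v) = am H n S (V v)

theorem IsR.adj {V : KK H n →L[ℂ] KK H n} (hV : IsR V) : IsR (adjoint V) := by
  intro S v
  refine ext_inner_left ℂ fun w => ?_
  rw [adjoint_inner_right, ← star_star S, ← inner_am_left, ← inner_am_left, ← hV,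
    adjoint_inner_right]

end Pool.Agent.MP_86f3ed.Ty
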