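import Pool.Agent.H.MP_86f3ed_an.Pin.Main

open scoped InnerProductSpace Topology
open Filter ContinuousLinearMap

namespace Pool.Agent.MP_86f3ed.Ty

open Pin

variable {H : Type*} [NormedAddCommGroup H] [InnerProductSpace ℂ H] [CompleteSpace H]

/-- a bounded operator which maps the generators into a closed subspace maps the closed span into
it -/
private theorem CB_map {G : Set H} {T : Submodule ℂ H} (hT : IsClosed (T : Set H)) (b : H →L[ℂ] H)
    (hb : ∀ z ∈ G, b z ∈ T) : ∀ z ∈ (Submodule.span ℂ G).topologicalClosure, b z ∈ T := by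
  have h1 : (Submodule.span ℂ G).topologicalClosure ≤ T.comap (b : H →ₗ[ℂ] H) := by
    refine Submodule.topologicalClosure_minimal _ ?_ ?_
    · rw [Submodule.span_le]
      intro z hz
      exact hb z hz
    · exact hT.preimage b.continuous
  intro z hz
  exact h1 hz

/-- an operator which fixes the generators fixes the closed span -/
private theorem CB_fix {G : Set H} (b : H →L[ℂ] H) (hb : ∀ z ∈ G, b z = z) :
    ∀ z ∈ (Submodule.span ℂ G).topologicalClosure, b z = z := by
  intro z hz
  have hcl : IsClosed ((⊥ : Submodule ℂ H) : Set H) := by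
    rw [Submodule.bot_coe]
    exact isClosed_singleton
  have h1 := CB_map (T := (⊥ : Submodule ℂ H)) hcl (b - 1) (fun z hz => by
    show (b - 1) z ∈ (⊥ : Submodule ℂ H)
    rw [Submodule.mem_bot]
    show b z - z = 0
    rw [hb z hz, sub_self]) z hz
  rw [Submodule.mem_bot] at h1
  exact sub_eq_zero.1 h1

/-- The theorem of Cantor and Bernstein for a projection `q` which dominates the range of an
isometry.

PROOF. Let `r = 1 - q`, let `W₀ : Submodule ℂ H` be the span of all vectors `(v ^ n) (r x)`,
`n : ℕ`, `x : H`, and `K = W₀.topologicalClosure`, `e = K.starProjection`. `K` is invariant under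
every `a ∈ 𝔓` (because `a` commutes with `v` and `r`: `v`, `q` are in `Com 𝔓`; on the closure by
continuity, see the proof of `Fin1_closure_range_invariant` in `Pin/Fin1.lean`), so
`e ∈ Com 𝔓` by `proj_mem_Com 𝔓 K`. Also `v` maps `K` into `K`, and `r x ∈ K` for all `x`.
Put `w = v * e + (1 - e)`; `w ∈ Com 𝔓`.
(1) `e * v * e = v * e` (since `v K ⊆ K`), `e * r = r` hence (adjoints) `r * e = r`, and
`r * v = 0` (from `q * v = v`), `star v * r = 0`.
(2) `star w * w = e * star v * v * e + e * star v * (1-e) + (1-e) * v * e + (1-e)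
= e + 0 + 0 + (1 - e) = 1` using `(1-e) * v * e = 0` and its adjoint.
(3) `w * star w = v * e * star v + (1 - e)` (the cross terms: `v * e * (1-e) = 0`). It remains to
see `v * e * star v = e - r`, equivalently `e = r + v * e * star v`. Both sides are selfadjoint;
`f := r + v * e * star v` is a projection (`r * v = 0`, `star v * v = 1`) with `f ≤ e`
(`e * f = f` by (1)), and `f` fixes `K`: for a generator: `f (r x) = r x + v e (star v (r x)) = r x`
as `star v * r = 0`; `f (v ^ (n+1) (r x)) = r (v ..) + v e (star v (v (v^n (r x)))) =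
0 + v (v^n (r x))`; by linearity and continuity `f z = z` for `z ∈ K`, so `f * e = e`. With
`e * f = f` and adjoints `f = f * e = e`. So `w * star w = e - r + 1 - e = 1 - r = q`. -/
theorem cantor_bernstein {𝔓 : StarSubalgebra ℂ (H →L[ℂ] H)} {v q : H →L[ℂ] H}
    (hv : v ∈ Com 𝔓) (hvv : star v * v = 1) (hq : q ∈ Com 𝔓) (hqs : star q = q)
    (hqq : q * q = q) (hqv : q * v = v) :
    ∃ w ∈ Com 𝔓, star w * w = 1 ∧ w * star w = q := by
  set r : H →L[ℂ] H := 1 - q with hr
  have hrC : r ∈ Com 𝔓 := sub_mem (one_mem _) hq
  have hrs : star r = r := by rw [hr, star_sub, star_one, hqs]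
  have hrr : r * r = r := by
    have e1 : r * r = 1 - q - q + q * q := by rw [hr]; noncomm_ring
    rw [e1, hqq, hr]
    noncomm_ring
  have hrv : r * v = 0 := by rw [hr, sub_mul, one_mul, hqv, sub_self]
  have hvr : star v * r = 0 := by
    have h1 := congrArg star hrv
    rwa [star_mul, hrs, star_zero] at h1
  set G : Set H := {z | ∃ (n : ℕ) (x : H), z = (v ^ n) (r x)} with hG
  set K : Submodule ℂ H := (Submodule.span ℂ G).topologicalClosure with hK
  have hKcl : IsClosed (K : Set H) := Submodule.isClosed_topologicalClosure _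
  have hcomp : CompleteSpace K := hKcl.completeSpace_coe
  have hGK : ∀ z ∈ G, z ∈ K := fun z hz =>
    Submodule.le_topologicalClosure _ (Submodule.subset_span hz)
  have hKinv : ∀ a ∈ 𝔓, ∀ z ∈ K, a z ∈ K := by
    intro a ha z hz
    refine CB_map hKcl a ?_ z hz
    rintro _ ⟨n, x, rfl⟩
    have h1 : a * (v ^ n * r) = (v ^ n * r) * a := mem_Com.mp (mul_mem (pow_mem hv n) hrC) a ha
    exact hGK _ ⟨n, a x, DFunLike.congr_fun h1 x⟩
  have hKv : ∀ z ∈ K, v z ∈ K := by
    refine CB_map hKcl v ?_
    rintro _ ⟨n, x, rfl⟩
    refine hGK _ ⟨n + 1, x, ?_⟩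
    rw [pow_succ']
    rfl
  set e : H →L[ℂ] H := K.starProjection with he
  have heC : e ∈ Com 𝔓 := proj_mem_Com 𝔓 K hKinv
  have hes : star e = e := by
    rw [ContinuousLinearMap.star_eq_adjoint]
    exact ((ContinuousLinearMap.eq_adjoint_iff _ _).mpr
      (fun x y => (K.inner_starProjection_left_eq_right x y))).symm
  have heK : ∀ z, e z ∈ K := fun z => Submodule.starProjection_apply_mem K z
  have hfix : ∀ z ∈ K, e z = z := fun z hz => Submodule.starProjection_eq_self_iff.mpr hz
  have hee : e * e = e := by
    ext z
    exact hfix _ (heK z)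
  have heve : e * v * e = v * e := by
    ext z
    exact hfix _ (hKv _ (heK z))
  have heve' : e * star v * e = e * star v := by
    have h1 := congrArg star heve
    rw [star_mul, star_mul, star_mul, hes, ← mul_assoc] at h1
    exact h1
  have her : e * r = r := by
    ext z
    exact hfix _ (hGK _ ⟨0, z, by rw [pow_zero]; rfl⟩)
  -- the projection `f`
  set f : H →L[ℂ] H := r + v * e * star v with hf
  have hff : ∀ z ∈ K, f z = z := by
    refine CB_fix f ?_
    rintro _ ⟨n, x, rfl⟩
    cases n with
    | zero =>
      have h1 : f * r = r := by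
        have e1 : f * r = r * r + v * e * (star v * r) := by rw [hf]; noncomm_ring
        rw [e1, hrr, hvr, mul_zero, add_zero]
      rw [pow_zero]
      exact DFunLike.congr_fun h1 x
    | succ n =>
      have h1 : f * v = v * e := by
        have e1 : f * v = r * v + v * e * (star v * v) := by rw [hf]; noncomm_ring
        rw [e1, hrv, hvv, mul_one, zero_add]
      have h2 : f (v ((v ^ n) (r x))) = v (e ((v ^ n) (r x))) :=
        DFunLike.congr_fun h1 ((v ^ n) (r x))
      rw [hfix _ (hGK _ ⟨n, x, rfl⟩)] at h2
      rw [pow_succ']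
      exact h2
  have hfe : f * e = e := by
    ext z
    exact hff _ (heK z)
  have hef : e * f = f := by
    have e1 : e * f = e * r + e * v * e * star v := by rw [hf]; noncomm_ring
    rw [e1, her, heve]
  have hfs : star f = f := by
    rw [hf, star_add, hrs, star_mul, star_mul, star_star, hes, mul_assoc]
  have hfe' : f = e := by
    have h1 := congrArg star hef
    rw [star_mul, hfs, hes, hfe] at h1
    exact h1.symm
  refine ⟨v * e + (1 - e), add_mem (mul_mem hv heC) (sub_mem (one_mem _) heC), ?_, ?_⟩
  · have hsw : star (v * e + (1 - e)) = e * star v + (1 - e) := by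
      rw [star_add, star_mul, hes, star_sub, star_one, hes]
    have e1 : (e * star v + (1 - e)) * (v * e + (1 - e)) = e * (star v * v) * e +
        (e * star v - e * star v * e) + (v * e - e * v * e) + (1 - e - e + e * e) := by
      noncomm_ring
    rw [hsw, e1, hvv, heve', heve, hee, mul_one, hee]
    abel
  · have hsw : star (v * e + (1 - e)) = e * star v + (1 - e) := by
      rw [star_add, star_mul, hes, star_sub, star_one, hes]
    have e1 : (v * e + (1 - e)) * (e * star v + (1 - e)) = v * (e * e) * star v +
        v * (e - e * e) + (e - e * e) * star v + (1 - e - e + e * e) := by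
      noncomm_ring
    have e2 : v * e * star v = e - r := by
      have e3 : v * e * star v = f - r := by
        rw [hf]
        abel
      rw [e3, hfe']
    rw [hsw, e1, hee, e2, hr]
    simp only [sub_self, mul_zero, zero_mul]
    abel

end Pool.Agent.MP_86f3ed.Ty
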