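import Pool.Agent.H.MP_86f3ed_an.Ty.TomI

open scoped InnerProductSpace Topology ComplexOrder
open Filter ContinuousLinearMap

namespace Pool.Agent.MP_86f3ed.Ty

open Pin

variable {H : Type*} [NormedAddCommGroup H] [InnerProductSpace ℂ H] [CompleteSpace H]

/-- A vector map which is bounded on the orbit of a cyclic vector is given by an operator of the
commutant.

PROOF. The linear map `e : 𝔓 →ₗ[ℂ] H`, `x ↦ x ζ`, has dense range and `f : 𝔓 →ₗ[ℂ] H`, `x ↦ x η`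
satisfies `‖f x‖ ≤ C * ‖e x‖`; so `z := f.extendOfNorm e` (Mathlib: `LinearMap.extendOfNorm`,
`extendOfNorm_eq`, `opNorm_extendOfNorm_le`; see `Trc/Jay.lean` or `Trc/Diag.lean` for the use) is a
bounded operator with `z (x ζ) = x η` and `‖z‖ ≤ C`. For `a ∈ 𝔓`: `z (a (x ζ)) = (a x) η =
a (z (x ζ))`, and by density `z (a v) = a (z v)`. `x = 1` gives `z ζ = η`. (Everywhere `a` acts on
`K` through `ρ a`.)
(`𝔓` is a star subalgebra, a `ℂ`-module as a subtype. To have a norm on the domain one can use any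
norm.) -/
theorem exists_ext {K : Type*} [NormedAddCommGroup K] [InnerProductSpace ℂ K] [CompleteSpace K]
    {𝔓 : StarSubalgebra ℂ (H →L[ℂ] H)} {ζ : H} (hc : Cyc 𝔓 ζ)
    (ρ : (H →L[ℂ] H) →⋆ₐ[ℂ] (K →L[ℂ] K)) (η : K) {C : ℝ} (hC : 0 ≤ C) (h : ∀ x ∈ 𝔓, ‖ρ x η‖ ≤ C * ‖x ζ‖) :
    ∃ z : H →L[ℂ] K, ‖z‖ ≤ C ∧ z ζ = η ∧ ∀ a ∈ 𝔓, ∀ x, z (a x) = ρ a (z x) := by
  set e : 𝔓 →ₗ[ℂ] H :=
    { toFun := fun x => (x : H →L[ℂ] H) ζ
      map_add' := fun _ _ => rfl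
      map_smul' := fun _ _ => rfl } with he
  set f : 𝔓 →ₗ[ℂ] K :=
    { toFun := fun x => ρ (x : H →L[ℂ] H) η
      map_add' := fun a b => by
        show ρ ((a : H →L[ℂ] H) + (b : H →L[ℂ] H)) η = _
        rw [map_add]; rfl
      map_smul' := fun c a => by
        show ρ (c • (a : H →L[ℂ] H)) η = _
        rw [map_smul]; rfl } with hf
  have hdense : DenseRange e := by
    have h1 : (Set.range e : Set H) = {x : H | ∃ a ∈ 𝔓, x = a ζ} := by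
      ext y
      constructor
      · rintro ⟨a, rfl⟩
        exact ⟨a, a.2, rfl⟩
      · rintro ⟨a, ha, rfl⟩
        exact ⟨⟨a, ha⟩, rfl⟩
    rw [DenseRange, h1]
    exact hc
  have hn : ∀ v, ‖f v‖ ≤ C * ‖e v‖ := fun v => h v v.2
  have hz : ∀ a ∈ 𝔓, f.extendOfNorm e (a ζ) = ρ a η := fun a ha =>
    LinearMap.extendOfNorm_eq hdense ⟨C, hn⟩ (⟨a, ha⟩ : 𝔓)
  refine ⟨f.extendOfNorm e, ?_, ?_, ?_⟩
  · refine ContinuousLinearMap.opNorm_le_bound _ hC fun x => ?_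
    exact LinearMap.norm_extendOfNorm_apply_le hdense C hn _
  · have h1 := hz 1 (one_mem _)
    rw [map_one] at h1
    exact h1
  · intro a ha x
    refine hdense.induction (P := fun x => f.extendOfNorm e (a x) = ρ a (f.extendOfNorm e x)) ?_
      (isClosed_eq (by fun_prop) (by fun_prop)) x
    rintro _ ⟨b, rfl⟩
    show f.extendOfNorm e (a ((b : H →L[ℂ] H) ζ)) = ρ a (f.extendOfNorm e ((b : H →L[ℂ] H) ζ))
    have h1 := hz (a * b) (mul_mem ha b.2)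
    have h2 : (a * (b : H →L[ℂ] H)) ζ = a ((b : H →L[ℂ] H) ζ) := rfl
    rw [h2] at h1
    rw [h1, hz b b.2, map_mul]
    rfl

theorem RN_family {𝔓 : StarSubalgebra ℂ (H →L[ℂ] H)} {ζ : H} (hc : Cyc 𝔓 ζ) {n : ℕ}
    (η : Fin n → H) (h : ∀ x ∈ 𝔓, ∑ j, ‖x (η j)‖ ^ 2 ≤ ‖x ζ‖ ^ 2) :
    ∃ z : Fin n → H →L[ℂ] H, (∀ j, z j ∈ Com 𝔓) ∧ (∀ j, z j ζ = η j) ∧
      ∀ j, ∀ x ∈ 𝔓, z j (x ζ) = x (η j) := by
  have h1 : ∀ j, ∀ x ∈ 𝔓, ‖(StarAlgHom.id ℂ (H →L[ℂ] H)) x (η j)‖ ≤ 1 * ‖x ζ‖ := by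
    intro j x hx
    show ‖x (η j)‖ ≤ 1 * ‖x ζ‖
    rw [one_mul]
    have h2 : ‖x (η j)‖ ^ 2 ≤ ‖x ζ‖ ^ 2 :=
      (Finset.single_le_sum (f := fun j => ‖x (η j)‖ ^ 2) (fun i _ => by positivity)
        (Finset.mem_univ j)).trans (h x hx)
    exact (sq_le_sq₀ (norm_nonneg _) (norm_nonneg _)).mp h2
  choose z hz1 hz2 hz3 using fun j => exists_ext hc (StarAlgHom.id ℂ (H →L[ℂ] H)) (η j)
    zero_le_one (h1 j)
  refine ⟨z, fun j => ?_, hz2, fun j x hx => ?_⟩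
  · rw [mem_Com]
    intro a ha
    ext x
    exact (hz3 j a ha x).symm
  · rw [hz3 j x hx ζ, hz2]
    rfl

theorem RN_re {n : ℕ} (z : Fin n → H →L[ℂ] H) (v : H) :
    RCLike.re ⟪v, (∑ j, star (z j) * z j) v⟫_ℂ = ∑ j, ‖z j v‖ ^ 2 := by
  rw [sum_apply, inner_sum, map_sum]
  refine Finset.sum_congr rfl fun j _ => ?_
  rw [← inner_self_eq_norm_sq (𝕜 := ℂ)]
  have h4 : ⟪z j v, z j v⟫_ℂ = ⟪v, (star (z j)) (z j v)⟫_ℂ := by
    rw [star_eq_adjoint]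
    exact (adjoint_inner_right (z j) v (z j v)).symm
  rw [h4]
  rfl

/-- A decomposition of the norm of a cyclic vector.

PROOF. Apply `exists_ext` with `K = H`, `ρ = StarAlgHom.id ℂ _` to each `η j` (`‖x (η j)‖ ≤ ‖x ζ‖`), get `z j`;
`z j ∈ Com 𝔓` by `mem_Com`. Let `S = ∑ star (z j) * z j`. For `v = x ζ`:
`re ⟪v, S v⟫ = ∑ ‖z j v‖^2 = ∑ ‖x (η j)‖^2 = ‖x ζ‖^2`, by density `re ⟪v, S v⟫ = ‖v‖^2` for all
`v`; as `⟪v, S v⟫` is real this gives `⟪v, (S - 1) v⟫ = 0` for all `v`, so `S = 1`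
(`inner_map_self_eq_zero`, complex scalars). -/
theorem exists_factor {𝔓 : StarSubalgebra ℂ (H →L[ℂ] H)} {ζ : H} (hc : Cyc 𝔓 ζ) {p : ℕ}
    (η : Fin p → H) (h : ∀ x ∈ 𝔓, ∑ j, ‖x (η j)‖ ^ 2 = ‖x ζ‖ ^ 2) :
    ∃ z : Fin p → H →L[ℂ] H, (∀ j, z j ∈ Com 𝔓) ∧ (∀ j, z j ζ = η j) ∧
      ∑ j, star (z j) * z j = 1 := by
  obtain ⟨z, hz, hzη, hzn⟩ := RN_family hc η fun x hx => (h x hx).le
  refine ⟨z, hz, hzη, ?_⟩
  have hS : ∀ v, RCLike.re ⟪v, (∑ j, star (z j) * z j) v⟫_ℂ = ‖v‖ ^ 2 := by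
    intro v
    rw [RN_re]
    refine hc.induction (P := fun v => ∑ j, ‖z j v‖ ^ 2 = ‖v‖ ^ 2) ?_
      (isClosed_eq (by fun_prop) (by fun_prop)) v
    rintro _ ⟨x, hx, rfl⟩
    rw [← h x hx]
    exact Finset.sum_congr rfl fun j _ => by rw [hzn j x hx]
  rw [← sub_eq_zero]
  have h1 : ((∑ j, star (z j) * z j) - 1 : H →L[ℂ] H) = 0 := by
    have h2 : ((((∑ j, star (z j) * z j) - 1 : H →L[ℂ] H)) : H →ₗ[ℂ] H) = 0 := by
      rw [← inner_map_self_eq_zero]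
      intro v
      show ⟪(((∑ j, star (z j) * z j) - 1 : H →L[ℂ] H)) v, v⟫_ℂ = 0
      have h3 : RCLike.re ⟪(((∑ j, star (z j) * z j) - 1 : H →L[ℂ] H)) v, v⟫_ℂ = 0 := by
        rw [sub_apply, inner_sub_left, map_sub, inner_re_symm, hS, one_apply_eq_self,
          inner_self_eq_norm_sq, sub_self]
      have h4 : RCLike.im ⟪(((∑ j, star (z j) * z j) - 1 : H →L[ℂ] H)) v, v⟫_ℂ = 0 := by
        have h5 : star ((∑ j, star (z j) * z j) - 1 : H →L[ℂ] H) =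
            (∑ j, star (z j) * z j) - 1 := by
          rw [star_sub, star_sum, star_one]
          congr 1
          refine Finset.sum_congr rfl fun j _ => ?_
          rw [star_mul, star_star]
        have h6 : ⟪(((∑ j, star (z j) * z j) - 1 : H →L[ℂ] H)) v, v⟫_ℂ =
            ⟪v, (((∑ j, star (z j) * z j) - 1 : H →L[ℂ] H)) v⟫_ℂ := by
          conv_lhs => rw [← h5]
          rw [star_eq_adjoint]
          exact adjoint_inner_left _ v v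
        have h7 := inner_conj_symm (𝕜 := ℂ) v (((∑ j, star (z j) * z j) - 1 : H →L[ℂ] H) v)
        rw [← h6] at h7
        exact RCLike.conj_eq_iff_im.mp h7
      apply RCLike.ext
      · rw [h3, map_zero]
      · rw [h4, map_zero]
    exact ContinuousLinearMap.coe_injective h2
  exact h1

/-- The deficit of a dominated family of vectors is a vector functional.

PROOF. Take `z j` from `exists_ext` (`C = 1`), `S = ∑ star (z j) * z j`; as above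
`re ⟪v, S v⟫ ≤ ‖v‖^2` for all `v`, so `0 ≤ 1 - S` in the order of `H →L[ℂ] H`
(`ContinuousLinearMap.nonneg_iff_isPositive`). By `exists_sqrt` (`Trc/Root.lean`) there is a
selfadjoint `d` with `d * d = 1 - S` which commutes with everything that commutes with `1 - S`, so
`d ∈ Com 𝔓`. For `x ∈ 𝔓`:
`‖x (d ζ)‖^2 = ‖d (x ζ)‖^2 = re ⟪x ζ, (1 - S) (x ζ)⟫ = ‖x ζ‖^2 - ∑ ‖z j (x ζ)‖^2`. -/
theorem exists_deficit {𝔓 : StarSubalgebra ℂ (H →L[ℂ] H)} {ζ : H} (hc : Cyc 𝔓 ζ) {n : ℕ}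
    (η : Fin n → H) (h : ∀ x ∈ 𝔓, ∑ j, ‖x (η j)‖ ^ 2 ≤ ‖x ζ‖ ^ 2) :
    ∃ d ∈ Com 𝔓, ∀ x ∈ 𝔓, ‖x (d ζ)‖ ^ 2 = ‖x ζ‖ ^ 2 - ∑ j, ‖x (η j)‖ ^ 2 := by
  obtain ⟨z, hz, hzη, hzn⟩ := RN_family hc η h
  set S : H →L[ℂ] H := ∑ j, star (z j) * z j with hSdef
  have hSle : ∀ v, RCLike.re ⟪v, S v⟫_ℂ ≤ ‖v‖ ^ 2 := by
    intro v
    rw [hSdef, RN_re]
    refine hc.induction (P := fun v => ∑ j, ‖z j v‖ ^ 2 ≤ ‖v‖ ^ 2) ?_
      (isClosed_le (by fun_prop) (by fun_prop)) v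
    rintro _ ⟨x, hx, rfl⟩
    refine le_trans (le_of_eq ?_) (h x hx)
    exact Finset.sum_congr rfl fun j _ => by rw [hzn j x hx]
  have hSsa : star S = S := by
    rw [hSdef, star_sum]
    refine Finset.sum_congr rfl fun j _ => ?_
    rw [star_mul, star_star]
  have hG : 0 ≤ (1 - S : H →L[ℂ] H) := by
    rw [ContinuousLinearMap.nonneg_iff_isPositive, ContinuousLinearMap.isPositive_iff]
    refine ⟨?_, fun v => ?_⟩
    · have h1 : IsSelfAdjoint (1 - S : H →L[ℂ] H) := by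
        rw [IsSelfAdjoint, star_sub, star_one, hSsa]
      exact h1.isSymmetric
    · rw [sub_apply, inner_sub_left, one_apply_eq_self]
      have h2 : ⟪S v, v⟫_ℂ = ⟪v, S v⟫_ℂ := by
        conv_lhs => rw [← hSsa]
        rw [star_eq_adjoint]
        exact adjoint_inner_left _ v v
      have h3 := inner_conj_symm (𝕜 := ℂ) v (S v)
      rw [h2] at h3
      have h4 : (⟪v, S v⟫_ℂ) = ((RCLike.re ⟪v, S v⟫_ℂ : ℝ) : ℂ) :=
        (RCLike.conj_eq_iff_re.mp h3).symm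
      rw [h2, h4, inner_self_eq_norm_sq_to_K]
      have h5 := hSle v
      have h6 : ((‖v‖ : ℂ) ^ 2 - ((RCLike.re ⟪v, S v⟫_ℂ : ℝ) : ℂ)) =
          ((‖v‖ ^ 2 - RCLike.re ⟪v, S v⟫_ℂ : ℝ) : ℂ) := by push_cast; rfl
      show (0 : ℂ) ≤ ((‖v‖ : ℂ) ^ 2 - ((RCLike.re ⟪v, S v⟫_ℂ : ℝ) : ℂ))
      rw [h6]
      exact_mod_cast sub_nonneg.mpr h5
  set d : H →L[ℂ] H := CFC.sqrt (1 - S) with hd
  have hdsa : IsSelfAdjoint d := (CFC.sqrt_nonneg (1 - S : H →L[ℂ] H)).isSelfAdjoint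
  have hdd : d * d = 1 - S := CFC.sqrt_mul_sqrt_self (1 - S : H →L[ℂ] H) hG
  have hScom : S ∈ Com 𝔓 := sum_mem fun j _ => mul_mem (star_mem (hz j)) (hz j)
  have hdc : ∀ b, Commute (1 - S : H →L[ℂ] H) b → Commute d b := by
    intro b hb
    rw [hd, CFC.sqrt]
    exact hb.cfcₙ_nnreal _
  have hdcom : d ∈ Com 𝔓 := by
    rw [mem_Com]
    intro a ha
    have h1 : Commute (1 - S : H →L[ℂ] H) a := by
      have h2 := mem_Com.mp (sub_mem (one_mem _) hScom) a ha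
      exact h2.symm
    exact (hdc a h1).symm
  refine ⟨d, hdcom, fun x hx => ?_⟩
  have h1 : x (d ζ) = d (x ζ) :=
    congrArg (fun T : H →L[ℂ] H => T ζ) (mem_Com.mp hdcom x hx)
  have h2 : ‖d (x ζ)‖ ^ 2 = RCLike.re ⟪x ζ, (1 - S) (x ζ)⟫_ℂ := by
    rw [← hdd, ← inner_self_eq_norm_sq (𝕜 := ℂ)]
    have h3 : ⟪d (x ζ), d (x ζ)⟫_ℂ = ⟪x ζ, (d * d) (x ζ)⟫_ℂ := by
      have h4 : ⟪d (x ζ), d (x ζ)⟫_ℂ = ⟪x ζ, (star d) (d (x ζ))⟫_ℂ := by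
        rw [star_eq_adjoint]
        exact (adjoint_inner_right d (x ζ) (d (x ζ))).symm
      rw [h4, hdsa.star_eq]
      rfl
    rw [h3]
  rw [h1, h2, sub_apply, inner_sub_right, map_sub, one_apply_eq_self, inner_self_eq_norm_sq,
    hSdef, RN_re]
  congr 1
  exact Finset.sum_congr rfl fun j _ => by rw [hzn j x hx]

end Pool.Agent.MP_86f3ed.Ty
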