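import Pool.Agent.H.MP_86f3ed_an.Ty.CB
import Pool.Agent.H.MP_86f3ed_an.Ty.RN

open scoped InnerProductSpace Topology
open Filter ContinuousLinearMap

namespace Pool.Agent.MP_86f3ed.Ty

open Pin

variable {H : Type*} [NormedAddCommGroup H] [InnerProductSpace ℂ H] [CompleteSpace H]

/-- The closed invariant subspace generated by a vector. -/
theorem Cuntz_orbit (𝔓 : StarSubalgebra ℂ (H →L[ℂ] H)) (ξ : H) :
    ∃ K : Submodule ℂ H, IsClosed (K : Set H) ∧ ξ ∈ K ∧ (∀ a ∈ 𝔓, ∀ v ∈ K, a v ∈ K) ∧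
      ∀ v ∈ K, v ∈ closure {x : H | ∃ a ∈ 𝔓, x = a ξ} := by
  let K₀ : Submodule ℂ H :=
    { carrier := {x : H | ∃ a ∈ 𝔓, x = a ξ}
      add_mem' := by
        rintro _ _ ⟨a, ha, rfl⟩ ⟨b, hb, rfl⟩
        exact ⟨a + b, add_mem ha hb, by rw [add_apply]⟩
      zero_mem' := ⟨0, zero_mem _, by simp⟩
      smul_mem' := by
        rintro c _ ⟨a, ha, rfl⟩
        exact ⟨c • a, 𝔓.smul_mem ha c, by rw [smul_apply]⟩ }
  refine ⟨K₀.topologicalClosure, K₀.isClosed_topologicalClosure, ?_, ?_, ?_⟩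
  · exact K₀.le_topologicalClosure ⟨1, 𝔓.one_mem, by simp⟩
  · intro a ha v hv
    have h1 : a v ∈ closure (K₀ : Set H) := by
      refine map_mem_closure a.continuous (s := (K₀ : Set H)) ?_ ?_
      · exact hv
      · rintro _ ⟨b, hb, rfl⟩
        exact ⟨a * b, mul_mem ha hb, rfl⟩
    exact h1
  · intro v hv
    exact hv

/-- Isometries with orthogonal ranges.

PROOF. From `hPI 1 ..` get `v, w` with `star v * v = 1 = star w * w`, `star v * w = 0`. Put
`s j = v ^ (j : ℕ) * w`. `star (v^i w) * (v^j w) = star w * star v ^ i * v ^ j * w`: for `i = j` it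
is `1`, for `i < j` it is `star w * v ^ (j-i) * w` and `star w * v = star (star v * w) = 0`; for
`i > j` take adjoints. -/
theorem exists_isoms {𝔓 : StarSubalgebra ℂ (H →L[ℂ] H)} (h1 : (1 : H →L[ℂ] H) ≠ 0)
    (hPI : PurelyInfinite (𝔓 : Set (H →L[ℂ] H))) (p : ℕ) :
    ∃ s : Fin p → H →L[ℂ] H, (∀ j, s j ∈ 𝔓) ∧
      ∀ i j, star (s i) * s j = if i = j then 1 else 0 := by
  obtain ⟨v, hv, w, hw, hvv, hww, hvw, _, _⟩ :=
    hPI 1 𝔓.one_mem (star_one _) (mul_one _) h1
  have hwv : star w * v = 0 := by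
    have := congrArg star hvw
    rwa [star_mul, star_star, star_zero] at this
  have hpow : ∀ n : ℕ, star v ^ n * v ^ n = 1 := by
    intro n
    induction n with
    | zero => simp
    | succ n ih =>
      rw [pow_succ, pow_succ', mul_assoc, ← mul_assoc (star v) v, hvv, one_mul, ih]
  refine ⟨fun j => v ^ (j : ℕ) * w, fun j => mul_mem (pow_mem hv _) hw, ?_⟩
  intro i j
  have e0 : star (v ^ (i : ℕ) * w) * (v ^ (j : ℕ) * w) =
      star w * (star v ^ (i : ℕ) * v ^ (j : ℕ)) * w := by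
    rw [star_mul, star_pow]
    simp only [mul_assoc]
  show star (v ^ (i : ℕ) * w) * (v ^ (j : ℕ) * w) = _
  rw [e0]
  rcases lt_trichotomy (i : ℕ) (j : ℕ) with h | h | h
  · have hij : i ≠ j := fun e => by rw [e] at h; exact lt_irrefl _ h
    rw [if_neg hij]
    obtain ⟨k, hk⟩ := Nat.exists_eq_add_of_lt h
    have e1 : v ^ (j : ℕ) = v ^ (i : ℕ) * (v * v ^ k) := by
      rw [hk, ← pow_succ', ← pow_add]
      congr 1
    rw [e1, ← mul_assoc (star v ^ (i : ℕ)), hpow, one_mul, ← mul_assoc, hwv, zero_mul, zero_mul]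
  · have hij : i = j := Fin.ext h
    rw [if_pos hij, hij, hpow, mul_one, hww]
  · have hij : i ≠ j := fun e => by rw [e] at h; exact lt_irrefl _ h
    rw [if_neg hij]
    obtain ⟨k, hk⟩ := Nat.exists_eq_add_of_lt h
    have e1 : star v ^ (i : ℕ) = star v ^ k * star v * star v ^ (j : ℕ) := by
      rw [hk, ← pow_succ, ← pow_add]
      congr 1
      omega
    rw [e1, mul_assoc (star v ^ k * star v), hpow, mul_one, mul_assoc, mul_assoc, hvw, mul_zero,
      mul_zero]

/-- A pair of isometries whose ranges are complementary.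

PROOF. From `hPI 1 ..` get `v, w` with `star v * v = 1 = star w * w`, `star v * w = 0`. Let
`q = 1 - v * star v`, a projection of `Com 𝔓` with `q * w = w` (because
`v * star v * w = 0`). `cantor_bernstein` gives `w' ∈ Com 𝔓` with `star w' * w' = 1`,
`w' * star w' = q`. Then `v * star v + w' * star w' = 1`, and `star v * w' = star v * q * w' = 0`
since `star v * q = star v - star v = 0` (`w' = q * w'` follows from `w' = w' * star w' * w'`). -/
theorem exists_cuntz {𝔓 : StarSubalgebra ℂ (H →L[ℂ] H)} (h1 : (1 : H →L[ℂ] H) ≠ 0)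
    (hPI : PurelyInfinite (Com 𝔓 : Set (H →L[ℂ] H))) :
    ∃ v ∈ Com 𝔓, ∃ w ∈ Com 𝔓, star v * v = 1 ∧ star w * w = 1 ∧ star v * w = 0 ∧
      v * star v + w * star w = 1 := by
  obtain ⟨v, hv, w, hw, hvv, hww, hvw, _, _⟩ :=
    hPI 1 (Com 𝔓).one_mem (star_one _) (mul_one _) h1
  have hvs : star v * (v * star v) = star v := by rw [← mul_assoc, hvv, one_mul]
  have hq : (1 - v * star v) ∈ Com 𝔓 :=
    sub_mem (Com 𝔓).one_mem (mul_mem hv (star_mem hv))
  have hqs : star (1 - v * star v) = 1 - v * star v := by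
    rw [star_sub, star_one, star_mul, star_star]
  have hqq : (1 - v * star v) * (1 - v * star v) = 1 - v * star v := by
    rw [mul_sub, mul_one, sub_mul, one_mul, mul_assoc v, hvs, sub_self, sub_zero]
  have hqw : (1 - v * star v) * w = w := by
    rw [sub_mul, one_mul, mul_assoc, hvw, mul_zero, sub_zero]
  obtain ⟨w', hw', hww', hq'⟩ := cantor_bernstein hw hww hq hqs hqq hqw
  refine ⟨v, hv, w', hw', hvv, hww', ?_, ?_⟩
  · have e1 : w' = (1 - v * star v) * w' := by
      rw [← hq', mul_assoc, hww', mul_one]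
    rw [e1, ← mul_assoc, mul_sub, mul_one, hvs, sub_self, zero_mul]
  · rw [hq']
    abel

/-- If the commutant of `𝔓` is purely infinite then `𝔓` has a cyclic unit vector.

PROOF. Take any `ξ ≠ 0` (it exists as `(1 : H →L[ℂ] H) ≠ 0`). Let `K` be the closure of the
subspace `{x ξ : x ∈ 𝔓}` and `e = K.starProjection`; `e ∈ Com 𝔓` by `proj_mem_Com` and `e ξ = ξ`
so `e ≠ 0`. `hPI e ..` gives `v ∈ Com 𝔓` with `star v * v = 1`, `e * v = v`. Let
`ζ' = star v ξ`. For every `z : H`: `v z ∈ K` (as `e (v z) = v z`), so `v z` is a limit of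
`x_i ξ`, `x_i ∈ 𝔓`; then `z = star v (v z) = lim star v (x_i ξ) = lim x_i (star v ξ)` (as
`star v ∈ Com 𝔓`). So `{x ζ'}` is dense; in particular `ζ' ≠ 0` and `ζ = ‖ζ'‖⁻¹ • ζ'` is a cyclic
unit vector (`(‖ζ'‖ • x) ζ = x ζ'`). -/
theorem exists_cyc {𝔓 : StarSubalgebra ℂ (H →L[ℂ] H)} (h1 : (1 : H →L[ℂ] H) ≠ 0)
    (hPI : PurelyInfinite (Com 𝔓 : Set (H →L[ℂ] H))) : ∃ ζ : H, ‖ζ‖ = 1 ∧ Cyc 𝔓 ζ := by
  obtain ⟨ξ, hξ⟩ : ∃ ξ : H, ξ ≠ 0 := by
    by_contra h2
    push Not at h2
    exact h1 (ContinuousLinearMap.ext fun x => by rw [h2 x]; simp)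
  obtain ⟨K, hKc, hξK, hKi, hKd⟩ := Cuntz_orbit 𝔓 ξ
  have : CompleteSpace K := hKc.completeSpace_coe
  have he := proj_mem_Com 𝔓 K hKi
  have heξ : K.starProjection ξ = ξ := Submodule.starProjection_eq_self_iff.mpr hξK
  have hes : star K.starProjection = K.starProjection := by
    rw [ContinuousLinearMap.star_eq_adjoint]
    exact (ContinuousLinearMap.eq_adjoint_iff _ _).mpr
      (fun x y => (K.inner_starProjection_left_eq_right x y)) |>.symm
  have hee : K.starProjection * K.starProjection = K.starProjection := by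
    ext x
    exact Submodule.starProjection_eq_self_iff.mpr (Submodule.starProjection_apply_mem _ _)
  have he0 : K.starProjection ≠ 0 := by
    intro h
    rw [h] at heξ
    exact hξ heξ.symm
  obtain ⟨v, hv, _, _, hvv, _, _, hev, _⟩ := hPI K.starProjection he hes hee he0
  have hsv : star v ∈ Com 𝔓 := star_mem hv
  have hdense : ∀ z : H, z ∈ closure {x : H | ∃ a ∈ 𝔓, x = a (star v ξ)} := by
    intro z
    have hz1 : v z ∈ K := by
      rw [← Submodule.starProjection_eq_self_iff]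
      exact congrArg (fun T : H →L[ℂ] H => T z) hev
    have hz2 : z = star v (v z) := (congrArg (fun T : H →L[ℂ] H => T z) hvv).symm
    rw [hz2]
    refine map_mem_closure (star v).continuous (hKd _ hz1) ?_
    rintro _ ⟨a, ha, rfl⟩
    exact ⟨a, ha, (congrArg (fun T : H →L[ℂ] H => T ξ) (mem_Com.mp hsv a ha)).symm⟩
  have hne : star v ξ ≠ 0 := by
    intro h0
    have := hdense ξ
    have h3 : {x : H | ∃ a ∈ 𝔓, x = a (star v ξ)} ⊆ {0} := by
      rintro _ ⟨a, _, rfl⟩
      rw [h0, map_zero]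
      rfl
    have h4 := closure_mono h3 this
    rw [closure_singleton] at h4
    exact hξ h4
  have hn : 0 < ‖star v ξ‖ := norm_pos_iff.mpr hne
  refine ⟨((‖star v ξ‖⁻¹ : ℝ) : ℂ) • star v ξ, ?_, ?_⟩
  · rw [norm_smul, Complex.norm_real, Real.norm_of_nonneg (inv_nonneg.mpr hn.le),
      inv_mul_cancel₀ hn.ne']
  · intro z
    refine closure_mono ?_ (hdense z)
    rintro _ ⟨a, ha, rfl⟩
    refine ⟨((‖star v ξ‖ : ℝ) : ℂ) • a, 𝔓.smul_mem ha _, ?_⟩
    rw [smul_apply, map_smul, smul_smul, ← Complex.ofReal_mul, mul_inv_cancel₀ hn.ne',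
      Complex.ofReal_one, one_smul]

/-- A vector which is separating for the commutant is cyclic.

PROOF. Let `K` be the closure of the subspace `{x ξ : x ∈ 𝔓}`, `e = K.starProjection ∈ Com 𝔓`
(`proj_mem_Com`). `(1 - e) ξ = 0`, so `1 - e = 0` by `hsep`, i.e. `K = ⊤` and the set is dense. -/
theorem cyc_of_sep {𝔓 : StarSubalgebra ℂ (H →L[ℂ] H)} {ξ : H}
    (hsep : ∀ a ∈ Com 𝔓, a ξ = 0 → a = 0) : Cyc 𝔓 ξ := by
  obtain ⟨K, hKc, hξK, hKi, hKd⟩ := Cuntz_orbit 𝔓 ξ
  have : CompleteSpace K := hKc.completeSpace_coe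
  have he := proj_mem_Com 𝔓 K hKi
  have heξ : K.starProjection ξ = ξ := Submodule.starProjection_eq_self_iff.mpr hξK
  have h0 : (1 : H →L[ℂ] H) - K.starProjection = 0 := by
    refine hsep _ (sub_mem (Com 𝔓).one_mem he) ?_
    show ξ - K.starProjection ξ = 0
    rw [heξ, sub_self]
  intro z
  refine hKd z ?_
  rw [← Submodule.starProjection_eq_self_iff]
  have h1 := congrArg (fun T : H →L[ℂ] H => T z) h0
  simp only [sub_apply, zero_apply] at h1
  exact (sub_eq_zero.mp h1).symm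

/-- A cyclic vector is separating for the commutant.

PROOF. `a (x ξ) = x (a ξ) = 0` for `x ∈ 𝔓`, so `a = 0` by density and continuity. -/
theorem sep_of_cyc {𝔓 : StarSubalgebra ℂ (H →L[ℂ] H)} {ξ : H} (hc : Cyc 𝔓 ξ)
    {a : H →L[ℂ] H} (ha : a ∈ Com 𝔓) (h : a ξ = 0) : a = 0 := by
  refine ContinuousLinearMap.ext fun z => ?_
  have hz := hc z
  have hcl : IsClosed {z : H | a z = 0} := isClosed_eq a.continuous continuous_const
  have hsub : {x : H | ∃ b ∈ 𝔓, x = b ξ} ⊆ {z : H | a z = 0} := by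
    rintro _ ⟨b, hb, rfl⟩
    have h1 := congrArg (fun T : H →L[ℂ] H => T ξ) (mem_Com.mp ha b hb)
    show a (b ξ) = 0
    have h2 : b (a ξ) = a (b ξ) := h1
    rw [← h2, h, map_zero]
  exact closure_minimal hsub hcl hz

end Pool.Agent.MP_86f3ed.Ty
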