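import Pool.Agent.H.MP_86f3ed_an.Ty.VarB

open scoped InnerProductSpace Topology
open Filter ContinuousLinearMap

namespace Pool.Agent.MP_86f3ed.Ty

open Pin

variable {H : Type*} [NormedAddCommGroup H] [InnerProductSpace ℂ H] [CompleteSpace H]

/-- Uniform convexity for an average of vectors of norm at most one.

PROOF. Let `m = ∑ j, (1/p) • w j`. `∑ j, (1/p) ‖w j - m‖^2 = ∑ (1/p) ‖w j‖^2 - ‖m‖^2 ≤ 1 - ‖m‖^2`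
(expand, `∑ 1/p = 1`) and `‖m‖ ≥ ‖x‖ - s = 1 - s`. If `s ≤ 1`, `1 - ‖m‖^2 ≤ 1 - (1-s)^2 ≤ 2 s`; if
`s > 1` then `1 - ‖m‖^2 ≤ 1 ≤ 2 s` as well. So `‖w j - m‖^2 ≤ 2 p s` for each `j`, and
`‖w j - x‖ ≤ √(2 p s) + s`. -/
theorem cvx {G : Type*} [NormedAddCommGroup G] [InnerProductSpace ℂ G] {p : ℕ} (hp : 0 < p)
    {x : G} (hx : ‖x‖ = 1) (w : Fin p → G) (hw : ∀ j, ‖w j‖ ≤ 1) {s : ℝ} (hs : 0 ≤ s)
    (h : ‖x - ∑ j, ((1 / p : ℝ) : ℂ) • w j‖ ≤ s) (j : Fin p) : ‖w j - x‖ ≤ √(2 * p * s) + s := by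
  set m : G := ∑ j, ((1 / p : ℝ) : ℂ) • w j with hm
  have hpR : (0 : ℝ) < p := by exact_mod_cast hp
  have hsum : ∑ j, w j = ((p : ℝ) : ℂ) • m := by
    rw [hm, Finset.smul_sum]
    refine Finset.sum_congr rfl fun j _ => ?_
    rw [smul_smul, ← Complex.ofReal_mul, mul_one_div_cancel hpR.ne', Complex.ofReal_one, one_smul]
  have hm1 : 1 - s ≤ ‖m‖ := by
    have h1 := (norm_sub_norm_le x m).trans h
    rw [hx] at h1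
    linarith
  have h2 : ∑ j, RCLike.re ⟪w j, m⟫_ℂ = p * ‖m‖ ^ 2 := by
    rw [← map_sum, ← sum_inner, hsum, inner_smul_left, Complex.conj_ofReal,
      inner_self_eq_norm_sq_to_K]
    have h3 : ((p : ℝ) : ℂ) * ((‖m‖ : ℝ) : ℂ) ^ 2 = ((p * ‖m‖ ^ 2 : ℝ) : ℂ) := by push_cast; rfl
    exact (congrArg Complex.re h3).trans (Complex.ofReal_re _)
  have hvar : ∑ j, ‖w j - m‖ ^ 2 = ∑ j, ‖w j‖ ^ 2 - p * ‖m‖ ^ 2 := by
    have h1 : ∀ j, ‖w j - m‖ ^ 2 = ‖w j‖ ^ 2 - 2 * RCLike.re ⟪w j, m⟫_ℂ + ‖m‖ ^ 2 :=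
      fun j => norm_sub_sq (𝕜 := ℂ) _ _
    simp_rw [h1]
    rw [Finset.sum_add_distrib, Finset.sum_sub_distrib, ← Finset.mul_sum, h2, Finset.sum_const,
      Finset.card_univ, Fintype.card_fin, nsmul_eq_mul]
    ring
  have hle : ‖w j - m‖ ^ 2 ≤ 2 * p * s := by
    have h3 : ‖w j - m‖ ^ 2 ≤ ∑ j, ‖w j - m‖ ^ 2 :=
      Finset.single_le_sum (f := fun j => ‖w j - m‖ ^ 2) (fun i _ => sq_nonneg _)
        (Finset.mem_univ j)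
    have h4 : ∑ j, ‖w j‖ ^ 2 ≤ p := by
      calc ∑ j, ‖w j‖ ^ 2 ≤ ∑ _j : Fin p, (1 : ℝ) :=
            Finset.sum_le_sum fun i _ => pow_le_one₀ (norm_nonneg _) (hw i)
        _ = p := by simp
    have h5 : 1 - ‖m‖ ^ 2 ≤ 2 * s := by
      rcases le_or_gt s 1 with h6 | h6
      · nlinarith [norm_nonneg m]
      · nlinarith [sq_nonneg ‖m‖]
    nlinarith
  have h6 : ‖w j - m‖ ≤ √(2 * p * s) := Real.le_sqrt_of_sq_le hle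
  have h7 : ‖m - x‖ ≤ s := by rw [norm_sub_rev]; exact h
  calc ‖w j - x‖ = ‖(w j - m) + (m - x)‖ := by rw [sub_add_sub_cancel]
    _ ≤ ‖w j - m‖ + ‖m - x‖ := norm_add_le _ _
    _ ≤ √(2 * p * s) + s := add_le_add h6 h7

/-- If a contraction in the commutant nearly preserves the norm of a unit vector then it nearly
preserves its functional.

PROOF. Let `W = adjoint V`, `r = ‖W ξ - x‖`-bound. `vf (W ξ) Z = ⟪W ξ, am Z (W ξ)⟫ =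
⟪ξ, am Z (V (W ξ))⟫` (`V` commutes with `am Z`). So `vf ξ Z - vf (W ξ) Z =
⟪ξ, am Z (ξ - V (W ξ))⟫` and `‖ξ - V (W ξ)‖^2 = ‖ξ‖^2 - 2 ‖W ξ‖^2 + ‖V (W ξ)‖^2 ≤ 1 - ‖W ξ‖^2 ≤ 2 r`
(`‖W ξ‖ ≥ 1 - r`; if `r > 1` trivial since then `1 - ‖W ξ‖^2 ≤ 1 ≤ 2 r`). So
`‖vf ξ Z - vf (W ξ) Z‖ ≤ √(2 r) ‖Z‖`. And
`‖vf (W ξ) Z - vf x Z‖ ≤ ‖Z‖ ‖W ξ - x‖ (‖W ξ‖ + ‖x‖) ≤ 2 r ‖Z‖`. -/
theorem vf_near {n : ℕ} {V : KK H n →L[ℂ] KK H n} (hV : IsR V) (hV1 : ∀ ξ, ‖V ξ‖ ≤ ‖ξ‖)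
    {ξ x : KK H n} (hξ : ‖ξ‖ = 1) (hx : ‖x‖ = 1) {r : ℝ} (hr : 0 ≤ r)
    (h : ‖adjoint V ξ - x‖ ≤ r) (Z : H →L[ℂ] H) :
    ‖vf ξ Z - vf x Z‖ ≤ (√(2 * r) + 2 * r) * ‖Z‖ := by
  set a : KK H n := adjoint V ξ with ha
  have hVn : ‖V‖ ≤ 1 := opNorm_le_bound _ zero_le_one fun v => by rw [one_mul]; exact hV1 v
  have ha1 : ‖a‖ ≤ 1 := by
    have h1 := le_opNorm (adjoint V) ξ
    rw [hξ, mul_one, LinearIsometryEquiv.norm_map] at h1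
    exact h1.trans hVn
  have ha2 : 1 - r ≤ ‖a‖ := by
    have h1 := norm_sub_norm_le x a
    rw [norm_sub_rev, hx] at h1
    linarith [h1.trans h]
  have h1 : RCLike.re ⟪ξ, V a⟫_ℂ = ‖a‖ ^ 2 := by
    rw [← adjoint_inner_left, ← ha, inner_self_eq_norm_sq_to_K]
    have h3 : ((‖a‖ : ℝ) : ℂ) ^ 2 = ((‖a‖ ^ 2 : ℝ) : ℂ) := by push_cast; rfl
    exact (congrArg Complex.re h3).trans (Complex.ofReal_re _)
  have h2 : ‖ξ - V a‖ ^ 2 ≤ 2 * r := by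
    have h3 := norm_sub_sq (𝕜 := ℂ) ξ (V a)
    rw [h1, hξ] at h3
    have h4 : ‖V a‖ ^ 2 ≤ ‖a‖ ^ 2 := pow_le_pow_left₀ (norm_nonneg _) (hV1 a) 2
    have h5 : 1 - ‖a‖ ^ 2 ≤ 2 * r := by
      rcases le_or_gt r 1 with h6 | h6
      · nlinarith [norm_nonneg a]
      · nlinarith [sq_nonneg ‖a‖]
    rw [h3]
    linarith
  have h3 : ‖ξ - V a‖ ≤ √(2 * r) := Real.le_sqrt_of_sq_le h2
  have h4 : vf ξ Z - vf a Z = ⟪ξ, am H n Z (ξ - V a)⟫_ℂ := by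
    rw [map_sub, inner_sub_right, ← hV, ← adjoint_inner_left V]
    rfl
  have h5 : vf a Z - vf x Z = ⟪a - x, am H n Z a⟫_ℂ + ⟪x, am H n Z (a - x)⟫_ℂ := by
    rw [map_sub, inner_sub_right, inner_sub_left]
    show ⟪a, am H n Z a⟫_ℂ - ⟪x, am H n Z x⟫_ℂ = _
    ring
  have h6 : ‖vf ξ Z - vf a Z‖ ≤ √(2 * r) * ‖Z‖ := by
    rw [h4]
    refine (norm_inner_le_norm _ _).trans ?_
    rw [hξ, one_mul]
    refine (norm_am_apply_le _ _).trans ?_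
    rw [mul_comm]
    exact mul_le_mul_of_nonneg_right h3 (norm_nonneg _)
  have h7 : ‖vf a Z - vf x Z‖ ≤ 2 * r * ‖Z‖ := by
    rw [h5]
    have h8 : ‖⟪a - x, am H n Z a⟫_ℂ‖ ≤ r * ‖Z‖ := by
      refine (norm_inner_le_norm _ _).trans ?_
      refine mul_le_mul h ?_ (norm_nonneg _) hr
      refine (norm_am_apply_le _ _).trans ?_
      exact mul_le_of_le_one_right (norm_nonneg _) ha1
    have h9 : ‖⟪x, am H n Z (a - x)⟫_ℂ‖ ≤ r * ‖Z‖ := by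
      refine (norm_inner_le_norm _ _).trans ?_
      rw [hx, one_mul]
      refine (norm_am_apply_le _ _).trans ?_
      rw [mul_comm]
      exact mul_le_mul_of_nonneg_right h (norm_nonneg _)
    refine (norm_add_le _ _).trans ?_
    linarith
  calc ‖vf ξ Z - vf x Z‖ = ‖(vf ξ Z - vf a Z) + (vf a Z - vf x Z)‖ := by rw [sub_add_sub_cancel]
    _ ≤ ‖vf ξ Z - vf a Z‖ + ‖vf a Z - vf x Z‖ := norm_add_le _ _
    _ ≤ (√(2 * r) + 2 * r) * ‖Z‖ := by rw [add_mul]; exact add_le_add h6 h7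

/-- The final form of the rigidity estimate.

PROOF. Take `κ₀', κ₁', V` from `exists_primes` and put `s = √(4 √(p (6 (p+2) δ)))`,
`ξ j = √p • am (y j) κ₁'`, `w j = adjoint (V j) (ξ j)`. `‖ξ j‖ = √p ‖y j z₁‖ = √p √(1/p) ‖z₀‖ = 1`
(exact mass of `κ₁'` for `c = y j`, `norm_y_z` for `c = 1`), so `‖w j‖ ≤ 1`; and
`√(1/p) • adjoint (V j) (am (y j) κ₁') = (1/p) • w j`. So `cvx` (with `x = κ₀'`, `‖κ₀'‖ = ‖z₀‖ = 1`)
gives `‖w j - κ₀'‖ ≤ r := √(2 p s) + s` and `vf_near` gives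
`‖vf (ξ j) Z - vf κ₀' Z‖ ≤ (√(2 r) + 2 r) ‖Z‖`. Finally `vf (ξ j) Z = p * vf κ₁' (star (y j) * Z * y j)`
(`vf_conj`), and we divide by `p ≥ 1`. -/
theorem rigid {𝔄 : StarSubalgebra ℂ (H →L[ℂ] H)} {n p : ℕ} (hp : 0 < p)
    {u : Fin p → H →L[ℂ] H} (hu : ∀ j, u j ∈ 𝔄) (huu : ∀ j, star (u j) * u j = 1)
    (L : Loop 𝔄 p u) {δ : ℝ} (hδ : 0 < δ) (D : Rig H n p L.y L.u' δ)
    (hm₀ : ∀ c ∈ Com 𝔄, ‖c L.z₀‖ ≤ ‖am H n c D.κ₀‖)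
    (hm₁ : ∀ c ∈ Com 𝔄, ‖c L.z₁‖ ≤ ‖am H n c D.κ₁‖) {s r : ℝ}
    (hs : s = √(4 * √(p * (6 * (p + 2) * δ)))) (hr : r = √(2 * p * s) + s) :
    ∃ κ₀' κ₁' : KK H n,
      (∀ c ∈ Com 𝔄, ‖am H n c κ₀'‖ = ‖c L.z₀‖) ∧ (∀ c ∈ Com 𝔄, ‖am H n c κ₁'‖ = ‖c L.z₁‖) ∧
      ∀ (j : Fin p) (Z : H →L[ℂ] H),
        ‖vf κ₁' (star (L.y j) * Z * L.y j) - ((1 / p : ℝ) : ℂ) * vf κ₀' Z‖ ≤
          (√(2 * r) + 2 * r) * ‖Z‖ := by
  obtain ⟨κ₀', κ₁', V, hk0, hk1, hVR, hVc, hest⟩ := exists_primes hp hu huu L hδ D hm₀ hm₁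
  refine ⟨κ₀', κ₁', hk0, hk1, fun j Z => ?_⟩
  have hpR : (0 : ℝ) < p := by exact_mod_cast hp
  have hsq : √(1 / (p : ℝ)) = (1 / p) * √p := by
    rw [Real.sqrt_div zero_le_one, Real.sqrt_one, one_div, one_div]
    have h1 : √(p : ℝ) * √(p : ℝ) = p := Real.mul_self_sqrt hpR.le
    have h2 : 0 < √(p : ℝ) := Real.sqrt_pos.mpr hpR
    field_simp
    nlinarith
  set ξ : Fin p → KK H n := fun j => ((√p : ℝ) : ℂ) • am H n (L.y j) κ₁' with hξd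
  have hone : (1 : H →L[ℂ] H) ∈ Com 𝔄 := (Com 𝔄).one_mem
  have hξ1 : ∀ j, ‖ξ j‖ = 1 := by
    intro j
    have h1 := norm_y_z hu huu L j hone
    have h2 : ‖L.y j L.z₁‖ = √(1 / p) := by
      have h3 : ‖L.y j L.z₁‖ = √(1 / p) * ‖L.z₀‖ := h1
      rw [h3, L.norm_z₀, mul_one]
    show ‖((√p : ℝ) : ℂ) • am H n (L.y j) κ₁'‖ = 1
    rw [norm_smul, hk1 _ (L.y_mem j), h2, Complex.norm_real, Real.norm_of_nonneg (Real.sqrt_nonneg _),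
      ← Real.sqrt_mul hpR.le, mul_one_div_cancel hpR.ne', Real.sqrt_one]
  have hw1 : ∀ j, ‖adjoint (V j) (ξ j)‖ ≤ 1 := by
    intro j
    have hVn : ‖V j‖ ≤ 1 := opNorm_le_bound _ zero_le_one fun v => by rw [one_mul]; exact hVc j v
    have h1 := le_opNorm (adjoint (V j)) (ξ j)
    rw [hξ1, mul_one, LinearIsometryEquiv.norm_map] at h1
    exact h1.trans hVn
  have hk0n : ‖κ₀'‖ = 1 := by
    have h1 := hk0 _ hone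
    rw [am_one_apply] at h1
    rw [h1]
    exact L.norm_z₀
  have hs0 : 0 ≤ s := by rw [hs]; exact Real.sqrt_nonneg _
  have hest2 : ‖κ₀' - ∑ j, ((1 / p : ℝ) : ℂ) • adjoint (V j) (ξ j)‖ ≤ s := by
    have h1 : ∑ j, ((1 / p : ℝ) : ℂ) • adjoint (V j) (ξ j) =
        ∑ j, ((√(1 / p) : ℝ) : ℂ) • adjoint (V j) (am H n (L.y j) κ₁') := by
      refine Finset.sum_congr rfl fun j _ => ?_
      show ((1 / p : ℝ) : ℂ) • adjoint (V j) (((√p : ℝ) : ℂ) • am H n (L.y j) κ₁') = _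
      rw [map_smul, smul_smul, ← Complex.ofReal_mul, ← hsq]
    rw [h1, hs]
    exact Real.le_sqrt_of_sq_le hest
  have hw := cvx hp hk0n (fun j => adjoint (V j) (ξ j)) hw1 hs0 hest2 j
  rw [← hr] at hw
  have hr0 : 0 ≤ r := by rw [hr]; exact add_nonneg (Real.sqrt_nonneg _) hs0
  have hnear := vf_near (hVR j) (hVc j) (hξ1 j) hk0n hr0 hw Z
  have hvf : vf (ξ j) Z = ((p : ℝ) : ℂ) * vf κ₁' (star (L.y j) * Z * L.y j) := by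
    rw [vf_conj]
    show ⟪((√p : ℝ) : ℂ) • am H n (L.y j) κ₁', am H n Z (((√p : ℝ) : ℂ) • am H n (L.y j) κ₁')⟫_ℂ = _
    rw [map_smul, inner_smul_left, inner_smul_right, Complex.conj_ofReal, ← mul_assoc,
      ← Complex.ofReal_mul, Real.mul_self_sqrt hpR.le]
    rfl
  have h8 : vf κ₁' (star (L.y j) * Z * L.y j) - ((1 / p : ℝ) : ℂ) * vf κ₀' Z =
      ((1 / p : ℝ) : ℂ) * (vf (ξ j) Z - vf κ₀' Z) := by
    rw [hvf, mul_sub, ← mul_assoc, ← Complex.ofReal_mul, one_div_mul_cancel hpR.ne',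
      Complex.ofReal_one, one_mul]
  rw [h8, norm_mul, Complex.norm_real, Real.norm_of_nonneg (by positivity)]
  have h9 : (1 / p : ℝ) ≤ 1 := by
    rw [div_le_one hpR]
    exact_mod_cast hp
  calc (1 / p : ℝ) * ‖vf (ξ j) Z - vf κ₀' Z‖ ≤ 1 * ‖vf (ξ j) Z - vf κ₀' Z‖ :=
        mul_le_mul_of_nonneg_right h9 (norm_nonneg _)
    _ ≤ (√(2 * r) + 2 * r) * ‖Z‖ := by rw [one_mul]; exact hnear

end Pool.Agent.MP_86f3ed.Ty
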