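import Pool.Agent.H.MP_86f3ed_an.Ty.Am
import Pool.Agent.H.MP_86f3ed_an.Ty.RN
import Pool.Agent.H.MP_86f3ed_an.Trc.Limit

open scoped InnerProductSpace Topology
open Filter ContinuousLinearMap

namespace Pool.Agent.MP_86f3ed.Ty

open Pin

variable {H : Type*} [NormedAddCommGroup H] [InnerProductSpace ℂ H] [CompleteSpace H]

/-- Contractive unital positive maps on `B(H)` which are bimodule maps over the commutant
of `𝔄`. -/
structure IsCE (𝔄 : StarSubalgebra ℂ (H →L[ℂ] H)) (E : (H →L[ℂ] H) →ₗ[ℂ] (H →L[ℂ] H)) : Prop where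
  norm_le : ∀ Z, ‖E Z‖ ≤ ‖Z‖
  bimod : ∀ a ∈ Com 𝔄, ∀ b ∈ Com 𝔄, ∀ Z, E (a * Z * b) = a * E Z * b
  one : E 1 = 1
  pos : ∀ (Z : H →L[ℂ] H) (x : H), 0 ≤ RCLike.re ⟪x, E (star Z * Z) x⟫_ℂ

/-- A vector of `KK H n` with the same functional on `Com 𝔄` as the cyclic vector `ζ` gives a
bimodule map.

PROOF. `exists_ext` (`𝔓 = Com 𝔄`, `ρ = am H n`, `η = κ'`, `C = 1`) gives `z : H →L[ℂ] KK H n` with
`z ζ = κ'`, `z (a x) = am a (z x)` for `a ∈ Com 𝔄`. `z` is an isometry: `‖z (c ζ)‖ = ‖am c κ'‖ =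
‖c ζ‖` and density; so `adjoint z ∘ z = 1` (`ContinuousLinearMap.norm_map_iff_adjoint_comp_self` or
by polarization). Put `E Z = (adjoint z).comp ((am H n Z).comp z)`. `‖E Z‖ ≤ ‖z‖^2 ‖am Z‖ ≤ ‖Z‖`;
`E (a Z b)`: `⟪x, E (a Z b) y⟫ = ⟪z x, am a (am Z (am b (z y)))⟫ = ⟪am (star a) (z x), am Z (z (b y))⟫
= ⟪z (star a x), am Z (z (b y))⟫ = ⟪x, a (E Z (b y))⟫`; `E 1 = 1`;
`⟪x, E (star Z * Z) x⟫ = ‖am Z (z x)‖^2`; `⟪ζ, E Z ζ⟫ = ⟪κ', am Z κ'⟫ = vf κ' Z`. -/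
theorem exists_ce {𝔄 : StarSubalgebra ℂ (H →L[ℂ] H)} {ζ : H} (hc : Cyc (Com 𝔄) ζ) {n : ℕ}
    {κ' : KK H n} (hm : ∀ c ∈ Com 𝔄, ‖am H n c κ'‖ = ‖c ζ‖) :
    ∃ E : (H →L[ℂ] H) →ₗ[ℂ] (H →L[ℂ] H), IsCE 𝔄 E ∧ ∀ Z, ⟪ζ, E Z ζ⟫_ℂ = vf κ' Z := by
  obtain ⟨z, hz1, hzζ, hza⟩ := exists_ext hc (am H n) κ' zero_le_one (fun x hx => by
    rw [one_mul]; exact (hm x hx).le)
  have hzn : ∀ x, ‖z x‖ = ‖x‖ := by
    intro x
    refine hc.induction (P := fun x => ‖z x‖ = ‖x‖) ?_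
      (isClosed_eq (by fun_prop) (by fun_prop)) x
    rintro _ ⟨c, hc', rfl⟩
    rw [hza c hc', hzζ, hm c hc']
  have hadj : adjoint z ∘L z = 1 := (ContinuousLinearMap.norm_map_iff_adjoint_comp_self z).mp hzn
  let E : (H →L[ℂ] H) →ₗ[ℂ] (H →L[ℂ] H) :=
    { toFun := fun Z => (adjoint z).comp ((am H n Z).comp z)
      map_add' := fun Z Z' => by
        ext x
        show adjoint z (am H n (Z + Z') (z x)) = adjoint z (am H n Z (z x)) +
          adjoint z (am H n Z' (z x))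
        rw [map_add, add_apply, map_add]
      map_smul' := fun c Z => by
        ext x
        show adjoint z (am H n (c • Z) (z x)) = c • adjoint z (am H n Z (z x))
        rw [map_smul, smul_apply, map_smul] }
  have hE : ∀ Z x, E Z x = adjoint z (am H n Z (z x)) := fun Z x => rfl
  have hin : ∀ Z x y, ⟪x, E Z y⟫_ℂ = ⟪z x, am H n Z (z y)⟫_ℂ := by
    intro Z x y
    rw [hE, adjoint_inner_right]
  refine ⟨E, ⟨fun Z => ?_, fun a ha b hb Z => ?_, ?_, fun Z x => ?_⟩, fun Z => ?_⟩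
  · refine ContinuousLinearMap.opNorm_le_bound _ (norm_nonneg _) fun x => ?_
    rw [hE]
    have h1 : ‖adjoint z‖ ≤ 1 := by
      rw [LinearIsometryEquiv.norm_map]
      exact hz1
    calc ‖adjoint z (am H n Z (z x))‖ ≤ ‖adjoint z‖ * ‖am H n Z (z x)‖ := le_opNorm _ _
      _ ≤ 1 * ‖am H n Z (z x)‖ := mul_le_mul_of_nonneg_right h1 (norm_nonneg _)
      _ = ‖am H n Z (z x)‖ := one_mul _
      _ ≤ ‖Z‖ * ‖z x‖ := norm_am_apply_le Z _
      _ = ‖Z‖ * ‖x‖ := by rw [hzn]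
  · ext y
    refine ext_inner_left ℂ fun x => ?_
    have h1 : ⟪x, (a * E Z * b) y⟫_ℂ = ⟪star a x, E Z (b y)⟫_ℂ := by
      rw [star_eq_adjoint]
      exact (adjoint_inner_left a (E Z (b y)) x).symm
    rw [h1, hin, hin, hza (star a) (star_mem ha), hza b hb, inner_am_left, star_star,
      ← am_mul_apply, ← am_mul_apply, mul_assoc]
  · ext x
    rw [hE, am_one_apply]
    exact congrArg (fun S : H →L[ℂ] H => S x) hadj
  · rw [hin, am_mul_apply, ← inner_am_left, inner_self_eq_norm_sq_to_K]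
    norm_cast
    positivity
  · rw [hin, hzζ]
    rfl

/-- Limits of such maps.

PROOF. `Pool.Agent.MP_86f3ed.exists_limit` (`Trc/Limit.lean`) gives `E'` with `‖E' Z‖ ≤ ‖Z‖` and
`⟪x, E i Z y⟫ → ⟪x, E' Z y⟫` along the ultrafilter. The identities `bimod`, `one` and the inequality
`pos` pass to the limit in the weak operator topology (`tendsto_nhds_unique`, `ge_of_tendsto'`;
for `bimod` use `⟪x, a (E Z (b y))⟫ = ⟪star a x, E Z (b y)⟫`). -/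
theorem exists_limit_ce {𝔄 : StarSubalgebra ℂ (H →L[ℂ] H)} {I : Type*} (𝒰 : Ultrafilter I)
    (E : I → (H →L[ℂ] H) →ₗ[ℂ] (H →L[ℂ] H)) (hE : ∀ i, IsCE 𝔄 (E i)) :
    ∃ E' : (H →L[ℂ] H) →ₗ[ℂ] (H →L[ℂ] H), IsCE 𝔄 E' ∧
      ∀ Z x y, Tendsto (fun i => ⟪x, E i Z y⟫_ℂ) 𝒰 (𝓝 ⟪x, E' Z y⟫_ℂ) := by
  obtain ⟨E', hE', hlim⟩ := exists_limit 𝒰 E fun i S => (hE i).norm_le S
  refine ⟨E', ⟨hE', fun a ha b hb Z => ?_, ?_, fun Z x => ?_⟩, hlim⟩
  · ext y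
    refine ext_inner_left ℂ fun x => ?_
    refine tendsto_nhds_unique (hlim (a * Z * b) x y) ?_
    have h1 := hlim Z (star a x) (b y)
    have h2 : (fun i => ⟪x, E i (a * Z * b) y⟫_ℂ) = fun i => ⟪star a x, E i Z (b y)⟫_ℂ := by
      funext i
      rw [(hE i).bimod a ha b hb, star_eq_adjoint]
      exact (adjoint_inner_left a (E i Z (b y)) x).symm
    have h3 : ⟪x, (a * E' Z * b) y⟫_ℂ = ⟪star a x, E' Z (b y)⟫_ℂ := by
      rw [star_eq_adjoint]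
      exact (adjoint_inner_left a (E' Z (b y)) x).symm
    rw [h2, h3]
    exact h1
  · ext y
    refine ext_inner_left ℂ fun x => ?_
    refine tendsto_nhds_unique (hlim 1 x y) ?_
    have h2 : (fun i => ⟪x, E i 1 y⟫_ℂ) = fun _ => ⟪x, (1 : H →L[ℂ] H) y⟫_ℂ := by
      funext i
      rw [(hE i).one]
    rw [h2]
    exact tendsto_const_nhds
  · have h1 := (RCLike.continuous_re.tendsto _).comp (hlim (star Z * Z) x x)
    exact ge_of_tendsto' h1 fun i => (hE i).pos Z x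

end Pool.Agent.MP_86f3ed.Ty
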