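import Pool.Agent.H.MP_86f3ed_an.Ty.ENet

open scoped InnerProductSpace Topology
open Filter ContinuousLinearMap

namespace Pool.Agent.MP_86f3ed.Ty

open Pin

variable {H : Type*} [NormedAddCommGroup H] [InnerProductSpace ℂ H] [CompleteSpace H]

theorem ERig_inner_el {m : ℕ} (x y : Fin m → H →L[ℂ] H) (z : H) (Z : H →L[ℂ] H) :
    ∑ k, ⟪star (x k) z, Z (y k z)⟫_ℂ = ⟪z, el x y Z z⟫_ℂ := by
  rw [el, ContinuousLinearMap.sum_apply, inner_sum]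
  refine Finset.sum_congr rfl fun k _ => ?_
  rw [star_eq_adjoint, adjoint_inner_left]
  rfl

theorem ERig_el_mod {𝔄 : StarSubalgebra ℂ (H →L[ℂ] H)} {m : ℕ} {x y : Fin m → H →L[ℂ] H}
    (hx : ∀ k, x k ∈ 𝔄) (hy : ∀ k, y k ∈ 𝔄) {a b : H →L[ℂ] H} (ha : a ∈ Com 𝔄)
    (hb : b ∈ Com 𝔄) (Z : H →L[ℂ] H) : el x y (a * Z * b) = a * el x y Z * b := by
  rw [el, el, Finset.mul_sum, Finset.sum_mul]
  refine Finset.sum_congr rfl fun k _ => ?_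
  have h1 : x k * a = a * x k := mem_Com.1 ha _ (hx k)
  have h2 : y k * b = b * y k := mem_Com.1 hb _ (hy k)
  calc x k * (a * Z * b) * y k = (x k * a) * Z * (b * y k) := by noncomm_ring
    _ = (a * x k) * Z * (y k * b) := by rw [h1, h2]
    _ = a * (x k * Z * y k) * b := by noncomm_ring

theorem ERig_star_inner (a : H →L[ℂ] H) (x w : H) : ⟪x, star a w⟫_ℂ = ⟪a x, w⟫_ℂ := by
  rw [star_eq_adjoint, adjoint_inner_right]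

theorem ERig_scal (p : ℕ) (a b : H) (W : H →L[ℂ] H) :
    ⟪((√(1 / p) : ℝ) : ℂ) • a, W (((√(1 / p) : ℝ) : ℂ) • b)⟫_ℂ =
      ((1 / p : ℝ) : ℂ) * ⟪a, W b⟫_ℂ := by
  rw [map_smul, inner_smul_left, inner_smul_right, Complex.conj_ofReal, ← mul_assoc,
    ← Complex.ofReal_mul, Real.mul_self_sqrt (by positivity)]

theorem ERig_last {n : ℕ} {κ lam : KK H n} {z : H} {c : H →L[ℂ] H}
    (h : ⟪z, (star c * c) z⟫_ℂ = vf κ (star c * c) - vf lam (star c * c)) :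
    ‖c z‖ ≤ ‖am H n c κ‖ := by
  rw [vf_star_mul, vf_star_mul] at h
  have h2 : ⟪z, (star c * c) z⟫_ℂ = ((‖c z‖ ^ 2 : ℝ) : ℂ) := by
    show ⟪z, star c (c z)⟫_ℂ = _
    rw [ERig_star_inner, inner_self_eq_norm_sq_to_K]
    push_cast
    rfl
  rw [h2, ← Complex.ofReal_sub] at h
  have h3 : ‖c z‖ ^ 2 = ‖am H n c κ‖ ^ 2 - ‖am H n c lam‖ ^ 2 := Complex.ofReal_injective h
  have h4 : ‖c z‖ ^ 2 ≤ ‖am H n c κ‖ ^ 2 := by
    rw [h3]; nlinarith [sq_nonneg ‖am H n c lam‖]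
  exact (sq_le_sq₀ (norm_nonneg _) (norm_nonneg _)).mp h4

/-- Nearly central elementary operators give Jordan data which are nearly related by the loop.

PROOF. For every `j`, `comm_control hcl hPI' (L.q_mem j) z₁ (q_j z₁)` gives a finite set `F_j` and
`C_j` (`choose`). Let `F = image u ∪ ⋃ F_j`, `Ct = 1 + ∑ C_j`, `ε = δ / Ct ≤ δ`. `NCen.corr` gives
`x, y`; let `θ = el x y`, `g_i Z = ⟪z_i, θ Z z_i⟫ = ∑_k ⟪star (x_k) z_i, Z (y_k z_i)⟫`, hermitian: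
`conj (g_i Z) = ⟪θ Z z_i, z_i⟫ = ⟪z_i, star (θ Z) z_i⟫ = g_i (star Z)`. `exists_jordan` with
`α k = star (x_k) z_i`, `β k = y_k z_i` for `i = 0, 1`; take `n = max` of the two `n₀` and get
`κ_i, lam_i, e_i`.
(0) `θ (a Z b) = a (θ Z) b` for `a, b ∈ Com 𝔄` (they commute with the coefficients), `θ 1 = 1`, so
`θ c = c` for `c ∈ Com 𝔄`; `g_i (star c * c) = ‖c z_i‖^2 = ‖am c κ_i‖^2 - ‖am c lam_i‖^2`
(`vf_star_mul`): this gives the last two claims.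
(h1) `g₁ (star y_j Z y_j) = ⟪y_j z₁, θ Z (y_j z₁)⟫ = (1/p) ⟪u_j z₀, θ Z (u_j z₀)⟫ (L.y_z; √ squared)
= (1/p) (⟪u_j z₀, u_j (θ Z z₀)⟫ + ⟪u_j z₀, (θ Z u_j - u_j θ Z) z₀⟫) = (1/p) g₀ Z + error`,
`|error| ≤ (1/p) ε ‖Z‖ ≤ δ ‖Z‖` (`star u_j * u_j = 1`, `‖u_j z₀‖ = ‖z₀‖ = 1`, `u_j ∈ F`, `p ≥ 1`).
(h2) `g₁ Z = ∑_j ⟪q_j z₁, q_j (θ Z z₁)⟫` (`L.q_sum`) `= ∑_j ⟪q_j z₁, θ Z (q_j z₁)⟫ +
∑_j ⟪q_j z₁, (q_j θ Z - θ Z q_j) z₁⟫`; the first sum is `∑ (1/p) ⟪u'_j z₀, θ Z (u'_j z₀)⟫ =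
∑ (1/p) g₀ (star u'_j Z u'_j)` (`L.q_z`, `u'_j ∈ Com 𝔄`), the second is at most
`∑ C_j ε ‖Z‖ ≤ δ ‖Z‖` by `comm_control` for `W = θ Z` and `ε ‖Z‖` in place of `ε`. -/
theorem exists_rig {𝔄 : StarSubalgebra ℂ (H →L[ℂ] H)} (hcl : IsClosed (𝔄 : Set (H →L[ℂ] H)))
    (hPI' : PurelyInfinite (Com (Com 𝔄) : Set (H →L[ℂ] H))) (hNC : NCen 𝔄) {p : ℕ} (hp : 0 < p)
    {u : Fin p → H →L[ℂ] H} (hu : ∀ j, u j ∈ 𝔄) (huu : ∀ j, star (u j) * u j = 1)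
    (L : Loop 𝔄 p u) {δ : ℝ} (hδ : 0 < δ) :
    ∃ (n : ℕ) (D : Rig H n p L.y L.u' δ), (∀ c ∈ Com 𝔄, ‖c L.z₀‖ ≤ ‖am H n c D.κ₀‖) ∧
      ∀ c ∈ Com 𝔄, ‖c L.z₁‖ ≤ ‖am H n c D.κ₁‖ := by
  classical
  choose Fj Cj hCj hFj hcc using fun j => comm_control hcl hPI' (L.q_mem j) L.z₁ (L.q j L.z₁)
  set F : Finset (H →L[ℂ] H) := Finset.univ.image u ∪ Finset.univ.biUnion Fj with hFdef
  have hF : ∀ g ∈ F, g ∈ 𝔄 := by
    intro g hg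
    rw [hFdef, Finset.mem_union, Finset.mem_image, Finset.mem_biUnion] at hg
    rcases hg with ⟨j, _, rfl⟩ | ⟨j, _, hj⟩
    · exact hu j
    · exact hFj j g hj
  have hFu : ∀ j, u j ∈ F := fun j =>
    Finset.mem_union_left _ (Finset.mem_image_of_mem _ (Finset.mem_univ j))
  have hFF : ∀ j, ∀ g ∈ Fj j, g ∈ F := fun j g hg =>
    Finset.mem_union_right _ (Finset.mem_biUnion.mpr ⟨j, Finset.mem_univ j, hg⟩)
  have hCs : 0 ≤ ∑ j, Cj j := Finset.sum_nonneg fun j _ => hCj j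
  set Ct : ℝ := 1 + ∑ j, Cj j with hCt
  have hCt1 : 1 ≤ Ct := by linarith
  have hCt0 : 0 < Ct := by linarith
  set ε : ℝ := δ / Ct with hε
  have hε0 : 0 < ε := div_pos hδ hCt0
  have hεC : Ct * ε = δ := by rw [hε]; field_simp
  have hεδ : ε ≤ δ := by nlinarith
  have hεs : (∑ j, Cj j) * ε ≤ δ := by nlinarith
  obtain ⟨m, x, y, hx, hy, hsum, hstar, hcomm⟩ := hNC.corr F hF hε0
  have h1 : el x y 1 = 1 := by
    show ∑ k, x k * 1 * y k = 1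
    simp only [mul_one]
    exact hsum
  have hc : ∀ c ∈ Com 𝔄, el x y c = c := by
    intro c hc
    have h2 := ERig_el_mod hx hy hc (one_mem (Com 𝔄)) 1
    rw [mul_one, mul_one, h1, mul_one, mul_one] at h2
    exact h2
  have hh : ∀ (z : H) (Z : H →L[ℂ] H),
      (starRingEnd ℂ) (∑ k, ⟪star (x k) z, Z (y k z)⟫_ℂ) =
        ∑ k, ⟪star (x k) z, (star Z) (y k z)⟫_ℂ := by
    intro z Z
    rw [ERig_inner_el, ERig_inner_el, ← hstar, ERig_star_inner, inner_conj_symm]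
  obtain ⟨n₀, hn₀⟩ := exists_jordan (fun k => star (x k) L.z₀) (fun k => y k L.z₀) (hh L.z₀)
  obtain ⟨n₁, hn₁⟩ := exists_jordan (fun k => star (x k) L.z₁) (fun k => y k L.z₁) (hh L.z₁)
  obtain ⟨κ₀, lam₀, e₀, he₀s, he₀i, he₀κ, he₀l, hv₀⟩ := hn₀ (max n₀ n₁) (le_max_left _ _)
  obtain ⟨κ₁, lam₁, e₁, he₁s, he₁i, he₁κ, he₁l, hv₁⟩ := hn₁ (max n₀ n₁) (le_max_right _ _)
  have hV₀ : ∀ Z, vf κ₀ Z - vf lam₀ Z = ⟪L.z₀, el x y Z L.z₀⟫_ℂ := fun Z => by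
    rw [← hv₀ Z, ERig_inner_el]
  have hV₁ : ∀ Z, vf κ₁ Z - vf lam₁ Z = ⟪L.z₁, el x y Z L.z₁⟫_ℂ := fun Z => by
    rw [← hv₁ Z, ERig_inner_el]
  have hconj : ∀ a ∈ Com 𝔄, ∀ (Z : H →L[ℂ] H) (z : H),
      ⟪z, el x y (star a * Z * a) z⟫_ℂ = ⟪a z, el x y Z (a z)⟫_ℂ := by
    intro a ha Z z
    rw [ERig_el_mod hx hy (star_mem ha) ha Z]
    show ⟪z, star a (el x y Z (a z))⟫_ℂ = _
    rw [ERig_star_inner]
  have hpR : (1 : ℝ) ≤ (p : ℝ) := by exact_mod_cast hp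
  have hp1 : (1 / p : ℝ) ≤ 1 := by
    rw [div_le_one (by linarith)]; exact hpR
  have hp0 : (0 : ℝ) ≤ (1 / p : ℝ) := by positivity
  have H1 : ∀ (j : Fin p) (Z : H →L[ℂ] H),
      ‖(vf κ₁ (star (L.y j) * Z * L.y j) - vf lam₁ (star (L.y j) * Z * L.y j)) -
        ((1 / p : ℝ) : ℂ) * (vf κ₀ Z - vf lam₀ Z)‖ ≤ δ * ‖Z‖ := by
    intro j Z
    have e1 : ⟪L.z₀, el x y Z L.z₀⟫_ℂ = ⟪u j L.z₀, u j (el x y Z L.z₀)⟫_ℂ := by
      rw [← ERig_star_inner]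
      have := congrArg (fun T : H →L[ℂ] H => T (el x y Z L.z₀)) (huu j)
      have h3 : star (u j) (u j (el x y Z L.z₀)) = el x y Z L.z₀ := this
      rw [h3]
    have hn : ‖u j L.z₀‖ = 1 := by
      rw [Om_iso (huu j), L.norm_z₀]
    rw [hV₁, hV₀, hconj _ (L.y_mem j), L.y_z, ERig_scal, e1, ← mul_sub, ← inner_sub_right,
      norm_mul]
    have e2 : el x y Z (u j L.z₀) - u j (el x y Z L.z₀) =
        -((u j * el x y Z - el x y Z * u j) L.z₀) := by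
      rw [sub_apply]
      show _ = -(u j (el x y Z L.z₀) - el x y Z (u j L.z₀))
      abel
    have e3 : ‖el x y Z (u j L.z₀) - u j (el x y Z L.z₀)‖ ≤ ε * ‖Z‖ := by
      rw [e2, norm_neg]
      refine (le_opNorm _ _).trans ?_
      rw [L.norm_z₀, mul_one]
      exact hcomm _ (hFu j) Z
    have e4 : ‖⟪u j L.z₀, el x y Z (u j L.z₀) - u j (el x y Z L.z₀)⟫_ℂ‖ ≤ ε * ‖Z‖ := by
      refine (norm_inner_le_norm _ _).trans ?_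
      rw [hn, one_mul]
      exact e3
    have e5 : ‖((1 / p : ℝ) : ℂ)‖ ≤ 1 := by
      rw [Complex.norm_real, Real.norm_eq_abs, abs_of_nonneg hp0]
      exact hp1
    calc _ ≤ 1 * (ε * ‖Z‖) := mul_le_mul e5 e4 (norm_nonneg _) zero_le_one
      _ ≤ δ * ‖Z‖ := by
        rw [one_mul]; exact mul_le_mul_of_nonneg_right hεδ (norm_nonneg _)
  have H2 : ∀ Z : H →L[ℂ] H, ‖(vf κ₁ Z - vf lam₁ Z) - ∑ j, ((1 / p : ℝ) : ℂ) *
      (vf κ₀ (star (L.u' j) * Z * L.u' j) - vf lam₀ (star (L.u' j) * Z * L.u' j))‖ ≤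
        δ * ‖Z‖ := by
    intro Z
    have e1 : ⟪L.z₁, el x y Z L.z₁⟫_ℂ = ∑ j, ⟪L.q j L.z₁, L.q j (el x y Z L.z₁)⟫_ℂ := by
      have h3 : ∑ j, star (L.q j) (L.q j (el x y Z L.z₁)) = el x y Z L.z₁ := by
        have := congrArg (fun T : H →L[ℂ] H => T (el x y Z L.z₁)) L.q_sum
        simp only [ContinuousLinearMap.sum_apply] at this
        exact this
      conv_lhs => rw [← h3]
      rw [inner_sum]
      exact Finset.sum_congr rfl fun j _ => ERig_star_inner _ _ _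
    have e2 : ∀ j, ((1 / p : ℝ) : ℂ) *
        (vf κ₀ (star (L.u' j) * Z * L.u' j) - vf lam₀ (star (L.u' j) * Z * L.u' j)) =
        ⟪L.q j L.z₁, el x y Z (L.q j L.z₁)⟫_ℂ := by
      intro j
      rw [hV₀, hconj _ (L.u'_mem j), L.q_z, ERig_scal]
    rw [hV₁, e1, Finset.sum_congr rfl fun j _ => e2 j, ← Finset.sum_sub_distrib]
    have e3 : ∀ j, ‖⟪L.q j L.z₁, L.q j (el x y Z L.z₁)⟫_ℂ -
        ⟪L.q j L.z₁, el x y Z (L.q j L.z₁)⟫_ℂ‖ ≤ Cj j * (ε * ‖Z‖) := by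
      intro j
      rw [← inner_sub_right]
      exact hcc j (el x y Z) (ε * ‖Z‖) (fun g hg => hcomm g (hFF j g hg) Z)
        (mul_nonneg hε0.le (norm_nonneg _))
    calc _ ≤ ∑ j, Cj j * (ε * ‖Z‖) := norm_sum_le_of_le _ fun j _ => e3 j
      _ = ((∑ j, Cj j) * ε) * ‖Z‖ := by rw [← Finset.sum_mul]; ring
      _ ≤ δ * ‖Z‖ := mul_le_mul_of_nonneg_right hεs (norm_nonneg _)
  refine ⟨max n₀ n₁, {
    κ₀ := κ₀
    lam₀ := lam₀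
    κ₁ := κ₁
    lam₁ := lam₁
    e₀ := e₀
    e₁ := e₁
    e₀_star := he₀s
    e₀_idem := he₀i
    e₁_star := he₁s
    e₁_idem := he₁i
    e₀κ := he₀κ
    e₀lam := he₀l
    e₁κ := he₁κ
    e₁lam := he₁l
    h1 := H1
    h2 := H2 }, ?_, ?_⟩
  · intro c hcc'
    refine ERig_last (lam := lam₀) ?_
    rw [hV₀, hc _ (mul_mem (star_mem hcc') hcc')]
  · intro c hcc'
    refine ERig_last (lam := lam₁) ?_
    rw [hV₁, hc _ (mul_mem (star_mem hcc') hcc')]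

end Pool.Agent.MP_86f3ed.Ty
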