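import Pool.Agent.H.MP_86f3ed_an.Ty.ECe
import Pool.Agent.H.MP_86f3ed_an.Ty.ERig
import Pool.Agent.H.MP_86f3ed_an.Ty.Cvx

open scoped InnerProductSpace Topology
open Filter ContinuousLinearMap

namespace Pool.Agent.MP_86f3ed.Ty

open Pin

variable {H : Type*} [NormedAddCommGroup H] [InnerProductSpace ℂ H] [CompleteSpace H]

/-- The approximate relation between the two bimodule maps.

PROOF. The function `Φ(δ) = √(2 r) + 2 r`, `r = √(2 p s) + s`, `s = √(4 √(p (6 (p+2) δ)))` is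
continuous with `Φ(0) = 0`, so there is `δ > 0` with `p * Φ(δ) ≤ η`
(`ContinuousAt`/`Metric.continuousAt_iff`, `fun_prop`). `exists_rig` gives `n, D`, `rigid` gives
`κ₀', κ₁'`, `exists_ce` gives `E` from `κ₁'` (`L.cyc₁`) and `F` from `κ₀'` (`L.cyc₀`). Then
`(1/p) ⟪u_j z₀, E Z (u_j z₀)⟫ = ⟪y_j z₁, E Z (y_j z₁)⟫ = ⟪z₁, E (star y_j * Z * y_j) z₁⟫ =
vf κ₁' (star y_j * Z * y_j)` (`L.y_z`, `IsCE.bimod`), `⟪z₀, F Z z₀⟫ = vf κ₀' Z`; multiply the estimate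
of `rigid` by `p`. -/
theorem exists_pair {𝔄 : StarSubalgebra ℂ (H →L[ℂ] H)} (hcl : IsClosed (𝔄 : Set (H →L[ℂ] H)))
    (hPI' : PurelyInfinite (Com (Com 𝔄) : Set (H →L[ℂ] H))) (hNC : NCen 𝔄) {p : ℕ} (hp : 0 < p)
    {u : Fin p → H →L[ℂ] H} (hu : ∀ j, u j ∈ 𝔄) (huu : ∀ j, star (u j) * u j = 1)
    (L : Loop 𝔄 p u) {η : ℝ} (hη : 0 < η) :
    ∃ E F : (H →L[ℂ] H) →ₗ[ℂ] (H →L[ℂ] H), IsCE 𝔄 E ∧ IsCE 𝔄 F ∧
      ∀ (j : Fin p) (Z : H →L[ℂ] H),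
        ‖⟪u j L.z₀, E Z (u j L.z₀)⟫_ℂ - ⟪L.z₀, F Z L.z₀⟫_ℂ‖ ≤ η * ‖Z‖ := by
  set s : ℝ → ℝ := fun δ => √(4 * √(p * (6 * (p + 2) * δ))) with hs
  set r : ℝ → ℝ := fun δ => √(2 * p * s δ) + s δ with hr
  set Φ : ℝ → ℝ := fun δ => √(2 * r δ) + 2 * r δ with hΦ
  have hΦc : Continuous Φ := by fun_prop
  have hΦ0 : Φ 0 = 0 := by simp [hΦ, hr, hs]
  have hpR : (0 : ℝ) < p := by exact_mod_cast hp
  have hpos : 0 < η / p := div_pos hη hpR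
  obtain ⟨δ, hδ, hδ'⟩ : ∃ δ > 0, Φ δ ≤ η / p := by
    obtain ⟨ε, hε, h⟩ := Metric.continuous_iff.mp hΦc 0 (η / p) hpos
    refine ⟨ε / 2, half_pos hε, ?_⟩
    have h1 := h (ε / 2) (by
      rw [Real.dist_eq, sub_zero, abs_of_pos (half_pos hε)]; exact half_lt_self hε)
    rw [hΦ0, Real.dist_eq, sub_zero] at h1
    exact (le_abs_self _).trans h1.le
  obtain ⟨n, D, hm₀, hm₁⟩ := exists_rig hcl hPI' hNC hp hu huu L hδ
  obtain ⟨κ₀', κ₁', hk0, hk1, hest⟩ := rigid hp hu huu L hδ D hm₀ hm₁ (s := s δ) (r := r δ) rfl rfl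
  obtain ⟨E, hE, hEv⟩ := exists_ce L.cyc₁ hk1
  obtain ⟨F, hF, hFv⟩ := exists_ce L.cyc₀ hk0
  refine ⟨E, F, hE, hF, fun j Z => ?_⟩
  have h1 : vf κ₁' (star (L.y j) * Z * L.y j) =
      ((1 / p : ℝ) : ℂ) * ⟪u j L.z₀, E Z (u j L.z₀)⟫_ℂ := by
    rw [← hEv, hE.bimod _ (star_mem (L.y_mem j)) _ (L.y_mem j)]
    show ⟪L.z₁, star (L.y j) (E Z (L.y j L.z₁))⟫_ℂ = _
    rw [ERig_star_inner, L.y_z, ERig_scal]
  have h2 := hest j Z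
  rw [h1, ← hFv, ← mul_sub, norm_mul, Complex.norm_real, Real.norm_of_nonneg (by positivity)] at h2
  have h3 : ‖⟪u j L.z₀, E Z (u j L.z₀)⟫_ℂ - ⟪L.z₀, F Z L.z₀⟫_ℂ‖ =
      p * (1 / p * ‖⟪u j L.z₀, E Z (u j L.z₀)⟫_ℂ - ⟪L.z₀, F Z L.z₀⟫_ℂ‖) := by
    field_simp
  rw [h3]
  calc p * (1 / p * ‖⟪u j L.z₀, E Z (u j L.z₀)⟫_ℂ - ⟪L.z₀, F Z L.z₀⟫_ℂ‖)
      ≤ p * (Φ δ * ‖Z‖) := mul_le_mul_of_nonneg_left h2 hpR.le
    _ ≤ p * (η / p * ‖Z‖) :=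
        mul_le_mul_of_nonneg_left (mul_le_mul_of_nonneg_right hδ' (norm_nonneg _)) hpR.le
    _ = η * ‖Z‖ := by field_simp

/-- A bimodule map whose values commute with finitely many unitaries.

PROOF. For `k : ℕ` let `E_k, F_k` be given by `exists_pair` with `η = 1/(k+1)`. Let `𝒰` be an
ultrafilter `≤ atTop` on `ℕ` (`Ultrafilter.of atTop`); `exists_limit_ce` gives limits `E`, `F`. In the
limit `⟪u_j z₀, E Z (u_j z₀)⟫ = ⟪z₀, F Z z₀⟫` for all `j`, `Z`. Apply this to `star c * Z * c'` with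
`c, c' ∈ Com 𝔄` and use `bimod`: `⟪c (u_j z₀), E Z (c' (u_j z₀))⟫ = ⟪c z₀, F Z (c' z₀)⟫`; as `c`
commutes with `u_j` the left side is `⟪c z₀, star u_j (E Z (u_j (c' z₀)))⟫`. By density of
`{c z₀}` (`L.cyc₀`) `star u_j * E Z * u_j = F Z` for all `j`. For `j = 0`: `E Z = F Z` (`hu0`). So
`star u_j * E Z * u_j = E Z`, and multiplying from the left with `u_j` (`u_j * star u_j = 1`):
`E Z * u_j = u_j * E Z`. -/
theorem exists_fin_ce {𝔄 : StarSubalgebra ℂ (H →L[ℂ] H)} (hcl : IsClosed (𝔄 : Set (H →L[ℂ] H)))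
    (hPI' : PurelyInfinite (Com (Com 𝔄) : Set (H →L[ℂ] H))) (hNC : NCen 𝔄) {p : ℕ} (hp : 0 < p)
    {u : Fin p → H →L[ℂ] H} (hu : ∀ j, u j ∈ 𝔄) (huu : ∀ j, star (u j) * u j = 1)
    (huu' : ∀ j, u j * star (u j) = 1) (hu0 : u ⟨0, hp⟩ = 1) (L : Loop 𝔄 p u) :
    ∃ E : (H →L[ℂ] H) →ₗ[ℂ] (H →L[ℂ] H), IsCE 𝔄 E ∧ ∀ j Z, E Z * u j = u j * E Z := by
  have hη : ∀ k : ℕ, (0 : ℝ) < 1 / ((k : ℝ) + 1) := fun k => by positivity
  choose E F hE hF hEF using fun k : ℕ => exists_pair hcl hPI' hNC hp hu huu L (hη k)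
  obtain ⟨E', hE', hEl⟩ := exists_limit_ce (Ultrafilter.of atTop) E hE
  obtain ⟨F', hF', hFl⟩ := exists_limit_ce (Ultrafilter.of atTop) F hF
  have hle : ((Ultrafilter.of (atTop : Filter ℕ) : Ultrafilter ℕ) : Filter ℕ) ≤ atTop :=
    Ultrafilter.of_le _
  have h1 : ∀ j Z, ⟪u j L.z₀, E' Z (u j L.z₀)⟫_ℂ = ⟪L.z₀, F' Z L.z₀⟫_ℂ := by
    intro j Z
    rw [← sub_eq_zero]
    refine tendsto_nhds_unique ((hEl Z (u j L.z₀) (u j L.z₀)).sub (hFl Z L.z₀ L.z₀)) ?_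
    refine squeeze_zero_norm (fun k => hEF k j Z) ?_
    refine Tendsto.mono_left ?_ hle
    have h := (tendsto_one_div_add_atTop_nhds_zero_nat (𝕜 := ℝ)).mul_const ‖Z‖
    rwa [zero_mul] at h
  have h2 : ∀ j Z, star (u j) * E' Z * u j = F' Z := by
    intro j Z
    have hc : ∀ c ∈ Com 𝔄, ∀ c' ∈ Com 𝔄,
        ⟪c L.z₀, (star (u j) * E' Z * u j) (c' L.z₀)⟫_ℂ = ⟪c L.z₀, F' Z (c' L.z₀)⟫_ℂ := by
      intro c hc c' hc'
      have e1 : u j (c L.z₀) = c (u j L.z₀) :=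
        congrArg (fun T : H →L[ℂ] H => T L.z₀) (mem_Com.mp hc (u j) (hu j))
      have e2 : u j (c' L.z₀) = c' (u j L.z₀) :=
        congrArg (fun T : H →L[ℂ] H => T L.z₀) (mem_Com.mp hc' (u j) (hu j))
      have h3 := h1 j (star c * Z * c')
      rw [hE'.bimod _ (star_mem hc) _ hc', hF'.bimod _ (star_mem hc) _ hc'] at h3
      have h4 : ⟪u j L.z₀, star c (E' Z (c' (u j L.z₀)))⟫_ℂ =
          ⟪L.z₀, star c (F' Z (c' L.z₀))⟫_ℂ := h3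
      rw [ERig_star_inner, ERig_star_inner, ← e1, ← e2] at h4
      show ⟪c L.z₀, star (u j) (E' Z (u j (c' L.z₀)))⟫_ℂ = _
      rw [ERig_star_inner]
      exact h4
    ext y
    refine ext_inner_left ℂ fun x => ?_
    refine L.cyc₀.induction
      (P := fun x => ⟪x, (star (u j) * E' Z * u j) y⟫_ℂ = ⟪x, F' Z y⟫_ℂ) ?_
      (isClosed_eq (by fun_prop) (by fun_prop)) x
    rintro _ ⟨c, hc1, rfl⟩
    refine L.cyc₀.induction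
      (P := fun y => ⟪c L.z₀, (star (u j) * E' Z * u j) y⟫_ℂ = ⟪c L.z₀, F' Z y⟫_ℂ) ?_
      (isClosed_eq (by fun_prop) (by fun_prop)) y
    rintro _ ⟨c', hc2, rfl⟩
    exact hc c hc1 c' hc2
  have h3 : ∀ Z, E' Z = F' Z := fun Z => by
    have h := h2 ⟨0, hp⟩ Z
    rwa [hu0, star_one, one_mul, mul_one] at h
  refine ⟨E', hE', fun j Z => ?_⟩
  calc E' Z * u j = (u j * star (u j)) * E' Z * u j := by rw [huu' j, one_mul]
    _ = u j * (star (u j) * E' Z * u j) := by simp only [mul_assoc]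
    _ = u j * E' Z := by rw [h2, h3]

end Pool.Agent.MP_86f3ed.Ty
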