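import Pool.Agent.H.MP_86f3ed_an.Ty.Am
import Pool.Agent.H.MP_86f3ed_an.Trc.Mazur

open scoped InnerProductSpace Topology
open Filter ContinuousLinearMap

namespace Pool.Agent.MP_86f3ed.Ty

open Pin

variable {H : Type*} [NormedAddCommGroup H] [InnerProductSpace ℂ H] [CompleteSpace H]

/-- The rank one operator `v ↦ ⟪a, v⟫ • b`. -/
noncomputable def jordZ (a b : H) : H →L[ℂ] H := (innerSL ℂ a).smulRight b

theorem jordZ_apply (a b v : H) : jordZ a b v = ⟪a, v⟫_ℂ • b := rfl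

theorem jordZ_star (a b : H) : star (jordZ a b) = jordZ b a := by
  rw [star_eq_adjoint]
  refine ((ContinuousLinearMap.eq_adjoint_iff _ _).mpr fun x y => ?_).symm
  rw [jordZ_apply, jordZ_apply, inner_smul_left, inner_smul_right, inner_conj_symm, mul_comm]

theorem jord_vf {n : ℕ} (c : Fin n → ℝ) (hc : ∀ i, 0 ≤ c i) (G : Fin n → H) (Z : H →L[ℂ] H) :
    vf (WithLp.toLp 2 (fun i => ((Real.sqrt (c i) : ℝ) : ℂ) • G i) : KK H n) Z =
      ∑ i, (c i : ℂ) * ⟪G i, Z (G i)⟫_ℂ := by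
  rw [vf, ← sum_inner_pr]
  refine Finset.sum_congr rfl fun i _ => ?_
  rw [pr_am]
  show ⟪((Real.sqrt (c i) : ℝ) : ℂ) • G i, Z (((Real.sqrt (c i) : ℝ) : ℂ) • G i)⟫_ℂ = _
  rw [map_smul, inner_smul_left, inner_smul_right, Complex.conj_ofReal, ← mul_assoc,
    ← Complex.ofReal_mul, Real.mul_self_sqrt (hc i)]

theorem jord_am {n : ℕ} (c : Fin n → ℝ) (G : Fin n → H) (e : H →L[ℂ] H) (t : ℂ)
    (h : ∀ i, c i ≠ 0 → e (G i) = t • G i) :
    am H n e (WithLp.toLp 2 (fun i => ((Real.sqrt (c i) : ℝ) : ℂ) • G i) : KK H n) =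
      t • (WithLp.toLp 2 (fun i => ((Real.sqrt (c i) : ℝ) : ℂ) • G i) : KK H n) := by
  refine ext_pr fun i => ?_
  rw [pr_am, map_smul]
  show e (((Real.sqrt (c i) : ℝ) : ℂ) • G i) = t • (((Real.sqrt (c i) : ℝ) : ℂ) • G i)
  by_cases hi : c i = 0
  · rw [hi]; simp
  · rw [map_smul, h i hi, smul_comm]

theorem jord_symm {m : ℕ} (α β : Fin m → H)
    (hh : ∀ Z : H →L[ℂ] H, (starRingEnd ℂ) (∑ k, ⟪α k, Z (β k)⟫_ℂ) =
      ∑ k, ⟪α k, (star Z) (β k)⟫_ℂ) (x y : H) :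
    ⟪∑ k, ⟪α k, x⟫_ℂ • β k, y⟫_ℂ = ⟪x, ∑ k, ⟪α k, y⟫_ℂ • β k⟫_ℂ := by
  have h := hh (jordZ y x)
  rw [jordZ_star] at h
  simp only [jordZ_apply, inner_smul_right, map_sum, map_mul, inner_conj_symm] at h
  rw [sum_inner, inner_sum]
  simp only [inner_smul_left, inner_smul_right, inner_conj_symm]
  calc ∑ k, ⟪x, α k⟫_ℂ * ⟪β k, y⟫_ℂ = ∑ k, ⟪β k, y⟫_ℂ * ⟪x, α k⟫_ℂ :=
        Finset.sum_congr rfl fun k _ => mul_comm _ _
    _ = ∑ k, ⟪x, β k⟫_ℂ * ⟪α k, y⟫_ℂ := h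
    _ = _ := Finset.sum_congr rfl fun k _ => mul_comm _ _

/-- The Jordan decomposition of a hermitian functional of finite rank.

PROOF. Let `D v = ∑ k, ⟪α k, v⟫ • β k` (a linear map `H →ₗ[ℂ] H`), `W = span (range β)`.
`D` is symmetric: apply `hh` to the rank one operator `Z v = ⟪a, v⟫ • b`
(`star Z v = ⟪b, v⟫ • a`; for example `InnerProductSpace.rankOne` or
`(innerSL ℂ a).smulRight b`): `conj (∑ ⟪α k, b⟫ ⟪a, β k⟫) = ∑ ⟪α k, a⟫ ⟪b, β k⟫`, that is
`∑ ⟪b, α k⟫ ⟪β k, a⟫ = ∑ ⟪α k, a⟫ ⟪b, β k⟫`, which is `⟪D b, a⟫ = ⟪b, D a⟫`. By `exists_spectral`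
(`Trc/Mazur.lean`; `W` is finite dimensional) there are an orthonormal family `g : Fin m → H` in
`W`, real `ν`, `w = ∑ ⟪g l, w⟫ • g l` for `w ∈ W`, `D (g l) = ν l • g l`. Then
`∑_k ⟪α k, Z (β k)⟫ = ∑_k ∑_l ⟪g l, β k⟫ ⟪α k, Z (g l)⟫ = ∑_l ⟪g l, D (Z (g l))⟫ =
∑_l ⟪D (g l), Z (g l)⟫ = ∑_l ν l ⟪g l, Z (g l)⟫`.
Let `n₀ = m`. For `n ≥ m` let `κ i = √(max (ν i) 0) • g i`, `lam i = √(max (-ν i) 0) • g i` for
`i < m` and `0` for `m ≤ i < n` (an element of `KK H n`; build it with `WithLp.toLp 2 ..` and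
compute with `pr_am`, `sum_inner_pr`), and `e v = ∑_{l, 0 < ν l} ⟪g l, v⟫ • g l`, a selfadjoint
projection with `e (g l) = g l` if `0 < ν l` and `e (g l) = 0` otherwise. `ν l =
max (ν l) 0 - max (-ν l) 0`. -/
theorem exists_jordan {m : ℕ} (α β : Fin m → H)
    (hh : ∀ Z : H →L[ℂ] H, (starRingEnd ℂ) (∑ k, ⟪α k, Z (β k)⟫_ℂ) =
      ∑ k, ⟪α k, (star Z) (β k)⟫_ℂ) :
    ∃ n₀ : ℕ, ∀ n : ℕ, n₀ ≤ n → ∃ (κ lam : KK H n) (e : H →L[ℂ] H), star e = e ∧ e * e = e ∧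
      am H n e κ = κ ∧ am H n e lam = 0 ∧
      ∀ Z : H →L[ℂ] H, ∑ k, ⟪α k, Z (β k)⟫_ℂ = vf κ Z - vf lam Z := by
  classical
  let D : H →ₗ[ℂ] H := ∑ k, ((innerSL ℂ (α k)).smulRight (β k) : H →L[ℂ] H).toLinearMap
  have hD : ∀ v, D v = ∑ k, ⟪α k, v⟫_ℂ • β k := by
    intro v
    simp only [D, LinearMap.sum_apply]
    rfl
  have hsym : ∀ x y, ⟪D x, y⟫_ℂ = ⟪x, D y⟫_ℂ := by
    intro x y
    rw [hD, hD]
    exact jord_symm α β hh x y
  let W : Submodule ℂ H := Submodule.span ℂ (Set.range β)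
  haveI : FiniteDimensional ℂ W := FiniteDimensional.span_of_finite ℂ (Set.finite_range β)
  have hβ : ∀ k, β k ∈ W := fun k => Submodule.subset_span ⟨k, rfl⟩
  have hW : ∀ x, D x ∈ W := by
    intro x
    rw [hD]
    exact Submodule.sum_mem _ fun k _ => Submodule.smul_mem _ _ (hβ k)
  obtain ⟨q, g, ν, hg, -, hexp, heig, -⟩ := exists_spectral D hsym W hW
  have key : ∀ Z : H →L[ℂ] H, ∑ k, ⟪α k, Z (β k)⟫_ℂ = ∑ l, (ν l : ℂ) * ⟪g l, Z (g l)⟫_ℂ := by
    intro Z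
    have h1 : ∀ k, ⟪α k, Z (β k)⟫_ℂ = ∑ l, ⟪g l, β k⟫_ℂ * ⟪α k, Z (g l)⟫_ℂ := by
      intro k
      conv_lhs => rw [hexp (β k) (hβ k)]
      rw [map_sum, inner_sum]
      refine Finset.sum_congr rfl fun l _ => ?_
      rw [map_smul, inner_smul_right]
    rw [Finset.sum_congr rfl fun k _ => h1 k, Finset.sum_comm]
    refine Finset.sum_congr rfl fun l _ => ?_
    have h2 : ⟪g l, D (Z (g l))⟫_ℂ = ∑ k, ⟪g l, β k⟫_ℂ * ⟪α k, Z (g l)⟫_ℂ := by
      rw [hD, inner_sum]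
      refine Finset.sum_congr rfl fun k _ => ?_
      rw [inner_smul_right, mul_comm]
    rw [← h2, ← hsym, heig, inner_smul_left, Complex.conj_ofReal]
  let e : H →L[ℂ] H := ∑ l, (if 0 < ν l then (1 : ℂ) else 0) • jordZ (g l) (g l)
  have he : ∀ v, e v = ∑ l, (if 0 < ν l then (1 : ℂ) else 0) • (⟪g l, v⟫_ℂ • g l) := by
    intro v
    simp only [e, ContinuousLinearMap.sum_apply]
    rfl
  have heg : ∀ l, e (g l) = (if 0 < ν l then (1 : ℂ) else 0) • g l := by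
    intro l
    rw [he, Finset.sum_eq_single l]
    · rw [inner_self_eq_norm_sq_to_K, hg.1 l]
      simp
    · intro b _ hb
      rw [hg.2 hb, zero_smul, smul_zero]
    · simp
  have hse : star e = e := by
    simp only [e]
    rw [star_sum]
    refine Finset.sum_congr rfl fun l _ => ?_
    rw [star_smul, jordZ_star]
    congr 1
    split_ifs
    · exact star_one _
    · exact star_zero _
  have hee : e * e = e := by
    ext1 v
    show e (e v) = e v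
    conv_lhs => rw [he v]
    rw [map_sum, he v]
    refine Finset.sum_congr rfl fun l _ => ?_
    rw [map_smul, map_smul, heg]
    by_cases hl : 0 < ν l
    · rw [if_pos hl, one_smul, one_smul, one_smul]
    · rw [if_neg hl, zero_smul, zero_smul]
  refine ⟨q, fun n hn => ?_⟩
  obtain ⟨r, rfl⟩ := Nat.exists_eq_add_of_le hn
  let G : Fin (q + r) → H := Fin.append g (fun _ => 0)
  let N : Fin (q + r) → ℝ := Fin.append ν (fun _ => 0)
  have hsum : ∀ Z : H →L[ℂ] H, ∑ l, (ν l : ℂ) * ⟪g l, Z (g l)⟫_ℂ =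
      ∑ i, (N i : ℂ) * ⟪G i, Z (G i)⟫_ℂ := by
    intro Z
    rw [Fin.sum_univ_add]
    simp only [G, N, Fin.append_left, Fin.append_right]
    simp
  have hGpos : ∀ i, 0 < N i → e (G i) = (1 : ℂ) • G i := by
    intro i
    refine Fin.addCases (fun l => ?_) (fun l => ?_) i
    · simp only [G, N, Fin.append_left]
      intro hl
      rw [heg, if_pos hl]
    · simp only [G, N, Fin.append_right]
      intro hl
      exact absurd hl (lt_irrefl _)
  have hGneg : ∀ i, N i < 0 → e (G i) = (0 : ℂ) • G i := by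
    intro i
    refine Fin.addCases (fun l => ?_) (fun l => ?_) i
    · simp only [G, N, Fin.append_left]
      intro hl
      rw [heg, if_neg (not_lt.mpr hl.le)]
    · simp only [G, N, Fin.append_right]
      intro hl
      exact absurd hl (lt_irrefl _)
  refine ⟨WithLp.toLp 2 (fun i => ((Real.sqrt (max (N i) 0) : ℝ) : ℂ) • G i),
    WithLp.toLp 2 (fun i => ((Real.sqrt (max (-N i) 0) : ℝ) : ℂ) • G i), e, hse, hee, ?_, ?_, ?_⟩
  · rw [jord_am (fun i => max (N i) 0) G e 1, one_smul]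
    intro i hi
    refine hGpos i ?_
    by_contra hc
    exact hi (max_eq_right (not_lt.mp hc))
  · rw [jord_am (fun i => max (-N i) 0) G e 0, zero_smul]
    intro i hi
    refine hGneg i ?_
    by_contra hc
    exact hi (max_eq_right (by linarith [not_lt.mp hc]))
  · intro Z
    rw [key, hsum, jord_vf _ (fun i => le_max_right _ _), jord_vf _ (fun i => le_max_right _ _),
      ← Finset.sum_sub_distrib]
    refine Finset.sum_congr rfl fun i _ => ?_
    rw [← sub_mul, ← Complex.ofReal_sub]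
    congr 2
    rcases le_total 0 (N i) with h | h
    · rw [max_eq_left h, max_eq_right (by linarith)]; ring
    · rw [max_eq_right h, max_eq_left (by linarith)]; ring

end Pool.Agent.MP_86f3ed.Ty
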