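import Pool.Agent.H.MP_86f3ed_an.Ty.Zeta

open scoped InnerProductSpace Topology
open Filter ContinuousLinearMap

namespace Pool.Agent.MP_86f3ed.Ty

open Pin

variable {H : Type*} [NormedAddCommGroup H] [InnerProductSpace ℂ H] [CompleteSpace H]

/-- The loop data for the pair `Com 𝔄`, `Com (Com 𝔄)` and the unitaries `u j`: the vector `z₁`
implements on `Com (Com 𝔄)` the mean of the states of the vectors `u j z₀`, and on `Com 𝔄` the mean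
of the states of the vectors `u' j z₀`. -/
structure Loop (𝔄 : StarSubalgebra ℂ (H →L[ℂ] H)) (p : ℕ) (u : Fin p → H →L[ℂ] H) where
  z₀ : H
  z₁ : H
  norm_z₀ : ‖z₀‖ = 1
  norm_z₁ : ‖z₁‖ = 1
  cyc₀ : Cyc (Com 𝔄) z₀
  cyc₁ : Cyc (Com 𝔄) z₁
  y : Fin p → H →L[ℂ] H
  y_mem : ∀ j, y j ∈ Com 𝔄
  y_sum : ∑ j, star (y j) * y j = 1
  y_z : ∀ j, y j z₁ = ((√(1 / p) : ℝ) : ℂ) • u j z₀
  q : Fin p → H →L[ℂ] H
  u' : Fin p → H →L[ℂ] H
  q_mem : ∀ j, q j ∈ Com (Com 𝔄)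
  q_sum : ∑ j, star (q j) * q j = 1
  q_z : ∀ j, q j z₁ = ((√(1 / p) : ℝ) : ℂ) • u' j z₀
  u'_mem : ∀ j, u' j ∈ Com 𝔄
  u'_iso : ∀ j, star (u' j) * u' j = 1
  marg : ∀ c ∈ Com 𝔄, ‖c z₁‖ ^ 2 = ∑ j, (1 / p : ℝ) * ‖c (u' j z₀)‖ ^ 2

/-- Existence of the loop data.

PROOF. Write `N = Com 𝔄`, `M = Com (Com 𝔄)`; `Com M = N` (`com3`), `u j ∈ 𝔄 ⊆ M`.
(1) `exists_cuntz` with `𝔓 = Com 𝔄` (`Com 𝔓 = M`): `v, w ∈ M`. `exists_cyc` with `𝔓 = Com 𝔄`: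
a unit vector `ζ` with `Cyc (Com 𝔄) ζ`. Let `η j = (√(1/p)) • u j ζ`, a family with: if `x ∈ M` and
`x (η j) = 0` for all `j` then (take `j = 0`, `u 0 = 1` by `hu0`, `p > 0`) `x ζ = 0` so `x = 0` by
`sep_of_cyc`. `exists_omega` gives `Ω` with `Cyc N Ω`, `Cyc M Ω` and the state formula.
(2) `hT` (the theorem of Tomita) for `M` and `Ω` gives `J` with `TomitaJ M Ω J`.
(3) `exists_zeta` with `(v, w)`, `ξ : Fin 1 → H` constant `ζ`, gives `z₀`, `J z₀ = z₀`,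
`‖x z₀‖^2 = ‖x ζ‖^2` for `x ∈ M`; `exists_zeta` with `(w, v)`, `ξ = η`, `η = ` constant `ζ` on
`Fin 1` gives `z₁`, `J z₁ = z₁`, `‖x z₁‖^2 = ∑ ‖x (η j)‖^2 = ∑ (1/p) ‖x (u j ζ)‖^2 =
∑ (1/p) ‖x (u j z₀)‖^2` (the last step: `x * u j ∈ M`). With `x = 1`: `‖z₀‖ = 1`,
`‖z₁‖^2 = ∑ (1/p) = 1`.
(4) If `a ∈ M`, `a z₀ = 0` then `a ζ = 0`, `a = 0`; if `a z₁ = 0` then `a (η j) = 0` for all `j`,
`a = 0`. So `cyc₀`, `cyc₁` follow from `cyc_of_sep` (`𝔓 = Com 𝔄`).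
`Cyc M z₁`: by `cyc_of_sep` (`𝔓 = M`): let `b ∈ Com M = N`, `b z₁ = 0`. `hJ.N_to_M` gives `a ∈ M`
with `J (b (J x)) = a x`; `a z₁ = J (b (J z₁)) = J (b z₁) = J 0 = 0` so `a = 0`, hence
`b (J x) = J (a x) = 0` for all `x`, `b = 0`.
(5) `y`: `exists_factor` with `𝔓 = M`, `ζ = z₁`, `η j = √(1/p) • u j z₀` (in `Com M = N`).
(6) `u' j`: the element `b ∈ Com M` given by `hJ.M_to_N (u j)`: `J (u j (J x)) = u' j x`. It is an
isometry: `⟪u' j x, u' j x⟫ = ⟪u j (J x), u j (J x)⟫ = ⟪J x, J x⟫ = ⟪x, x⟫` (conjugations are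
harmless since the numbers are real), so `star (u' j) * u' j = 1`.
`u' j z₀ = J (u j z₀)`. `marg`: for `c ∈ N` let `a ∈ M` with `J (c (J x)) = a x`; `‖c z₁‖ =
‖J (c (J z₁))‖ = ‖a z₁‖` (`‖J x‖ = ‖x‖`), and `‖c (u' j z₀)‖ = ‖J (c (J (u j z₀)))‖ =
‖a (u j z₀)‖`; apply the formula of (3) to `a`.
(7) `q`: `exists_factor` with `𝔓 = N`, `ζ = z₁`, `η j = √(1/p) • u' j z₀` and `marg`. -/
theorem exists_loop {𝔄 : StarSubalgebra ℂ (H →L[ℂ] H)} (h1 : (1 : H →L[ℂ] H) ≠ 0)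
    (hPI : PurelyInfinite (Com 𝔄 : Set (H →L[ℂ] H)))
    (hPI' : PurelyInfinite (Com (Com 𝔄) : Set (H →L[ℂ] H)))
    (hT : ∀ Ω : H, Cyc (Com 𝔄) Ω → Cyc (Com (Com 𝔄)) Ω → ∃ J, TomitaJ (Com (Com 𝔄)) Ω J)
    {p : ℕ} (hp : 0 < p) (u : Fin p → H →L[ℂ] H) (hu : ∀ j, u j ∈ 𝔄)
    (huu : ∀ j, star (u j) * u j = 1) (hu0 : u ⟨0, hp⟩ = 1) : Nonempty (Loop 𝔄 p u) := by
  classical
  have hM : ∀ j, u j ∈ Com (Com 𝔄) := fun j =>
    mem_Com.2 fun b hb => (mem_Com.1 hb (u j) (hu j)).symm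
  have hpR : (0 : ℝ) < 1 / (p : ℝ) := by
    have : (0 : ℝ) < (p : ℝ) := by exact_mod_cast hp
    positivity
  set c : ℂ := ((√(1 / p) : ℝ) : ℂ) with hc
  have hc2 : ‖c‖ ^ 2 = 1 / (p : ℝ) := by
    rw [hc, Complex.norm_real, Real.norm_eq_abs, sq_abs, Real.sq_sqrt hpR.le]
  have hc0 : c ≠ 0 := by
    intro h0
    rw [h0, norm_zero] at hc2
    have : (0 : ℝ) ^ 2 = 0 := by norm_num
    rw [this] at hc2
    exact hpR.ne hc2
  obtain ⟨v, hv, w, hw, hvv, hww, hvw, hsum⟩ := exists_cuntz (𝔓 := Com 𝔄) h1 hPI'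
  obtain ⟨ζ, hζ1, hζ⟩ := exists_cyc (𝔓 := Com 𝔄) h1 hPI'
  have hη : ∀ x ∈ Com (Com 𝔄), (∀ j, x ((fun j => c • u j ζ) j) = 0) → x = 0 := by
    intro x hx h
    have h2 := h ⟨0, hp⟩
    simp only [hu0, map_smul] at h2
    have h3 : x ζ = 0 := (smul_eq_zero.mp h2).resolve_left hc0
    exact sep_of_cyc hζ hx h3
  obtain ⟨Ω, hΩN, hΩM, hst⟩ := exists_omega h1 hPI hv hw hsum hζ (fun j => c • u j ζ) hη
  obtain ⟨J, hJ⟩ := hT Ω hΩN hΩM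
  have hwv : star w * v = 0 := by
    have := congrArg star hvw
    rwa [star_mul, star_star, star_zero] at this
  obtain ⟨z₀, hz₀J, hz₀'⟩ := exists_zeta hv hw hvv hvw (fun _ : Fin 1 => ζ)
    (fun j => c • u j ζ) hJ (by
      intro x hx
      rw [hst x hx, Fin.sum_univ_one])
  obtain ⟨z₁, hz₁J, hz₁⟩ := exists_zeta hw hv hww hwv (fun j => c • u j ζ)
    (fun _ : Fin 1 => ζ) hJ (by
      intro x hx
      rw [hst x hx, Fin.sum_univ_one, add_comm])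
  have hz₀ : ∀ x ∈ Com (Com 𝔄), ‖x z₀‖ ^ 2 = ‖x ζ‖ ^ 2 := by
    intro x hx
    rw [hz₀' x hx, Fin.sum_univ_one]
  have hz₁' : ∀ x ∈ Com (Com 𝔄), ‖x z₁‖ ^ 2 = ∑ j, (1 / p : ℝ) * ‖x (u j z₀)‖ ^ 2 := by
    intro x hx
    rw [hz₁ x hx]
    refine Finset.sum_congr rfl fun j _ => ?_
    rw [map_smul, norm_smul, mul_pow, hc2]
    congr 1
    exact (hz₀ (x * u j) (mul_mem hx (hM j))).symm
  have hn₀ : ‖z₀‖ = 1 := by
    have h2 := hz₀ 1 (one_mem _)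
    rw [one_apply_eq_self, one_apply_eq_self, hζ1] at h2
    exact (sq_eq_sq₀ (norm_nonneg _) zero_le_one).mp h2
  have hn₁ : ‖z₁‖ = 1 := by
    have h2 := hz₁' 1 (one_mem _)
    rw [one_apply_eq_self] at h2
    have h3 : ∑ j, (1 / p : ℝ) * ‖(1 : H →L[ℂ] H) (u j z₀)‖ ^ 2 = 1 := by
      have h4 : ∀ j ∈ (Finset.univ : Finset (Fin p)),
          (1 / p : ℝ) * ‖(1 : H →L[ℂ] H) (u j z₀)‖ ^ 2 = 1 / p := by
        intro j _
        rw [one_apply_eq_self, Om_iso (huu j), hn₀, one_pow, mul_one]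
      rw [Finset.sum_congr rfl h4, Finset.sum_const, Finset.card_univ, Fintype.card_fin,
        nsmul_eq_mul]
      have : (p : ℝ) ≠ 0 := by exact_mod_cast hp.ne'
      field_simp
    rw [h3] at h2
    exact (sq_eq_sq₀ (norm_nonneg _) zero_le_one).mp (by rw [h2, one_pow])
  have hsep₁ : ∀ a ∈ Com (Com 𝔄), a z₁ = 0 → a = 0 := by
    intro a ha h0
    refine hη a ha fun j => ?_
    have h2 := hz₁ a ha
    rw [h0, norm_zero, zero_pow two_ne_zero] at h2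
    have h3 := (Finset.sum_eq_zero_iff_of_nonneg (fun j _ => sq_nonneg _)).mp h2.symm j
      (Finset.mem_univ j)
    exact norm_eq_zero.mp (pow_eq_zero_iff (two_ne_zero) |>.mp h3)
  have cyc₀ : Cyc (Com 𝔄) z₀ := by
    refine cyc_of_sep fun a ha h0 => ?_
    have h2 := hz₀ a ha
    rw [h0, norm_zero, zero_pow two_ne_zero] at h2
    exact sep_of_cyc hζ ha (norm_eq_zero.mp (pow_eq_zero_iff (two_ne_zero) |>.mp h2.symm))
  have cyc₁ : Cyc (Com 𝔄) z₁ := cyc_of_sep hsep₁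
  have hJ0 : J 0 = 0 := by
    have := hJ.smul 0 0
    rwa [zero_smul, map_zero, zero_smul] at this
  have hJn : ∀ x, ‖J x‖ = ‖x‖ := by
    intro x
    have h3 : ‖J x‖ ^ 2 = ‖x‖ ^ 2 := by
      rw [← inner_self_eq_norm_sq (𝕜 := ℂ), ← inner_self_eq_norm_sq (𝕜 := ℂ), hJ.inner]
    exact (sq_eq_sq₀ (norm_nonneg _) (norm_nonneg _)).mp h3
  have cycM₁ : Cyc (Com (Com 𝔄)) z₁ := by
    refine cyc_of_sep fun b hb h0 => ?_
    obtain ⟨a, ha, hab⟩ := hJ.N_to_M b hb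
    have h2 : a = 0 := by
      refine hsep₁ a ha ?_
      rw [← hab, hz₁J, h0, hJ0]
    ext y
    have h3 : J (b (J (J y))) = 0 := by
      rw [hab, h2]
      rfl
    rw [hJ.invol] at h3
    have h4 := congrArg J h3
    rw [hJ.invol, hJ0] at h4
    rw [h4]
    rfl
  obtain ⟨y, hy, hyz, hys⟩ := exists_factor cycM₁ (fun j => c • u j z₀) (by
    intro x hx
    rw [hz₁' x hx]
    refine Finset.sum_congr rfl fun j _ => ?_
    rw [map_smul, norm_smul, mul_pow, hc2])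
  choose u' hu' huJ using fun j => hJ.M_to_N (u j) (hM j)
  have hu'N : ∀ j, u' j ∈ Com 𝔄 := fun j => by
    have := hu' j
    rwa [com3] at this
  have hu'z : ∀ j, u' j z₀ = J (u j z₀) := by
    intro j
    rw [← huJ, hz₀J]
  have hinn : ∀ j (x z : H), ⟪u j x, u j z⟫_ℂ = ⟪x, z⟫_ℂ := by
    intro j x z
    rw [← adjoint_inner_right, ← star_eq_adjoint]
    have h2 : star (u j) (u j z) = z := congrArg (fun T : H →L[ℂ] H => T z) (huu j)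
    rw [h2]
  have hiso : ∀ j, star (u' j) * u' j = 1 := by
    intro j
    ext x
    refine ext_inner_left ℂ fun z => ?_
    show ⟪z, star (u' j) (u' j x)⟫_ℂ = ⟪z, x⟫_ℂ
    rw [star_eq_adjoint, adjoint_inner_right, ← huJ, ← huJ, hJ.inner, hinn, hJ.inner]
  have hmarg : ∀ n ∈ Com 𝔄, ‖n z₁‖ ^ 2 = ∑ j, (1 / p : ℝ) * ‖n (u' j z₀)‖ ^ 2 := by
    intro n hn
    obtain ⟨a, ha, hab⟩ := hJ.N_to_M n (by rw [com3]; exact hn)
    have e1 : ‖n z₁‖ = ‖a z₁‖ := by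
      rw [← hab, hJn, hz₁J]
    rw [e1, hz₁' a ha]
    refine Finset.sum_congr rfl fun j _ => ?_
    rw [hu'z, ← hab, hJn]
  obtain ⟨q, hq, hqz, hqs⟩ := exists_factor cyc₁ (fun j => c • u' j z₀) (by
    intro x hx
    rw [hmarg x hx]
    refine Finset.sum_congr rfl fun j _ => ?_
    rw [map_smul, norm_smul, mul_pow, hc2])
  exact ⟨{
    z₀ := z₀
    z₁ := z₁
    norm_z₀ := hn₀
    norm_z₁ := hn₁
    cyc₀ := cyc₀
    cyc₁ := cyc₁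
    y := y
    y_mem := fun j => by
      have := hy j
      rwa [com3] at this
    y_sum := hys
    y_z := hyz
    q := q
    u' := u'
    q_mem := hq
    q_sum := hqs
    q_z := hqz
    u'_mem := hu'N
    u'_iso := hiso
    marg := hmarg }⟩

end Pool.Agent.MP_86f3ed.Ty
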