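import Pool.Agent.H.MP_86f3ed_an.Ty.Am

open scoped InnerProductSpace Topology
open Filter ContinuousLinearMap

namespace Pool.Agent.MP_86f3ed.Ty

open Pin

variable {H : Type*} [NormedAddCommGroup H] [InnerProductSpace ℂ H] [CompleteSpace H]

/-- Two hermitian functionals `vf κ₀ - vf lam₀`, `vf κ₁ - vf lam₁` in Jordan form which are nearly
related by the channels `y` and `u'`. -/
structure Rig (H : Type*) [NormedAddCommGroup H] [InnerProductSpace ℂ H] [CompleteSpace H]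
    (n p : ℕ) (y u' : Fin p → H →L[ℂ] H) (δ : ℝ) where
  κ₀ : KK H n
  lam₀ : KK H n
  κ₁ : KK H n
  lam₁ : KK H n
  e₀ : H →L[ℂ] H
  e₁ : H →L[ℂ] H
  e₀_star : star e₀ = e₀
  e₀_idem : e₀ * e₀ = e₀
  e₁_star : star e₁ = e₁
  e₁_idem : e₁ * e₁ = e₁
  e₀κ : am H n e₀ κ₀ = κ₀
  e₀lam : am H n e₀ lam₀ = 0
  e₁κ : am H n e₁ κ₁ = κ₁
  e₁lam : am H n e₁ lam₁ = 0
  h1 : ∀ (j : Fin p) (Z : H →L[ℂ] H),
    ‖(vf κ₁ (star (y j) * Z * y j) - vf lam₁ (star (y j) * Z * y j)) -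
      ((1 / p : ℝ) : ℂ) * (vf κ₀ Z - vf lam₀ Z)‖ ≤ δ * ‖Z‖
  h2 : ∀ Z : H →L[ℂ] H, ‖(vf κ₁ Z - vf lam₁ Z) - ∑ j, ((1 / p : ℝ) : ℂ) *
    (vf κ₀ (star (u' j) * Z * u' j) - vf lam₀ (star (u' j) * Z * u' j))‖ ≤ δ * ‖Z‖

theorem mass_vf_add {n : ℕ} (v : KK H n) (S T : H →L[ℂ] H) : vf v (S + T) = vf v S + vf v T := by
  rw [vf, vf, vf, map_add, add_apply, inner_add_right]

theorem mass_vf_sum {n p : ℕ} (v : KK H n) (S : Fin p → H →L[ℂ] H) :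
    vf v (∑ j, S j) = ∑ j, vf v (S j) := by
  rw [vf, map_sum, sum_apply, inner_sum]
  rfl

theorem mass_vf_one {n : ℕ} (v : KK H n) : vf v 1 = ((‖v‖ ^ 2 : ℝ) : ℂ) := by
  have h := vf_star_mul v (1 : H →L[ℂ] H)
  rw [star_one, mul_one, am_one_apply] at h
  exact h

theorem mass_vf_proj {n : ℕ} (v : KK H n) {e : H →L[ℂ] H} (hs : star e = e) (hi : e * e = e) :
    vf v e = ((‖am H n e v‖ ^ 2 : ℝ) : ℂ) := by
  have h := vf_star_mul v e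
  rw [hs, hi] at h
  exact h

theorem mass_norm_proj {e : H →L[ℂ] H} (hs : star e = e) (hi : e * e = e) : ‖e‖ ≤ 1 := by
  have h := CStarRing.norm_star_mul_self (x := e)
  rw [hs, hi] at h
  by_contra hc
  have hc' : 1 < ‖e‖ := not_le.mp hc
  nlinarith

theorem mass_pyth {n : ℕ} (w : KK H n) {e : H →L[ℂ] H} (hs : star e = e) (hi : e * e = e) :
    ‖w‖ ^ 2 = ‖am H n e w‖ ^ 2 + ‖am H n (1 - e) w‖ ^ 2 := by
  have hs' : star (1 - e) = 1 - e := by rw [star_sub, star_one, hs]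
  have hi' : (1 - e) * (1 - e) = 1 - e := by
    rw [mul_sub, mul_one, sub_mul, one_mul, hi, sub_self, sub_zero]
  have h1 := mass_vf_one w
  have h2 : vf w (e + (1 - e)) = vf w e + vf w (1 - e) := mass_vf_add w _ _
  rw [add_sub_cancel, h1, mass_vf_proj w hs hi, mass_vf_proj w hs' hi'] at h2
  exact_mod_cast h2

theorem mass_sum_y {n p : ℕ} {y : Fin p → H →L[ℂ] H} (hy : ∑ j, star (y j) * y j = 1)
    (v : KK H n) : ∑ j, ‖am H n (y j) v‖ ^ 2 = ‖v‖ ^ 2 := by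
  have h := mass_vf_sum v (fun j => star (y j) * y j)
  rw [hy, mass_vf_one] at h
  have h2 : ∀ j, vf v (star (y j) * y j) = ((‖am H n (y j) v‖ ^ 2 : ℝ) : ℂ) := fun j =>
    vf_star_mul v (y j)
  simp only [h2] at h
  rw [← Complex.ofReal_sum] at h
  exact_mod_cast h.symm

theorem mass_re_bound {z : ℂ} {a c : ℝ} (h : ‖z - (a : ℂ)‖ ≤ c) : a ≤ z.re + c := by
  have h1 := (Complex.abs_re_le_norm (z - (a : ℂ))).trans h
  rw [Complex.sub_re, Complex.ofReal_re] at h1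
  have h2 := (abs_le.mp h1).1
  linarith

/-- The mass estimate.

PROOF. All the functionals are evaluated with `vf_conj`: `vf v (star a * Z * a) = vf (am a v) Z`, and
`vf v e = ‖am e v‖^2` for a projection `e` (`vf_star_mul`, `e = star e * e`), `vf v 1 = ‖v‖^2`.
`‖e₀‖ ≤ 1`, `‖e₁‖ ≤ 1` (projections; see `Inf1_norm_le` or `Slot_norm`).
(1) `h1` with `Z = e₀`, summed over `j`, real parts: since `vf κ₀ e₀ - vf lam₀ e₀ = ‖κ₀‖^2`,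
`∑_j (‖am (e₀ y_j) κ₁‖^2 - ‖am (e₀ y_j) lam₁‖^2) ≥ p (1/p) ‖κ₀‖^2 - p δ = ‖κ₀‖^2 - p δ`.
And `∑_j ‖am (e₀ y_j) κ₁‖^2 = ‖κ₁‖^2 - ∑_j ‖am ((1-e₀) y_j) κ₁‖^2` because
`‖am (y_j) κ₁‖^2 = ‖am (e₀ y_j) κ₁‖^2 + ‖am ((1-e₀) y_j) κ₁‖^2` (Pythagoras) and
`∑ ‖am (y_j) κ₁‖^2 = re vf κ₁ (∑ star (y_j) * y_j) = ‖κ₁‖^2`. So
`‖κ₀‖^2 + ∑ ‖am ((1-e₀) y_j) κ₁‖^2 + ∑ ‖am (e₀ y_j) lam₁‖^2 ≤ ‖κ₁‖^2 + p δ`.
(2) `h2` with `Z = e₁`: `‖κ₁‖^2 = re (vf κ₁ e₁ - vf lam₁ e₁) ≤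
∑ (1/p) (‖am (e₁ u'_j) κ₀‖^2 - ‖am (e₁ u'_j) lam₀‖^2) + δ`, and
`∑ (1/p) ‖am (e₁ u'_j) κ₀‖^2 = ‖κ₀‖^2 - ∑ (1/p) ‖am ((1-e₁) u'_j) κ₀‖^2` (`u'_j` isometries,
`∑_j 1/p = 1` because `p > 0`). So `‖κ₁‖^2 + ∑ (1/p) ‖am ((1-e₁) u'_j) κ₀‖^2 +
∑ (1/p) ‖am (e₁ u'_j) lam₀‖^2 ≤ ‖κ₀‖^2 + δ`. Add (1) and (2). -/
theorem mass {n p : ℕ} (hp : 0 < p) {y u' : Fin p → H →L[ℂ] H} {δ : ℝ} (hδ : 0 ≤ δ)
    (hy : ∑ j, star (y j) * y j = 1) (hu' : ∀ j, star (u' j) * u' j = 1)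
    (D : Rig H n p y u' δ) :
    ∑ j, ‖am H n ((1 - D.e₀) * y j) D.κ₁‖ ^ 2 + ∑ j, ‖am H n (D.e₀ * y j) D.lam₁‖ ^ 2 +
      ∑ j, (1 / p : ℝ) * ‖am H n ((1 - D.e₁) * u' j) D.κ₀‖ ^ 2 +
      ∑ j, (1 / p : ℝ) * ‖am H n (D.e₁ * u' j) D.lam₀‖ ^ 2 ≤ (p + 1) * δ := by
  set e := D.e₀ with he
  set f := D.e₁ with hf
  set κ := D.κ₀ with hκ
  set la := D.lam₀ with hla
  set κ' := D.κ₁ with hκ'
  set la' := D.lam₁ with hla'
  have hes : star e = e := D.e₀_star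
  have hei : e * e = e := D.e₀_idem
  have hfs : star f = f := D.e₁_star
  have hfi : f * f = f := D.e₁_idem
  have hpR : (0 : ℝ) < p := by exact_mod_cast hp
  -- values of the functionals
  have k0 : vf κ e = ((‖κ‖ ^ 2 : ℝ) : ℂ) := by
    rw [mass_vf_proj κ hes hei, D.e₀κ]
  have l0 : vf la e = 0 := by
    rw [mass_vf_proj la hes hei, D.e₀lam]; simp
  have k1 : vf κ' f = ((‖κ'‖ ^ 2 : ℝ) : ℂ) := by
    rw [mass_vf_proj κ' hfs hfi, D.e₁κ]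
  have l1 : vf la' f = 0 := by
    rw [mass_vf_proj la' hfs hfi, D.e₁lam]; simp
  have conj : ∀ (v : KK H n) (a g : H →L[ℂ] H), star g = g → g * g = g →
      vf v (star a * g * a) = ((‖am H n (g * a) v‖ ^ 2 : ℝ) : ℂ) := by
    intro v a g hg1 hg2
    rw [vf_conj, mass_vf_proj _ hg1 hg2, am_mul_apply]
  -- first estimate
  have A : ∀ j, (1 / p : ℝ) * ‖κ‖ ^ 2 + ‖am H n (e * y j) la'‖ ^ 2 ≤
      ‖am H n (e * y j) κ'‖ ^ 2 + δ := by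
    intro j
    have h := D.h1 j e
    rw [conj _ _ _ hes hei, conj _ _ _ hes hei, k0, l0, sub_zero] at h
    have hle : δ * ‖e‖ ≤ δ := by
      have := mass_norm_proj hes hei
      nlinarith
    rw [← Complex.ofReal_mul] at h
    have h3 := mass_re_bound (h.trans hle)
    rw [Complex.sub_re, Complex.ofReal_re, Complex.ofReal_re] at h3
    linarith
  have A' : ‖κ‖ ^ 2 + ∑ j, ‖am H n (e * y j) la'‖ ^ 2 ≤
      ∑ j, ‖am H n (e * y j) κ'‖ ^ 2 + p * δ := by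
    have h := Finset.sum_le_sum (fun j (_ : j ∈ Finset.univ) => A j)
    rw [Finset.sum_add_distrib, Finset.sum_add_distrib, Finset.sum_const, Finset.sum_const,
      Finset.card_univ, Fintype.card_fin, nsmul_eq_mul, nsmul_eq_mul] at h
    have h2 : (p : ℝ) * ((1 / p : ℝ) * ‖κ‖ ^ 2) = ‖κ‖ ^ 2 := by
      field_simp
    linarith
  have B : ∑ j, ‖am H n (e * y j) κ'‖ ^ 2 + ∑ j, ‖am H n ((1 - e) * y j) κ'‖ ^ 2 =
      ‖κ'‖ ^ 2 := by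
    rw [← Finset.sum_add_distrib, ← mass_sum_y hy κ']
    refine Finset.sum_congr rfl fun j _ => ?_
    rw [am_mul_apply, am_mul_apply, ← mass_pyth _ hes hei]
  -- second estimate
  have C : ‖κ'‖ ^ 2 + ∑ j, (1 / p : ℝ) * ‖am H n (f * u' j) la‖ ^ 2 ≤
      ∑ j, (1 / p : ℝ) * ‖am H n (f * u' j) κ‖ ^ 2 + δ := by
    have h : ‖(vf κ' f - vf la' f) - ∑ j, ((1 / p : ℝ) : ℂ) *
        (vf κ (star (u' j) * f * u' j) - vf la (star (u' j) * f * u' j))‖ ≤ δ * ‖f‖ := D.h2 f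
    have h2 : ∀ j, ((1 / p : ℝ) : ℂ) * (vf κ (star (u' j) * f * u' j) -
        vf la (star (u' j) * f * u' j)) = (((1 / p : ℝ) * (‖am H n (f * u' j) κ‖ ^ 2 -
          ‖am H n (f * u' j) la‖ ^ 2) : ℝ) : ℂ) := by
      intro j
      rw [conj _ _ _ hfs hfi, conj _ _ _ hfs hfi, ← Complex.ofReal_sub, ← Complex.ofReal_mul]
    simp only [h2] at h
    rw [k1, l1, sub_zero, ← Complex.ofReal_sum, norm_sub_rev] at h
    have hle : δ * ‖f‖ ≤ δ := by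
      have := mass_norm_proj hfs hfi
      nlinarith
    have h3 := mass_re_bound (h.trans hle)
    rw [Complex.ofReal_re] at h3
    have h4 : ∑ j, (1 / p : ℝ) * (‖am H n (f * u' j) κ‖ ^ 2 - ‖am H n (f * u' j) la‖ ^ 2) =
        ∑ j, (1 / p : ℝ) * ‖am H n (f * u' j) κ‖ ^ 2 -
          ∑ j, (1 / p : ℝ) * ‖am H n (f * u' j) la‖ ^ 2 := by
      rw [← Finset.sum_sub_distrib]
      exact Finset.sum_congr rfl fun j _ => mul_sub _ _ _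
    rw [h4] at h3
    linarith
  have E : ∑ j, (1 / p : ℝ) * ‖am H n (f * u' j) κ‖ ^ 2 +
      ∑ j, (1 / p : ℝ) * ‖am H n ((1 - f) * u' j) κ‖ ^ 2 = ‖κ‖ ^ 2 := by
    have h1 : ∀ j : Fin p, (1 / p : ℝ) * ‖am H n (f * u' j) κ‖ ^ 2 +
        (1 / p : ℝ) * ‖am H n ((1 - f) * u' j) κ‖ ^ 2 = (1 / p : ℝ) * ‖κ‖ ^ 2 := by
      intro j
      rw [← mul_add, am_mul_apply, am_mul_apply, ← mass_pyth _ hfs hfi]
      have h2 := vf_star_mul κ (u' j)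
      rw [hu' j, mass_vf_one] at h2
      have h3 : ‖κ‖ ^ 2 = ‖am H n (u' j) κ‖ ^ 2 := by exact_mod_cast h2
      rw [h3]
    rw [← Finset.sum_add_distrib, Finset.sum_congr rfl fun j _ => h1 j, Finset.sum_const,
      Finset.card_univ, Fintype.card_fin, nsmul_eq_mul]
    field_simp
  linarith

end Pool.Agent.MP_86f3ed.Ty
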