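import Pool.Agent.H.MP_86f3ed_an.Ty.PFin
import Pool.Agent.H.MP_86f3ed_an.Ty.Jord
import Pool.Agent.H.MP_86f3ed_an.Ty.Mass
import Pool.Agent.H.MP_86f3ed_an.Ty.Loop

open scoped InnerProductSpace Topology
open Filter ContinuousLinearMap

namespace Pool.Agent.MP_86f3ed.Ty

open Pin

variable {H : Type*} [NormedAddCommGroup H] [InnerProductSpace ℂ H] [CompleteSpace H]

/-- The elementary operator with coefficients `x`, `y`. -/
noncomputable def el {m : ℕ} (x y : Fin m → H →L[ℂ] H) (Z : H →L[ℂ] H) : H →L[ℂ] H :=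
  ∑ k, x k * Z * y k

/-- `𝔄` has nearly central elementary operators. -/
def NCen (𝔄 : StarSubalgebra ℂ (H →L[ℂ] H)) : Prop :=
  ∀ F : Finset (H →L[ℂ] H), (∀ g ∈ F, g ∈ 𝔄) → ∀ ε : ℝ, 0 < ε →
    ∃ (m : ℕ) (x y : Fin m → H →L[ℂ] H), (∀ k, x k ∈ 𝔄) ∧ (∀ k, y k ∈ 𝔄) ∧
      ‖∑ k, x k * y k - 1‖ ≤ ε ∧ ∀ g ∈ F, ∀ Z, ‖g * el x y Z - el x y Z * g‖ ≤ ε * ‖Z‖

theorem ENet_append {m n : ℕ} (x y : Fin m → H →L[ℂ] H) (x' y' : Fin n → H →L[ℂ] H)
    (Z : H →L[ℂ] H) :
    el (Fin.append x x') (Fin.append y y') Z = el x y Z + el x' y' Z := by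
  simp only [el]
  rw [Fin.sum_univ_add]
  congr 1
  · refine Finset.sum_congr rfl fun k _ => ?_
    rw [Fin.append_left, Fin.append_left]
  · refine Finset.sum_congr rfl fun k _ => ?_
    rw [Fin.append_right, Fin.append_right]

theorem ENet_smul {m : ℕ} (c : ℂ) (x y : Fin m → H →L[ℂ] H) (Z : H →L[ℂ] H) :
    el (fun k => c • x k) y Z = c • el x y Z := by
  simp only [el]
  rw [Finset.smul_sum]
  refine Finset.sum_congr rfl fun k _ => ?_
  rw [smul_mul_assoc, smul_mul_assoc]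

theorem ENet_star {m : ℕ} (x y : Fin m → H →L[ℂ] H) (Z : H →L[ℂ] H) :
    el (fun k => star (y k)) (fun k => star (x k)) Z = star (el x y (star Z)) := by
  simp only [el]
  rw [star_sum]
  refine Finset.sum_congr rfl fun k _ => ?_
  rw [star_mul, star_mul, star_star, mul_assoc]

theorem ENet_one {m : ℕ} (x y : Fin m → H →L[ℂ] H) :
    el x y 1 = ∑ k, x k * y k := by
  simp only [el, mul_one]

theorem ENet_append_mem {m n : ℕ} {x : Fin m → H →L[ℂ] H} {x' : Fin n → H →L[ℂ] H}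
    {𝔄 : StarSubalgebra ℂ (H →L[ℂ] H)} (hx : ∀ k, x k ∈ 𝔄) (hx' : ∀ k, x' k ∈ 𝔄) :
    ∀ k, Fin.append x x' k ∈ 𝔄 := by
  intro k
  refine Fin.addCases (fun i => ?_) (fun i => ?_) k
  · rw [Fin.append_left]; exact hx i
  · rw [Fin.append_right]; exact hx' i

/-- Correction of nearly central elementary operators: exactly unital and hermitian.

PROOF. Let `K = 1 + ∑_{g ∈ F} ‖g‖`, `ε' = ε / (3 K)`, `F' = F ∪ star '' F` (a finset, e.g.
`F ∪ F.image star`, classical decidability). Take `x, y` for `F'`, `ε'`, let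
`θ Z = el x y Z`, `w = (1/2) (∑ x_k y_k + star (∑ x_k y_k))`, so `star w = w`, `‖1 - w‖ ≤ ε'`. Put
`θ' Z = (1/2) (∑ x_k Z y_k + ∑ star (y_k) Z star (x_k)) + (1/2) ((1-w) Z + Z (1-w))`. It is
elementary with the `2 m + 2` pairs `((1/2) x_k, y_k)`, `((1/2) star y_k, star x_k)`,
`((1/2) (1-w), 1)`, `((1/2) 1, 1-w)` (use `Fin.append`/`Fin.snoc`, or first prove the statement for a
general finite index type and transport along `Fintype.equivFin`, or use the lemma that the set of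
operators of the form `el x y` with coefficients in `𝔄` is closed under addition).
`θ' 1 = w + (1 - w) = 1`. Hermitian: clear (`star (∑ x_k Z y_k) = ∑ star y_k star Z star x_k`).
Commutators: for `g ∈ F`: `‖[g, θ Z]‖ ≤ ε' ‖Z‖`;
`[g, ∑ star y_k Z star x_k] = [g, star (θ (star Z))] = - star [star g, θ (star Z)]`, norm at most
`ε' ‖Z‖`; and `‖[g, (1-w) Z + Z (1-w)]‖ ≤ 4 ‖g‖ ε' ‖Z‖`. Altogether at most
`(ε' + 2 ‖g‖ ε') ‖Z‖ ≤ 3 K ε' ‖Z‖ = ε ‖Z‖`. -/
theorem NCen.corr {𝔄 : StarSubalgebra ℂ (H →L[ℂ] H)} (h : NCen 𝔄) (F : Finset (H →L[ℂ] H))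
    (hF : ∀ g ∈ F, g ∈ 𝔄) {ε : ℝ} (hε : 0 < ε) :
    ∃ (m : ℕ) (x y : Fin m → H →L[ℂ] H), (∀ k, x k ∈ 𝔄) ∧ (∀ k, y k ∈ 𝔄) ∧
      ∑ k, x k * y k = 1 ∧ (∀ Z, star (el x y Z) = el x y (star Z)) ∧
      ∀ g ∈ F, ∀ Z, ‖g * el x y Z - el x y Z * g‖ ≤ ε * ‖Z‖ := by
  classical
  have hsum0 : ∀ g ∈ F, ‖g‖ ≤ ∑ g ∈ F, ‖g‖ := fun g hg =>
    Finset.single_le_sum (f := fun g : H →L[ℂ] H => ‖g‖) (fun _ _ => norm_nonneg _) hg
  set K : ℝ := 1 + ∑ g ∈ F, ‖g‖ with hK
  have hK1 : 1 ≤ K := by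
    have : 0 ≤ ∑ g ∈ F, ‖g‖ := Finset.sum_nonneg fun _ _ => norm_nonneg _
    linarith
  have hKpos : 0 < 3 * K := by linarith
  set ε' : ℝ := ε / (3 * K) with hε'
  have hε'pos : 0 < ε' := div_pos hε hKpos
  have hεK : 3 * K * ε' = ε := by
    rw [hε']
    field_simp
  have hF' : ∀ g ∈ F ∪ F.image star, g ∈ 𝔄 := by
    intro g hg
    rcases Finset.mem_union.mp hg with hg | hg
    · exact hF g hg
    · obtain ⟨g', hg', rfl⟩ := Finset.mem_image.mp hg
      exact star_mem (hF g' hg')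
  obtain ⟨m, x, y, hx, hy, hxy, hcom⟩ := h (F ∪ F.image star) hF' ε' hε'pos
  set S : H →L[ℂ] H := ∑ k, x k * y k with hS
  set w : H →L[ℂ] H := (1 / 2 : ℂ) • (S + star S) with hw
  have hws : star w = w := by
    rw [hw, star_smul, star_add, star_star, add_comm (star S) S]
    congr 1
    simp
  have hSmem : S ∈ 𝔄 := sum_mem fun k _ => mul_mem (hx k) (hy k)
  have hwmem : w ∈ 𝔄 := SMulMemClass.smul_mem _ (add_mem hSmem (star_mem hSmem))
  have h1mem : (1 : H →L[ℂ] H) ∈ 𝔄 := one_mem _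
  have hwn : ‖1 - w‖ ≤ ε' := by
    have e1 : 1 - w = -((1 / 2 : ℂ) • ((S - 1) + star (S - 1))) := by
      rw [hw, star_sub, star_one]
      module
    rw [e1, norm_neg, norm_smul]
    have e2 : ‖(1 / 2 : ℂ)‖ = 1 / 2 := by simp
    rw [e2]
    have e3 : ‖(S - 1) + star (S - 1)‖ ≤ ‖S - 1‖ + ‖S - 1‖ := by
      refine (norm_add_le _ _).trans ?_
      rw [norm_star]
    linarith
  refine ⟨m + m + 2, Fin.append (Fin.append (fun k => (1 / 2 : ℂ) • x k)
      (fun k => (1 / 2 : ℂ) • star (y k))) ![(1 / 2 : ℂ) • (1 - w), (1 / 2 : ℂ) • 1],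
    Fin.append (Fin.append y (fun k => star (x k))) ![1, 1 - w], ?_, ?_, ?_⟩
  · refine ENet_append_mem (ENet_append_mem (fun k => SMulMemClass.smul_mem _ (hx k))
      (fun k => SMulMemClass.smul_mem _ (star_mem (hy k)))) ?_
    intro k
    fin_cases k
    · exact SMulMemClass.smul_mem _ (sub_mem h1mem hwmem)
    · exact SMulMemClass.smul_mem _ h1mem
  · refine ENet_append_mem (ENet_append_mem hy (fun k => star_mem (hx k))) ?_
    intro k
    fin_cases k
    · exact h1mem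
    · exact sub_mem h1mem hwmem
  have key : ∀ Z : H →L[ℂ] H, el (Fin.append (Fin.append (fun k => (1 / 2 : ℂ) • x k)
      (fun k => (1 / 2 : ℂ) • star (y k))) ![(1 / 2 : ℂ) • (1 - w), (1 / 2 : ℂ) • 1])
      (Fin.append (Fin.append y (fun k => star (x k))) ![1, 1 - w]) Z =
      (1 / 2 : ℂ) • (el x y Z + star (el x y (star Z)) + ((1 - w) * Z + Z * (1 - w))) := by
    intro Z
    rw [ENet_append, ENet_append, ENet_smul, ENet_smul, ENet_star]
    have e4 : el ![(1 / 2 : ℂ) • (1 - w), (1 / 2 : ℂ) • 1] ![1, 1 - w] Z =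
        (1 / 2 : ℂ) • ((1 - w) * Z) + (1 / 2 : ℂ) • (Z * (1 - w)) := by
      simp only [el]
      rw [Fin.sum_univ_two]
      show ((1 / 2 : ℂ) • (1 - w)) * Z * 1 + ((1 / 2 : ℂ) • 1) * Z * (1 - w) = _
      rw [mul_one, smul_mul_assoc, smul_mul_assoc, smul_mul_assoc, one_mul]
    rw [e4, smul_add, smul_add, smul_add]
  have hone : el x y 1 = S := ENet_one x y
  refine ⟨?_, ?_, ?_⟩
  · rw [← ENet_one, key, star_one, hone, hw]
    have : ∀ A : H →L[ℂ] H, (1 / 2 : ℂ) • (A + ((1 - (1 / 2 : ℂ) • A) * 1 +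
        1 * (1 - (1 / 2 : ℂ) • A))) = 1 := by
      intro A
      rw [mul_one, one_mul]
      module
    exact this _
  · intro Z
    rw [key, key, star_star, star_smul, star_add, star_add, star_add, star_star, star_mul,
      star_mul, star_sub, star_one, hws]
    have e5 : star (1 / 2 : ℂ) = 1 / 2 := by simp
    rw [e5, add_comm (star (el x y Z)) (el x y (star Z)),
      add_comm (star Z * (1 - w)) ((1 - w) * star Z)]
  · intro g hg Z
    rw [key]
    have c1 : ‖g * el x y Z - el x y Z * g‖ ≤ ε' * ‖Z‖ :=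
      hcom g (Finset.mem_union_left _ hg) Z
    have c2 : ‖g * star (el x y (star Z)) - star (el x y (star Z)) * g‖ ≤ ε' * ‖Z‖ := by
      have c3 := hcom (star g) (Finset.mem_union_right _ (Finset.mem_image_of_mem _ hg)) (star Z)
      rw [norm_star] at c3
      refine le_trans (le_of_eq ?_) c3
      rw [← norm_star, star_sub, star_mul, star_mul, star_star, ← norm_neg, neg_sub]
    have c4 : ‖g * ((1 - w) * Z + Z * (1 - w)) - ((1 - w) * Z + Z * (1 - w)) * g‖ ≤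
        4 * ‖g‖ * ε' * ‖Z‖ := by
      have d1 : ‖(1 - w) * Z + Z * (1 - w)‖ ≤ 2 * ε' * ‖Z‖ := by
        have d2 : ‖(1 - w) * Z‖ ≤ ε' * ‖Z‖ :=
          (norm_mul_le _ _).trans (mul_le_mul_of_nonneg_right hwn (norm_nonneg _))
        have d3 : ‖Z * (1 - w)‖ ≤ ε' * ‖Z‖ := by
          refine (norm_mul_le _ _).trans ?_
          rw [mul_comm]
          exact mul_le_mul_of_nonneg_right hwn (norm_nonneg _)
        refine (norm_add_le _ _).trans ?_
        linarith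
      refine (norm_sub_le _ _).trans ?_
      have d4 : ‖g * ((1 - w) * Z + Z * (1 - w))‖ ≤ ‖g‖ * (2 * ε' * ‖Z‖) :=
        (norm_mul_le _ _).trans (mul_le_mul_of_nonneg_left d1 (norm_nonneg _))
      have d5 : ‖((1 - w) * Z + Z * (1 - w)) * g‖ ≤ (2 * ε' * ‖Z‖) * ‖g‖ :=
        (norm_mul_le _ _).trans (mul_le_mul_of_nonneg_right d1 (norm_nonneg _))
      nlinarith
    have c5 : g * ((1 / 2 : ℂ) • (el x y Z + star (el x y (star Z)) +
          ((1 - w) * Z + Z * (1 - w)))) -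
        ((1 / 2 : ℂ) • (el x y Z + star (el x y (star Z)) + ((1 - w) * Z + Z * (1 - w)))) * g =
        (1 / 2 : ℂ) • ((g * el x y Z - el x y Z * g) +
          (g * star (el x y (star Z)) - star (el x y (star Z)) * g) +
          (g * ((1 - w) * Z + Z * (1 - w)) - ((1 - w) * Z + Z * (1 - w)) * g)) := by
      rw [mul_smul_comm, smul_mul_assoc, ← smul_sub, mul_add, mul_add, add_mul _ _ g,
        add_mul _ _ g]
      congr 1
      abel
    rw [c5, norm_smul]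
    have e2 : ‖(1 / 2 : ℂ)‖ = 1 / 2 := by simp
    rw [e2]
    have c6 := norm_add₃_le (a := g * el x y Z - el x y Z * g)
      (b := g * star (el x y (star Z)) - star (el x y (star Z)) * g)
      (c := g * ((1 - w) * Z + Z * (1 - w)) - ((1 - w) * Z + Z * (1 - w)) * g)
    have hgK : ‖g‖ ≤ K - 1 := by
      have := hsum0 g hg
      rw [hK]
      linarith
    have hZ : 0 ≤ ‖Z‖ := norm_nonneg _
    have c7 : (ε' + 2 * ‖g‖ * ε') * ‖Z‖ ≤ ε * ‖Z‖ := by
      refine mul_le_mul_of_nonneg_right ?_ hZ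
      rw [← hεK]
      nlinarith
    nlinarith

end Pool.Agent.MP_86f3ed.Ty
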