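import Pool.Agent.H.MP_86f3ed_an.Ty.PAppr
import Pool.Agent.H.MP_86f3ed_an.Pin.Kap2

open scoped InnerProductSpace Topology
open Filter ContinuousLinearMap

namespace Pool.Agent.MP_86f3ed.Ty

open Pin

variable {H : Type*} [NormedAddCommGroup H] [InnerProductSpace ℂ H] [CompleteSpace H]

theorem Ego_norm (b : H →L[ℂ] H) : ‖kap2R b‖ ≤ 1 := by
  unfold kap2R
  apply norm_cfc_le zero_le_one
  intro t ht
  have h0 := spectrum_star_mul_self_nonneg t ht
  have h3 : (0 : ℝ) < 1 + t := by positivity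
  rw [Real.norm_of_nonneg (by positivity)]
  exact inv_le_one_of_one_le₀ (by linarith)

/-- A commutator with an element `z` which is small on `f` from both sides is a sum of three
commutators with contractions and small functionals. -/
theorem egorov {S : StarSubalgebra ℂ (H →L[ℂ] H)} (hcl : IsClosed (S : Set (H →L[ℂ] H)))
    {F : Type*} [NormedAddCommGroup F] [NormedSpace ℂ F] (B : BM S F)
    (hone : ∀ f, B.R 1 f = f) (z : S) (hz : ‖z‖ ≤ 2)
    (f : F) {κ δ : ℝ} (hκ : 0 < κ) (h1 : ‖B.L z f‖ ≤ δ) (h2 : ‖B.R z f‖ ≤ δ) :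
    ∃ (b : Fin 3 → S) (φ : Fin 3 → F), (∀ k, ‖b k‖ ≤ 1) ∧
      (∀ k, ‖φ k‖ ≤ 2 * δ / κ + κ * ‖f‖) ∧ B.D z f = ∑ k, B.D (b k) (φ k) := by
  have hδ : 0 ≤ δ := (norm_nonneg _).trans h1
  set zz : H →L[ℂ] H := (z : H →L[ℂ] H) with hzz
  set b : H →L[ℂ] H := ((κ⁻¹ : ℝ) : ℂ) • zz with hb
  have hbS : b ∈ S := S.smul_mem z.2 _
  set r : S := ⟨kap2R b, kap2R_mem hcl hbS⟩ with hr
  set l : S := ⟨kap2R (star b), kap2R_mem hcl (star_mem hbS)⟩ with hl
  set c : S := ⟨b * kap2R b, S.mul_mem hbS (kap2R_mem hcl hbS)⟩ with hc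
  set d : S := ⟨star b * kap2R (star b), mul_mem (star_mem hbS)
    (kap2R_mem hcl (star_mem hbS))⟩ with hd
  set b' : S := ⟨b, hbS⟩ with hb'
  have hcn : ‖c‖ ≤ 1 / 2 := kap2_norm_one b
  have hdn : ‖d‖ ≤ 1 / 2 := kap2_norm_one (star b)
  have hzb : z = ((κ : ℝ) : ℂ) • b' := by
    apply Subtype.ext
    show zz = ((κ : ℝ) : ℂ) • b
    rw [hb, smul_smul, ← Complex.ofReal_mul, mul_inv_cancel₀ hκ.ne', Complex.ofReal_one,
      one_smul]
  -- the element w
  have hzr : z * r = ((κ : ℝ) : ℂ) • c := by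
    rw [hzb, smul_mul_assoc]; rfl
  have hlz : l * z = ((κ : ℝ) : ℂ) • c := by
    rw [hzb, mul_smul_comm]
    congr 1
    apply Subtype.ext
    show kap2R (star b) * b = b * kap2R b
    exact (kap2R_comm b).symm
  have hrn : ‖r‖ ≤ 1 := Ego_norm b
  have hln : ‖l‖ ≤ 1 := Ego_norm (star b)
  -- one minus r
  have h1r : 1 - r = star c * b' := by
    apply Subtype.ext
    show 1 - kap2R b = star (b * kap2R b) * b
    have h3 := kap2R_mul' b
    rw [mul_add, mul_one] at h3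
    rw [star_mul, kap2R_star, mul_assoc, ← h3]
    abel
  have h1l : 1 - l = b' * d := by
    apply Subtype.ext
    show 1 - kap2R (star b) = b * (star b * kap2R (star b))
    have h3 := kap2R_mul (star b)
    rw [add_mul, one_mul, star_star] at h3
    rw [← mul_assoc, ← h3]
    abel
  have hbz : b' = ((κ⁻¹ : ℝ) : ℂ) • z := Subtype.ext rfl
  have hsc : ∀ g : F, ‖(((κ⁻¹ : ℝ) : ℂ)) • g‖ = κ⁻¹ * ‖g‖ := fun g => by
    rw [norm_smul, Complex.norm_real, Real.norm_of_nonneg (inv_nonneg.mpr hκ.le)]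
  have hRb : ‖B.R b' f‖ ≤ κ⁻¹ * δ := by
    rw [hbz, map_smul, smul_apply, hsc]
    exact mul_le_mul_of_nonneg_left h2 (inv_nonneg.mpr hκ.le)
  have hLb : ‖B.L b' f‖ ≤ κ⁻¹ * δ := by
    rw [hbz, map_smul, smul_apply, hsc]
    exact mul_le_mul_of_nonneg_left h1 (inv_nonneg.mpr hκ.le)
  have hκδ : 0 ≤ κ⁻¹ * δ := by positivity
  have hR1 : ‖f - B.R r f‖ ≤ 1 / 2 * (κ⁻¹ * δ) := by
    have e1 : f - B.R r f = B.R (star c) (B.R b' f) := by
      rw [← B.R_mul, ← h1r, map_sub, sub_apply, hone]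
    rw [e1]
    refine (B.norm_R _ _).trans ?_
    rw [norm_star]
    exact mul_le_mul hcn hRb (norm_nonneg _) (by norm_num)
  have hL1 : ‖f - B.L l f‖ ≤ 1 / 2 * (κ⁻¹ * δ) := by
    have e1 : f - B.L l f = B.L d (B.L b' f) := by
      rw [← B.L_mul, ← h1l, map_sub, sub_apply, B.L_one]
    rw [e1]
    refine (B.norm_L _ _).trans ?_
    exact mul_le_mul hdn hLb (norm_nonneg _) (by norm_num)
  have hrl : ‖f - B.R r (B.L l f)‖ ≤ κ⁻¹ * δ := by
    have e1 : f - B.R r (B.L l f) = (f - B.R r f) + B.R r (f - B.L l f) := by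
      rw [map_sub]; abel
    rw [e1]
    refine (norm_add_le _ _).trans ?_
    have e2 : ‖B.R r (f - B.L l f)‖ ≤ 1 * (1 / 2 * (κ⁻¹ * δ)) :=
      (B.norm_R _ _).trans (mul_le_mul hrn hL1 (norm_nonneg _) (by norm_num))
    linarith
  have hsκ : ∀ g : F, ‖(((κ : ℝ) : ℂ)) • g‖ = κ * ‖g‖ := fun g => by
    rw [norm_smul, Complex.norm_real, Real.norm_of_nonneg hκ.le]
  -- the main identity
  have key : B.D z f = B.D z (f - B.R r (B.L l f)) + B.D (z * r) (B.L l f) -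
      B.D r (B.L (z * r) f) := by
    have e1 : B.L z (B.R r (B.L l f)) = B.R r (B.L (z * r) f) := by
      rw [B.LR, ← B.L_mul, hlz, hzr]
    have e2 : B.R z (B.R r (B.L l f)) = B.R (z * r) (B.L l f) := by
      rw [B.R_mul]
    have e3 : B.L (z * r) (B.L l f) = B.L r (B.L (z * r) f) := by
      rw [← B.L_mul, ← B.L_mul]
      have e4 : l * (z * r) = z * r * r := by
        rw [← mul_assoc, hlz, hzr]
      rw [e4]
    simp only [B.D_apply, map_sub]
    rw [e1, e2, e3]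
    abel
  refine ⟨![((2⁻¹ : ℝ) : ℂ) • z, c, -r],
    ![((2 : ℝ) : ℂ) • (f - B.R r (B.L l f)), ((κ : ℝ) : ℂ) • B.L l f, B.L (z * r) f], ?_, ?_, ?_⟩
  · intro k
    fin_cases k
    · show ‖((2⁻¹ : ℝ) : ℂ) • z‖ ≤ 1
      rw [norm_smul, Complex.norm_real, Real.norm_of_nonneg (by norm_num)]
      linarith
    · show ‖c‖ ≤ 1
      linarith
    · show ‖-r‖ ≤ 1
      rw [norm_neg]; exact hrn
  · have hf : 0 ≤ κ * ‖f‖ := by positivity
    have hd' : 0 ≤ 2 * δ / κ := by positivity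
    intro k
    fin_cases k
    · show ‖((2 : ℝ) : ℂ) • (f - B.R r (B.L l f))‖ ≤ _
      rw [norm_smul, Complex.norm_real, Real.norm_of_nonneg (by norm_num)]
      have e1 : 2 * (κ⁻¹ * δ) = 2 * δ / κ := by field_simp
      linarith
    · show ‖((κ : ℝ) : ℂ) • B.L l f‖ ≤ _
      rw [hsκ]
      have e1 : ‖B.L l f‖ ≤ 1 * ‖f‖ :=
        (B.norm_L _ _).trans (mul_le_mul_of_nonneg_right hln (norm_nonneg _))
      have e2 := mul_le_mul_of_nonneg_left e1 hκ.le
      linarith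
    · show ‖B.L (z * r) f‖ ≤ _
      rw [hzr, map_smul, smul_apply, hsκ]
      have e1 : ‖B.L c f‖ ≤ 1 / 2 * ‖f‖ :=
        (B.norm_L _ _).trans (mul_le_mul_of_nonneg_right hcn (norm_nonneg _))
      have e2 := mul_le_mul_of_nonneg_left e1 hκ.le
      linarith
  · rw [Fin.sum_univ_three]
    show B.D z f = B.D (((2⁻¹ : ℝ) : ℂ) • z) (((2 : ℝ) : ℂ) • (f - B.R r (B.L l f))) +
      B.D c (((κ : ℝ) : ℂ) • B.L l f) + B.D (-r) (B.L (z * r) f)
    have e1 : B.D (((2⁻¹ : ℝ) : ℂ) • z) (((2 : ℝ) : ℂ) • (f - B.R r (B.L l f))) =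
        B.D z (f - B.R r (B.L l f)) := by
      rw [map_smul, map_smul, smul_apply, smul_smul, ← Complex.ofReal_mul]
      norm_num
    have e2 : B.D c (((κ : ℝ) : ℂ) • B.L l f) = B.D (z * r) (B.L l f) := by
      rw [hzr, map_smul, map_smul, smul_apply]
    rw [e1, e2, map_neg, neg_apply, key]
    abel

end Pool.Agent.MP_86f3ed.Ty
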