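import Pool.Agent.H.MP_86f3ed_an.Ty.PSm

open scoped ComplexOrder Matrix

namespace Pool.Agent.MP_86f3ed.Ty

/-- The function calculus in a fixed eigenbasis. -/
noncomputable def FLmc {d : Type*} [Fintype d] [DecidableEq d] (U : Matrix d d ℂ) (f : d → ℝ) :
    Matrix d d ℂ := U * Matrix.diagonal (fun k => ((f k : ℝ) : ℂ)) * Uᴴ

theorem FLm_spec {d : Type*} [Fintype d] [DecidableEq d] {S : Matrix d d ℂ}
    (hS : S.PosSemidef) : ∃ (U : Matrix d d ℂ) (s : d → ℝ), U * Uᴴ = 1 ∧ Uᴴ * U = 1 ∧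
      (∀ k, 0 ≤ s k) ∧ S = FLmc U s := by
  refine ⟨(hS.1.eigenvectorUnitary : Matrix d d ℂ), hS.1.eigenvalues, ?_, ?_,
    hS.eigenvalues_nonneg, ?_⟩
  · exact Unitary.coe_mul_star_self hS.1.eigenvectorUnitary
  · exact Unitary.coe_star_mul_self hS.1.eigenvectorUnitary
  · have h := hS.1.spectral_theorem
    rw [Unitary.conjStarAlgAut_apply] at h
    exact h

theorem FLm_mul {d : Type*} [Fintype d] [DecidableEq d] {U : Matrix d d ℂ}
    (hU : Uᴴ * U = 1) (f g : d → ℝ) : FLmc U f * FLmc U g = FLmc U (fun k => f k * g k) := by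
  unfold FLmc
  have e : U * Matrix.diagonal (fun k => ((f k : ℝ) : ℂ)) * Uᴴ *
      (U * Matrix.diagonal (fun k => ((g k : ℝ) : ℂ)) * Uᴴ) =
      U * (Matrix.diagonal (fun k => ((f k : ℝ) : ℂ)) * (Uᴴ * U) *
        Matrix.diagonal (fun k => ((g k : ℝ) : ℂ))) * Uᴴ := by
    simp only [Matrix.mul_assoc]
  rw [e, hU, Matrix.mul_one, Matrix.diagonal_mul_diagonal]
  simp only [Complex.ofReal_mul]

theorem FLm_sub {d : Type*} [Fintype d] [DecidableEq d] (U : Matrix d d ℂ)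
    (f g : d → ℝ) : FLmc U f - FLmc U g = FLmc U (fun k => f k - g k) := by
  unfold FLmc
  rw [← Matrix.sub_mul, ← Matrix.mul_sub, Matrix.diagonal_sub]
  simp only [Complex.ofReal_sub]

theorem FLm_one {d : Type*} [Fintype d] [DecidableEq d] {U : Matrix d d ℂ}
    (hU : U * Uᴴ = 1) : FLmc U (fun _ => 1) = 1 := by
  unfold FLmc
  simp only [Complex.ofReal_one, Matrix.diagonal_one, Matrix.mul_one, hU]

theorem FLm_psd {d : Type*} [Fintype d] [DecidableEq d] (U : Matrix d d ℂ) {f : d → ℝ}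
    (hf : ∀ k, 0 ≤ f k) : (FLmc U f).PosSemidef := by
  refine Matrix.PosSemidef.mul_mul_conjTranspose_same ?_ U
  refine Matrix.PosSemidef.diagonal ?_
  intro k
  show (0 : ℂ) ≤ ((f k : ℝ) : ℂ)
  exact_mod_cast hf k

theorem FLm_herm {d : Type*} [Fintype d] [DecidableEq d] (U : Matrix d d ℂ) (f : d → ℝ) :
    (FLmc U f)ᴴ = FLmc U f := by
  unfold FLmc
  rw [Matrix.conjTranspose_mul, Matrix.conjTranspose_mul, Matrix.conjTranspose_conjTranspose,
    Matrix.diagonal_conjTranspose, Matrix.mul_assoc]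
  congr 3
  ext k
  simp

/-- A matrix is a contraction if its adjoint is. -/
theorem FLm_contr {d n : Type*} [Fintype d] [DecidableEq d] [Fintype n] [DecidableEq n]
    (X : Matrix n d ℂ) (h : (1 - Xᴴ * X).PosSemidef) : (1 - X * Xᴴ).PosSemidef := by
  have e : (1 - X * Xᴴ) = (1 - X * Xᴴ) * (1 - X * Xᴴ)ᴴ + X * (1 - Xᴴ * X) * Xᴴ := by
    rw [Matrix.conjTranspose_sub, Matrix.conjTranspose_one, Matrix.conjTranspose_mul,
      Matrix.conjTranspose_conjTranspose]
    simp only [Matrix.mul_sub, Matrix.sub_mul, Matrix.mul_one, Matrix.one_mul, Matrix.mul_assoc]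
    abel
  rw [e]
  exact (Matrix.posSemidef_self_mul_conjTranspose _).add (h.mul_mul_conjTranspose_same X)

/-- Two factorizations of nearly equal positive matrices differ by a contraction.

PROOF. Let `A = √(M Mᴴ)`, `B = √(P Pᴴ)` (positive semidefinite square roots, `A * A = M * Mᴴ`,
`B * B = P * Pᴴ`; `CFC.sqrt` or `Matrix.PosSemidef` API). `tr (Mᴴ Z M) = tr (M Mᴴ Z) = tr (A A Z)`
and similarly for `P`, so `ps_matrix` and `h` give `tr ((A - B)²) ≤ δ`.
For `t > 0` let `A_t = (t² + A²)^{-1/2}`, `B_t = (t² + B²)^{-1/2}` (functional calculus, or: the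
inverse of the positive definite root of `t² + A²`), they commute with `A`, `B` respectively and
`v = Pᴴ B_t A_t M`.
(1) `v vᴴ ≤ 1`: `v = X Y` with `X = Pᴴ B_t`, `Y = A_t M`, and `Xᴴ X = B_t P Pᴴ B_t = B² B_t² ≤ 1`,
`Y Yᴴ = A_t M Mᴴ A_t = A² A_t² ≤ 1`; so `v vᴴ = X (Y Yᴴ) Xᴴ ≤ X Xᴴ ≤ 1` (`X Xᴴ ≤ 1` iff `Xᴴ X ≤ 1`;
with operator norms: `‖X‖ ≤ 1`, `‖Y‖ ≤ 1`, `‖v‖ ≤ 1`).
(2) `tr (Mᴴ P v) = tr (Mᴴ P Pᴴ B_t A_t M) = tr (B² B_t A_t A²)`.
(3) `tr ((P v)ᴴ (P v)) = tr (P v vᴴ Pᴴ) ≤ tr (P Pᴴ) = tr (B²)`.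
(4) Hence `tr ((M - P v)ᴴ (M - P v)) ≤ tr A² + tr B² - 2 re tr (B² B_t A_t A²)`.
(5) As `t → 0`, `B² B_t → B` and `A_t A² → A` in norm: for `s ≥ 0`,
`0 ≤ s - s² / √(t² + s²) ≤ t`. So the right hand side tends to
`tr A² + tr B² - 2 re tr (B A) = tr ((A - B)²) ≤ δ < δ'`, and some `t > 0` works.
An alternative to (5): any other way to produce a contraction `v` with
`re tr (Mᴴ P v) ≥ re tr (B A) - small` is fine (for example a polar decomposition). -/
theorem fid_matrix {d n N : Type*} [Fintype d] [DecidableEq d] [Fintype n] [DecidableEq n]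
    [Fintype N] [DecidableEq N] (M : Matrix d N ℂ) (P : Matrix d n ℂ) {δ δ' : ℝ} (hδ : δ < δ')
    (h : ∀ Z : Matrix d d ℂ, Zᴴ = Z → Z * Z = 1 →
      ‖Matrix.trace (Mᴴ * Z * M) - Matrix.trace (Pᴴ * Z * P)‖ ≤ δ) :
    ∃ v : Matrix n N ℂ, (1 - v * vᴴ).PosSemidef ∧
      (Matrix.trace ((M - P * v)ᴴ * (M - P * v))).re ≤ δ' := by
  classical
  obtain ⟨U, s, hU1, hU2, hs, hS⟩ := FLm_spec (Matrix.posSemidef_self_mul_conjTranspose M)
  obtain ⟨V, r, hV1, hV2, hr, hR⟩ := FLm_spec (Matrix.posSemidef_self_mul_conjTranspose P)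
  -- the square roots
  have hAA : FLmc U (fun k => √(s k)) * FLmc U (fun k => √(s k)) = M * Mᴴ := by
    rw [FLm_mul hU2, hS]
    congr 1
    funext k
    exact Real.mul_self_sqrt (hs k)
  have hBB : FLmc V (fun k => √(r k)) * FLmc V (fun k => √(r k)) = P * Pᴴ := by
    rw [FLm_mul hV2, hR]
    congr 1
    funext k
    exact Real.mul_self_sqrt (hr k)
  obtain ⟨Z, hZ1, hZ2, hZ3⟩ := ps_matrix (FLm_psd U (f := fun k => √(s k)) fun k => Real.sqrt_nonneg _)
    (FLm_psd V (f := fun k => √(r k)) fun k => Real.sqrt_nonneg _)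
  set A := FLmc U (fun k => √(s k)) with hA
  set B := FLmc V (fun k => √(r k)) with hB
  have h1 : (Matrix.trace ((A - B) * (A - B))).re ≤ δ := by
    refine hZ3.trans (le_trans ?_ (h Z hZ1 hZ2))
    have e : Matrix.trace ((A * A - B * B) * Z) =
        Matrix.trace (Mᴴ * Z * M) - Matrix.trace (Pᴴ * Z * P) := by
      rw [hAA, hBB, Matrix.sub_mul, Matrix.trace_sub, Matrix.trace_mul_cycle M Mᴴ Z,
        Matrix.trace_mul_cycle P Pᴴ Z, Matrix.trace_mul_cycle Mᴴ Z M,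
        Matrix.trace_mul_cycle Pᴴ Z P, Matrix.trace_mul_cycle M Mᴴ Z,
        Matrix.trace_mul_cycle P Pᴴ Z]
    rw [e]
    exact Complex.re_le_norm _
  -- the traces
  have h2 : (Matrix.trace ((A - B) * (A - B))).re =
      (Matrix.trace (M * Mᴴ)).re + (Matrix.trace (P * Pᴴ)).re -
        2 * (Matrix.trace (B * A)).re := by
    have e : Matrix.trace ((A - B) * (A - B)) =
        Matrix.trace (M * Mᴴ) + Matrix.trace (P * Pᴴ) - 2 * Matrix.trace (B * A) := by
      rw [Matrix.mul_sub, Matrix.sub_mul, Matrix.sub_mul, hAA, hBB, Matrix.trace_sub,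
        Matrix.trace_sub, Matrix.trace_sub, Matrix.trace_mul_comm A B]
      ring
    rw [e]
    simp
  -- the approximations
  set φ : ℝ → ℝ := fun t => (Matrix.trace (FLmc V (fun k => r k / √(t ^ 2 + r k)) *
    FLmc U (fun k => s k / √(t ^ 2 + s k)))).re with hφ
  have hc1 : ∀ c : ℝ, 0 ≤ c → Continuous fun t : ℝ => c / √(t ^ 2 + c) := by
    intro c hc
    rcases hc.eq_or_lt with rfl | hc
    · simpa using continuous_const
    · refine continuous_const.div (by fun_prop) fun t => ?_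
      have : 0 < t ^ 2 + c := by positivity
      exact (Real.sqrt_pos.mpr this).ne'
  have hc2 : ∀ (W : Matrix d d ℂ) (w : d → ℝ), (∀ k, 0 ≤ w k) →
      Continuous fun t : ℝ => FLmc W (fun k => w k / √(t ^ 2 + w k)) := by
    intro W w hw
    unfold FLmc
    refine (continuous_const.matrix_mul (Continuous.matrix_diagonal ?_)).matrix_mul
      continuous_const
    exact continuous_pi fun k => Complex.continuous_ofReal.comp (hc1 (w k) (hw k))
  have hφc : Continuous φ :=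
    Complex.continuous_re.comp ((hc2 V r hr).matrix_mul (hc2 U s hs)).matrix_trace
  have hφ0 : φ 0 = (Matrix.trace (B * A)).re := by
    simp only [hφ, hA, hB]
    congr 4
    · funext k
      rw [zero_pow two_ne_zero, zero_add, Real.div_sqrt]
    · funext k
      rw [zero_pow two_ne_zero, zero_add, Real.div_sqrt]
  have hev : ∀ᶠ t in nhdsWithin (0 : ℝ) (Set.Ioi 0),
      (Matrix.trace (M * Mᴴ)).re + (Matrix.trace (P * Pᴴ)).re - 2 * φ t < δ' := by
    have hcont : Continuous fun t => (Matrix.trace (M * Mᴴ)).re + (Matrix.trace (P * Pᴴ)).re -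
      2 * φ t := by fun_prop
    have h3 : (Matrix.trace (M * Mᴴ)).re + (Matrix.trace (P * Pᴴ)).re - 2 * φ 0 < δ' := by
      rw [hφ0, ← h2]
      exact lt_of_le_of_lt h1 hδ
    exact (hcont.tendsto 0 |>.mono_left nhdsWithin_le_nhds).eventually (gt_mem_nhds h3)
  obtain ⟨t, ht1, ht0⟩ := (hev.and self_mem_nhdsWithin).exists
  have ht : 0 < t := ht0
  have hpos : ∀ c : ℝ, 0 ≤ c → 0 < t ^ 2 + c := fun c hc => by positivity
  have hsq : ∀ c : ℝ, 0 ≤ c → (√(t ^ 2 + c))⁻¹ * (√(t ^ 2 + c))⁻¹ = (t ^ 2 + c)⁻¹ := by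
    intro c hc
    rw [← mul_inv, Real.mul_self_sqrt (hpos c hc).le]
  set At := FLmc U (fun k => (√(t ^ 2 + s k))⁻¹) with hAt
  set Bt := FLmc V (fun k => (√(t ^ 2 + r k))⁻¹) with hBt
  have hAtH : Atᴴ = At := FLm_herm _ _
  have hBtH : Btᴴ = Bt := FLm_herm _ _
  set X := Pᴴ * Bt with hX
  set Y := At * M with hY
  have hXX : (1 - X * Xᴴ).PosSemidef := by
    refine FLm_contr X ?_
    have e : 1 - Xᴴ * X = FLmc V (fun k => 1 - (√(t ^ 2 + r k))⁻¹ * r k *
        (√(t ^ 2 + r k))⁻¹) := by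
      rw [hX, Matrix.conjTranspose_mul, Matrix.conjTranspose_conjTranspose, hBtH,
        show Bt * P * (Pᴴ * Bt) = Bt * (P * Pᴴ) * Bt by simp only [Matrix.mul_assoc], hR, hBt,
        FLm_mul hV2, FLm_mul hV2, ← FLm_one hV1, FLm_sub]
    rw [e]
    refine FLm_psd _ fun k => ?_
    have e2 : (√(t ^ 2 + r k))⁻¹ * r k * (√(t ^ 2 + r k))⁻¹ = r k / (t ^ 2 + r k) := by
      rw [mul_right_comm, hsq _ (hr k), div_eq_inv_mul]
    rw [e2, sub_nonneg, div_le_one (hpos _ (hr k))]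
    nlinarith
  have hYY : (1 - Y * Yᴴ).PosSemidef := by
    have e : 1 - Y * Yᴴ = FLmc U (fun k => 1 - (√(t ^ 2 + s k))⁻¹ * s k *
        (√(t ^ 2 + s k))⁻¹) := by
      rw [hY, Matrix.conjTranspose_mul, hAtH,
        show At * M * (Mᴴ * At) = At * (M * Mᴴ) * At by simp only [Matrix.mul_assoc], hS, hAt,
        FLm_mul hU2, FLm_mul hU2, ← FLm_one hU1, FLm_sub]
    rw [e]
    refine FLm_psd _ fun k => ?_
    have e2 : (√(t ^ 2 + s k))⁻¹ * s k * (√(t ^ 2 + s k))⁻¹ = s k / (t ^ 2 + s k) := by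
      rw [mul_right_comm, hsq _ (hs k), div_eq_inv_mul]
    rw [e2, sub_nonneg, div_le_one (hpos _ (hs k))]
    nlinarith
  have hv : (1 - (X * Y) * (X * Y)ᴴ).PosSemidef := by
    have e : 1 - (X * Y) * (X * Y)ᴴ = (1 - X * Xᴴ) + X * (1 - Y * Yᴴ) * Xᴴ := by
      rw [Matrix.conjTranspose_mul]
      simp only [Matrix.mul_sub, Matrix.sub_mul, Matrix.mul_one, Matrix.mul_assoc]
      abel
    rw [e]
    exact hXX.add (hYY.mul_mul_conjTranspose_same X)
  refine ⟨X * Y, hv, ?_⟩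
  set v := X * Y with hvd
  have e1 : Matrix.trace (Mᴴ * (P * v)) = ((Matrix.trace (FLmc V (fun k => r k / √(t ^ 2 + r k)) *
    FLmc U (fun k => s k / √(t ^ 2 + s k))))) := by
    have e2 : Matrix.trace (Mᴴ * (P * v)) = Matrix.trace ((P * Pᴴ * Bt) * (At * (M * Mᴴ))) := by
      rw [Matrix.trace_mul_comm]
      congr 1
      simp only [hvd, hX, hY, Matrix.mul_assoc]
    rw [e2, hS, hR, hAt, hBt, FLm_mul hU2, FLm_mul hV2]
    congr 3
    funext k
    rw [div_eq_inv_mul]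
  have e3 : (Matrix.trace ((P * v)ᴴ * (P * v))).re ≤ (Matrix.trace (P * Pᴴ)).re := by
    have e4 : Matrix.trace (P * Pᴴ) - Matrix.trace ((P * v)ᴴ * (P * v)) =
        Matrix.trace (P * (1 - v * vᴴ) * Pᴴ) := by
      rw [Matrix.trace_mul_comm (P * v)ᴴ, Matrix.conjTranspose_mul, ← Matrix.trace_sub]
      congr 1
      simp only [Matrix.mul_sub, Matrix.sub_mul, Matrix.mul_one, Matrix.mul_assoc]
    have e5 := (hv.mul_mul_conjTranspose_same P).trace_nonneg
    rw [← e4] at e5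
    have e6 := (Complex.le_def.mp e5).1
    rw [Complex.zero_re, Complex.sub_re] at e6
    linarith
  have e7 : (Matrix.trace ((M - P * v)ᴴ * (M - P * v))).re =
      (Matrix.trace (M * Mᴴ)).re - 2 * (Matrix.trace (Mᴴ * (P * v))).re +
        (Matrix.trace ((P * v)ᴴ * (P * v))).re := by
    have e8 : (Matrix.trace ((P * v)ᴴ * M)).re = (Matrix.trace (Mᴴ * (P * v))).re := by
      have : (P * v)ᴴ * M = (Mᴴ * (P * v))ᴴ := by
        rw [Matrix.conjTranspose_mul Mᴴ (P * v), Matrix.conjTranspose_conjTranspose]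
      rw [this, Matrix.trace_conjTranspose]
      exact Complex.conj_re _
    rw [Matrix.conjTranspose_sub, Matrix.sub_mul, Matrix.mul_sub, Matrix.mul_sub,
      Matrix.trace_sub, Matrix.trace_sub, Matrix.trace_sub, Complex.sub_re, Complex.sub_re,
      Complex.sub_re, e8, Matrix.trace_mul_comm Mᴴ M]
    ring
  rw [e7]
  have e9 : (Matrix.trace (Mᴴ * (P * v))).re = φ t := by rw [e1]
  rw [e9]
  linarith

end Pool.Agent.MP_86f3ed.Ty
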