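import Pool.Agent.H.MP_86f3ed_an.Ty.Am
import Pool.Agent.H.MP_86f3ed_an.Ty.FLm

open scoped InnerProductSpace Topology ComplexOrder Matrix
open Filter ContinuousLinearMap

namespace Pool.Agent.MP_86f3ed.Ty

open Pin

variable {H : Type*} [NormedAddCommGroup H] [InnerProductSpace ℂ H] [CompleteSpace H]

theorem Fid_basis {ι : Type*} [Fintype ι] (g : ι → H) :
    ∃ (d : ℕ) (f : Fin d → H), Orthonormal ℂ f ∧ ∀ i, ∑ a, ⟪f a, g i⟫_ℂ • f a = g i := by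
  classical
  let W : Submodule ℂ H := Submodule.span ℂ (Set.range g)
  have : FiniteDimensional ℂ W := FiniteDimensional.span_of_finite ℂ (Set.finite_range g)
  let b := stdOrthonormalBasis ℂ W
  refine ⟨_, fun a => (b a : H), ?_, fun i => ?_⟩
  · exact b.orthonormal.comp_linearIsometry W.subtypeₗᵢ
  · have h := b.sum_repr' ⟨g i, Submodule.subset_span ⟨i, rfl⟩⟩
    have h2 := congrArg (fun w : W => (w : H)) h
    rw [Submodule.coe_sum] at h2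
    exact h2

theorem Fid_norm {d : ℕ} {f : Fin d → H} (hf : Orthonormal ℂ f) (m : Fin d → ℂ) :
    ‖∑ a, m a • f a‖ ^ 2 = ∑ a, ‖m a‖ ^ 2 := by
  have h := hf.inner_sum m m Finset.univ
  have h2 : ‖∑ a, m a • f a‖ ^ 2 = RCLike.re ⟪∑ a, m a • f a, ∑ a, m a • f a⟫_ℂ :=
    norm_sq_eq_re_inner (𝕜 := ℂ) _
  rw [h2, h, map_sum]
  refine Finset.sum_congr rfl fun a _ => ?_
  rw [RCLike.conj_mul]
  norm_cast

theorem Fid_dot {ι : Type*} [Fintype ι] (y : ι → ℂ) :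
    (star y ⬝ᵥ y) = ((∑ a, ‖y a‖ ^ 2 : ℝ) : ℂ) := by
  rw [dotProduct]
  push_cast
  refine Finset.sum_congr rfl fun a _ => ?_
  exact RCLike.conj_mul (y a)

/-- the operator of a matrix -/
noncomputable def Fid_op {d : ℕ} (f : Fin d → H) (Z : Matrix (Fin d) (Fin d) ℂ) : H →L[ℂ] H :=
  ∑ a, ∑ b, Z a b • (innerSL ℂ (f b)).smulRight (f a)

theorem Fid_op_apply {d : ℕ} (f : Fin d → H) (Z : Matrix (Fin d) (Fin d) ℂ) (x : H) :
    Fid_op f Z x = ∑ a, (∑ b, Z a b * ⟪f b, x⟫_ℂ) • f a := by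
  rw [Fid_op, sum_apply]
  refine Finset.sum_congr rfl fun a _ => ?_
  rw [sum_apply, Finset.sum_smul]
  refine Finset.sum_congr rfl fun b _ => ?_
  show Z a b • (⟪f b, x⟫_ℂ • f a) = _
  rw [smul_smul]

theorem Fid_unit {d : ℕ} {Z : Matrix (Fin d) (Fin d) ℂ} (h1 : Zᴴ = Z) (h2 : Z * Z = 1)
    (c : Fin d → ℂ) : ∑ a, ‖∑ b, Z a b * c b‖ ^ 2 = ∑ a, ‖c a‖ ^ 2 := by
  have h3 : star (Z *ᵥ c) ⬝ᵥ (Z *ᵥ c) = star c ⬝ᵥ c := by
    rw [Matrix.star_mulVec, Matrix.dotProduct_mulVec, Matrix.vecMul_vecMul, h1, h2,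
      Matrix.vecMul_one]
  rw [Fid_dot, Fid_dot] at h3
  have h4 : (∑ a, ‖(Z *ᵥ c) a‖ ^ 2 : ℝ) = ∑ a, ‖c a‖ ^ 2 := by exact_mod_cast h3
  exact h4

theorem Fid_op_norm {d : ℕ} {f : Fin d → H} (hf : Orthonormal ℂ f)
    {Z : Matrix (Fin d) (Fin d) ℂ} (h1 : Zᴴ = Z) (h2 : Z * Z = 1) : ‖Fid_op f Z‖ ≤ 1 := by
  refine ContinuousLinearMap.opNorm_le_bound _ zero_le_one fun x => ?_
  rw [one_mul]
  have h3 : ‖Fid_op f Z x‖ ^ 2 ≤ ‖x‖ ^ 2 := by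
    rw [Fid_op_apply, Fid_norm hf, Fid_unit h1 h2]
    exact hf.sum_inner_products_le x
  exact (sq_le_sq₀ (norm_nonneg _) (norm_nonneg _)).mp h3

theorem Fid_trace {N : Type*} [Fintype N] {d : ℕ} {f : Fin d → H} (hf : Orthonormal ℂ f)
    (Z : Matrix (Fin d) (Fin d) ℂ) (u : N → H) (hu : ∀ x, ∑ a, ⟪f a, u x⟫_ℂ • f a = u x) :
    ∑ x, ⟪u x, Fid_op f Z (u x)⟫_ℂ =
      Matrix.trace ((Matrix.of fun a x => ⟪f a, u x⟫_ℂ)ᴴ * Z *
        (Matrix.of fun a x => ⟪f a, u x⟫_ℂ)) := by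
  rw [Matrix.trace]
  refine Finset.sum_congr rfl fun x _ => ?_
  have h1 : ⟪u x, Fid_op f Z (u x)⟫_ℂ =
      ⟪∑ a, ⟪f a, u x⟫_ℂ • f a, ∑ a, (∑ b, Z a b * ⟪f b, u x⟫_ℂ) • f a⟫_ℂ := by
    rw [hu x, Fid_op_apply]
  rw [h1, hf.inner_sum, Matrix.diag_apply, Matrix.mul_assoc, Matrix.mul_apply]
  refine Finset.sum_congr rfl fun a _ => ?_
  rw [Matrix.conjTranspose_apply, Matrix.mul_apply]
  rfl

theorem Fid_vec {n : ℕ} {N : Type*} [Fintype N] {v : Matrix (Fin n) N ℂ}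
    (hv : (1 - v * vᴴ).PosSemidef) (c : Fin n → ℂ) :
    ∑ x, ‖∑ k, v k x * c k‖ ^ 2 ≤ ∑ k, ‖c k‖ ^ 2 := by
  set y : Fin n → ℂ := star c with hy
  have h1 := hv.dotProduct_mulVec_nonneg y
  rw [Matrix.sub_mulVec, Matrix.one_mulVec, dotProduct_sub, ← Matrix.mulVec_mulVec,
    Matrix.dotProduct_mulVec] at h1
  have h2 : star y ᵥ* v = star (vᴴ *ᵥ y) := by
    rw [Matrix.star_mulVec, Matrix.conjTranspose_conjTranspose]
  rw [h2, Fid_dot, Fid_dot, sub_nonneg] at h1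
  have h3 : (∑ a, ‖(vᴴ *ᵥ y) a‖ ^ 2 : ℝ) ≤ ∑ a, ‖y a‖ ^ 2 := by exact_mod_cast h1
  have h4 : ∀ x, ‖(vᴴ *ᵥ y) x‖ = ‖∑ k, v k x * c k‖ := by
    intro x
    have h5 : (vᴴ *ᵥ y) x = (starRingEnd ℂ) (∑ k, v k x * c k) := by
      rw [map_sum]
      show ∑ k, vᴴ x k * y k = _
      refine Finset.sum_congr rfl fun k _ => ?_
      rw [map_mul]
      rfl
    rw [h5, RCLike.norm_conj]
  have h5 : ∀ k, ‖y k‖ = ‖c k‖ := fun k => by
    rw [hy]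
    exact RCLike.norm_conj (c k)
  simp only [h4, h5] at h3
  exact h3

/-- the operator on the copies given by a matrix -/
noncomputable def Fid_V {n p : ℕ} (v : Matrix (Fin n) (Fin p × Fin n) ℂ) (j : Fin p) :
    KK H n →L[ℂ] KK H n :=
  ∑ i, ∑ k, v k (j, i) • (inc H i).comp (pr H k)

theorem Fid_pr_V {n p : ℕ} (v : Matrix (Fin n) (Fin p × Fin n) ℂ) (j : Fin p) (i : Fin n)
    (ξ : KK H n) : pr H i (Fid_V v j ξ) = ∑ k, v k (j, i) • pr H k ξ := by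
  classical
  rw [Fid_V, sum_apply, map_sum, Finset.sum_eq_single i]
  · rw [sum_apply, map_sum]
    refine Finset.sum_congr rfl fun k _ => ?_
    show pr H i (v k (j, i) • (inc H i (pr H k ξ))) = _
    rw [map_smul, pr_inc_same]
  · intro l _ hl
    rw [sum_apply, map_sum]
    refine Finset.sum_eq_zero fun k _ => ?_
    show pr H i (v k (j, l) • (inc H l (pr H k ξ))) = _
    rw [map_smul, pr_inc_ne (Ne.symm hl), smul_zero]
  · simp

/-- Two vectors with nearly equal vector functionals on `B(H)` differ by a contraction of the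
commutant.

PROOF. Let `W` be the span of all `pr H i (X j)` and `pr H i ρ`, a finite dimensional subspace with an
orthonormal basis `f : Fin d → H` (`stdOrthonormalBasis ℂ W`). Let `M : Matrix (Fin d) (Fin p × Fin n)`,
`M a (j, i) = ⟪f a, pr H i (X j)⟫`, `P : Matrix (Fin d) (Fin n)`, `P a k = ⟪f a, pr H k ρ⟫`, so
`pr H i (X j) = ∑ a, M a (j,i) • f a`, `pr H k ρ = ∑ a, P a k • f a`.
For a hermitian matrix `Z` with `Z * Z = 1` let `Z' : H →L[ℂ] H`,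
`Z' x = ∑ a b, Z a b • ⟪f b, x⟫ • f a`; `‖Z'‖ ≤ 1` (it is a selfadjoint unitary on `W` and zero on
the orthogonal complement: `‖Z' x‖^2 = ∑_b |⟪f b, x⟫|^2 ≤ ‖x‖^2` by `Z * Z = 1` and Bessel) and
`∑ j, vf (X j) Z' = trace (Mᴴ * Z * M)`, `vf ρ Z' = trace (Pᴴ * Z * P)`. So `h` gives the hypothesis
of `fid_matrix` with `δ`, and we get `v : Matrix (Fin n) (Fin p × Fin n)` with
`1 - v * vᴴ` positive semidefinite and `re trace ((M - P v)ᴴ (M - P v)) ≤ 2 δ`.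
Define `V j : KK H n →L[ℂ] KK H n` by `pr H i (V j ξ) = ∑ k, v k (j, i) • pr H k ξ` (a sum of
`v k (j,i) • (inc H i).comp (pr H k)`). It commutes with `am H n S` (`pr_am`). The norm condition:
`∑_j ‖V j ξ‖^2 = ∑_{j,i} ‖∑_k v k (j,i) • ξ_k‖^2 = ∑_{k,l} (v * vᴴ) l k ⟪ξ_k, ξ_l⟫ ≤ ∑ ‖ξ_k‖^2`:
write `1 - v * vᴴ = Cᴴ * C` (`Matrix.posSemidef_iff_eq_conjTranspose_mul_self`), then
`∑_k ‖ξ_k‖^2 - ∑_j ‖V j ξ‖^2 = ∑_{k,l} (1 - v * vᴴ) l k ⟪ξ_k, ξ_l⟫ = ∑_m ‖∑_l conj (C m l) ..‖^2`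
(expand `∑_m ‖∑_k conj(C m k) • ξ_k‖^2 = ∑_{k,l} (∑_m C m k * conj (C m l)) ⟪ξ_k, ξ_l⟫`, which is
`∑ (Cᴴ C) l k ⟪ξ_k, ξ_l⟫`).
Finally `X j - V j ρ` has the coordinates `∑_a (M - P v) a (j,i) • f a`, so
`∑_j ‖X j - V j ρ‖^2 = ∑_{j,i,a} |(M - P v) a (j,i)|^2 = trace ((M - P v)ᴴ (M - P v)) ≤ 2 δ`. -/
theorem fidelity {n p : ℕ} (X : Fin p → KK H n) (ρ : KK H n) {δ : ℝ} (hδ : 0 < δ)
    (h : ∀ Z : H →L[ℂ] H, ‖∑ j, vf (X j) Z - vf ρ Z‖ ≤ δ * ‖Z‖) :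
    ∃ V : Fin p → (KK H n →L[ℂ] KK H n), (∀ j, IsR (V j)) ∧
      (∀ ξ, ∑ j, ‖V j ξ‖ ^ 2 ≤ ‖ξ‖ ^ 2) ∧ ∑ j, ‖X j - V j ρ‖ ^ 2 ≤ 2 * δ := by
  classical
  obtain ⟨d, f, hf, hfu⟩ := Fid_basis (fun x : (Fin p × Fin n) ⊕ Fin n =>
    Sum.elim (fun x => pr H x.2 (X x.1)) (fun k => pr H k ρ) x)
  have hfX : ∀ x : Fin p × Fin n, ∑ a, ⟪f a, pr H x.2 (X x.1)⟫_ℂ • f a = pr H x.2 (X x.1) :=
    fun x => hfu (Sum.inl x)
  have hfρ : ∀ k : Fin n, ∑ a, ⟪f a, pr H k ρ⟫_ℂ • f a = pr H k ρ := fun k => hfu (Sum.inr k)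
  set M : Matrix (Fin d) (Fin p × Fin n) ℂ := Matrix.of fun a x => ⟪f a, pr H x.2 (X x.1)⟫_ℂ
    with hM
  set P : Matrix (Fin d) (Fin n) ℂ := Matrix.of fun a k => ⟪f a, pr H k ρ⟫_ℂ with hP
  have hvf : ∀ (w : KK H n) (Z : H →L[ℂ] H), vf w Z = ∑ i, ⟪pr H i w, Z (pr H i w)⟫_ℂ := by
    intro w Z
    rw [vf, ← sum_inner_pr]
    refine Finset.sum_congr rfl fun i _ => ?_
    rw [pr_am]
  obtain ⟨v, hv, hvt⟩ := fid_matrix (δ := δ) (δ' := 2 * δ) M P (by linarith) (by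
    intro Z hZ1 hZ2
    have h1 := h (Fid_op f Z)
    have h2 : ∑ j, vf (X j) (Fid_op f Z) = Matrix.trace (Mᴴ * Z * M) := by
      rw [hM, ← Fid_trace hf Z (fun x : Fin p × Fin n => pr H x.2 (X x.1)) hfX,
        Fintype.sum_prod_type]
      exact Finset.sum_congr rfl fun j _ => hvf _ _
    have h3 : vf ρ (Fid_op f Z) = Matrix.trace (Pᴴ * Z * P) := by
      rw [hP, ← Fid_trace hf Z (fun k : Fin n => pr H k ρ) hfρ]
      exact hvf _ _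
    rw [h2, h3] at h1
    refine h1.trans ?_
    have h4 := mul_le_mul_of_nonneg_left (Fid_op_norm hf hZ1 hZ2) hδ.le
    rwa [mul_one] at h4)
  refine ⟨Fid_V v, fun j S w => ?_, fun ξ => ?_, ?_⟩
  · refine ext_pr fun i => ?_
    rw [Fid_pr_V, pr_am, Fid_pr_V, map_sum]
    refine Finset.sum_congr rfl fun k _ => ?_
    rw [pr_am, map_smul]
  · obtain ⟨d', f', hf', hfu'⟩ := Fid_basis (fun k : Fin n => pr H k ξ)
    have h1 : ∀ x : Fin p × Fin n, ‖∑ k, v k x • pr H k ξ‖ ^ 2 =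
        ∑ a, ‖∑ k, v k x * ⟪f' a, pr H k ξ⟫_ℂ‖ ^ 2 := by
      intro x
      have h2 : ∑ k, v k x • pr H k ξ = ∑ a, (∑ k, v k x * ⟪f' a, pr H k ξ⟫_ℂ) • f' a := by
        simp only [Finset.sum_smul]
        rw [Finset.sum_comm]
        refine Finset.sum_congr rfl fun k _ => ?_
        conv_lhs => rw [← hfu' k]
        rw [Finset.smul_sum]
        refine Finset.sum_congr rfl fun a _ => ?_
        rw [smul_smul]
      rw [h2, Fid_norm hf']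
    calc ∑ j, ‖Fid_V v j ξ‖ ^ 2 = ∑ x : Fin p × Fin n, ‖∑ k, v k x • pr H k ξ‖ ^ 2 := by
          rw [Fintype.sum_prod_type]
          refine Finset.sum_congr rfl fun j _ => ?_
          rw [norm_sq_am]
          refine Finset.sum_congr rfl fun i _ => ?_
          rw [Fid_pr_V]
      _ = ∑ a, ∑ x : Fin p × Fin n, ‖∑ k, v k x * ⟪f' a, pr H k ξ⟫_ℂ‖ ^ 2 := by
          rw [Finset.sum_comm]
          exact Finset.sum_congr rfl fun x _ => h1 x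
      _ ≤ ∑ a, ∑ k, ‖⟪f' a, pr H k ξ⟫_ℂ‖ ^ 2 :=
          Finset.sum_le_sum fun a _ => Fid_vec hv _
      _ = ∑ k, ‖pr H k ξ‖ ^ 2 := by
          rw [Finset.sum_comm]
          refine Finset.sum_congr rfl fun k _ => ?_
          rw [← Fid_norm hf', hfu' k]
      _ = ‖ξ‖ ^ 2 := (norm_sq_am ξ).symm
  · have h1 : ∑ j, ‖X j - Fid_V v j ρ‖ ^ 2 =
        ∑ x : Fin p × Fin n, ∑ a, ‖(M - P * v) a x‖ ^ 2 := by
      rw [Fintype.sum_prod_type]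
      refine Finset.sum_congr rfl fun j _ => ?_
      rw [norm_sq_am]
      refine Finset.sum_congr rfl fun i _ => ?_
      have h2 : pr H i (X j - Fid_V v j ρ) = ∑ a, (M - P * v) a (j, i) • f a := by
        rw [map_sub, Fid_pr_V]
        simp only [Matrix.sub_apply, sub_smul, Finset.sum_sub_distrib]
        congr 1
        · exact (hfX (j, i)).symm
        · simp only [Matrix.mul_apply, Finset.sum_smul]
          rw [Finset.sum_comm]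
          refine Finset.sum_congr rfl fun k _ => ?_
          conv_lhs => rw [← hfρ k]
          rw [Finset.smul_sum]
          refine Finset.sum_congr rfl fun a _ => ?_
          rw [smul_smul, mul_comm]
          rfl
      rw [h2, Fid_norm hf]
    rw [h1]
    refine le_trans (le_of_eq ?_) hvt
    have h3 : Matrix.trace ((M - P * v)ᴴ * (M - P * v)) =
        ((∑ x : Fin p × Fin n, ∑ a, ‖(M - P * v) a x‖ ^ 2 : ℝ) : ℂ) := by
      rw [Matrix.trace]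
      push_cast
      refine Finset.sum_congr rfl fun x _ => ?_
      rw [Matrix.diag_apply, Matrix.mul_apply]
      refine Finset.sum_congr rfl fun a _ => ?_
      rw [Matrix.conjTranspose_apply]
      exact RCLike.conj_mul _
    rw [h3, Complex.ofReal_re]

end Pool.Agent.MP_86f3ed.Ty
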