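import Pool.Agent.H.MP_86f3ed_an.Ty.Cuntz

open scoped InnerProductSpace Topology
open Filter ContinuousLinearMap

namespace Pool.Agent.MP_86f3ed.Ty

open Pin

variable {H : Type*} [NormedAddCommGroup H] [InnerProductSpace ℂ H] [CompleteSpace H]

theorem com3 (𝔓 : StarSubalgebra ℂ (H →L[ℂ] H)) : Com (Com (Com 𝔓)) = Com 𝔓 := by
  apply SetLike.ext
  intro x
  constructor
  · intro h
    rw [mem_Com]
    intro a ha
    exact mem_Com.1 h a (mem_Com.2 fun b hb => (mem_Com.1 hb a ha).symm)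
  · intro h
    rw [mem_Com]
    intro a ha
    exact (mem_Com.1 ha x h).symm

/-- The theorem of Pythagoras for isometries with orthogonal ranges. -/
theorem Om_pyth {p : ℕ} {s : Fin p → H →L[ℂ] H}
    (hs : ∀ i j, star (s i) * s j = if i = j then 1 else 0) (y : Fin p → H) :
    ‖∑ j, s j (y j)‖ ^ 2 = ∑ j, ‖y j‖ ^ 2 := by
  have h0 : ∀ i j, ⟪s i (y i), s j (y j)⟫_ℂ = if i = j then ⟪y i, y j⟫_ℂ else 0 := by
    intro i j
    rw [← adjoint_inner_right, ← star_eq_adjoint]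
    have h1 : star (s i) (s j (y j)) = (if i = j then (1 : H →L[ℂ] H) else 0) (y j) :=
      congrArg (fun T : H →L[ℂ] H => T (y j)) (hs i j)
    rw [h1]
    split_ifs with h
    · simp
    · simp
  have h2 : ⟪∑ j, s j (y j), ∑ j, s j (y j)⟫_ℂ = ∑ j, ⟪y j, y j⟫_ℂ := by
    rw [sum_inner]
    simp_rw [inner_sum, h0]
    simp
  have h3 : (((‖∑ j, s j (y j)‖ ^ 2 : ℝ)) : ℂ) = ((∑ j, ‖y j‖ ^ 2 : ℝ) : ℂ) := by
    rw [inner_self_eq_norm_sq_to_K] at h2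
    simp_rw [inner_self_eq_norm_sq_to_K] at h2
    push_cast
    exact h2
  exact_mod_cast h3

/-- An isometry preserves the norm. -/
theorem Om_iso {b : H →L[ℂ] H} (hb : star b * b = 1) (z : H) : ‖b z‖ = ‖z‖ := by
  have h1 : ⟪b z, b z⟫_ℂ = ⟪z, z⟫_ℂ := by
    rw [← adjoint_inner_right, ← star_eq_adjoint]
    have h2 : star b (b z) = z := congrArg (fun T : H →L[ℂ] H => T z) hb
    rw [h2]
  have h3 : ‖b z‖ ^ 2 = ‖z‖ ^ 2 := by
    rw [← inner_self_eq_norm_sq (𝕜 := ℂ), ← inner_self_eq_norm_sq (𝕜 := ℂ), h1]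
  exact (sq_eq_sq₀ (norm_nonneg _) (norm_nonneg _)).mp h3

/-- A vector which is cyclic for `M` and `N` and whose state on `M` is the mean of two given
states, transported to complementary corners.

Here `N = Com 𝔄`, `M = Com (Com 𝔄)`.

PROOF. `exists_isoms` for `N` and `p`: `s j ∈ N` with orthogonal ranges; `η₁ := ∑ j, c • s j (η j)`
where `c = 1` (no factor): for `x ∈ M`: `‖x η₁‖^2 = ∑ ‖x (η j)‖^2` because `x (s j (η j)) =
s j (x (η j))`, the `s j` are isometries with orthogonal ranges. `exists_isoms` for `N` and `2`: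
`t₀, t₁ ∈ N`. Put `Ω' = (√2)⁻¹ • (t₀ (v (ζ)) + t₁ (w η₁))`. For `x ∈ M`:
`‖x Ω'‖^2 = (1/2) (‖x (v ζ)‖^2 + ‖x (w η₁)‖^2) = (1/2) (‖x (v ζ)‖^2 + ∑ j ‖x (w (η j))‖^2)` (use
the previous formula with `x * w ∈ M` in place of `x`).
`Ω'` is separating for `M`: if `x Ω' = 0` then `(x * v) ζ = 0` so `x * v = 0` (`sep_of_cyc hζ`;
`x * v ∈ M = Com (Com 𝔄)`), and `(x * w) (η j) = 0` for all `j`; `η i₀ = ζ`-type hypothesis `hη`
gives `x * w = 0`; so `x = x * (v * star v + w * star w) = 0`.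
Let `K` = closure of `{x Ω' : x ∈ M}`, `f = K.starProjection`, `f ∈ Com M = Com (Com (Com 𝔄)) =
Com 𝔄` (`proj_mem_Com`, `com3`), `f Ω' = Ω'` and `f ≠ 0` (`Ω' ≠ 0` since `1 ≠ 0` is in `M`). `hPI f`
gives an isometry `a ∈ N` with `f * a = a`; `cantor_bernstein` (with `𝔓 = 𝔄`) gives `b ∈ N` with
`star b * b = 1`, `b * star b = f`. Put `Ω = star b Ω'`.
`M`-state: `‖x Ω‖ = ‖star b (x Ω')‖ = ‖x Ω'‖` because `x Ω' ∈ K`, i.e. `b (star b (x Ω')) = x Ω'`
and `b` is an isometry. So (in particular) `Ω` is separating for `M`, hence `Cyc (Com 𝔄) Ω` by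
`cyc_of_sep` with `𝔓 = Com 𝔄`.
`Cyc M Ω`: for `z : H`, `b z = f (b z) ∈ K` (as `b = b * star b * b = f * b`) is a limit of
`x_i Ω'`, so `z = star b (b z) = lim star b (x_i Ω') = lim x_i (star b Ω')`. -/
theorem exists_omega {𝔄 : StarSubalgebra ℂ (H →L[ℂ] H)} (h1 : (1 : H →L[ℂ] H) ≠ 0)
    (hPI : PurelyInfinite (Com 𝔄 : Set (H →L[ℂ] H)))
    {v w : H →L[ℂ] H} (hv : v ∈ Com (Com 𝔄)) (hw : w ∈ Com (Com 𝔄))
    (hvw : v * star v + w * star w = 1) {ζ : H} (hζ : Cyc (Com 𝔄) ζ) {p : ℕ} (η : Fin p → H)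
    (hη : ∀ x ∈ Com (Com 𝔄), (∀ j, x (η j) = 0) → x = 0) :
    ∃ Ω : H, Cyc (Com 𝔄) Ω ∧ Cyc (Com (Com 𝔄)) Ω ∧
      ∀ x ∈ Com (Com 𝔄), ‖x Ω‖ ^ 2 = (1 / 2) * (‖x (v ζ)‖ ^ 2 + ∑ j, ‖x (w (η j))‖ ^ 2) := by
  classical
  obtain ⟨s, hs, hss⟩ := exists_isoms h1 hPI p
  obtain ⟨t, ht, htt⟩ := exists_isoms h1 hPI 2
  have hcomm : ∀ x ∈ Com (Com 𝔄), ∀ n ∈ Com 𝔄, ∀ z : H, x (n z) = n (x z) := by
    intro x hx n hn z
    exact (congrArg (fun T : H →L[ℂ] H => T z) (mem_Com.1 hx n hn)).symm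
  set η₁ : H := ∑ j, s j (η j) with hη₁
  have hη₁n : ∀ x ∈ Com (Com 𝔄), ‖x η₁‖ ^ 2 = ∑ j, ‖x (η j)‖ ^ 2 := by
    intro x hx
    have e1 : x η₁ = ∑ j, s j (x (η j)) := by
      rw [hη₁, map_sum]
      exact Finset.sum_congr rfl fun j _ => hcomm x hx (s j) (hs j) (η j)
    rw [e1, Om_pyth hss]
  set c : ℂ := (((√2)⁻¹ : ℝ) : ℂ) with hc
  have hc2 : ‖c‖ ^ 2 = 1 / 2 := by
    rw [hc, Complex.norm_real, Real.norm_eq_abs, sq_abs, inv_pow, Real.sq_sqrt (by norm_num)]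
    norm_num
  set Ω' : H := c • (t 0 (v ζ) + t 1 (w η₁)) with hΩ'
  have hst : ∀ x ∈ Com (Com 𝔄), ‖x Ω'‖ ^ 2 =
      (1 / 2) * (‖x (v ζ)‖ ^ 2 + ∑ j, ‖x (w (η j))‖ ^ 2) := by
    intro x hx
    have e1 : x Ω' = c • (t 0 (x (v ζ)) + t 1 (x (w η₁))) := by
      rw [hΩ', map_smul, map_add, hcomm x hx _ (ht 0), hcomm x hx _ (ht 1)]
    have e2 : ‖t 0 (x (v ζ)) + t 1 (x (w η₁))‖ ^ 2 = ‖x (v ζ)‖ ^ 2 + ‖x (w η₁)‖ ^ 2 := by
      have := Om_pyth htt ![x (v ζ), x (w η₁)]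
      simpa [Fin.sum_univ_two] using this
    have e3 : ‖x (w η₁)‖ ^ 2 = ∑ j, ‖x (w (η j))‖ ^ 2 := hη₁n (x * w) (mul_mem hx hw)
    rw [e1, norm_smul, mul_pow, hc2, e2, e3]
  have hsep' : ∀ x ∈ Com (Com 𝔄), ‖x Ω'‖ ^ 2 = 0 → x = 0 := by
    intro x hx h0
    rw [hst x hx] at h0
    have hn1 : 0 ≤ ‖x (v ζ)‖ ^ 2 := sq_nonneg _
    have hn2 : 0 ≤ ∑ j, ‖x (w (η j))‖ ^ 2 := Finset.sum_nonneg fun j _ => sq_nonneg _
    have h2 : ‖x (v ζ)‖ ^ 2 = 0 := by linarith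
    have h3 : ∑ j, ‖x (w (η j))‖ ^ 2 = 0 := by linarith
    have h4 : (x * v) ζ = 0 := by
      have := pow_eq_zero_iff (two_ne_zero) |>.mp h2
      exact norm_eq_zero.mp this
    have h5 : x * v = 0 := sep_of_cyc hζ (mul_mem hx hv) h4
    have h6 : x * w = 0 := by
      refine hη _ (mul_mem hx hw) fun j => ?_
      have := (Finset.sum_eq_zero_iff_of_nonneg (fun j _ => sq_nonneg ‖x (w (η j))‖)).mp h3 j
        (Finset.mem_univ j)
      exact norm_eq_zero.mp (pow_eq_zero_iff (two_ne_zero) |>.mp this)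
    calc x = x * (v * star v + w * star w) := by rw [hvw, mul_one]
      _ = x * v * star v + x * w * star w := by rw [mul_add, ← mul_assoc, ← mul_assoc]
      _ = 0 := by rw [h5, h6, zero_mul, zero_mul, add_zero]
  obtain ⟨K, hKc, hΩK, hKi, hKd⟩ := Cuntz_orbit (Com (Com 𝔄)) Ω'
  have : CompleteSpace K := hKc.completeSpace_coe
  have hf : K.starProjection ∈ Com 𝔄 := by
    have := proj_mem_Com (Com (Com 𝔄)) K hKi
    rwa [com3] at this
  have hfΩ : K.starProjection Ω' = Ω' := Submodule.starProjection_eq_self_iff.mpr hΩK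
  have hfs : star K.starProjection = K.starProjection := by
    rw [ContinuousLinearMap.star_eq_adjoint]
    exact (ContinuousLinearMap.eq_adjoint_iff _ _).mpr
      (fun x y => (K.inner_starProjection_left_eq_right x y)) |>.symm
  have hff : K.starProjection * K.starProjection = K.starProjection := by
    ext x
    exact Submodule.starProjection_eq_self_iff.mpr (Submodule.starProjection_apply_mem _ _)
  have hΩ0 : Ω' ≠ 0 := by
    intro h0
    refine h1 (hsep' 1 (one_mem _) ?_)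
    rw [h0, map_zero, norm_zero]
    norm_num
  have hf0 : K.starProjection ≠ 0 := by
    intro h
    rw [h] at hfΩ
    exact hΩ0 hfΩ.symm
  obtain ⟨a, ha, _, _, haa, _, _, hfa, _⟩ := hPI K.starProjection hf hfs hff hf0
  obtain ⟨b, hb, hbb, hbf⟩ := cantor_bernstein ha haa hf hfs hff hfa
  have hsb : star b ∈ Com 𝔄 := star_mem hb
  have hbK : ∀ z ∈ K, b (star b z) = z := by
    intro z hz
    have e1 : b (star b z) = K.starProjection z := congrArg (fun T : H →L[ℂ] H => T z) hbf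
    rw [e1]
    exact Submodule.starProjection_eq_self_iff.mpr hz
  have hnorm : ∀ x ∈ Com (Com 𝔄), ‖x (star b Ω')‖ = ‖x Ω'‖ := by
    intro x hx
    rw [hcomm x hx _ hsb, ← Om_iso hbb (star b (x Ω')), hbK _ (hKi x hx _ hΩK)]
  refine ⟨star b Ω', ?_, ?_, ?_⟩
  · refine cyc_of_sep fun x hx h0 => hsep' x hx ?_
    rw [← hnorm x hx, h0, norm_zero]
    norm_num
  · intro z
    have e1 : star b (b z) = z := congrArg (fun T : H →L[ℂ] H => T z) hbb
    have e2 : b z ∈ K := by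
      rw [← Submodule.starProjection_eq_self_iff]
      have e3 : b (star b (b z)) = K.starProjection (b z) :=
        congrArg (fun T : H →L[ℂ] H => T (b z)) hbf
      rw [← e3, e1]
    rw [← e1]
    refine map_mem_closure (star b).continuous (hKd _ e2) ?_
    rintro _ ⟨x, hx, rfl⟩
    exact ⟨x, hx, (hcomm x hx _ hsb _).symm⟩
  · intro x hx
    rw [hnorm x hx, hst x hx]

end Pool.Agent.MP_86f3ed.Ty
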