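import Pool.Agent.H.MP_86f3ed_an.Ty.Am
import Pool.Agent.H.MP_86f3ed_an.Ty.RN
import Pool.Agent.H.MP_86f3ed_an.Ty.Om

open scoped InnerProductSpace Topology
open Filter ContinuousLinearMap

namespace Pool.Agent.MP_86f3ed.Ty

open Pin

variable {H : Type*} [NormedAddCommGroup H] [InnerProductSpace ℂ H] [CompleteSpace H]

/-- The vectors of `KK H n` whose functional on `𝔓` is dominated by the one of `ζ`. -/
def VV (𝔓 : StarSubalgebra ℂ (H →L[ℂ] H)) (ζ : H) (n : ℕ) : Set (KK H n) :=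
  {ξ | ∀ c ∈ 𝔓, ‖am H n c ξ‖ ≤ ‖c ζ‖}

/-- The nearest point of `VV`.

PROOF. `VV 𝔓 ζ n` contains `0`, is convex (triangle inequality) and closed (an intersection of closed
sets), so `exists_norm_eq_iInf_of_complete_convex` and
`norm_eq_iInf_iff_real_inner_le_zero` (both in Mathlib, for real inner product spaces; use the
instance `InnerProductSpace.complexToReal` resp. `InnerProductSpace.rclikeToReal ℂ _`,
`real inner x y = re ⟪x, y⟫`) give the nearest point with the variational inequality. -/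
theorem exists_near (𝔓 : StarSubalgebra ℂ (H →L[ℂ] H)) (ζ : H) {n : ℕ} (κ : KK H n) :
    ∃ κ' ∈ VV 𝔓 ζ n, ∀ w ∈ VV 𝔓 ζ n, RCLike.re ⟪κ - κ', w - κ'⟫_ℂ ≤ 0 := by
  classical
  letI : InnerProductSpace ℝ (KK H n) := InnerProductSpace.rclikeToReal ℂ (KK H n)
  have hne : (VV 𝔓 ζ n).Nonempty :=
    ⟨0, fun c _ => by rw [map_zero, norm_zero]; exact norm_nonneg _⟩
  have hcl : IsClosed (VV 𝔓 ζ n) := by
    have h1 : VV 𝔓 ζ n = ⋂ c ∈ 𝔓, {ξ | ‖am H n c ξ‖ ≤ ‖c ζ‖} := by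
      ext ξ
      simp [VV]
    rw [h1]
    exact isClosed_biInter fun c _ => isClosed_le (by fun_prop) continuous_const
  have hcv : Convex ℝ (VV 𝔓 ζ n) := by
    intro x hx y hy a b ha hb hab c hc
    have h1 : a • x + b • y = (a : ℂ) • x + (b : ℂ) • y := rfl
    rw [h1, map_add, map_smul, map_smul]
    calc ‖(a : ℂ) • am H n c x + (b : ℂ) • am H n c y‖
        ≤ ‖(a : ℂ) • am H n c x‖ + ‖(b : ℂ) • am H n c y‖ := norm_add_le _ _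
      _ = a * ‖am H n c x‖ + b * ‖am H n c y‖ := by
          rw [norm_smul, norm_smul, Complex.norm_real, Complex.norm_real, Real.norm_of_nonneg ha,
            Real.norm_of_nonneg hb]
      _ ≤ a * ‖c ζ‖ + b * ‖c ζ‖ := add_le_add (mul_le_mul_of_nonneg_left (hx c hc) ha)
          (mul_le_mul_of_nonneg_left (hy c hc) hb)
      _ = ‖c ζ‖ := by rw [← add_mul, hab, one_mul]
  obtain ⟨κ', hκ', h⟩ := exists_norm_eq_iInf_of_complete_convex hne hcl.isComplete hcv κ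
  rw [norm_eq_iInf_iff_real_inner_le_zero hcv hκ'] at h
  exact ⟨κ', hκ', fun w hw => h w hw⟩

/-- A small parameter argument. -/
theorem Nst_small (B A : ℝ) (h : ∀ s : ℝ, 0 ≤ s → s ≤ 1 → (√(1 - s ^ 2) - 1) * A + s * B ≤ 0) :
    B ≤ 0 := by
  by_contra hB
  push Not at hB
  set s : ℝ := min 1 (B / (2 * (|A| + 1))) with hs
  have hA : 0 < 2 * (|A| + 1) := by positivity
  have hs0 : 0 < s := lt_min one_pos (div_pos hB hA)
  have hs1 : s ≤ 1 := min_le_left _ _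
  have hs2 : s * (2 * (|A| + 1)) ≤ B := by
    have h1 : s ≤ B / (2 * (|A| + 1)) := min_le_right _ _
    rwa [le_div_iff₀ hA] at h1
  have h1 := h s hs0.le hs1
  have h2 : 1 - s ^ 2 ≤ √(1 - s ^ 2) := by
    apply Real.le_sqrt_of_sq_le
    have h0 : 0 ≤ s ^ 2 := sq_nonneg s
    have h00 : s ^ 2 ≤ 1 := by nlinarith
    nlinarith
  have h3 : √(1 - s ^ 2) ≤ 1 := by
    rw [Real.sqrt_le_one]
    nlinarith
  have h4 : -(s ^ 2 * |A|) ≤ (√(1 - s ^ 2) - 1) * A := by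
    have h5 : |(√(1 - s ^ 2) - 1) * A| ≤ s ^ 2 * |A| := by
      rw [abs_mul]
      refine mul_le_mul_of_nonneg_right ?_ (abs_nonneg _)
      rw [abs_le]
      constructor <;> nlinarith
    exact (abs_le.mp h5).1
  have h6 : s * (B - s * |A|) ≤ 0 := by nlinarith
  have h7 : B - s * |A| ≤ 0 := by
    by_contra h8
    push Not at h8
    nlinarith [mul_pos hs0 h8]
  have h9 : 0 ≤ s * |A| := by positivity
  nlinarith

theorem Nst_inner_inc {n : ℕ} (i : Fin n) (v : KK H n) (x : H) :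
    ⟪v, inc H i x⟫_ℂ = ⟪pr H i v, x⟫_ℂ := by
  rw [← inner_conj_symm, inner_inc, inner_conj_symm]

theorem Nst_mem {𝔄 : StarSubalgebra ℂ (H →L[ℂ] H)} {ζ z : H} {n : ℕ} {κ' : KK H n}
    (hz : ∀ c ∈ Com 𝔄, ‖c z‖ ^ 2 = ‖c ζ‖ ^ 2 - ‖am H n c κ'‖ ^ 2)
    {m : H →L[ℂ] H} (hm : m ∈ Com (Com 𝔄)) (hm1 : ‖m‖ ≤ 1) (i : Fin n) {s : ℝ} (hs0 : 0 ≤ s)
    (hs1 : s ≤ 1) :
    κ' + inc H i (((√(1 - s ^ 2) - 1 : ℝ) : ℂ) • pr H i κ' + (s : ℂ) • m z) ∈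
      VV (Com 𝔄) ζ n := by
  classical
  intro c hc
  set r : ℝ := √(1 - s ^ 2) with hr
  have hr0 : 0 ≤ r := Real.sqrt_nonneg _
  have hrs : r ^ 2 + s ^ 2 = 1 := by
    rw [hr, Real.sq_sqrt (by nlinarith)]
    ring
  set w := κ' + inc H i (((r - 1 : ℝ) : ℂ) • pr H i κ' + (s : ℂ) • m z) with hw
  have h1 : ∀ j, j ≠ i → pr H j w = pr H j κ' := by
    intro j hj
    rw [hw, map_add, pr_inc_ne hj, add_zero]
  have h2 : pr H i w = (r : ℂ) • pr H i κ' + (s : ℂ) • m z := by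
    rw [hw, map_add, pr_inc_same]
    push_cast
    module
  have h3 : ‖c (pr H i w)‖ ^ 2 ≤ ‖c (pr H i κ')‖ ^ 2 + ‖c z‖ ^ 2 := by
    have h4 : c (m z) = m (c z) :=
      congrArg (fun T : H →L[ℂ] H => T z) (mem_Com.1 hm c hc)
    have h5 : ‖c (m z)‖ ≤ ‖c z‖ := by
      rw [h4]
      calc ‖m (c z)‖ ≤ ‖m‖ * ‖c z‖ := m.le_opNorm _
        _ ≤ 1 * ‖c z‖ := mul_le_mul_of_nonneg_right hm1 (norm_nonneg _)
        _ = ‖c z‖ := one_mul _
    have h6 : ‖c (pr H i w)‖ ≤ r * ‖c (pr H i κ')‖ + s * ‖c z‖ := by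
      rw [h2, map_add, map_smul, map_smul]
      refine (norm_add_le _ _).trans ?_
      rw [norm_smul, norm_smul, Complex.norm_real, Complex.norm_real, Real.norm_of_nonneg hr0,
        Real.norm_of_nonneg hs0]
      have := mul_le_mul_of_nonneg_left h5 hs0
      linarith
    have h7 : ‖c (pr H i w)‖ ^ 2 ≤ (r * ‖c (pr H i κ')‖ + s * ‖c z‖) ^ 2 :=
      pow_le_pow_left₀ (norm_nonneg _) h6 2
    nlinarith [sq_nonneg (r * ‖c z‖ - s * ‖c (pr H i κ')‖)]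
  have h8 : ‖am H n c w‖ ^ 2 ≤ ‖c ζ‖ ^ 2 := by
    have h9 := hz c hc
    have h10 : ‖am H n c κ'‖ ^ 2 = ∑ j, ‖c (pr H j κ')‖ ^ 2 := by
      rw [norm_sq_am]
      exact Finset.sum_congr rfl fun j _ => by rw [pr_am]
    have h11 : ‖am H n c w‖ ^ 2 = ∑ j, ‖c (pr H j w)‖ ^ 2 := by
      rw [norm_sq_am]
      exact Finset.sum_congr rfl fun j _ => by rw [pr_am]
    have h12 : ∑ j, ‖c (pr H j w)‖ ^ 2 ≤ ∑ j, ‖c (pr H j κ')‖ ^ 2 + ‖c z‖ ^ 2 := by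
      rw [← Finset.add_sum_erase _ _ (Finset.mem_univ i),
        ← Finset.add_sum_erase _ (fun j => ‖c (pr H j κ')‖ ^ 2) (Finset.mem_univ i)]
      have h13 : ∑ j ∈ Finset.univ.erase i, ‖c (pr H j w)‖ ^ 2 =
          ∑ j ∈ Finset.univ.erase i, ‖c (pr H j κ')‖ ^ 2 :=
        Finset.sum_congr rfl fun j hj => by rw [h1 j (Finset.ne_of_mem_erase hj)]
      rw [h13]
      linarith
    rw [h11]
    linarith
  exact (sq_le_sq₀ (norm_nonneg _) (norm_nonneg _)).mp h8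

/-- Exact mass of the nearest point.

PROOF. Let `𝔓 = Com 𝔄`. By `exists_deficit` (with `η i = pr H i κ'`, `norm_sq_am`, `pr_am`) there is
`d ∈ Com 𝔓` with `‖c (d ζ)‖^2 = ‖c ζ‖^2 - ‖am c κ'‖^2` for `c ∈ 𝔓`. Put `z = d ζ`.
(1) For `m ∈ Com 𝔓` with `‖m‖ ≤ 1`, an index `i` and `0 ≤ s ≤ 1` the vector
`w = κ' + inc H i ((√(1-s²) - 1) • pr H i κ' + s • m z)` (coordinate `i` of `κ'` replaced by
`√(1-s²) κ'_i + s m z`) is in `VV`: for `c ∈ 𝔓`,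
`‖c (√(1-s²) κ'_i + s m z)‖^2 ≤ (√(1-s²) ‖c κ'_i‖ + s ‖c z‖)^2 ≤ ‖c κ'_i‖^2 + ‖c z‖^2`
(`c (m z) = m (c z)`, Cauchy-Schwarz), so `‖am c w‖^2 ≤ ‖am c κ'‖^2 + ‖c z‖^2 = ‖c ζ‖^2`.
(2) The variational inequality for `w`, with `x = pr H i (κ - κ')`:
`(√(1-s²) - 1) re ⟪x, κ'_i⟫ + s re ⟪x, m z⟫ ≤ 0`. Since `|√(1-s²) - 1| ≤ s²`, dividing by `s` and
`s → 0` gives `re ⟪x, m z⟫ ≤ 0` (for example: if `re ⟪x, m z⟫ = a > 0` take `s` small with
`s * |re ⟪x, κ'_i⟫| < a`). Replacing `m` by `c m` with `|c| = 1` we get `⟪x, m z⟫ = 0` for all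
`m ∈ Com 𝔓`, `‖m‖ ≤ 1`, hence for all `m ∈ Com 𝔓`.
(3) Let `K` be the closure of `{m z : m ∈ Com 𝔓}` and `P = K.starProjection`. It is invariant under
`Com 𝔓`, so `P ∈ Com (Com 𝔓) = Com (Com (Com 𝔄)) = Com 𝔄 = 𝔓` (`proj_mem_Com`, `com3`), `P z = z`
and by (2) `P (pr H i (κ - κ')) = 0` for all `i`, i.e. `am P κ = am P κ'`.
(4) `‖P ζ‖^2 ≤ ‖am P κ‖^2 = ‖am P κ'‖^2 = ‖P ζ‖^2 - ‖P z‖^2 = ‖P ζ‖^2 - ‖z‖^2` by `hκ` for `c = P`
and the formula for `d`. So `z = 0`, and the formula for `d` gives the claim. -/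
theorem exact_mass {𝔄 : StarSubalgebra ℂ (H →L[ℂ] H)} {ζ : H} (hc : Cyc (Com 𝔄) ζ) {n : ℕ}
    {κ κ' : KK H n} (hκ : ∀ c ∈ Com 𝔄, ‖c ζ‖ ≤ ‖am H n c κ‖) (hκ' : κ' ∈ VV (Com 𝔄) ζ n)
    (hvar : ∀ w ∈ VV (Com 𝔄) ζ n, RCLike.re ⟪κ - κ', w - κ'⟫_ℂ ≤ 0) :
    ∀ c ∈ Com 𝔄, ‖am H n c κ'‖ = ‖c ζ‖ := by
  classical
  have hη : ∀ c ∈ Com 𝔄, ∑ j, ‖c (pr H j κ')‖ ^ 2 = ‖am H n c κ'‖ ^ 2 := by
    intro c _
    rw [norm_sq_am]
    exact Finset.sum_congr rfl fun j _ => by rw [pr_am]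
  obtain ⟨d, hd, hdef⟩ := exists_deficit hc (fun j => pr H j κ') fun c hcc => by
    rw [hη c hcc]
    exact pow_le_pow_left₀ (norm_nonneg _) (hκ' c hcc) 2
  have hdef' : ∀ c ∈ Com 𝔄, ‖c (d ζ)‖ ^ 2 = ‖c ζ‖ ^ 2 - ‖am H n c κ'‖ ^ 2 := by
    intro c hcc
    rw [hdef c hcc, hη c hcc]
  have h2 : ∀ m ∈ Com (Com 𝔄), ‖m‖ ≤ 1 → ∀ i : Fin n,
      RCLike.re ⟪pr H i (κ - κ'), m (d ζ)⟫_ℂ ≤ 0 := by
    intro m hm hm1 i
    refine Nst_small _ (RCLike.re ⟪pr H i (κ - κ'), pr H i κ'⟫_ℂ) fun s hs0 hs1 => ?_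
    have h3 := hvar _ (Nst_mem (fun c hcc => hdef' c hcc) hm hm1 i hs0 hs1)
    rw [add_sub_cancel_left, Nst_inner_inc] at h3
    rw [inner_add_right, map_add, inner_smul_right, inner_smul_right] at h3
    have e1 : ∀ (r : ℝ) (u : ℂ), RCLike.re ((r : ℂ) * u) = r * RCLike.re u := fun r u =>
      RCLike.re_ofReal_mul (K := ℂ) r u
    rw [e1, e1] at h3
    exact h3
  have h4 : ∀ m ∈ Com (Com 𝔄), ∀ i : Fin n, ⟪pr H i (κ - κ'), m (d ζ)⟫_ℂ = 0 := by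
    intro m hm i
    set t : ℂ := ⟪pr H i (κ - κ'), m (d ζ)⟫_ℂ with ht
    set ε : ℝ := 1 / (‖t‖ * ‖m‖ + 1) with hε
    have hden : 0 < ‖t‖ * ‖m‖ + 1 := by positivity
    have hε0 : 0 < ε := by positivity
    have h5 := h2 (((ε : ℂ) * (starRingEnd ℂ) t) • m) ((Com (Com 𝔄)).smul_mem hm _) (by
      rw [norm_smul, norm_mul, Complex.norm_real, RCLike.norm_conj, Real.norm_of_nonneg hε0.le, hε,
        mul_assoc, one_div, inv_mul_le_iff₀ hden, mul_one]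
      linarith) i
    rw [smul_apply, inner_smul_right, ← ht, mul_assoc, RCLike.conj_mul] at h5
    have h6 : RCLike.re ((ε : ℂ) * ((‖t‖ : ℂ)) ^ 2) = ε * ‖t‖ ^ 2 := by
      have : ((ε : ℂ) * ((‖t‖ : ℂ)) ^ 2) = ((ε * ‖t‖ ^ 2 : ℝ) : ℂ) := by push_cast; rfl
      rw [this]
      exact Complex.ofReal_re _
    have h7 : ε * ‖t‖ ^ 2 ≤ 0 := by
      rw [← h6]
      exact h5
    have h8 : ‖t‖ ^ 2 = 0 := by
      have h9 : 0 ≤ ‖t‖ ^ 2 := sq_nonneg _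
      nlinarith
    exact norm_eq_zero.mp (pow_eq_zero_iff two_ne_zero |>.mp h8)
  obtain ⟨K, hKc, hzK, hKi, hKd⟩ := Cuntz_orbit (Com (Com 𝔄)) (d ζ)
  have : CompleteSpace K := hKc.completeSpace_coe
  have hP : K.starProjection ∈ Com 𝔄 := by
    have := proj_mem_Com (Com (Com 𝔄)) K hKi
    rwa [com3] at this
  have hPz : K.starProjection (d ζ) = d ζ := Submodule.starProjection_eq_self_iff.mpr hzK
  have hP0 : ∀ i : Fin n, K.starProjection (pr H i (κ - κ')) = 0 := by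
    intro i
    rw [Submodule.starProjection_apply_eq_zero_iff, Submodule.mem_orthogonal']
    intro u hu
    have h5 := hKd u hu
    have h6 : closure {x : H | ∃ a ∈ Com (Com 𝔄), x = a (d ζ)} ⊆
        {u | ⟪pr H i (κ - κ'), u⟫_ℂ = 0} := by
      refine closure_minimal ?_ (isClosed_eq (by fun_prop) continuous_const)
      rintro _ ⟨m, hm, rfl⟩
      exact h4 m hm i
    exact h6 h5
  have hPκ : am H n K.starProjection κ = am H n K.starProjection κ' := by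
    refine ext_pr fun i => ?_
    rw [pr_am, pr_am, ← sub_eq_zero, ← map_sub, ← map_sub]
    exact hP0 i
  have hz : d ζ = 0 := by
    have h5 := hdef' _ hP
    have h6 := hκ _ hP
    rw [hPκ] at h6
    rw [hPz] at h5
    have h7 : ‖K.starProjection ζ‖ ^ 2 ≤ ‖am H n K.starProjection κ'‖ ^ 2 :=
      pow_le_pow_left₀ (norm_nonneg _) h6 2
    have h8 : ‖d ζ‖ ^ 2 = 0 := le_antisymm (by linarith) (sq_nonneg _)
    exact norm_eq_zero.mp (pow_eq_zero_iff two_ne_zero |>.mp h8)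
  intro c hcc
  have h5 := hdef' c hcc
  rw [hz, map_zero, norm_zero] at h5
  have h6 : ‖am H n c κ'‖ ^ 2 = ‖c ζ‖ ^ 2 := by linarith
  exact (sq_eq_sq₀ (norm_nonneg _) (norm_nonneg _)).mp h6

end Pool.Agent.MP_86f3ed.Ty
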