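import Pool.Agent.H.MP_86f3ed_an.Ty.Pre
import Pool.Agent.H.MP_86f3ed_an.Pin.Kap2
import Pool.Agent.H.MP_86f3ed_an.Pin.Slot

open scoped InnerProductSpace Topology
open Filter ContinuousLinearMap

namespace Pool.Agent.MP_86f3ed.Ty

open Pin

variable {H : Type*} [NormedAddCommGroup H] [InnerProductSpace ℂ H] [CompleteSpace H]

theorem norm_omP_le (ξ η : H) : ‖omP ξ η‖ ≤ ‖ξ‖ * ‖η‖ := by
  rw [norm_P, inP_omP]
  refine ContinuousLinearMap.opNorm_le_bound _ (by positivity) fun Z => ?_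
  rw [om_apply]
  refine (norm_inner_le_norm _ _).trans ?_
  calc ‖η‖ * ‖Z ξ‖ ≤ ‖η‖ * (‖Z‖ * ‖ξ‖) :=
        mul_le_mul_of_nonneg_left (Z.le_opNorm ξ) (norm_nonneg _)
    _ = ‖ξ‖ * ‖η‖ * ‖Z‖ := by ring

theorem omP_smul (c : ℂ) (ξ η : H) : omP (c • ξ) η = c • omP ξ η := by
  apply P_ext; intro Z
  show ⟪η, Z (c • ξ)⟫_ℂ = c • ⟪η, Z ξ⟫_ℂ
  rw [map_smul, inner_smul_right]; rfl

theorem pbm_L_omP (S : StarSubalgebra ℂ (H →L[ℂ] H)) (x : S) (ξ η : H) :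
    (pbm S).L x (omP ξ η) = omP ξ (star (x : H →L[ℂ] H) η) := by
  apply (inP (H := H)).injective
  exact om_comp_lB (x : H →L[ℂ] H) ξ η

theorem pbm_R_omP (S : StarSubalgebra ℂ (H →L[ℂ] H)) (x : S) (ξ η : H) :
    (pbm S).R x (omP ξ η) = omP ((x : H →L[ℂ] H) ξ) η := by
  apply (inP (H := H)).injective
  exact om_comp_rB (x : H →L[ℂ] H) ξ η

/-- The finite sums of `omP` are dense in the predual. -/
theorem P_dense (f : Pre H) {δ : ℝ} (hδ : 0 < δ) :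
    ∃ (m : ℕ) (ξ η : Fin m → H), ‖f - ∑ k, omP (ξ k) (η k)‖ ≤ δ := by
  have h1 : inP f ∈ closure ((Submodule.span ℂ {f | ∃ ξ η : H, f = om ξ η} :
    Submodule ℂ (StrongDual ℂ (H →L[ℂ] H))) : Set (StrongDual ℂ (H →L[ℂ] H))) := by
    have := inP_mem f
    rw [PreSub, ← SetLike.mem_coe, Submodule.topologicalClosure_coe] at this
    exact this
  obtain ⟨g, hg, hgf⟩ := Metric.mem_closure_iff.mp h1 δ hδ
  obtain ⟨m, c, e, hce⟩ := Submodule.mem_span_set'.mp hg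
  choose ξ η he using fun k => (e k).2
  refine ⟨m, fun k => c k • ξ k, η, ?_⟩
  have h2 : inP (∑ k, omP (c k • ξ k) (η k)) = g := by
    rw [map_sum, ← hce]
    refine Finset.sum_congr rfl fun k _ => ?_
    rw [omP_smul, map_smul, inP_omP, he k]
  rw [norm_P, map_sub, h2, ← dist_eq_norm]
  exact hgf.le

theorem norm_PL_sum_le {S : StarSubalgebra ℂ (H →L[ℂ] H)} (z : S) {m : ℕ}
    (ξ η : Fin m → H) {δ : ℝ} (h : ∀ k, ‖star (z : H →L[ℂ] H) (η k)‖ ≤ δ) :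
    ‖(pbm S).L z (∑ k, omP (ξ k) (η k))‖ ≤ (∑ k, ‖ξ k‖) * δ := by
  rw [map_sum, Finset.sum_mul]
  refine (norm_sum_le _ _).trans (Finset.sum_le_sum fun k _ => ?_)
  rw [pbm_L_omP]
  exact (norm_omP_le _ _).trans (mul_le_mul_of_nonneg_left (h k) (norm_nonneg _))

theorem norm_PR_sum_le {S : StarSubalgebra ℂ (H →L[ℂ] H)} (z : S) {m : ℕ}
    (ξ η : Fin m → H) {δ : ℝ} (h : ∀ k, ‖(z : H →L[ℂ] H) (ξ k)‖ ≤ δ) :
    ‖(pbm S).R z (∑ k, omP (ξ k) (η k))‖ ≤ (∑ k, ‖η k‖) * δ := by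
  rw [map_sum, Finset.sum_mul]
  refine (norm_sum_le _ _).trans (Finset.sum_le_sum fun k _ => ?_)
  rw [pbm_R_omP]
  refine (norm_omP_le _ _).trans ?_
  rw [mul_comm]
  exact mul_le_mul_of_nonneg_left (h k) (norm_nonneg _)

theorem pappr {𝔄 : StarSubalgebra ℂ (H →L[ℂ] H)} (hcl : IsClosed (𝔄 : Set (H →L[ℂ] H))) :
    (pbm (Com (Com 𝔄))).Appr (SubA 𝔄) := by
  intro x hx f₁ f₂ δ hδ
  obtain ⟨m₁, ξ₁, η₁, h₁⟩ := P_dense f₁ (show 0 < δ / 4 by positivity)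
  obtain ⟨m₂, ξ₂, η₂, h₂⟩ := P_dense f₂ (show 0 < δ / 4 by positivity)
  set g₁ := ∑ k, omP (ξ₁ k) (η₁ k) with hg₁
  set g₂ := ∑ k, omP (ξ₂ k) (η₂ k) with hg₂
  set K : ℝ := 1 + ∑ k, ‖ξ₁ k‖ + ∑ k, ‖η₂ k‖ with hK
  have hs1 : 0 ≤ ∑ k, ‖ξ₁ k‖ := Finset.sum_nonneg fun k _ => by positivity
  have hs2 : 0 ≤ ∑ k, ‖η₂ k‖ := Finset.sum_nonneg fun k _ => by positivity
  have hK0 : 0 < K := by positivity
  obtain ⟨a, ha, ha1, hak⟩ := kaplansky 𝔄 hcl x.2 hx (Fin.append η₁ ξ₂)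
    (δ := δ / (2 * K)) (by positivity)
  have haM : a ∈ Com (Com 𝔄) := mem_Com.mpr fun n hn => (mem_Com.mp hn a ha).symm
  set a' : Com (Com 𝔄) := ⟨a, haM⟩ with ha'
  have hz : ‖x - a'‖ ≤ 2 := by
    refine (norm_sub_le _ _).trans ?_
    have : ‖a'‖ ≤ 1 := ha1
    linarith
  have hKδ : K * (δ / (2 * K)) = δ / 2 := by field_simp
  have hδK : 0 < δ / (2 * K) := by positivity
  refine ⟨a', ha, ha1, ?_, ?_⟩
  · have e1 : f₁ = (f₁ - g₁) + g₁ := by abel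
    rw [e1, map_add]
    refine (norm_add_le _ _).trans ?_
    have e2 : ‖(pbm (Com (Com 𝔄))).L (x - a') (f₁ - g₁)‖ ≤ 2 * (δ / 4) :=
      ((pbm (Com (Com 𝔄))).norm_L _ _).trans (mul_le_mul hz h₁ (norm_nonneg _) (by norm_num))
    have e3 := norm_PL_sum_le (x - a') ξ₁ η₁ (δ := δ / (2 * K)) (fun k => by
      have := (hak (Fin.castAdd m₂ k)).2
      rw [Fin.append_left] at this
      exact this)
    have e4 : (∑ k, ‖ξ₁ k‖) * (δ / (2 * K)) ≤ δ / 2 := by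
      rw [← hKδ]
      exact mul_le_mul_of_nonneg_right (by linarith) hδK.le
    have e5 : ‖(pbm (Com (Com 𝔄))).L (x - a') g₁‖ ≤ δ / 2 := e3.trans e4
    linarith
  · have e1 : f₂ = (f₂ - g₂) + g₂ := by abel
    rw [e1, map_add]
    refine (norm_add_le _ _).trans ?_
    have e2 : ‖(pbm (Com (Com 𝔄))).R (x - a') (f₂ - g₂)‖ ≤ 2 * (δ / 4) :=
      ((pbm (Com (Com 𝔄))).norm_R _ _).trans (mul_le_mul hz h₂ (norm_nonneg _) (by norm_num))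
    have e3 := norm_PR_sum_le (x - a') ξ₂ η₂ (δ := δ / (2 * K)) (fun k => by
      have := (hak (Fin.natAdd m₁ k)).1
      rw [Fin.append_right] at this
      exact this)
    have e4 : (∑ k, ‖η₂ k‖) * (δ / (2 * K)) ≤ δ / 2 := by
      rw [← hKδ]
      exact mul_le_mul_of_nonneg_right (by linarith) hδK.le
    have e5 : ‖(pbm (Com (Com 𝔄))).R (x - a') g₂‖ ≤ δ / 2 := e3.trans e4
    linarith

end Pool.Agent.MP_86f3ed.Ty
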