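import Pool.Agent.H.MP_86f3ed_an.Ty.Ego

open scoped InnerProductSpace Topology
open Filter ContinuousLinearMap

namespace Pool.Agent.MP_86f3ed.Ty

open Pin

variable {H : Type*} [NormedAddCommGroup H] [InnerProductSpace ℂ H] [CompleteSpace H]

theorem PEnc_gen {M F : Type*} [NormedRing M] [NormedAlgebra ℂ M] [NormedAddCommGroup F]
    [NormedSpace ℂ F] [CompleteSpace M] [CompleteSpace F] (B : BM M F)
    {S : Subalgebra ℂ M} (hS : IsClosed (S : Set M)) (s : BM.Slots S)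
    (x c : ℕ → M) (E ψ : ℕ → F)
    (hE : ∀ j, ‖E j‖ ≤ 2 * (1/8 : ℝ) ^ j) (hψ : ∀ j, ‖ψ j‖ ≤ (1/8 : ℝ) ^ j)
    (hx : ∀ j, x j ∈ S ∧ ‖x j‖ ≤ 1 ∧ s.g j * x j = x j)
    (hc : ∀ j, c j ∈ S ∧ ‖c j‖ ≤ 1 ∧ ∀ l, l ≠ j → s.U l * c j = 0 ∧ c j * s.V l = 0) :
    ∃ (m : Fin 3 → M) (φ : Fin 3 → F), (∀ k, m k ∈ S) ∧
      HasSum (fun j => B.D (x j) (B.L (s.U j) (E j)) +
        B.D (c j) (B.R (s.V j) (B.L (s.U j) (ψ j)))) (∑ k, B.D (m k) (φ k)) := by
  have hsumB : Summable fun j => ((1/2 : ℂ) ^ j) • c j := by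
    refine Summable.of_norm_bounded (g := fun j => (1/2 : ℝ) ^ j) summable_geometric_two ?_
    intro j
    rw [norm_smul, norm_pow]
    have : ‖(1/2 : ℂ)‖ = 1/2 := by norm_num
    rw [this]
    exact mul_le_of_le_one_right (by positivity) (hc j).2.1
  have hsumX : Summable fun j => ((1/4 : ℂ) ^ j) • x j := by
    refine Summable.of_norm_bounded (g := fun j => (1/4 : ℝ) ^ j)
      (summable_geometric_of_lt_one (by norm_num) (by norm_num)) ?_
    intro j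
    rw [norm_smul, norm_pow]
    have : ‖(1/4 : ℂ)‖ = 1/4 := by norm_num
    rw [this]
    exact mul_le_of_le_one_right (by positivity) (hx j).2.1
  have hsumG : Summable fun j => ((1/2 : ℂ) ^ j) • s.g j := by
    refine Summable.of_norm_bounded (g := fun j => (1/2 : ℝ) ^ j) summable_geometric_two ?_
    intro j
    rw [norm_smul, norm_pow]
    have : ‖(1/2 : ℂ)‖ = 1/2 := by norm_num
    rw [this]
    exact mul_le_of_le_one_right (by positivity) (s.norm_g j)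
  set BB : M := ∑' j, ((1/2 : ℂ) ^ j) • c j with hBB
  set XX : M := ∑' j, ((1/4 : ℂ) ^ j) • x j with hXX
  set GG : M := ∑' j, ((1/2 : ℂ) ^ j) • s.g j with hGG
  have hBBS : BB ∈ S :=
    hS.mem_of_tendsto hsumB.hasSum (Eventually.of_forall fun t =>
      S.toSubmodule.sum_mem fun j _ => S.smul_mem (hc j).1 _)
  have hXXS : XX ∈ S :=
    hS.mem_of_tendsto hsumX.hasSum (Eventually.of_forall fun t =>
      S.toSubmodule.sum_mem fun j _ => S.smul_mem (hx j).1 _)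
  have hGGS : GG ∈ S :=
    hS.mem_of_tendsto hsumG.hasSum (Eventually.of_forall fun t =>
      S.toSubmodule.sum_mem fun j _ => S.smul_mem (s.g_mem j) _)
  have hUx : ∀ j l, l ≠ j → s.U j * x l = 0 := by
    intro j l hl
    rw [← (hx l).2.2, ← mul_assoc, s.U_mul_g_ne hl.symm, zero_mul]
  have hgx : ∀ m l, l ≠ m → s.g m * x l = 0 := by
    intro m l hl
    rw [← (hx l).2.2, ← mul_assoc, s.ort m l hl.symm, zero_mul]
  have hUBB : ∀ j, s.U j * BB = ((1/2 : ℂ) ^ j) • (s.U j * c j) := by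
    intro j
    rw [hBB, ← hsumB.tsum_mul_left, tsum_eq_single j]
    · rw [mul_smul_comm]
    · intro l hl
      rw [mul_smul_comm, ((hc l).2.2 j hl.symm).1, smul_zero]
  have hBBV : ∀ j, BB * s.V j = ((1/2 : ℂ) ^ j) • (c j * s.V j) := by
    intro j
    rw [hBB, ← hsumB.tsum_mul_right, tsum_eq_single j]
    · rw [smul_mul_assoc]
    · intro l hl
      rw [smul_mul_assoc, ((hc l).2.2 j hl.symm).2, smul_zero]
  have hUXX : ∀ j, s.U j * XX = ((1/4 : ℂ) ^ j) • (s.U j * x j) := by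
    intro j
    rw [hXX, ← hsumX.tsum_mul_left, tsum_eq_single j]
    · rw [mul_smul_comm]
    · intro l hl
      rw [mul_smul_comm, hUx j l hl, smul_zero]
  have hUGG : ∀ j, s.U j * GG = ((1/2 : ℂ) ^ j) • s.U j := by
    intro j
    rw [hGG, ← hsumG.tsum_mul_left, tsum_eq_single j]
    · rw [mul_smul_comm, s.U_mul_g]
    · intro l hl
      rw [mul_smul_comm, s.U_mul_g_ne hl.symm, smul_zero]
  have hGGx : ∀ l, GG * x l = ((1/2 : ℂ) ^ l) • x l := by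
    intro l
    rw [hGG, ← hsumG.tsum_mul_right, tsum_eq_single l]
    · rw [smul_mul_assoc, (hx l).2.2]
    · intro m hm
      rw [smul_mul_assoc, hgx m l hm.symm, smul_zero]
  have hsumW : ∀ j, Summable fun l => BM.coef j l • x l := by
    intro j
    refine Summable.of_norm_bounded (g := fun l => 2 * (1/2 : ℝ) ^ l)
      (summable_geometric_two.mul_left 2) ?_
    intro l
    rw [norm_smul]
    calc ‖BM.coef j l‖ * ‖x l‖ ≤ (2 * (1/2 : ℝ) ^ l) * 1 :=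
          mul_le_mul (BM.norm_coef_le j l) (hx l).2.1 (norm_nonneg _) (by positivity)
      _ = 2 * (1/2 : ℝ) ^ l := mul_one _
  set W : ℕ → M := fun j => ∑' l, BM.coef j l • x l with hW
  have hWn : ∀ j, ‖W j‖ ≤ 4 := by
    intro j
    have h1 : HasSum (fun l : ℕ => 2 * (1/2 : ℝ) ^ l) (2 * 2) :=
      hasSum_geometric_two.mul_left 2
    refine (tsum_of_norm_bounded h1 ?_).trans (by norm_num)
    intro l
    rw [norm_smul]
    calc ‖BM.coef j l‖ * ‖x l‖ ≤ (2 * (1/2 : ℝ) ^ l) * 1 :=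
          mul_le_mul (BM.norm_coef_le j l) (hx l).2.1 (norm_nonneg _) (by positivity)
      _ = 2 * (1/2 : ℝ) ^ l := mul_one _
  have hGW : ∀ j, ((1/2 : ℂ) ^ j) • W j - GG * W j = XX - ((1/4 : ℂ) ^ j) • x j := by
    intro j
    have h1 : HasSum (fun l => ((1/2 : ℂ) ^ j) • (BM.coef j l • x l) -
        GG * (BM.coef j l • x l)) (((1/2 : ℂ) ^ j) • W j - GG * W j) :=
      ((hsumW j).hasSum.const_smul _).sub ((hsumW j).hasSum.mul_left GG)
    have h2 : HasSum (fun l => ((1/4 : ℂ) ^ l) • x l -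
        (if l = j then ((1/4 : ℂ) ^ j) • x j else 0)) (XX - ((1/4 : ℂ) ^ j) • x j) :=
      hsumX.hasSum.sub (hasSum_ite_eq j _)
    refine h1.unique ?_
    convert h2 using 1
    funext l
    by_cases hl : l = j
    · subst hl
      simp [BM.coef]
    · rw [if_neg hl, sub_zero, mul_smul_comm, hGGx, smul_smul, smul_smul, ← sub_smul]
      congr 1
      unfold BM.coef
      rw [if_neg hl]
      have := BM.coef_diff hl
      field_simp
  set f₁ : ℕ → F := fun j => B.L (s.U j) (E j) with hf₁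
  set Φ : ℕ → F := fun j => B.R (s.V j) (B.L (s.U j) (ψ j)) with hΦ
  have hDBB : ∀ j, B.D BB (Φ j) = ((1/2 : ℂ) ^ j) • B.D (c j) (Φ j) := by
    intro j
    rw [B.D_apply, B.D_apply, smul_sub]
    congr 1
    · show B.L BB (B.R (s.V j) (B.L (s.U j) (ψ j))) =
        ((1/2 : ℂ) ^ j) • B.L (c j) (B.R (s.V j) (B.L (s.U j) (ψ j)))
      rw [B.LR, B.LR, ← B.L_mul, ← B.L_mul, hUBB, map_smul, smul_apply, map_smul]
    · show B.R BB (B.R (s.V j) (B.L (s.U j) (ψ j))) =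
        ((1/2 : ℂ) ^ j) • B.R (c j) (B.R (s.V j) (B.L (s.U j) (ψ j)))
      rw [← B.R_mul, ← B.R_mul, hBBV, map_smul, smul_apply]
  have hDXX : ∀ j, B.D XX (f₁ j) + B.D GG (B.R (W j) (f₁ j)) =
      ((1/4 : ℂ) ^ j) • B.D (x j) (f₁ j) := by
    intro j
    have h1 : B.L XX (f₁ j) = ((1/4 : ℂ) ^ j) • B.L (x j) (f₁ j) := by
      show B.L XX (B.L (s.U j) (E j)) = ((1/4 : ℂ) ^ j) • B.L (x j) (B.L (s.U j) (E j))
      rw [← B.L_mul, ← B.L_mul, hUXX, map_smul, smul_apply]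
    have h2 : B.L GG (B.R (W j) (f₁ j)) = ((1/2 : ℂ) ^ j) • B.R (W j) (f₁ j) := by
      rw [B.LR]
      show B.R (W j) (B.L GG (B.L (s.U j) (E j))) =
        ((1/2 : ℂ) ^ j) • B.R (W j) (B.L (s.U j) (E j))
      rw [← B.L_mul, hUGG, map_smul, smul_apply, map_smul]
    have h3 : ((1/2 : ℂ) ^ j) • B.R (W j) (f₁ j) - B.R (GG * W j) (f₁ j) =
        B.R XX (f₁ j) - ((1/4 : ℂ) ^ j) • B.R (x j) (f₁ j) := by
      rw [← smul_apply, ← map_smul, ← sub_apply, ← map_sub, hGW, map_sub, map_smul, sub_apply,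
        smul_apply]
    rw [B.D_apply, B.D_apply, B.D_apply, h1, h2, ← B.R_mul, h3, smul_sub]
    abel
  have hterm : ∀ j, B.D (x j) (f₁ j) + B.D (c j) (Φ j) =
      B.D XX (((4 : ℂ) ^ j) • f₁ j) + B.D GG (((4 : ℂ) ^ j) • B.R (W j) (f₁ j)) +
        B.D BB (((2 : ℂ) ^ j) • Φ j) := by
    intro j
    have h2 : B.D BB (((2 : ℂ) ^ j) • Φ j) = B.D (c j) (Φ j) := by
      rw [map_smul, hDBB, smul_smul, ← mul_pow]
      norm_num
    have h3 : B.D XX (((4 : ℂ) ^ j) • f₁ j) + B.D GG (((4 : ℂ) ^ j) • B.R (W j) (f₁ j)) =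
        B.D (x j) (f₁ j) := by
      rw [map_smul, map_smul, ← smul_add, hDXX, smul_smul, ← mul_pow]
      norm_num
    rw [h2, h3]
  have hf₁n : ∀ j, ‖f₁ j‖ ≤ 2 * (1/8 : ℝ) ^ j := fun j =>
    ((B.norm_L _ _).trans (mul_le_of_le_one_left (norm_nonneg _) (s.norm_U j))).trans (hE j)
  have hΦn : ∀ j, ‖Φ j‖ ≤ (1/8 : ℝ) ^ j := by
    intro j
    refine (B.norm_R _ _).trans ?_
    refine (mul_le_of_le_one_left (norm_nonneg _) (s.norm_V j)).trans ?_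
    refine (B.norm_L _ _).trans ?_
    exact (mul_le_of_le_one_left (norm_nonneg _) (s.norm_U j)).trans (hψ j)
  have e2 : ∀ j : ℕ, ‖((2 : ℂ) ^ j)‖ = 2 ^ j := fun j => by rw [norm_pow]; norm_num
  have e4 : ∀ j : ℕ, ‖((4 : ℂ) ^ j)‖ = 4 ^ j := fun j => by rw [norm_pow]; norm_num
  have q4 : ∀ j : ℕ, (2 : ℝ) ^ j * (1/8) ^ j = (1/4) ^ j := fun j => by
    rw [← mul_pow]; norm_num
  have q2 : ∀ j : ℕ, (4 : ℝ) ^ j * (1/8) ^ j = (1/2) ^ j := fun j => by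
    rw [← mul_pow]; norm_num
  have s1 : Summable fun j => ((2 : ℂ) ^ j) • Φ j := by
    refine Summable.of_norm_bounded (g := fun j => (1/4 : ℝ) ^ j)
      (summable_geometric_of_lt_one (by norm_num) (by norm_num)) ?_
    intro j
    rw [norm_smul, e2]
    calc (2 : ℝ) ^ j * ‖Φ j‖ ≤ 2 ^ j * (1/8) ^ j :=
          mul_le_mul_of_nonneg_left (hΦn j) (by positivity)
      _ = (1/4 : ℝ) ^ j := q4 j
  have s2 : Summable fun j => ((4 : ℂ) ^ j) • f₁ j := by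
    refine Summable.of_norm_bounded (g := fun j => (1/2 : ℝ) ^ j * 2)
      (summable_geometric_two.mul_right _) ?_
    intro j
    rw [norm_smul, e4]
    calc (4 : ℝ) ^ j * ‖f₁ j‖ ≤ 4 ^ j * (2 * (1/8) ^ j) :=
          mul_le_mul_of_nonneg_left (hf₁n j) (by positivity)
      _ = (1/2 : ℝ) ^ j * 2 := by rw [← q2]; ring
  have s3 : Summable fun j => ((4 : ℂ) ^ j) • B.R (W j) (f₁ j) := by
    refine Summable.of_norm_bounded (g := fun j => (1/2 : ℝ) ^ j * 8)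
      (summable_geometric_two.mul_right _) ?_
    intro j
    rw [norm_smul, e4]
    have h1 : ‖B.R (W j) (f₁ j)‖ ≤ 4 * (2 * (1/8 : ℝ) ^ j) :=
      (B.norm_R _ _).trans (mul_le_mul (hWn j) (hf₁n j) (norm_nonneg _) (by norm_num))
    calc (4 : ℝ) ^ j * ‖B.R (W j) (f₁ j)‖ ≤ 4 ^ j * (4 * (2 * (1/8) ^ j)) :=
          mul_le_mul_of_nonneg_left h1 (by positivity)
      _ = (1/2 : ℝ) ^ j * 8 := by rw [← q2]; ring
  refine ⟨![XX, GG, BB], ![∑' j, ((4 : ℂ) ^ j) • f₁ j, ∑' j, ((4 : ℂ) ^ j) • B.R (W j) (f₁ j),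
    ∑' j, ((2 : ℂ) ^ j) • Φ j], ?_, ?_⟩
  · intro k
    fin_cases k
    · exact hXXS
    · exact hGGS
    · exact hBBS
  · have hs : HasSum (fun j => B.D (x j) (f₁ j) + B.D (c j) (Φ j))
        (B.D XX (∑' j, ((4 : ℂ) ^ j) • f₁ j) +
        B.D GG (∑' j, ((4 : ℂ) ^ j) • B.R (W j) (f₁ j)) +
        B.D BB (∑' j, ((2 : ℂ) ^ j) • Φ j)) := by
      simp_rw [hterm]
      refine HasSum.add (HasSum.add ?_ ?_) ?_
      · exact (B.D XX).hasSum s2.hasSum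
      · exact (B.D GG).hasSum s3.hasSum
      · exact (B.D BB).hasSum s1.hasSum
    rw [Fin.sum_univ_three]
    exact hs

/-- The encoding: an infinite sum of commutators in the slots is a sum of three commutators.

PROOF. This is the second half of the proof of `BM.encode` in `Pin/Enc.lean` (there `E j` are the
remainders, `b j k` corresponds to our `c j` with one index `k`, `n = 1`); copy and adapt.
Put `XX = ∑' (1/4)^j • x j`, `BB = ∑' (1/2)^j • c j`, `GG = ∑' (1/2)^j • s.g j`,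
`W j = ∑' l, coef j l • x l` (`‖W j‖ ≤ 4`), `f₁ j = L (U_j) (E j)`,
`Φ j = R (V_j) (L (U_j) (ψ j))`. All three elements are in the closed algebra `S`.
(1) `D BB (Φ j) = (1/2)^j • D (c j) (Φ j)` (hDBB there; `U_j * BB = (1/2)^j • U_j * c j` and
`BB * V_j = (1/2)^j • c j * V_j`).
(2) `(1/2)^j • W j - GG * W j = XX - (1/4)^j • x j` (hGW there), `U_j * GG = (1/2)^j • U_j`, hence
`D XX (f₁ j) + D GG (R (W j) (f₁ j)) = (1/4)^j • D (x j) (f₁ j)`. Indeed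
`D (XX - (1/4)^j x_j) f₁ = L (XX - ..) f₁ - R (XX - ..) f₁`, the first term is
`L (W j) (L ((1/2)^j - GG) f₁) = 0` because `L GG f₁ = L (U_j * GG) (E j) = (1/2)^j f₁`, and
`R (((1/2)^j - GG) W) f₁ = (1/2)^j R W f₁ - R GG (R W f₁)`, while
`D GG (R W f₁) = L GG (R W f₁) - R GG (R W f₁) = R W (L GG f₁) - R GG (R W f₁) =
(1/2)^j R W f₁ - R GG (R W f₁)`.
Hence `D (x j) (f₁ j) = 4^j • D XX (f₁ j) + 4^j • D GG (R (W j) (f₁ j))` and
`D (c j) (Φ j) = 2^j • D BB (Φ j)`.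
The series `∑ 4^j • f₁ j`, `∑ 4^j • R (W j) (f₁ j)`, `∑ 2^j • Φ j` converge absolutely
(`‖4^j f₁ j‖ ≤ 2 (1/2)^j` and so on). So the three commutators are `m = ![XX, GG, BB]`,
`φ = ![∑' 4^j • f₁ j, ∑' 4^j • R (W j) (f₁ j), ∑' 2^j • Φ j]`. -/
theorem pencode {𝔐 : StarSubalgebra ℂ (H →L[ℂ] H)} (hcl : IsClosed (𝔐 : Set (H →L[ℂ] H)))
    {F : Type*} [NormedAddCommGroup F] [NormedSpace ℂ F] [CompleteSpace F] (B : BM 𝔐 F)
    {S : Subalgebra ℂ 𝔐} (hS : IsClosed (S : Set 𝔐)) (s : BM.Slots S)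
    (x c : ℕ → 𝔐) (E ψ : ℕ → F)
    (hE : ∀ j, ‖E j‖ ≤ 2 * (1/8 : ℝ) ^ j) (hψ : ∀ j, ‖ψ j‖ ≤ (1/8 : ℝ) ^ j)
    (hx : ∀ j, x j ∈ S ∧ ‖x j‖ ≤ 1 ∧ s.g j * x j = x j)
    (hc : ∀ j, c j ∈ S ∧ ‖c j‖ ≤ 1 ∧ ∀ l, l ≠ j → s.U l * c j = 0 ∧ c j * s.V l = 0) :
    ∃ (m : Fin 3 → 𝔐) (φ : Fin 3 → F), (∀ k, m k ∈ S) ∧
      HasSum (fun j => B.D (x j) (B.L (s.U j) (E j)) +
        B.D (c j) (B.R (s.V j) (B.L (s.U j) (ψ j)))) (∑ k, B.D (m k) (φ k)) := by
  haveI : CompleteSpace 𝔐 := hcl.completeSpace_coe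
  exact PEnc_gen B hS s x c E ψ hE hψ hx hc

end Pool.Agent.MP_86f3ed.Ty
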