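import Pool.Agent.H.MP_86f3ed_an.Ty.PTree
import Pool.Agent.H.MP_86f3ed_an.Ty.PEnc
import Pool.Agent.H.MP_86f3ed_an.Pin.Main

open scoped InnerProductSpace Topology
open Filter ContinuousLinearMap

namespace Pool.Agent.MP_86f3ed.Ty

open Pin

variable {H : Type*} [NormedAddCommGroup H] [InnerProductSpace ℂ H] [CompleteSpace H]

/-- Commutators with elements of the bicommutant are controlled by finitely many commutators with
elements of the algebra.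

PROOF. Let `𝔐 = Com (Com 𝔄)`, `B = pbm 𝔐`, `S = SubA 𝔄`. Slots exist by `exists_slots 𝔄 hcl hPI'
hinf`, where `hinf` comes from `exists_infinite_spectrum 𝔄 hcl hv hv1 hv2` applied to an isometry
`v ∈ Com (Com 𝔄)` which is not unitary: take `v, w` from `hPI' 1 ..` (if `(1 : H →L[ℂ] H) ≠ 0`);
`v * star v = 1` is impossible since `star w * v = 0` (from `star v * w = 0` by taking adjoints)
would give `star w = star w * v * star v = 0`, so `1 = star w * w = 0`. If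
`(1 : H →L[ℂ] H) = 0` every operator is zero and `F = ∅, C = 0` works.
`B.Appr S` is `pappr hcl`; `IsClosed (S : Set 𝔐)`: `hcl.preimage continuous_subtype_val`;
`IsClosed (𝔐 : Set _)`: `isClosed_Com (Com 𝔄)`; completeness of `Pre H` is an instance.
Scale: let `b' = (1 + ‖b‖)⁻¹ • b`, `f = (1 + ‖ξ‖ * ‖η‖)⁻¹ • omP ξ η` (`norm_omP_le`). `ptree` gives
`B.D b' f` as the sum of a series and `pencode` with `E j = B.D (β j) (ψ j)`
(`‖E j‖ ≤ 2 * 1 * (1/8)^j` by `BM.norm_D_le`) says that the same series has the sum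
`∑ k, B.D (m k) (φ k)`, `k : Fin 3`. So `B.D b' f = ∑ k, B.D (m k) (φ k)`. Evaluate at `W`
(`inP_D`): `inP f (b' W - W b') = ∑ k, inP (φ k) (m_k W - W m_k)`, and `inP (omP ξ η) T =
⟪η, T ξ⟫`. Hence with `F = {m_0, m_1, m_2}` and
`C = (1 + ‖b‖) (1 + ‖ξ‖ ‖η‖) ∑ k, ‖φ k‖` we get the claim. -/
theorem comm_control {𝔄 : StarSubalgebra ℂ (H →L[ℂ] H)} (hcl : IsClosed (𝔄 : Set (H →L[ℂ] H)))
    (hPI' : PurelyInfinite (Com (Com 𝔄) : Set (H →L[ℂ] H))) {b : H →L[ℂ] H}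
    (hb : b ∈ Com (Com 𝔄)) (ξ η : H) :
    ∃ (F : Finset (H →L[ℂ] H)) (C : ℝ), 0 ≤ C ∧ (∀ g ∈ F, g ∈ 𝔄) ∧
      ∀ (W : H →L[ℂ] H) (ε : ℝ), (∀ g ∈ F, ‖g * W - W * g‖ ≤ ε) → 0 ≤ ε →
        ‖⟪η, (b * W - W * b) ξ⟫_ℂ‖ ≤ C * ε := by
  classical
  by_cases h1 : (1 : H →L[ℂ] H) = 0
  · have hz : ∀ S : H →L[ℂ] H, S = 0 := fun S => by rw [← mul_one S, h1, mul_zero]
    refine ⟨∅, 0, le_refl _, by simp, fun W ε _ _ => ?_⟩
    rw [hz (b * W - W * b)]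
    simp
  obtain ⟨v, hvM, w, hwM, hv, hw, hvw, _, _⟩ :=
    hPI' 1 (Com (Com 𝔄)).one_mem (star_one _) (mul_one _) h1
  have hv2 : v * star v ≠ 1 := by
    intro h2
    have h3 : w = 0 := by
      calc w = (v * star v) * w := by rw [h2, one_mul]
        _ = 0 := by rw [mul_assoc, hvw, mul_zero]
    rw [h3, mul_zero] at hw
    exact h1 hw.symm
  obtain ⟨s⟩ := exists_slots 𝔄 hcl hPI' (exists_infinite_spectrum 𝔄 hcl hvM hv hv2)
  have hSc : IsClosed (SubA 𝔄 : Set (Com (Com 𝔄))) := hcl.preimage continuous_subtype_val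
  have hone : ∀ f, (pbm (Com (Com 𝔄))).R 1 f = f := by
    intro f
    apply P_ext
    intro Z
    rw [inP_R, OneMemClass.coe_one, mul_one]
  have ht0 : 0 < 1 + ‖b‖ := by positivity
  have hu0 : 0 < 1 + ‖ξ‖ * ‖η‖ := by positivity
  set t : ℝ := (1 + ‖b‖)⁻¹ with ht
  set u : ℝ := (1 + ‖ξ‖ * ‖η‖)⁻¹ with hu
  have htp : 0 < t := inv_pos.mpr ht0
  have hup : 0 < u := inv_pos.mpr hu0
  set bb : Com (Com 𝔄) := ⟨b, hb⟩ with hbb
  set b' : Com (Com 𝔄) := ((t : ℝ) : ℂ) • bb with hb'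
  set f : Pre H := ((u : ℝ) : ℂ) • omP ξ η with hf
  have hb1 : ‖b'‖ ≤ 1 := by
    rw [hb', norm_smul, Complex.norm_real, Real.norm_of_nonneg htp.le]
    have : ‖bb‖ = ‖b‖ := rfl
    rw [this, ht, inv_mul_le_iff₀ ht0]
    linarith
  have hf1 : ‖f‖ ≤ 1 := by
    rw [hf, norm_smul, Complex.norm_real, Real.norm_of_nonneg hup.le, hu, inv_mul_le_iff₀ hu0]
    have := norm_omP_le ξ η
    linarith
  obtain ⟨β, x, c, ψ, hβ, hψ, hx, hc, hsum⟩ := ptree (isClosed_Com (Com 𝔄))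
    (pbm (Com (Com 𝔄))) hone (pappr hcl) s b' hb1 f hf1
  have hE : ∀ j, ‖(pbm (Com (Com 𝔄))).D (β j) (ψ j)‖ ≤ 2 * (1/8 : ℝ) ^ j := by
    intro j
    refine ((pbm (Com (Com 𝔄))).norm_D_le _ _).trans ?_
    have h2 : 2 * ‖β j‖ ≤ 2 := by linarith [hβ j]
    exact mul_le_mul h2 (hψ j) (norm_nonneg _) (by norm_num)
  obtain ⟨m, φ, hm, hsum'⟩ := pencode (isClosed_Com (Com 𝔄)) (pbm (Com (Com 𝔄))) hSc s x c
    (fun j => (pbm (Com (Com 𝔄))).D (β j) (ψ j)) ψ hE hψ hx hc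
  have heq : (pbm (Com (Com 𝔄))).D b' f = ∑ k, (pbm (Com (Com 𝔄))).D (m k) (φ k) :=
    hsum.unique hsum'
  refine ⟨Finset.univ.image fun k => (m k : H →L[ℂ] H),
    (1 + ‖b‖) * (1 + ‖ξ‖ * ‖η‖) * ∑ k, ‖φ k‖, by positivity, ?_, ?_⟩
  · intro g hg
    obtain ⟨k, _, rfl⟩ := Finset.mem_image.mp hg
    exact hm k
  intro W ε hW hε
  have e1 : inP ((pbm (Com (Com 𝔄))).D b' f) W =
      ((u : ℝ) : ℂ) * (((t : ℝ) : ℂ) * ⟪η, (b * W - W * b) ξ⟫_ℂ) := by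
    rw [inP_D]
    have e2 : ((b' : Com (Com 𝔄)) : H →L[ℂ] H) = ((t : ℝ) : ℂ) • b := rfl
    rw [e2, smul_mul_assoc, mul_smul_comm, ← smul_sub, map_smul, hf, map_smul, inP_omP,
      smul_apply, om_apply, smul_eq_mul, smul_eq_mul]
    ring
  have e3 : inP (∑ k, (pbm (Com (Com 𝔄))).D (m k) (φ k)) W =
      ∑ k, inP (φ k) ((m k : H →L[ℂ] H) * W - W * (m k : H →L[ℂ] H)) := by
    rw [map_sum, sum_apply]
    exact Finset.sum_congr rfl fun k _ => inP_D _ _ _ _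
  have e4 : ‖inP (∑ k, (pbm (Com (Com 𝔄))).D (m k) (φ k)) W‖ ≤ (∑ k, ‖φ k‖) * ε := by
    rw [e3, Finset.sum_mul]
    refine (norm_sum_le _ _).trans (Finset.sum_le_sum fun k _ => ?_)
    refine ((inP (φ k)).le_opNorm _).trans ?_
    rw [← norm_P]
    exact mul_le_mul_of_nonneg_left
      (hW _ (Finset.mem_image_of_mem _ (Finset.mem_univ k))) (norm_nonneg _)
  rw [← heq, e1, norm_mul, norm_mul, Complex.norm_real, Complex.norm_real,
    Real.norm_of_nonneg hup.le, Real.norm_of_nonneg htp.le] at e4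
  have e5 : ‖⟪η, (b * W - W * b) ξ⟫_ℂ‖ =
      (1 + ‖b‖) * (1 + ‖ξ‖ * ‖η‖) * (u * (t * ‖⟪η, (b * W - W * b) ξ⟫_ℂ‖)) := by
    rw [hu, ht]
    field_simp
  rw [e5, mul_assoc _ (∑ k, ‖φ k‖) ε]
  exact mul_le_mul_of_nonneg_left e4 (by positivity)

end Pool.Agent.MP_86f3ed.Ty
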