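import Mathlib

open scoped ComplexOrder Matrix

namespace Pool.Agent.MP_86f3ed.Ty

theorem PSm_diag {d : Type*} [Fintype d] [DecidableEq d] {A B : Matrix d d ℂ}
    (hA : A.PosSemidef) (hB : B.PosSemidef) (l : d → ℝ)
    (h : A - B = Matrix.diagonal (fun k => ((l k : ℝ) : ℂ))) :
    (Matrix.trace ((A - B) * (A - B))).re ≤
      (Matrix.trace ((A * A - B * B) *
        Matrix.diagonal (fun k => if 0 ≤ l k then (1 : ℂ) else -1))).re := by
  have hAe : A = B + Matrix.diagonal (fun k => ((l k : ℝ) : ℂ)) := by rw [← h]; abel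
  have h1 : A * A - B * B = B * Matrix.diagonal (fun k => ((l k : ℝ) : ℂ)) +
      Matrix.diagonal (fun k => ((l k : ℝ) : ℂ)) * B +
      Matrix.diagonal (fun k => ((l k : ℝ) : ℂ)) * Matrix.diagonal (fun k => ((l k : ℝ) : ℂ)) := by
    rw [hAe]; noncomm_ring
  rw [h1, h]
  simp only [Matrix.trace, Matrix.diag_apply, Complex.re_sum]
  refine Finset.sum_le_sum fun k _ => ?_
  simp only [Matrix.mul_diagonal, Matrix.add_apply, Matrix.diagonal_mul, Matrix.diagonal_mul_diagonal,
    Matrix.diagonal_apply_eq]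
  have hAk : 0 ≤ A k k := hA.diag_nonneg
  have hBk : 0 ≤ B k k := hB.diag_nonneg
  have hk : A k k = B k k + ((l k : ℝ) : ℂ) := by
    rw [hAe]; simp
  rw [Complex.le_def] at hAk hBk
  have hk' : (A k k).re = (B k k).re + l k := by rw [hk]; simp
  have h2 : 0 ≤ (A k k).re := by simpa using hAk.1
  have h3 : 0 ≤ (B k k).re := by simpa using hBk.1
  split_ifs with hs
  · simp only [Complex.mul_re, Complex.add_re, Complex.ofReal_re, Complex.ofReal_im, mul_zero,
      zero_mul, sub_zero, mul_one, Complex.add_im, Complex.mul_im, add_zero, zero_add]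
    nlinarith
  · simp only [Complex.mul_re, Complex.add_re, Complex.ofReal_re, Complex.ofReal_im, mul_zero,
      zero_mul, sub_zero, mul_one, Complex.add_im, Complex.mul_im, add_zero, zero_add, mul_neg,
      Complex.neg_re]
    push Not at hs
    nlinarith

/-- The inequality of Powers and Størmer for matrices, in the form of a test matrix.

PROOF. `C = A - B` is hermitian. By the spectral theorem (`Matrix.IsHermitian.spectral_theorem`, or
use the eigenvector basis directly) there are an orthonormal basis `e k` and real `l k` with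
`C e_k = l_k e_k`; let `Z` be the hermitian unitary with `Z e_k = e_k` if `0 ≤ l_k` and `Z e_k = -e_k`
otherwise (`Z = U * diagonal s * Uᴴ`, `s k = ±1`). `Z C = C Z` has `Z C e_k = |l_k| e_k`. Since
`A * A - B * B = (1/2) (C (A + B) + (A + B) C)` and the trace is cyclic,
`tr ((A² - B²) Z) = tr ((A + B) (Z C)) = ∑ |l_k| ⟨e_k, (A + B) e_k⟩`. As `A, B` are positive
semidefinite, `⟨e_k, (A+B) e_k⟩ ≥ |⟨e_k, (A - B) e_k⟩| = |l_k|`, so this is `≥ ∑ l_k² = tr (C * C)`.
(With `U = hC.eigenvectorUnitary`: conjugate everything by `U`: `A' = Uᴴ A U`, `B' = Uᴴ B U` are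
positive semidefinite with `A' - B' = diagonal l`, and the trace of a product with a diagonal matrix
is a sum over the diagonal entries, which are real and nonnegative for `A'`, `B'`.) -/
theorem ps_matrix {d : Type*} [Fintype d] [DecidableEq d] {A B : Matrix d d ℂ}
    (hA : A.PosSemidef) (hB : B.PosSemidef) :
    ∃ Z : Matrix d d ℂ, Zᴴ = Z ∧ Z * Z = 1 ∧
      (Matrix.trace ((A - B) * (A - B))).re ≤ (Matrix.trace ((A * A - B * B) * Z)).re := by
  have hC : (A - B).IsHermitian := hA.isHermitian.sub hB.isHermitian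
  obtain ⟨U, hU1, hU2, l, hl⟩ : ∃ U : Matrix d d ℂ, Uᴴ * U = 1 ∧ U * Uᴴ = 1 ∧ ∃ l : d → ℝ,
      A - B = U * Matrix.diagonal (fun k => ((l k : ℝ) : ℂ)) * Uᴴ := by
    refine ⟨hC.eigenvectorUnitary, ?_, ?_, hC.eigenvalues, ?_⟩
    · exact Unitary.coe_star_mul_self hC.eigenvectorUnitary
    · exact Unitary.coe_mul_star_self hC.eigenvectorUnitary
    · exact hC.spectral_theorem
  set S : Matrix d d ℂ := Matrix.diagonal (fun k => if 0 ≤ l k then (1 : ℂ) else -1) with hS
  have hSh : Sᴴ = S := by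
    rw [hS, Matrix.diagonal_conjTranspose]
    congr 1
    funext k
    simp only [Pi.star_apply]
    split_ifs <;> simp
  have hSS : S * S = 1 := by
    rw [hS, Matrix.diagonal_mul_diagonal, ← Matrix.diagonal_one]
    congr 1
    funext k
    split_ifs <;> simp
  refine ⟨U * S * Uᴴ, ?_, ?_, ?_⟩
  · rw [Matrix.conjTranspose_mul, Matrix.conjTranspose_mul, Matrix.conjTranspose_conjTranspose,
      hSh, Matrix.mul_assoc]
  · calc U * S * Uᴴ * (U * S * Uᴴ) = U * S * (Uᴴ * U) * S * Uᴴ := by noncomm_ring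
      _ = U * (S * S) * Uᴴ := by rw [hU1]; noncomm_ring
      _ = 1 := by rw [hSS, Matrix.mul_one, hU2]
  · have hA' := hA.conjTranspose_mul_mul_same U
    have hB' := hB.conjTranspose_mul_mul_same U
    have hd : Uᴴ * A * U - Uᴴ * B * U = Matrix.diagonal (fun k => ((l k : ℝ) : ℂ)) := by
      calc Uᴴ * A * U - Uᴴ * B * U = Uᴴ * (A - B) * U := by noncomm_ring
        _ = (Uᴴ * U) * Matrix.diagonal (fun k => ((l k : ℝ) : ℂ)) * (Uᴴ * U) := by
            rw [hl]; noncomm_ring
        _ = _ := by rw [hU1]; simp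
    have key := PSm_diag hA' hB' l hd
    have e1 : Matrix.trace ((Uᴴ * A * U - Uᴴ * B * U) * (Uᴴ * A * U - Uᴴ * B * U)) =
        Matrix.trace ((A - B) * (A - B)) := by
      have : (Uᴴ * A * U - Uᴴ * B * U) * (Uᴴ * A * U - Uᴴ * B * U) =
          Uᴴ * ((A - B) * (U * Uᴴ) * (A - B) * U) := by noncomm_ring
      rw [this, hU2, Matrix.mul_one, Matrix.trace_mul_comm]
      rw [Matrix.mul_assoc _ U, hU2, Matrix.mul_one]
    have e2 : Matrix.trace ((Uᴴ * A * U * (Uᴴ * A * U) - Uᴴ * B * U * (Uᴴ * B * U)) * S) =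
        Matrix.trace ((A * A - B * B) * (U * S * Uᴴ)) := by
      have : (Uᴴ * A * U * (Uᴴ * A * U) - Uᴴ * B * U * (Uᴴ * B * U)) * S =
          Uᴴ * ((A * (U * Uᴴ) * A - B * (U * Uᴴ) * B) * U * S) := by noncomm_ring
      rw [this, hU2, Matrix.mul_one, Matrix.mul_one, Matrix.trace_mul_comm]
      congr 1
      noncomm_ring
    rw [e1, ← hS, e2] at key
    exact key

end Pool.Agent.MP_86f3ed.Ty
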