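import Pool.Agent.H.MP_86f3ed_an.Ty.Ego

open scoped InnerProductSpace Topology
open Filter ContinuousLinearMap

namespace Pool.Agent.MP_86f3ed.Ty

open Pin

variable {H : Type*} [NormedAddCommGroup H] [InnerProductSpace ℂ H] [CompleteSpace H]

/-- One step: a commutator `D b φ` is processed with the slot `j`.

PROOF. Let `e = D b φ`, `U = s.U j`, `V = s.V j`, `g = s.g j`, `g' = s.g' j`.
By `BM.move` `e = D V (L U e) + R V (L U e)` and by `BM.transport`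
`R V (L U (D b φ)) = D (V * b * U) (R V (L U φ))`.
Put `f₁ = L U e`, `f₂ = R V (L U φ)`, `y = V * b * U`. Note `g * y = y`, `y * g = y`, `g' * V = V`,
norms of `V, U, y` at most one (this part is literally in the proof of `BM.stage` in `Pin/Enc.lean`,
copy it: hgy, hyg, hb, hx).
With `hA : B.Appr S` choose `x' ∈ S`, `‖x'‖ ≤ 1`, with `‖L (V - x') (L g' f₁)‖ ≤ δ` and
`‖R (V - x') f₁‖ ≤ δ`; put `x = g' * x'`; then `V - x = g' * (V - x')`, so `z₁ = V - x` has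
`‖L z₁ f₁‖ = ‖L (V-x') (L g' f₁)‖ ≤ δ`, `‖R z₁ f₁‖ = ‖R g' (R (V-x') f₁)‖ ≤ δ`, `‖z₁‖ ≤ 2`,
and `g * x = x` because `g * g' = g'`.
Choose `a' ∈ S`, `‖a'‖ ≤ 1`, with `‖L (y - a') (L g f₂)‖ ≤ δ`, `‖R (y - a') (R g f₂)‖ ≤ δ` and put
`c = g * a' * g`; then `y - c = g * (y - a') * g =: z₂` has `‖L z₂ f₂‖ ≤ δ`, `‖R z₂ f₂‖ ≤ δ`,
`‖z₂‖ ≤ 2`; for `l ≠ j`: `U_l * c = 0`, `c * V_l = 0` by `Slots.U_mul_g_ne`, `Slots.g_mul_V_ne`.
Hence `e = D x f₁ + D c f₂ + D z₁ f₁ + D z₂ f₂`, and `egorov` applied to `z₁, f₁` and to `z₂, f₂`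
gives three + three commutators (use `Fin.append` or `Fin.sum_univ_six`, or
`fun k : Fin 6 => if k < 3 ...`) with `‖b' k‖ ≤ 1` and
`‖φ' k‖ ≤ 2 δ / κ + κ * ‖f_i‖`; first choose `κ > 0` with `κ * (1 + ‖f₁‖ + ‖f₂‖) ≤ η / 2`
(for example `κ = η / (2 (1 + ‖f₁‖ + ‖f₂‖))`), then `δ = η κ / 4`. -/
theorem pstep {𝔐 : StarSubalgebra ℂ (H →L[ℂ] H)} (hcl : IsClosed (𝔐 : Set (H →L[ℂ] H)))
    {F : Type*} [NormedAddCommGroup F] [NormedSpace ℂ F] (B : BM 𝔐 F)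
    (hone : ∀ f, B.R 1 f = f) {S : Subalgebra ℂ 𝔐} (hA : B.Appr S) (s : BM.Slots S) (j : ℕ)
    (b : 𝔐) (hb : ‖b‖ ≤ 1) (φ : F) {η : ℝ} (hη : 0 < η) :
    ∃ (x c : 𝔐) (b' : Fin 6 → 𝔐) (φ' : Fin 6 → F),
      (x ∈ S ∧ ‖x‖ ≤ 1 ∧ s.g j * x = x) ∧
      (c ∈ S ∧ ‖c‖ ≤ 1 ∧ ∀ l, l ≠ j → s.U l * c = 0 ∧ c * s.V l = 0) ∧
      (∀ k, ‖b' k‖ ≤ 1 ∧ ‖φ' k‖ ≤ η) ∧
      B.D b φ = B.D x (B.L (s.U j) (B.D b φ)) + B.D c (B.R (s.V j) (B.L (s.U j) φ)) +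
        ∑ k, B.D (b' k) (φ' k) := by
  set e := B.D b φ with he
  set g := s.g j with hg
  set g' := s.g' j with hg'
  set U := s.U j with hU
  set V := s.V j with hV
  set f₁ : F := B.L U e with hf₁
  set f₂ : F := B.R V (B.L U φ) with hf₂
  set y : 𝔐 := V * b * U with hy
  have hN1 : 0 ≤ ‖f₁‖ := norm_nonneg _
  have hN2 : 0 ≤ ‖f₂‖ := norm_nonneg _
  have hT : 0 < 1 + ‖f₁‖ + ‖f₂‖ := by linarith
  set κ : ℝ := η / (2 * (1 + ‖f₁‖ + ‖f₂‖)) with hκdef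
  have hκ : 0 < κ := by positivity
  have hκT : κ * (1 + ‖f₁‖ + ‖f₂‖) = η / 2 := by
    rw [hκdef]; field_simp
  set δ : ℝ := η * κ / 4 with hδdef
  have hδ0 : 0 < δ := by positivity
  have hδκ : 2 * δ / κ = η / 2 := by
    rw [hδdef]; field_simp; norm_num
  have hκ1 : κ * ‖f₁‖ ≤ η / 2 := by
    rw [← hκT]
    exact mul_le_mul_of_nonneg_left (by linarith) hκ.le
  have hκ2 : κ * ‖f₂‖ ≤ η / 2 := by
    rw [← hκT]
    exact mul_le_mul_of_nonneg_left (by linarith) hκ.le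
  have hyn : ‖y‖ ≤ 1 := by
    refine (norm_mul_le _ _).trans ?_
    have h1 : ‖V * b‖ ≤ 1 := (norm_mul_le _ _).trans
      (mul_le_one₀ (s.norm_V j) (norm_nonneg _) hb)
    exact mul_le_one₀ h1 (norm_nonneg _) (s.norm_U j)
  have hgy : g * y = y := by
    show g * (V * b * U) = V * b * U
    rw [← mul_assoc, ← mul_assoc, s.g_mul_V]
  have hyg : y * g = y := by
    show (V * b * U) * g = V * b * U
    rw [mul_assoc, s.U_mul_g]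
  obtain ⟨a', ha'S, ha'n, ha'L, ha'R⟩ := hA y hyn (B.L g f₂) (B.R g f₂) δ hδ0
  obtain ⟨x', hx'S, hx'n, hx'L, hx'R⟩ := hA V (s.norm_V j) (B.L g' f₁) f₁ δ hδ0
  have hg1 : ‖g‖ ≤ 1 := s.norm_g j
  have hg'1 : ‖g'‖ ≤ 1 := s.norm_g' j
  have hbd : ∀ (z : 𝔐) (f : F), ‖z‖ ≤ 1 → ‖f‖ ≤ δ → ‖B.L z f‖ ≤ δ := fun z f hz hf =>
    (B.norm_L z f).trans (by nlinarith [norm_nonneg f, norm_nonneg z])
  have hbd' : ∀ (z : 𝔐) (f : F), ‖z‖ ≤ 1 → ‖f‖ ≤ δ → ‖B.R z f‖ ≤ δ := fun z f hz hf =>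
    (B.norm_R z f).trans (by nlinarith [norm_nonneg f, norm_nonneg z])
  have hgg : g * g' = g' := s.gg' j
  have hnorm3 : ∀ z : 𝔐, ‖z‖ ≤ 1 → ‖g * z * g‖ ≤ 1 := fun z hz =>
    (norm_mul_le _ _).trans (mul_le_one₀ ((norm_mul_le _ _).trans
      (mul_le_one₀ hg1 (norm_nonneg _) hz)) (norm_nonneg _) hg1)
  -- the two small elements
  have e1 : V - g' * x' = g' * (V - x') := by
    rw [mul_sub, s.g'V]
  have e2 : y - g * a' * g = g * (y - a') * g := by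
    rw [mul_sub, sub_mul, hgy, hyg]
  have hVn : ‖V‖ ≤ 1 := s.norm_V j
  have hz1n : ‖V - g' * x'‖ ≤ 2 := by
    refine (norm_sub_le _ _).trans ?_
    have h1 : ‖g' * x'‖ ≤ 1 := (norm_mul_le _ _).trans (mul_le_one₀ hg'1 (norm_nonneg _) hx'n)
    linarith
  have hz2n : ‖y - g * a' * g‖ ≤ 2 := by
    refine (norm_sub_le _ _).trans ?_
    have h1 := hnorm3 a' ha'n
    linarith
  have hz1L : ‖B.L (V - g' * x') f₁‖ ≤ δ := by
    rw [e1, B.L_mul]; exact hx'L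
  have hz1R : ‖B.R (V - g' * x') f₁‖ ≤ δ := by
    rw [e1, B.R_mul]; exact hbd' _ _ hg'1 hx'R
  have hz2L : ‖B.L (y - g * a' * g) f₂‖ ≤ δ := by
    rw [e2, mul_assoc, B.L_mul, B.L_mul]
    exact hbd _ _ hg1 ha'L
  have hz2R : ‖B.R (y - g * a' * g) f₂‖ ≤ δ := by
    rw [e2, mul_assoc, B.R_mul, B.R_mul]
    exact hbd' _ _ hg1 ha'R
  obtain ⟨b₁, φ₁, hb₁, hφ₁, hs₁⟩ := egorov hcl B hone (V - g' * x') hz1n f₁ hκ hz1L hz1R
  obtain ⟨b₂, φ₂, hb₂, hφ₂, hs₂⟩ := egorov hcl B hone (y - g * a' * g) hz2n f₂ hκ hz2L hz2R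
  refine ⟨g' * x', g * a' * g, (Fin.append b₁ b₂ : Fin (3 + 3) → 𝔐),
    (Fin.append φ₁ φ₂ : Fin (3 + 3) → F), ?_, ?_, ?_, ?_⟩
  · refine ⟨S.mul_mem (s.g'_mem j) hx'S, (norm_mul_le _ _).trans
      (mul_le_one₀ hg'1 (norm_nonneg _) hx'n), ?_⟩
    rw [← mul_assoc, hgg]
  · refine ⟨S.mul_mem (S.mul_mem (s.g_mem j) ha'S) (s.g_mem j), hnorm3 _ ha'n, ?_⟩
    intro l hl
    constructor
    · rw [← mul_assoc, ← mul_assoc, s.U_mul_g_ne hl, zero_mul, zero_mul]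
    · rw [mul_assoc, s.g_mul_V_ne hl.symm, mul_zero]
  · intro k
    refine Fin.addCases (m := 3) (n := 3) (fun i => ?_) (fun i => ?_) k
    · rw [Fin.append_left, Fin.append_left]
      refine ⟨hb₁ i, (hφ₁ i).trans ?_⟩
      rw [hδκ]; linarith
    · rw [Fin.append_right, Fin.append_right]
      refine ⟨hb₂ i, (hφ₂ i).trans ?_⟩
      rw [hδκ]; linarith
  · have h1 : e = B.D V f₁ + B.R V f₁ := BM.move s j e
    have h2 : B.R V f₁ = B.D y f₂ := BM.transport s j b φ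
    have h3 : (∑ k : Fin (3 + 3), B.D (Fin.append b₁ b₂ k) (Fin.append φ₁ φ₂ k)) =
        B.D (V - g' * x') f₁ + B.D (y - g * a' * g) f₂ := by
      rw [Fin.sum_univ_add, hs₁, hs₂]
      simp only [Fin.append_left, Fin.append_right]
    have h4 : B.D (V - g' * x') f₁ = B.D V f₁ - B.D (g' * x') f₁ := by
      rw [map_sub, sub_apply]
    have h5 : B.D (y - g * a' * g) f₂ = B.D y f₂ - B.D (g * a' * g) f₂ := by
      rw [map_sub, sub_apply]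
    calc e = B.D V f₁ + B.D y f₂ := by rw [← h2]; exact h1
      _ = B.D (g' * x') f₁ + B.D (g * a' * g) f₂ +
          (B.D (V - g' * x') f₁ + B.D (y - g * a' * g) f₂) := by
          rw [h4, h5]; abel
      _ = B.D (g' * x') f₁ + B.D (g * a' * g) f₂ +
          ∑ k : Fin (3 + 3), B.D (Fin.append b₁ b₂ k) (Fin.append φ₁ φ₂ k) := by rw [h3]

end Pool.Agent.MP_86f3ed.Ty
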