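import Pool.Agent.H.MP_86f3ed_an.Ty.PStep

open scoped InnerProductSpace Topology
open Filter ContinuousLinearMap

namespace Pool.Agent.MP_86f3ed.Ty

open Pin

variable {H : Type*} [NormedAddCommGroup H] [InnerProductSpace ℂ H] [CompleteSpace H]

/-- A sequence of atoms indexed by the tree `n ↦ 6 n + 1 + k`. -/
noncomputable def ptreeSeq {A : Type*} (a : A) (ch : ℕ → A → Fin 6 → A) : ℕ → A
  | 0 => a
  | n + 1 => ch (n / 6) (ptreeSeq a ch (n / 6)) ⟨n % 6, Nat.mod_lt _ (by norm_num)⟩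
decreasing_by exact Nat.lt_succ_of_le (Nat.div_le_self _ _)

theorem ptreeSeq_zero {A : Type*} (a : A) (ch : ℕ → A → Fin 6 → A) : ptreeSeq a ch 0 = a := by
  rw [ptreeSeq]

theorem ptreeSeq_child {A : Type*} (a : A) (ch : ℕ → A → Fin 6 → A) (j : ℕ) (k : Fin 6) :
    ptreeSeq a ch (6 * j + 1 + k) = ch j (ptreeSeq a ch j) k := by
  have h : 6 * j + 1 + (k : ℕ) = (6 * j + k) + 1 := by ring
  rw [h, ptreeSeq]
  have hk := k.2
  have h1 : (6 * j + (k : ℕ)) / 6 = j := by omega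
  have h2 : (6 * j + (k : ℕ)) % 6 = k := by omega
  congr 1
  · rw [h1]
  · exact Fin.ext h2

theorem ptreeSum {E : Type*} [NormedAddCommGroup E] (S D : ℕ → E)
    (h : ∀ j, D j = S j + ∑ k : Fin 6, D (6 * j + 1 + k)) (J : ℕ) :
    D 0 = ∑ j ∈ Finset.range J, S j + ∑ n ∈ Finset.Ico J (6 * J + 1), D n := by
  induction J with
  | zero => simp
  | succ J ih =>
    rw [ih, Finset.sum_range_succ, Finset.sum_eq_sum_Ico_succ_bot (by omega : J < 6 * J + 1),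
      h J, ← Finset.sum_Ico_consecutive _ (by omega : J + 1 ≤ 6 * J + 1)
        (by omega : 6 * J + 1 ≤ 6 * (J + 1) + 1), Finset.sum_Ico_eq_sum_range _ (6 * J + 1)]
    have e : 6 * (J + 1) + 1 - (6 * J + 1) = 6 := by omega
    rw [e, Finset.sum_range (fun x => D (6 * J + 1 + x))]
    abel

/-- The tree of commutators: `D b φ` is an infinite sum of commutators in the slots.

PROOF. For every atom `(b, φ)` with `‖b‖ ≤ 1`, every `j` and every `η > 0` `pstep` gives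
`x, c, b', φ'`. Use `choose` on `pstep` (arguments `j`, an element of the subtype
`{b : 𝔐 // ‖b‖ ≤ 1}`, `φ`, and `η = (1/8)^(6 j + 6)`) to get functions. Define a sequence of atoms
`at : ℕ → {b : 𝔐 // ‖b‖ ≤ 1} × F` by strong recursion (`Nat.strongRec`, or better the following
trick which avoids strong recursion: define `L : ℕ → (ℕ → {b : 𝔐 // ‖b‖ ≤ 1} × F)` by ordinary
recursion: `L 0 = fun _ => (⟨b,_⟩, φ)`, and `L (j+1)` is `L j` except that at the six indices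
`6 j + 1 + k`, `k < 6`, it takes the values `(b' k, φ' k)` which `pstep` with slot `j` and
`η = (1/8)^(6 j + 6)` gives for the atom `L j j`. The index `n` is changed only at stage
`j = (n-1)/6` and `n > j`, so `L J n = L n n` for all `J ≥ n`; put `at n = L n n`.)
Then `‖(at n).2‖ ≤ (1/8)^n` for all `n` (for `n = 6 j + 1 + k` we have
`(1/8)^(6j+6) ≤ (1/8)^n`; for `n = 0` it is `hφ`).
Let `S_j` be the summand in the statement. `pstep` says
`D (at j) = S_j + ∑_{k<6} D (at (6 j + 1 + k))` where `D (at n) := B.D (at n).1 (at n).2`.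
By induction on `J`: `B.D b φ = ∑_{j<J} S_j + ∑_{n ∈ Ico J (6 J + 1)} D (at n)` (for `J = 0` the
interval is `{0}`; step: split off `n = J`, and the six new indices are exactly
`Ico (6 J + 1) (6 J + 7)`). The second sum has norm at most
`∑_{n ≥ J} 2 (1/8)^n ≤ 3 (1/8)^J → 0`, and `S_j` is summable in norm because
`‖S_j‖ ≤ 2 * (2 * (1/8)^j) + 2 * (1/8)^j` (`BM.norm_D_le`, `norm_L`, `norm_R`, norms of `U_j, V_j`
at most 1). Hence `HasSum` (use `Summable.hasSum_iff_tendsto_nat` or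
`hasSum_iff_tendsto_nat_of_summable_norm`). -/
theorem ptree {𝔐 : StarSubalgebra ℂ (H →L[ℂ] H)} (hcl : IsClosed (𝔐 : Set (H →L[ℂ] H)))
    {F : Type*} [NormedAddCommGroup F] [NormedSpace ℂ F] [CompleteSpace F] (B : BM 𝔐 F)
    (hone : ∀ f, B.R 1 f = f) {S : Subalgebra ℂ 𝔐} (hA : B.Appr S) (s : BM.Slots S)
    (b : 𝔐) (hb : ‖b‖ ≤ 1) (φ : F) (hφ : ‖φ‖ ≤ 1) :
    ∃ (β x c : ℕ → 𝔐) (ψ : ℕ → F),
      (∀ j, ‖β j‖ ≤ 1) ∧ (∀ j, ‖ψ j‖ ≤ (1/8 : ℝ) ^ j) ∧
      (∀ j, x j ∈ S ∧ ‖x j‖ ≤ 1 ∧ s.g j * x j = x j) ∧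
      (∀ j, c j ∈ S ∧ ‖c j‖ ≤ 1 ∧ ∀ l, l ≠ j → s.U l * c j = 0 ∧ c j * s.V l = 0) ∧
      HasSum (fun j => B.D (x j) (B.L (s.U j) (B.D (β j) (ψ j))) +
        B.D (c j) (B.R (s.V j) (B.L (s.U j) (ψ j)))) (B.D b φ) := by
  have hch : ∀ (j : ℕ) (a : {b : 𝔐 // ‖b‖ ≤ 1} × F), ∃ (x c : 𝔐) (b' : Fin 6 → 𝔐) (φ' : Fin 6 → F),
      (x ∈ S ∧ ‖x‖ ≤ 1 ∧ s.g j * x = x) ∧
      (c ∈ S ∧ ‖c‖ ≤ 1 ∧ ∀ l, l ≠ j → s.U l * c = 0 ∧ c * s.V l = 0) ∧
      (∀ k, ‖b' k‖ ≤ 1 ∧ ‖φ' k‖ ≤ (1/8 : ℝ) ^ (6 * j + 6)) ∧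
      B.D a.1 a.2 = B.D x (B.L (s.U j) (B.D a.1 a.2)) + B.D c (B.R (s.V j) (B.L (s.U j) a.2)) +
        ∑ k, B.D (b' k) (φ' k) := fun j a =>
    pstep hcl B hone hA s j a.1 a.1.2 a.2 (by positivity)
  choose X C b' φ' hX hC hb' hD using hch
  set ch : ℕ → {b : 𝔐 // ‖b‖ ≤ 1} × F → Fin 6 → {b : 𝔐 // ‖b‖ ≤ 1} × F :=
    fun j a k => (⟨b' j a k, (hb' j a k).1⟩, φ' j a k) with hchdef
  set at' : ℕ → {b : 𝔐 // ‖b‖ ≤ 1} × F := ptreeSeq (⟨b, hb⟩, φ) ch with hat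
  have hat0 : at' 0 = (⟨b, hb⟩, φ) := ptreeSeq_zero _ _
  have hatc : ∀ (j : ℕ) (k : Fin 6), at' (6 * j + 1 + k) = ch j (at' j) k := ptreeSeq_child _ _
  have hsm : ∀ n, ‖(at' n).2‖ ≤ (1/8 : ℝ) ^ n := by
    intro n
    rcases n with _ | n
    · rw [hat0]; simpa using hφ
    · have h1 : n + 1 = 6 * (n / 6) + 1 + ((⟨n % 6, Nat.mod_lt _ (by norm_num)⟩ : Fin 6) : ℕ) := by
        show n + 1 = 6 * (n / 6) + 1 + n % 6
        omega
      rw [h1, hatc, ← h1]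
      refine ((hb' _ _ _).2).trans ?_
      exact pow_le_pow_of_le_one (by norm_num) (by norm_num) (by omega)
  set SS : ℕ → F := fun j => B.D (X j (at' j)) (B.L (s.U j) (B.D (at' j).1 (at' j).2)) +
        B.D (C j (at' j)) (B.R (s.V j) (B.L (s.U j) (at' j).2)) with hSS
  set DD : ℕ → F := fun n => B.D (at' n).1 (at' n).2 with hDD
  have hrec : ∀ j, DD j = SS j + ∑ k : Fin 6, DD (6 * j + 1 + k) := by
    intro j
    have h1 : ∀ k : Fin 6, DD (6 * j + 1 + k) = B.D (b' j (at' j) k) (φ' j (at' j) k) := by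
      intro k
      show B.D (at' (6 * j + 1 + k)).1 (at' (6 * j + 1 + k)).2 = _
      rw [hatc]
    rw [Finset.sum_congr rfl fun k _ => h1 k]
    exact hD j (at' j)
  have hD0 : DD 0 = B.D b φ := by
    show B.D (at' 0).1 (at' 0).2 = _
    rw [hat0]
  have hDn : ∀ n, ‖DD n‖ ≤ 2 * (1/8 : ℝ) ^ n := by
    intro n
    refine (B.norm_D_le _ _).trans ?_
    have h1 : ‖((at' n).1 : 𝔐)‖ ≤ 1 := (at' n).1.2
    have h2 := hsm n
    calc 2 * ‖((at' n).1 : 𝔐)‖ * ‖(at' n).2‖ ≤ 2 * 1 * (1/8 : ℝ) ^ n := by gcongr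
      _ = _ := by ring
  have hU : ∀ j (f : F), ‖B.L (s.U j) f‖ ≤ ‖f‖ := fun j f =>
    (B.norm_L _ _).trans (mul_le_of_le_one_left (norm_nonneg _) (s.norm_U j))
  have hV : ∀ j (f : F), ‖B.R (s.V j) f‖ ≤ ‖f‖ := fun j f =>
    (B.norm_R _ _).trans (mul_le_of_le_one_left (norm_nonneg _) (s.norm_V j))
  have hSn : ∀ n, ‖SS n‖ ≤ 6 * (1/8 : ℝ) ^ n := by
    intro n
    have h1 : ‖B.D (X n (at' n)) (B.L (s.U n) (DD n))‖ ≤ 2 * 1 * (2 * (1/8 : ℝ) ^ n) :=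
      (B.norm_D_le _ _).trans (by
        have := (hX n (at' n)).2.1
        have := (hU n (DD n)).trans (hDn n)
        gcongr)
    have h2 : ‖B.D (C n (at' n)) (B.R (s.V n) (B.L (s.U n) (at' n).2))‖ ≤
        2 * 1 * (1/8 : ℝ) ^ n :=
      (B.norm_D_le _ _).trans (by
        have := (hC n (at' n)).2.1
        have := ((hV n (B.L (s.U n) (at' n).2)).trans (hU n _)).trans (hsm n)
        gcongr)
    refine (norm_add_le _ _).trans ?_
    linarith
  have hgeo : Summable fun n : ℕ => 6 * (1/8 : ℝ) ^ n :=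
    (summable_geometric_of_lt_one (by norm_num) (by norm_num)).mul_left 6
  have hsum : Summable fun n => ‖SS n‖ :=
    Summable.of_nonneg_of_le (fun _ => norm_nonneg _) hSn hgeo
  refine ⟨fun j => (at' j).1, fun j => X j (at' j), fun j => C j (at' j), fun j => (at' j).2,
    fun j => (at' j).1.2, hsm, fun j => hX j (at' j), fun j => hC j (at' j), ?_⟩
  rw [hasSum_iff_tendsto_nat_of_summable_norm hsum, ← hD0]
  have htail : Tendsto (fun J => ∑ n ∈ Finset.Ico J (6 * J + 1), DD n) atTop (𝓝 0) := by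
    refine squeeze_zero_norm (a := fun J : ℕ => 2 * ((1/8 : ℝ) ^ J / (1 - 1/8))) ?_ ?_
    · intro J
      refine (norm_sum_le _ _).trans ?_
      refine (Finset.sum_le_sum fun n _ => hDn n).trans ?_
      rw [← Finset.mul_sum]
      exact mul_le_mul_of_nonneg_left (geom_sum_Ico_le_of_lt_one (by norm_num) (by norm_num))
        (by norm_num)
    · have h1 : Tendsto (fun J : ℕ => (1/8 : ℝ) ^ J) atTop (𝓝 0) :=
        tendsto_pow_atTop_nhds_zero_of_lt_one (by norm_num) (by norm_num)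
      have h2 := (h1.div_const (1 - 1/8)).const_mul 2
      simpa using h2
  have heq : ∀ J, ∑ j ∈ Finset.range J, SS j =
      DD 0 - ∑ n ∈ Finset.Ico J (6 * J + 1), DD n := by
    intro J
    rw [ptreeSum SS DD hrec J]
    abel
  have h3 : Tendsto (fun J => DD 0 - ∑ n ∈ Finset.Ico J (6 * J + 1), DD n) atTop (𝓝 (DD 0)) := by
    simpa using htail.const_sub (DD 0)
  exact h3.congr fun J => (heq J).symm

end Pool.Agent.MP_86f3ed.Ty
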