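import Pool.Agent.H.MP_86f3ed_an.Ty.Mass
import Pool.Agent.H.MP_86f3ed_an.Ty.Fid

open scoped InnerProductSpace Topology
open Filter ContinuousLinearMap

namespace Pool.Agent.MP_86f3ed.Ty

open Pin

variable {H : Type*} [NormedAddCommGroup H] [InnerProductSpace ℂ H] [CompleteSpace H]

theorem Pol_norm_le_one {e : H →L[ℂ] H} (hs : star e = e) (he : e * e = e) : ‖e‖ ≤ 1 := by
  have h1 : ‖e‖ = ‖e‖ * ‖e‖ := by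
    have h2 := CStarRing.norm_star_mul_self (x := e)
    rwa [hs, he] at h2
  by_contra h
  push Not at h
  nlinarith [norm_nonneg e]

theorem Pol_norm_conj {e : H →L[ℂ] H} (hs : star e = e) (he : e * e = e) (Z : H →L[ℂ] H) :
    ‖e * Z * e‖ ≤ ‖Z‖ := by
  have h1 := Pol_norm_le_one hs he
  calc ‖e * Z * e‖ ≤ ‖e * Z‖ * ‖e‖ := norm_mul_le _ _
    _ ≤ ‖e * Z‖ * 1 := mul_le_mul_of_nonneg_left h1 (norm_nonneg _)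
    _ = ‖e * Z‖ := mul_one _
    _ ≤ ‖e‖ * ‖Z‖ := norm_mul_le _ _
    _ ≤ 1 * ‖Z‖ := mul_le_mul_of_nonneg_right h1 (norm_nonneg _)
    _ = ‖Z‖ := one_mul _

theorem Pol_vf_smul {n : ℕ} (r : ℝ) (v : KK H n) (Z : H →L[ℂ] H) :
    vf ((r : ℂ) • v) Z = ((r ^ 2 : ℝ) : ℂ) * vf v Z := by
  rw [vf, vf, map_smul, inner_smul_left, inner_smul_right, Complex.conj_ofReal]
  push_cast
  ring

theorem Pol_vf_conj {n : ℕ} {e : H →L[ℂ] H} (hs : star e = e) (v : KK H n) (a Z : H →L[ℂ] H) :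
    vf v (star a * (e * Z * e) * a) = vf (am H n (e * a) v) Z := by
  rw [← vf_conj, star_mul, hs]
  simp only [mul_assoc]

theorem Pol_vf_corner {n : ℕ} {e : H →L[ℂ] H} (hs : star e = e) (v : KK H n) (Z : H →L[ℂ] H) :
    vf v (e * Z * e) = vf (am H n e v) Z := by
  rw [← vf_conj, hs]

theorem Pol_vf_zero {n : ℕ} (Z : H →L[ℂ] H) : vf (0 : KK H n) Z = 0 := by
  rw [vf, inner_zero_left]

theorem Pol_sq_add {n : ℕ} (a b : KK H n) : ‖a + b‖ ^ 2 ≤ 2 * ‖a‖ ^ 2 + 2 * ‖b‖ ^ 2 := by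
  have h1 : ‖a + b‖ ≤ ‖a‖ + ‖b‖ := norm_add_le _ _
  have h2 : ‖a + b‖ ^ 2 ≤ (‖a‖ + ‖b‖) ^ 2 := pow_le_pow_left₀ (norm_nonneg _) h1 2
  nlinarith [sq_nonneg (‖a‖ - ‖b‖)]

/-- The intertwiners for the channel `y`.

PROOF. Fix `j`. Put `X = am (e₀ * y j) κ₁`, `ρ = √(1/p) • κ₀`. For every `Z` apply `D.h1 j` to
`e₀ * Z * e₀` (norm at most `‖Z‖`): `vf κ₁ (star (y j) * (e₀ Z e₀) * y j) = vf X Z` (`vf_conj` with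
`a = e₀ * y j`, `star e₀ = e₀`), `vf lam₁ (..) = vf (am (e₀ y_j) lam₁) Z` with absolute value at most
`‖am (e₀ y_j) lam₁‖^2 ‖Z‖ ≤ (p+1) δ ‖Z‖` (`norm_vf_le`, `mass`; every summand of `mass` is
nonnegative), `vf κ₀ (e₀ Z e₀) = vf (am e₀ κ₀) Z = vf κ₀ Z`, `vf lam₀ (e₀ Z e₀) = 0`, and
`(1/p) vf κ₀ Z = vf ρ Z`. Hence `‖vf X Z - vf ρ Z‖ ≤ ((p+1) δ + δ) ‖Z‖ = (p+2) δ ‖Z‖`. `fidelity`
with the family of one vector (`Fin 1`) gives `V` with `IsR V`, `‖V ξ‖ ≤ ‖ξ‖`,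
`‖X - V ρ‖^2 ≤ 2 (p+2) δ`. Finally `am (y j) κ₁ = X + am ((1-e₀) y_j) κ₁` and
`‖a + b‖^2 ≤ 2 ‖a‖^2 + 2 ‖b‖^2`: `‖am (y j) κ₁ - V ρ‖^2 ≤ 4 (p+2) δ + 2 (p+1) δ ≤ 6 (p+2) δ`. -/
theorem exists_V {n p : ℕ} (hp : 0 < p) {y u' : Fin p → H →L[ℂ] H} {δ : ℝ} (hδ : 0 < δ)
    (hy : ∑ j, star (y j) * y j = 1) (hu' : ∀ j, star (u' j) * u' j = 1)
    (D : Rig H n p y u' δ) (j : Fin p) :
    ∃ V : KK H n →L[ℂ] KK H n, IsR V ∧ (∀ ξ, ‖V ξ‖ ≤ ‖ξ‖) ∧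
      ‖am H n (y j) D.κ₁ - V (((√(1 / p) : ℝ) : ℂ) • D.κ₀)‖ ^ 2 ≤ 6 * (p + 2) * δ := by
  have hpR : (0 : ℝ) < (p : ℝ) := by exact_mod_cast hp
  have hm := mass hp hδ.le hy hu' D
  have hn1 : ∀ i, 0 ≤ ‖am H n ((1 - D.e₀) * y i) D.κ₁‖ ^ 2 := fun i => sq_nonneg _
  have hn2 : ∀ i, 0 ≤ ‖am H n (D.e₀ * y i) D.lam₁‖ ^ 2 := fun i => sq_nonneg _
  have hn3 : 0 ≤ ∑ i, (1 / p : ℝ) * ‖am H n ((1 - D.e₁) * u' i) D.κ₀‖ ^ 2 :=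
    Finset.sum_nonneg fun i _ => by positivity
  have hn4 : 0 ≤ ∑ i, (1 / p : ℝ) * ‖am H n (D.e₁ * u' i) D.lam₀‖ ^ 2 :=
    Finset.sum_nonneg fun i _ => by positivity
  have hs1 := Finset.sum_nonneg fun i (_ : i ∈ Finset.univ) => hn1 i
  have hs2 := Finset.sum_nonneg fun i (_ : i ∈ Finset.univ) => hn2 i
  have hl1 := Finset.single_le_sum (fun i _ => hn1 i) (Finset.mem_univ j)
  have hl2 := Finset.single_le_sum (fun i _ => hn2 i) (Finset.mem_univ j)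
  have hb1 : ‖am H n ((1 - D.e₀) * y j) D.κ₁‖ ^ 2 ≤ (p + 1) * δ := by linarith
  have hb2 : ‖am H n (D.e₀ * y j) D.lam₁‖ ^ 2 ≤ (p + 1) * δ := by linarith
  have hr : (√(1 / (p : ℝ))) ^ 2 = 1 / (p : ℝ) := Real.sq_sqrt (by positivity)
  set X : KK H n := am H n (D.e₀ * y j) D.κ₁ with hX
  set ρ : KK H n := ((√(1 / p) : ℝ) : ℂ) • D.κ₀ with hρ
  obtain ⟨V, hV, hVn, hVs⟩ := fidelity (fun _ : Fin 1 => X) ρ (δ := (p + 2) * δ) (by positivity) (by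
    intro Z
    rw [Fin.sum_univ_one]
    have h1 := D.h1 j (D.e₀ * Z * D.e₀)
    rw [Pol_vf_conj D.e₀_star, Pol_vf_conj D.e₀_star, Pol_vf_corner D.e₀_star,
      Pol_vf_corner D.e₀_star, D.e₀κ, D.e₀lam, Pol_vf_zero, sub_zero] at h1
    have h2 : vf ρ Z = ((1 / p : ℝ) : ℂ) * vf D.κ₀ Z := by
      rw [hρ, Pol_vf_smul, hr]
    rw [← h2, ← hX] at h1
    have h3 := norm_vf_le (am H n (D.e₀ * y j) D.lam₁) Z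
    have h4 : vf X Z - vf ρ Z = (vf X Z - vf (am H n (D.e₀ * y j) D.lam₁) Z - vf ρ Z) +
        vf (am H n (D.e₀ * y j) D.lam₁) Z := by ring
    rw [h4]
    have h5 := mul_le_mul_of_nonneg_left (Pol_norm_conj D.e₀_star D.e₀_idem Z) hδ.le
    have h6 := mul_le_mul_of_nonneg_right hb2 (norm_nonneg Z)
    calc _ ≤ ‖vf X Z - vf (am H n (D.e₀ * y j) D.lam₁) Z - vf ρ Z‖ +
          ‖vf (am H n (D.e₀ * y j) D.lam₁) Z‖ := norm_add_le _ _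
      _ ≤ δ * ‖Z‖ + (p + 1) * δ * ‖Z‖ := add_le_add (h1.trans h5) (h3.trans h6)
      _ = (p + 2) * δ * ‖Z‖ := by ring)
  refine ⟨V 0, hV 0, fun ξ => ?_, ?_⟩
  · have h1 := hVn ξ
    rw [Fin.sum_univ_one] at h1
    exact (sq_le_sq₀ (norm_nonneg _) (norm_nonneg _)).mp h1
  · rw [Fin.sum_univ_one] at hVs
    have h1 : am H n (y j) D.κ₁ - V 0 ρ = (X - V 0 ρ) + am H n ((1 - D.e₀) * y j) D.κ₁ := by
      have h2 : am H n (y j) D.κ₁ = X + am H n ((1 - D.e₀) * y j) D.κ₁ := by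
        rw [hX, ← add_apply, ← map_add, ← add_mul, add_sub_cancel, one_mul]
      rw [h2]
      abel
    rw [h1]
    have h3 := Pol_sq_add (X - V 0 ρ) (am H n ((1 - D.e₀) * y j) D.κ₁)
    nlinarith

/-- The intertwiners for the channel `u'`.

PROOF. Put `X j = √(1/p) • am (e₁ * u' j) κ₀`, `ρ = κ₁`. For every `Z` apply `D.h2` to
`e₁ * Z * e₁`: `vf κ₁ (e₁ Z e₁) = vf κ₁ Z`, `vf lam₁ (e₁ Z e₁) = 0`,
`(1/p) vf κ₀ (star (u' j) * (e₁ Z e₁) * u' j) = vf (X j) Z`, and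
`∑ (1/p) |vf lam₀ (..)| ≤ ∑ (1/p) ‖am (e₁ u'_j) lam₀‖^2 ‖Z‖ ≤ (p+1) δ ‖Z‖` by `mass`. So
`‖∑ j, vf (X j) Z - vf ρ Z‖ ≤ (p+2) δ ‖Z‖` and `fidelity` gives `R j`. As before
`∑_j ‖√(1/p) • am (u' j) κ₀ - R j κ₁‖^2 ≤ 2 ∑_j (1/p) ‖am ((1-e₁) u'_j) κ₀‖^2 +
2 ∑_j ‖X j - R j ρ‖^2 ≤ 2 (p+1) δ + 4 (p+2) δ ≤ 6 (p+2) δ`. -/
theorem exists_R {n p : ℕ} (hp : 0 < p) {y u' : Fin p → H →L[ℂ] H} {δ : ℝ} (hδ : 0 < δ)
    (hy : ∑ j, star (y j) * y j = 1) (hu' : ∀ j, star (u' j) * u' j = 1)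
    (D : Rig H n p y u' δ) :
    ∃ R : Fin p → (KK H n →L[ℂ] KK H n), (∀ j, IsR (R j)) ∧ (∀ ξ, ∑ j, ‖R j ξ‖ ^ 2 ≤ ‖ξ‖ ^ 2) ∧
      ∑ j, ‖((√(1 / p) : ℝ) : ℂ) • am H n (u' j) D.κ₀ - R j D.κ₁‖ ^ 2 ≤ 6 * (p + 2) * δ := by
  have hpR : (0 : ℝ) < (p : ℝ) := by exact_mod_cast hp
  have hm := mass hp hδ.le hy hu' D
  have hs1 : 0 ≤ ∑ i, ‖am H n ((1 - D.e₀) * y i) D.κ₁‖ ^ 2 :=
    Finset.sum_nonneg fun i _ => sq_nonneg _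
  have hs2 : 0 ≤ ∑ i, ‖am H n (D.e₀ * y i) D.lam₁‖ ^ 2 :=
    Finset.sum_nonneg fun i _ => sq_nonneg _
  have hs3 : 0 ≤ ∑ i, (1 / p : ℝ) * ‖am H n ((1 - D.e₁) * u' i) D.κ₀‖ ^ 2 :=
    Finset.sum_nonneg fun i _ => by positivity
  have hs4 : 0 ≤ ∑ i, (1 / p : ℝ) * ‖am H n (D.e₁ * u' i) D.lam₀‖ ^ 2 :=
    Finset.sum_nonneg fun i _ => by positivity
  have hb3 : ∑ i, (1 / p : ℝ) * ‖am H n ((1 - D.e₁) * u' i) D.κ₀‖ ^ 2 ≤ (p + 1) * δ := by linarith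
  have hb4 : ∑ i, (1 / p : ℝ) * ‖am H n (D.e₁ * u' i) D.lam₀‖ ^ 2 ≤ (p + 1) * δ := by linarith
  have hr : (√(1 / (p : ℝ))) ^ 2 = 1 / (p : ℝ) := Real.sq_sqrt (by positivity)
  set c : ℂ := ((√(1 / p) : ℝ) : ℂ) with hc
  have hcn : ‖c‖ ^ 2 = 1 / (p : ℝ) := by
    rw [hc, Complex.norm_real, Real.norm_eq_abs, sq_abs, hr]
  obtain ⟨R, hR, hRn, hRs⟩ := fidelity (fun j => c • am H n (D.e₁ * u' j) D.κ₀) D.κ₁
    (δ := (p + 2) * δ) (by positivity) (by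
    intro Z
    have h1 := D.h2 (D.e₁ * Z * D.e₁)
    simp only [Pol_vf_conj D.e₁_star, Pol_vf_corner D.e₁_star, D.e₁κ, D.e₁lam, Pol_vf_zero,
      sub_zero] at h1
    have h2 : ∀ j, vf (c • am H n (D.e₁ * u' j) D.κ₀) Z =
        ((1 / p : ℝ) : ℂ) * vf (am H n (D.e₁ * u' j) D.κ₀) Z := by
      intro j
      rw [hc, Pol_vf_smul, hr]
    have h3 : ‖∑ j, ((1 / p : ℝ) : ℂ) * vf (am H n (D.e₁ * u' j) D.lam₀) Z‖ ≤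
        (p + 1) * δ * ‖Z‖ := by
      calc _ ≤ ∑ j, ‖((1 / p : ℝ) : ℂ) * vf (am H n (D.e₁ * u' j) D.lam₀) Z‖ :=
            norm_sum_le _ _
        _ ≤ ∑ j, ((1 / p : ℝ) * ‖am H n (D.e₁ * u' j) D.lam₀‖ ^ 2) * ‖Z‖ := by
            refine Finset.sum_le_sum fun j _ => ?_
            rw [norm_mul, Complex.norm_real, Real.norm_of_nonneg (by positivity), mul_assoc]
            exact mul_le_mul_of_nonneg_left (norm_vf_le _ _) (by positivity)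
        _ = (∑ j, (1 / p : ℝ) * ‖am H n (D.e₁ * u' j) D.lam₀‖ ^ 2) * ‖Z‖ := by
            rw [Finset.sum_mul]
        _ ≤ (p + 1) * δ * ‖Z‖ := mul_le_mul_of_nonneg_right hb4 (norm_nonneg _)
    have h4 : ∑ j, vf (c • am H n (D.e₁ * u' j) D.κ₀) Z - vf D.κ₁ Z =
        ∑ j, ((1 / p : ℝ) : ℂ) * vf (am H n (D.e₁ * u' j) D.lam₀) Z -
        (vf D.κ₁ Z - ∑ j, ((1 / p : ℝ) : ℂ) * (vf (am H n (D.e₁ * u' j) D.κ₀) Z -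
          vf (am H n (D.e₁ * u' j) D.lam₀) Z)) := by
      simp only [h2, mul_sub, Finset.sum_sub_distrib]
      ring
    rw [h4]
    have h5 := mul_le_mul_of_nonneg_left (Pol_norm_conj D.e₁_star D.e₁_idem Z) hδ.le
    calc _ ≤ ‖∑ j, ((1 / p : ℝ) : ℂ) * vf (am H n (D.e₁ * u' j) D.lam₀) Z‖ +
          ‖vf D.κ₁ Z - ∑ j, ((1 / p : ℝ) : ℂ) * (vf (am H n (D.e₁ * u' j) D.κ₀) Z -
          vf (am H n (D.e₁ * u' j) D.lam₀) Z)‖ := norm_sub_le _ _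
      _ ≤ (p + 1) * δ * ‖Z‖ + δ * ‖Z‖ := add_le_add h3 (h1.trans h5)
      _ = (p + 2) * δ * ‖Z‖ := by ring)
  refine ⟨R, hR, hRn, ?_⟩
  have h1 : ∀ j, ‖c • am H n (u' j) D.κ₀ - R j D.κ₁‖ ^ 2 ≤
      2 * ‖c • am H n (D.e₁ * u' j) D.κ₀ - R j D.κ₁‖ ^ 2 +
        2 * ((1 / p : ℝ) * ‖am H n ((1 - D.e₁) * u' j) D.κ₀‖ ^ 2) := by
    intro j
    have h2 : am H n (u' j) D.κ₀ = am H n (D.e₁ * u' j) D.κ₀ +
        am H n ((1 - D.e₁) * u' j) D.κ₀ := by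
      rw [← add_apply, ← map_add, ← add_mul, add_sub_cancel, one_mul]
    have h3 : c • am H n (u' j) D.κ₀ - R j D.κ₁ =
        (c • am H n (D.e₁ * u' j) D.κ₀ - R j D.κ₁) + c • am H n ((1 - D.e₁) * u' j) D.κ₀ := by
      rw [h2, smul_add]
      abel
    rw [h3]
    refine (Pol_sq_add _ _).trans (le_of_eq ?_)
    rw [norm_smul c (am H n ((1 - D.e₁) * u' j) D.κ₀), mul_pow, hcn]
  calc _ ≤ ∑ j, (2 * ‖c • am H n (D.e₁ * u' j) D.κ₀ - R j D.κ₁‖ ^ 2 +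
        2 * ((1 / p : ℝ) * ‖am H n ((1 - D.e₁) * u' j) D.κ₀‖ ^ 2)) :=
        Finset.sum_le_sum fun j _ => h1 j
    _ = 2 * ∑ j, ‖c • am H n (D.e₁ * u' j) D.κ₀ - R j D.κ₁‖ ^ 2 +
        2 * ∑ j, (1 / p : ℝ) * ‖am H n ((1 - D.e₁) * u' j) D.κ₀‖ ^ 2 := by
        rw [Finset.sum_add_distrib, Finset.mul_sum, Finset.mul_sum]
    _ ≤ 2 * (2 * ((p + 2) * δ)) + 2 * ((p + 1) * δ) :=
        add_le_add (mul_le_mul_of_nonneg_left hRs zero_le_two)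
          (mul_le_mul_of_nonneg_left hb3 zero_le_two)
    _ ≤ 6 * (p + 2) * δ := by nlinarith

end Pool.Agent.MP_86f3ed.Ty
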