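import Pool.Agent.H.MP_86f3ed_an.Pin.Enc

open scoped InnerProductSpace Topology
open Filter ContinuousLinearMap

namespace Pool.Agent.MP_86f3ed.Ty

open Pin

variable {H : Type*} [NormedAddCommGroup H] [InnerProductSpace ℂ H] [CompleteSpace H]

/-- The functional `Z ↦ ⟪η, Z ξ⟫` on `B(H)`. -/
noncomputable def om (ξ η : H) : StrongDual ℂ (H →L[ℂ] H) :=
  (innerSL ℂ η).comp (ContinuousLinearMap.apply ℂ H ξ)

@[simp] theorem om_apply (ξ η : H) (Z : H →L[ℂ] H) : om ξ η Z = ⟪η, Z ξ⟫_ℂ := rfl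

variable (H) in
/-- The predual of `B(H)`: the closed span of the functionals `om`. -/
noncomputable def PreSub : Submodule ℂ (StrongDual ℂ (H →L[ℂ] H)) :=
  (Submodule.span ℂ {f | ∃ ξ η : H, f = om ξ η}).topologicalClosure

variable (H) in
/-- The predual of `B(H)`. -/
def Pre : Type _ := ↥(PreSub H)

noncomputable instance : NormedAddCommGroup (Pre H) := inferInstanceAs (NormedAddCommGroup (PreSub H))
noncomputable instance : NormedSpace ℂ (Pre H) := inferInstanceAs (NormedSpace ℂ (PreSub H))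
instance : CompleteSpace (Pre H) :=
  (Submodule.isClosed_topologicalClosure _).completeSpace_coe

/-- The inclusion of the predual in the dual. -/
noncomputable def inP : Pre H →ₗᵢ[ℂ] StrongDual ℂ (H →L[ℂ] H) := (PreSub H).subtypeₗᵢ

theorem om_mem (ξ η : H) : om ξ η ∈ PreSub H :=
  Submodule.le_topologicalClosure _ (Submodule.subset_span ⟨ξ, η, rfl⟩)

/-- `om` as an element of the predual. -/
noncomputable def omP (ξ η : H) : Pre H := (⟨om ξ η, om_mem ξ η⟩ : PreSub H)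

@[simp] theorem inP_omP (ξ η : H) : inP (omP ξ η) = om ξ η := rfl

theorem inP_mem (f : Pre H) : inP f ∈ PreSub H := f.2

theorem norm_P (f : Pre H) : ‖f‖ = ‖inP f‖ := rfl

theorem P_ext {f g : Pre H} (h : ∀ Z, inP f Z = inP g Z) : f = g :=
  inP.injective (ContinuousLinearMap.ext h)

/-- Left multiplication on `B(H)`. -/
noncomputable abbrev lB (x : H →L[ℂ] H) : (H →L[ℂ] H) →L[ℂ] (H →L[ℂ] H) :=
  ContinuousLinearMap.mul ℂ (H →L[ℂ] H) x

/-- Right multiplication on `B(H)`. -/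
noncomputable abbrev rB (x : H →L[ℂ] H) : (H →L[ℂ] H) →L[ℂ] (H →L[ℂ] H) :=
  (ContinuousLinearMap.mul ℂ (H →L[ℂ] H)).flip x

theorem norm_lB_le (x : H →L[ℂ] H) : ‖lB x‖ ≤ ‖x‖ :=
  ContinuousLinearMap.opNorm_mul_apply_le ℂ _ x

theorem norm_rB_le (x : H →L[ℂ] H) : ‖rB x‖ ≤ ‖x‖ := by
  refine ContinuousLinearMap.opNorm_le_bound _ (norm_nonneg _) fun Z => ?_
  show ‖Z * x‖ ≤ _
  rw [mul_comm]
  exact norm_mul_le _ _

/-- A closed subspace of functionals is invariant as soon as the functionals `om` are mapped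
into it. -/
theorem comp_mem_P (T : (H →L[ℂ] H) →L[ℂ] (H →L[ℂ] H))
    (hT : ∀ ξ η : H, (om ξ η).comp T ∈ PreSub H) (f : StrongDual ℂ (H →L[ℂ] H))
    (hf : f ∈ PreSub H) : f.comp T ∈ PreSub H := by
  set c : StrongDual ℂ (H →L[ℂ] H) →L[ℂ] StrongDual ℂ (H →L[ℂ] H) :=
    (ContinuousLinearMap.compL ℂ (H →L[ℂ] H) (H →L[ℂ] H) ℂ).flip T with hc
  have hc' : ∀ g, c g = g.comp T := fun g => rfl
  rw [← hc']
  have h1 : Submodule.span ℂ {f | ∃ ξ η : H, f = om ξ η} ≤ (PreSub H).comap c.toLinearMap := by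
    rw [Submodule.span_le]
    rintro _ ⟨ξ, η, rfl⟩
    exact hT ξ η
  have h2 : PreSub H ≤ (PreSub H).comap c.toLinearMap := by
    refine Submodule.topologicalClosure_minimal _ h1 ?_
    exact (Submodule.isClosed_topologicalClosure _).preimage c.continuous
  exact h2 hf

theorem om_comp_lB (x : H →L[ℂ] H) (ξ η : H) : (om ξ η).comp (lB x) = om ξ (star x η) := by
  ext Z
  show ⟪η, x (Z ξ)⟫_ℂ = ⟪star x η, Z ξ⟫_ℂ
  rw [star_eq_adjoint, adjoint_inner_left]

theorem om_comp_rB (x : H →L[ℂ] H) (ξ η : H) : (om ξ η).comp (rB x) = om (x ξ) η := by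
  ext Z
  rfl

/-- The left action: `(L x f)(Z) = f (x Z)`. -/
noncomputable def PL0 (x : H →L[ℂ] H) (f : Pre H) : Pre H :=
  (⟨(inP f).comp (lB x), comp_mem_P _ (fun ξ η => by
    rw [om_comp_lB]; exact om_mem _ _) _ (inP_mem f)⟩ : PreSub H)

/-- The right action: `(R x f)(Z) = f (Z x)`. -/
noncomputable def PR0 (x : H →L[ℂ] H) (f : Pre H) : Pre H :=
  (⟨(inP f).comp (rB x), comp_mem_P _ (fun ξ η => by
    rw [om_comp_rB]; exact om_mem _ _) _ (inP_mem f)⟩ : PreSub H)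

theorem inP_PL0 (x : H →L[ℂ] H) (f : Pre H) : inP (PL0 x f) = (inP f).comp (lB x) := rfl
theorem inP_PR0 (x : H →L[ℂ] H) (f : Pre H) : inP (PR0 x f) = (inP f).comp (rB x) := rfl

theorem norm_PL0 (x : H →L[ℂ] H) (f : Pre H) : ‖PL0 x f‖ ≤ ‖x‖ * ‖f‖ := by
  rw [norm_P, inP_PL0, mul_comm]
  exact (ContinuousLinearMap.opNorm_comp_le _ _).trans
    (mul_le_mul_of_nonneg_left (norm_lB_le x) (norm_nonneg _))

theorem norm_PR0 (x : H →L[ℂ] H) (f : Pre H) : ‖PR0 x f‖ ≤ ‖x‖ * ‖f‖ := by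
  rw [norm_P, inP_PR0, mul_comm]
  exact (ContinuousLinearMap.opNorm_comp_le _ _).trans
    (mul_le_mul_of_nonneg_left (norm_rB_le x) (norm_nonneg _))

/-- The predual of `B(H)` as a bimodule over the algebra `S`. -/
noncomputable def pbm (S : StarSubalgebra ℂ (H →L[ℂ] H)) : BM S (Pre H) where
  L := LinearMap.mkContinuous₂ (LinearMap.mk₂ ℂ (fun (x : S) (f : Pre H) => PL0 (x : H →L[ℂ] H) f)
    (by intro x y f; apply P_ext; intro Z
        show inP f (((x + y : S) : H →L[ℂ] H) * Z) = inP f ((x : H →L[ℂ] H) * Z) +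
          inP f ((y : H →L[ℂ] H) * Z)
        rw [← map_add, ← add_mul]; rfl)
    (by intro c x f; apply P_ext; intro Z
        show inP f (((c • x : S) : H →L[ℂ] H) * Z) = c • inP f ((x : H →L[ℂ] H) * Z)
        rw [← map_smul, ← smul_mul_assoc]; rfl)
    (by intro x f f'; apply P_ext; intro Z; rfl)
    (by intro c x f; apply P_ext; intro Z; rfl)) 1
    (by intro x f; rw [one_mul]; exact norm_PL0 _ f)
  R := LinearMap.mkContinuous₂ (LinearMap.mk₂ ℂ (fun (x : S) (f : Pre H) => PR0 (x : H →L[ℂ] H) f)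
    (by intro x y f; apply P_ext; intro Z
        show inP f (Z * ((x + y : S) : H →L[ℂ] H)) = inP f (Z * (x : H →L[ℂ] H)) +
          inP f (Z * (y : H →L[ℂ] H))
        rw [← map_add, ← mul_add]; rfl)
    (by intro c x f; apply P_ext; intro Z
        show inP f (Z * ((c • x : S) : H →L[ℂ] H)) = c • inP f (Z * (x : H →L[ℂ] H))
        rw [← map_smul, ← mul_smul_comm]; rfl)
    (by intro x f f'; apply P_ext; intro Z; rfl)
    (by intro c x f; apply P_ext; intro Z; rfl)) 1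
    (by intro x f; rw [one_mul]; exact norm_PR0 _ f)
  L_one := by
    intro f
    apply P_ext; intro Z
    show inP f (((1 : S) : H →L[ℂ] H) * Z) = inP f Z
    rw [OneMemClass.coe_one, one_mul]
  L_mul := by
    intro x y f
    apply P_ext; intro Z
    show inP f (((x * y : S) : H →L[ℂ] H) * Z) =
      inP f ((x : H →L[ℂ] H) * ((y : H →L[ℂ] H) * Z))
    rw [← mul_assoc]; rfl
  R_mul := by
    intro x y f
    apply P_ext; intro Z
    show inP f (Z * ((x * y : S) : H →L[ℂ] H)) =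
      inP f (Z * (x : H →L[ℂ] H) * (y : H →L[ℂ] H))
    rw [mul_assoc]; rfl
  LR := by
    intro x y f
    apply P_ext; intro Z
    show inP f ((x : H →L[ℂ] H) * Z * (y : H →L[ℂ] H)) =
      inP f ((x : H →L[ℂ] H) * (Z * (y : H →L[ℂ] H)))
    rw [mul_assoc]
  norm_L := fun x f => norm_PL0 (x : H →L[ℂ] H) f
  norm_R := fun x f => norm_PR0 (x : H →L[ℂ] H) f

theorem inP_L (S : StarSubalgebra ℂ (H →L[ℂ] H)) (x : S) (f : Pre H) (Z : H →L[ℂ] H) :
    inP ((pbm S).L x f) Z = inP f ((x : H →L[ℂ] H) * Z) := rfl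

theorem inP_R (S : StarSubalgebra ℂ (H →L[ℂ] H)) (x : S) (f : Pre H) (Z : H →L[ℂ] H) :
    inP ((pbm S).R x f) Z = inP f (Z * (x : H →L[ℂ] H)) := rfl

theorem inP_D (S : StarSubalgebra ℂ (H →L[ℂ] H)) (x : S) (f : Pre H) (Z : H →L[ℂ] H) :
    inP ((pbm S).D x f) Z = inP f ((x : H →L[ℂ] H) * Z - Z * (x : H →L[ℂ] H)) := by
  rw [BM.D_apply, map_sub, map_sub, sub_apply, inP_L, inP_R]

end Pool.Agent.MP_86f3ed.Ty
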