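import Pool.Agent.H.MP_86f3ed_an.Ty.EFin
import Pool.Agent.H.MP_86f3ed_an.Ty.TomG
import Pool.Agent.H.MP_86f3ed_an.Ty.TomPI
import Pool.Agent.H.MP_86f3ed_an.Pin.Pub

open scoped InnerProductSpace Topology
open Filter ContinuousLinearMap

namespace Pool.Agent.MP_86f3ed.Ty

open Pin

universe u v

section Op

variable {H : Type*} [NormedAddCommGroup H] [InnerProductSpace ℂ H] [CompleteSpace H]

/-- The type free theorem in operator form: near central elementary operators with coefficients in
`𝔄` and purely infinite commutant and bicommutant give a conditional expectation onto the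
commutant. -/
theorem injCom_purelyInfinite {𝔄 : StarSubalgebra ℂ (H →L[ℂ] H)}
    (hcl : IsClosed (𝔄 : Set (H →L[ℂ] H)))
    (hPI : PurelyInfinite (Com 𝔄 : Set (H →L[ℂ] H)))
    (hPI' : PurelyInfinite (Com (Com 𝔄) : Set (H →L[ℂ] H)))
    (hNC : NCen 𝔄) : InjCom 𝔄 := by
  refine injCom_type_free hcl hPI hPI' (fun Ω h1 h2 => ?_) hNC
  refine exists_tomitaJ (Com (Com 𝔄)) ?_ Ω h2 ?_
  · rw [com3]
  · rw [com3]
    exact h1

/-- The same with a cyclic and separating vector; one of the two algebras is enough. -/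
theorem injCom_purelyInfinite_cyc {𝔄 : StarSubalgebra ℂ (H →L[ℂ] H)}
    (hcl : IsClosed (𝔄 : Set (H →L[ℂ] H)))
    (hPI : PurelyInfinite (Com (Com 𝔄) : Set (H →L[ℂ] H)))
    {Ω : H} (hN : Cyc (Com 𝔄) Ω) (hM : Cyc (Com (Com 𝔄)) Ω)
    (hNC : NCen 𝔄) : InjCom 𝔄 := by
  obtain ⟨J, hJ⟩ := exists_tomitaJ (Com (Com 𝔄)) (by rw [com3]) Ω hM (by rw [com3]; exact hN)
  have h := purelyInfinite_com hJ hPI
  rw [com3] at h
  exact injCom_purelyInfinite hcl h hPI hNC

end Op

section Pub

variable {H : Type v} [NormedAddCommGroup H] [InnerProductSpace ℂ H] [CompleteSpace H]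

/-- Approximately amenable algebras have near central elementary operators. -/
theorem nCen_rangeAlg {A : Type u} [NonUnitalCStarAlgebra A]
    (hA : ApproximatelyAmenable.{u, v} A) (π : A →⋆ₙₐ[ℂ] (H →L[ℂ] H)) : NCen (rangeAlg π) := by
  classical
  intro F hF ε hε
  have hex : ∀ g : F, ∃ (c : ℂ) (a : A), (g : H →L[ℂ] H) = c • 1 + π a := fun g =>
    mem_rangeAlg.mp (hF g g.2)
  choose c a hca using hex
  obtain ⟨n, x, y, hx, hy, h1, h2⟩ := exists_near_central (approxAmenable_of_public hA) π
    (Finset.univ.image a) ε hε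
  refine ⟨n, x, y, hx, hy, h1, fun g hg Z => ?_⟩
  have h3 := h2 (a ⟨g, hg⟩) (Finset.mem_image_of_mem _ (Finset.mem_univ _)) Z
  have h4 : g * el x y Z - el x y Z * g =
      π (a ⟨g, hg⟩) * el x y Z - el x y Z * π (a ⟨g, hg⟩) := by
    have h5 := hca ⟨g, hg⟩
    simp only at h5
    nth_rewrite 1 2 [h5]
    rw [add_mul, mul_add, smul_mul_assoc, mul_smul_comm, one_mul, mul_one]
    abel
  rw [h4]
  exact h3

/-- Every representation of an approximately amenable algebra with purely infinite commutant and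
bicommutant has an injective commutant. -/
theorem injective_purelyInfinite {A : Type u} [NonUnitalCStarAlgebra A]
    (hA : ApproximatelyAmenable.{u, v} A) (π : A →⋆ₙₐ[ℂ] (H →L[ℂ] H))
    (hN : PurelyInfinite (Set.range π).centralizer)
    (hM : PurelyInfinite (Set.range π).centralizer.centralizer) :
    IsInjective (Set.range π).centralizer := by
  rw [← Com_Com_rangeAlg π] at hM
  rw [← Com_rangeAlg π] at hN ⊢
  exact injCom_purelyInfinite (isClosed_range _) hN hM (nCen_rangeAlg hA π)

end Pub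

end Pool.Agent.MP_86f3ed.Ty
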