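import Pool.Agent.H.MP_86f3ed_an.Ty.TomI
import Pool.Agent.H.MP_86f3ed_an.Pin.PI

open scoped InnerProductSpace Topology
open Filter ContinuousLinearMap

namespace Pool.Agent.MP_86f3ed.Ty

open Pin

attribute [local instance] InnerProductSpace.complexToReal

/-- A von Neumann algebra `M` with a vector `Ω` which is cyclic for `M` and its commutant. -/
structure Std (H : Type*) [NormedAddCommGroup H] [InnerProductSpace ℂ H] [CompleteSpace H] where
  M : StarSubalgebra ℂ (H →L[ℂ] H)
  bic : Com (Com M) = M
  Ω : H
  cycM : Cyc M Ω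
  cycN : Cyc (Com M) Ω

variable {H : Type*} [NormedAddCommGroup H] [InnerProductSpace ℂ H] [CompleteSpace H]

namespace Std

variable (S : Std H)

/-- The roles of the algebra and the commutant exchanged. -/
noncomputable def swap : Std H where
  M := Com S.M
  bic := by rw [S.bic]
  Ω := S.Ω
  cycM := S.cycN
  cycN := by rw [S.bic]; exact S.cycM

theorem swap_M : S.swap.M = Com S.M := rfl

theorem swap_Ω : S.swap.Ω = S.Ω := rfl

theorem comm {a b : H →L[ℂ] H} (ha : a ∈ S.M) (hb : b ∈ Com S.M) (x : H) : a (b x) = b (a x) :=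
  congrArg (fun T : H →L[ℂ] H => T x) (mem_Com.mp hb a ha)

/-- The real subspace of the vectors `a Ω` with `a` self-adjoint in `M`. -/
noncomputable def K0 : Submodule ℝ H where
  carrier := {x | ∃ a ∈ S.M, star a = a ∧ a S.Ω = x}
  add_mem' := by
    rintro _ _ ⟨a, ha, hs, rfl⟩ ⟨b, hb, hs', rfl⟩
    exact ⟨a + b, add_mem ha hb, by rw [star_add, hs, hs'], rfl⟩
  zero_mem' := ⟨0, zero_mem _, star_zero _, rfl⟩
  smul_mem' := by
    rintro c _ ⟨a, ha, hs, rfl⟩
    refine ⟨(c : ℂ) • a, S.M.smul_mem ha _, ?_, ?_⟩
    · rw [star_smul, hs]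
      congr 1
      exact Complex.conj_ofReal c
    · show (c : ℂ) • a S.Ω = c • a S.Ω
      exact Complex.coe_smul c (a S.Ω)

/-- The closure of `K0`. -/
noncomputable def K : Submodule ℝ H := S.K0.topologicalClosure

instance : CompleteSpace S.K := S.K0.isClosed_topologicalClosure.completeSpace_coe

/-- The real projection onto `K`. -/
noncomputable def P : H →L[ℝ] H := S.K.starProjection

/-- The sum of the real projections onto `K` and `i K`. -/
noncomputable def R : H →L[ℂ] H where
  toFun x := S.P x - Complex.I • S.P (Complex.I • x)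
  map_add' := by
    intro x y
    rw [smul_add, map_add, map_add, smul_add]
    abel
  map_smul' := by
    intro c x
    have h3 : ∀ y : H, c • y = c.re • y + c.im • (Complex.I • y) := by
      intro y
      conv_lhs => rw [← Complex.re_add_im c]
      rw [add_smul, mul_smul, Complex.coe_smul, Complex.coe_smul]
    have h4 : ∀ y : H, Complex.I • (Complex.I • y) = -y := fun y => by
      rw [smul_smul, Complex.I_mul_I, neg_one_smul]
    have h5 : ∀ (r : ℝ) (y : H), Complex.I • (r • y) = r • (Complex.I • y) := fun r y =>
      smul_comm _ _ _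
    have h2 : Complex.I • (c • x) = c.re • (Complex.I • x) - c.im • x := by
      rw [h3, smul_add, h5, h5, h4, smul_neg, sub_eq_add_neg]
    have hr : ∀ (r : ℝ) (y : H), S.P (r • y) = r • S.P y := fun r y => S.P.map_smul r y
    rw [h2, map_sub, hr, hr, h3 x, map_add, hr, hr, RingHom.id_apply,
      h3 (S.P x - Complex.I • S.P (Complex.I • x)), smul_sub Complex.I, smul_sub Complex.I, h5, h5,
      h4, smul_sub c.re, sub_neg_eq_add, smul_add c.im]
    abel
  cont := by
    exact (S.P.continuous).sub ((S.P.continuous.comp (continuous_const_smul _)).const_smul _)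

/-- The difference of the real projections onto `K` and `i K`. -/
noncomputable def A (x : H) : H := S.P x + Complex.I • S.P (Complex.I • x)

theorem R_apply (x : H) : S.R x = S.P x - Complex.I • S.P (Complex.I • x) := rfl

theorem A_apply (x : H) : S.A x = S.P x + Complex.I • S.P (Complex.I • x) := rfl

end Std

end Pool.Agent.MP_86f3ed.Ty
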