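import Pool.Agent.H.MP_86f3ed_an.Ty.TomA

open scoped InnerProductSpace Topology
open Filter ContinuousLinearMap

namespace Pool.Agent.MP_86f3ed.Ty

open Pin

attribute [local instance] InnerProductSpace.complexToReal

variable {H : Type*} [NormedAddCommGroup H] [InnerProductSpace ℂ H] [CompleteSpace H]

namespace Std

variable (S : Std H)

/-- Moving the imaginary unit in real parts. -/
theorem TomB_I (x y : H) :
    (⟪Complex.I • x, y⟫_ℂ).re = -(⟪x, Complex.I • y⟫_ℂ).re := by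
  rw [inner_smul_left, inner_smul_right]
  simp

theorem TomB_II (x : H) : Complex.I • (Complex.I • x) = -x := by
  rw [smul_smul, Complex.I_mul_I, neg_one_smul]

theorem TomB_star (a : H →L[ℂ] H) (x w : H) : ⟪x, a w⟫_ℂ = ⟪star a x, w⟫_ℂ := by
  rw [star_eq_adjoint, adjoint_inner_left]

/-- Two complex numbers with the same real parts after multiplication with `1` and `I`. -/
theorem TomB_ext {z w : ℂ} (h1 : z.re = w.re) (h2 : (Complex.I * z).re = (Complex.I * w).re) :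
    z = w := by
  refine Complex.ext h1 ?_
  simpa using h2

theorem TomB_norm_I (x : H) : ‖Complex.I • x‖ = ‖x‖ := by
  rw [norm_smul, Complex.norm_I, one_mul]

theorem TomB_PP (x : H) : S.P (S.P x) = S.P x :=
  Submodule.starProjection_eq_self_iff.mpr (Submodule.starProjection_apply_mem _ x)

theorem TomB_sym (x y : H) : (⟪S.P x, y⟫_ℂ).re = (⟪x, S.P y⟫_ℂ).re :=
  Submodule.inner_starProjection_left_eq_right S.K x y

theorem TomB_norm_P (x : H) : ‖S.P x‖ ≤ ‖x‖ := Submodule.norm_starProjection_apply_le S.K x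

theorem TomB_sq (x : H) : (⟪x, S.P x⟫_ℂ).re = ‖S.P x‖ ^ 2 := by
  rw [← TomB_PP, ← TomB_sym]
  have h : ⟪S.P x, S.P x⟫_ℂ = ((‖S.P x‖ : ℝ) : ℂ) ^ 2 := inner_self_eq_norm_sq_to_K _
  rw [TomB_PP, h]
  norm_cast

theorem TomB_P_c (c : ℂ) (x : H) :
    S.P (c • x) = (c.re : ℂ) • S.P x + (c.im : ℂ) • S.P (Complex.I • x) := by
  have h : c • x = c.re • x + c.im • (Complex.I • x) := by
    conv_lhs => rw [← Complex.re_add_im c]
    rw [add_smul, mul_smul, Complex.coe_smul, Complex.coe_smul]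
  have hr : ∀ (r : ℝ) (y : H), S.P (r • y) = (r : ℂ) • S.P y := fun r y => by
    rw [Complex.coe_smul]
    exact S.P.map_smul r y
  rw [h, map_add, hr, hr]

/-- Decomposition into self-adjoint elements. -/
theorem TomB_dec {𝔅 : StarSubalgebra ℂ (H →L[ℂ] H)} {a : H →L[ℂ] H} (ha : a ∈ 𝔅) :
    ∃ b ∈ 𝔅, ∃ c ∈ 𝔅, star b = b ∧ star c = c ∧ a = b + Complex.I • c ∧
      star a = b - Complex.I • c := by
  refine ⟨(1 / 2 : ℂ) • (a + star a), 𝔅.smul_mem (add_mem ha (star_mem ha)) _,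
    (-(Complex.I / 2)) • (a - star a), 𝔅.smul_mem (sub_mem ha (star_mem ha)) _, ?_, ?_, ?_, ?_⟩
  · rw [star_smul, star_add, star_star, add_comm]
    congr 1
    simp
  · rw [star_smul, star_sub, star_star]
    have h : star (-(Complex.I / 2)) = Complex.I / 2 := by
      simp
      ring
    rw [h, ← neg_sub, smul_neg, neg_smul]
  · match_scalars <;> first
      | linear_combination (1 / 2 : ℂ) * Complex.I_mul_I
      | linear_combination (-1 / 2 : ℂ) * Complex.I_mul_I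
  · match_scalars <;> first
      | linear_combination (1 / 2 : ℂ) * Complex.I_mul_I
      | linear_combination (-1 / 2 : ℂ) * Complex.I_mul_I

/-- Vanishing from the self-adjoint elements. -/
theorem TomB_zero {𝔅 : StarSubalgebra ℂ (H →L[ℂ] H)} {Ω : H} (hc : Cyc 𝔅 Ω) {x : H}
    (h : ∀ a ∈ 𝔅, star a = a → ⟪a Ω, x⟫_ℂ = 0) : x = 0 := by
  have h1 : ∀ a ∈ 𝔅, ⟪a Ω, x⟫_ℂ = 0 := by
    intro a ha
    obtain ⟨b, hb, c, hc', hbs, hcs, he, -⟩ := TomB_dec ha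
    rw [he, add_apply, smul_apply, inner_add_left, inner_smul_left, h b hb hbs, h c hc' hcs]
    simp
  have h2 : ∀ y, ⟪y, x⟫_ℂ = 0 := by
    intro y
    refine hc.induction (P := fun y => ⟪y, x⟫_ℂ = 0) ?_
      (isClosed_eq (by fun_prop) (by fun_prop)) y
    rintro _ ⟨a, ha, rfl⟩
    exact h1 a ha
  exact inner_self_eq_zero.mp (h2 x)

theorem K_le {x : H} (h : x ∈ S.K) (y : H)
    (hy : ∀ a ∈ S.M, star a = a → (⟪a S.Ω, y⟫_ℂ).re = 0) : (⟪x, y⟫_ℂ).re = 0 := by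
  have hc : IsClosed {x : H | (⟪x, y⟫_ℂ).re = 0} :=
    isClosed_eq (Complex.continuous_re.comp (by fun_prop)) continuous_const
  have h1 : (S.K0 : Set H) ⊆ {x : H | (⟪x, y⟫_ℂ).re = 0} := by
    rintro _ ⟨a, ha, hs, rfl⟩
    exact hy a ha hs
  exact closure_minimal h1 hc h

theorem P_of {a : H →L[ℂ] H} (ha : a ∈ S.M) (hs : star a = a) : S.P (a S.Ω) = a S.Ω :=
  Submodule.starProjection_eq_self_iff.mpr
    (S.K0.le_topologicalClosure ⟨a, ha, hs, rfl⟩)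

theorem TomB_PI {y : H} (hy : ∀ a ∈ S.M, star a = a → (⟪a S.Ω, y⟫_ℂ).re = 0) : S.P y = 0 := by
  refine (Submodule.starProjection_apply_eq_zero_iff (K := S.K)).mpr ?_
  rw [Submodule.mem_orthogonal]
  intro u hu
  exact S.K_le hu y hy

theorem TomB_PI' {y : H} (hy : S.P y = 0) {a : H →L[ℂ] H} (ha : a ∈ S.M) (hs : star a = a) :
    (⟪a S.Ω, y⟫_ℂ).re = 0 := by
  rw [← S.P_of ha hs, TomB_sym, hy, inner_zero_right, Complex.zero_re]

theorem TomB_real {a y : H} (h : ⟪a, y⟫_ℂ = ⟪y, a⟫_ℂ) : (⟪a, Complex.I • y⟫_ℂ).re = 0 := by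
  have h1 : (starRingEnd ℂ) ⟪a, y⟫_ℂ = ⟪a, y⟫_ℂ := by
    rw [inner_conj_symm]
    exact h.symm
  have h2 := Complex.conj_eq_iff_im.mp h1
  rw [inner_smul_right, Complex.I_mul_re, h2, neg_zero]

theorem TomB_ab {a b : H →L[ℂ] H} (ha : a ∈ S.M) (hs : star a = a) (hb : b ∈ Com S.M)
    (hs' : star b = b) : (⟪a S.Ω, Complex.I • b S.Ω⟫_ℂ).re = 0 := by
  apply TomB_real
  have h1 : ⟪a S.Ω, b S.Ω⟫_ℂ = ⟪S.Ω, a (b S.Ω)⟫_ℂ := by rw [TomB_star a, hs]
  have h2 : ⟪b S.Ω, a S.Ω⟫_ℂ = ⟪S.Ω, b (a S.Ω)⟫_ℂ := by rw [TomB_star b, hs']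
  rw [h1, h2, S.comm ha hb]

/-- `N_s Ω` is orthogonal to `i K` for the real inner product. -/
theorem P_I_of {b : H →L[ℂ] H} (hb : b ∈ Com S.M) (hs : star b = b) :
    S.P (Complex.I • b S.Ω) = 0 :=
  S.TomB_PI fun _ ha hsa => S.TomB_ab ha hsa hb hs

theorem TomB_re_R (x y : H) : (⟪S.R x, y⟫_ℂ).re = (⟪x, S.R y⟫_ℂ).re := by
  rw [R_apply, R_apply, inner_sub_left, inner_sub_right, Complex.sub_re, Complex.sub_re, TomB_I,
    TomB_sym, TomB_sym, TomB_I]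
  have h := TomB_I x (S.P (Complex.I • y))
  linarith

theorem TomB_R_sym (x y : H) : ⟪S.R x, y⟫_ℂ = ⟪x, S.R y⟫_ℂ := by
  refine TomB_ext (S.TomB_re_R x y) ?_
  have h := S.TomB_re_R x (Complex.I • y)
  rwa [map_smul, inner_smul_right, inner_smul_right] at h

theorem R_star : star S.R = S.R := by
  ext y
  refine ext_inner_left ℂ fun x => ?_
  rw [← TomB_R_sym, star_eq_adjoint, adjoint_inner_right]

theorem re_inner_R (x : H) :
    (⟪x, S.R x⟫_ℂ).re = ‖S.P x‖ ^ 2 + ‖S.P (Complex.I • x)‖ ^ 2 := by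
  have h := TomB_I x (S.P (Complex.I • x))
  rw [TomB_sq] at h
  rw [R_apply, inner_sub_right, Complex.sub_re, TomB_sq]
  linarith

theorem R_nonneg (x : H) : 0 ≤ (⟪x, S.R x⟫_ℂ).re := by
  rw [re_inner_R]
  positivity

theorem TomB_P_sq (x : H) : ‖S.P x‖ ^ 2 ≤ ‖x‖ ^ 2 :=
  pow_le_pow_left₀ (norm_nonneg _) (S.TomB_norm_P x) 2

theorem TomB_P_sq' (x : H) : ‖S.P (Complex.I • x)‖ ^ 2 ≤ ‖x‖ ^ 2 := by
  have h := S.TomB_P_sq (Complex.I • x)
  rwa [TomB_norm_I] at h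

theorem R_le (x : H) : (⟪x, S.R x⟫_ℂ).re ≤ 2 * ‖x‖ ^ 2 := by
  rw [re_inner_R]
  have h1 := S.TomB_P_sq x
  have h2 := S.TomB_P_sq' x
  linarith

theorem A_add (x y : H) : S.A (x + y) = S.A x + S.A y := by
  rw [A_apply, A_apply, A_apply, smul_add, map_add, map_add, smul_add]
  abel

theorem A_smul (c : ℂ) (x : H) : S.A (c • x) = (starRingEnd ℂ) c • S.A x := by
  have h1 : Complex.I • c • x = (Complex.I * c) • x := smul_smul _ _ _
  have h2 : (starRingEnd ℂ) c = (c.re : ℂ) - (c.im : ℂ) * Complex.I := by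
    apply Complex.ext <;> simp
  rw [A_apply, h1, TomB_P_c S c x, TomB_P_c S (Complex.I * c) x, A_apply, Complex.I_mul_re,
    Complex.I_mul_im, h2]
  push_cast
  match_scalars
  · ring
  · linear_combination (c.im : ℂ) * Complex.I_mul_I

theorem TomB_re_A (x y : H) : (⟪S.A x, y⟫_ℂ).re = (⟪S.A y, x⟫_ℂ).re := by
  have e1 : (⟪Complex.I • S.P (Complex.I • x), y⟫_ℂ).re =
      -(⟪Complex.I • x, S.P (Complex.I • y)⟫_ℂ).re := by
    rw [TomB_I, TomB_sym]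
  have e2 : (⟪Complex.I • S.P (Complex.I • y), x⟫_ℂ).re =
      -(⟪S.P (Complex.I • y), Complex.I • x⟫_ℂ).re := TomB_I _ _
  have e3 : (⟪S.P (Complex.I • y), Complex.I • x⟫_ℂ).re =
      (⟪Complex.I • x, S.P (Complex.I • y)⟫_ℂ).re := by
    rw [← inner_conj_symm, Complex.conj_re]
  have e4 : (⟪S.P y, x⟫_ℂ).re = (⟪x, S.P y⟫_ℂ).re := by
    rw [← inner_conj_symm, Complex.conj_re]
  rw [A_apply, A_apply, inner_add_left, inner_add_left, Complex.add_re, Complex.add_re, e1, e2, e3,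
    e4, TomB_sym]

theorem A_inner (x y : H) : ⟪S.A x, y⟫_ℂ = ⟪S.A y, x⟫_ℂ := by
  refine TomB_ext (S.TomB_re_A x y) ?_
  have h := S.TomB_re_A x (Complex.I • y)
  rw [A_smul, inner_smul_right, inner_smul_left, Complex.conj_conj] at h
  exact h

theorem A_A (x : H) : S.A (S.A x) = (2 : ℂ) • S.R x - S.R (S.R x) := by
  have e1 : Complex.I • (S.P x + Complex.I • S.P (Complex.I • x)) =
      Complex.I • S.P x - S.P (Complex.I • x) := by
    rw [smul_add, TomB_II, sub_eq_add_neg]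
  have e2 : Complex.I • (S.P x - Complex.I • S.P (Complex.I • x)) =
      Complex.I • S.P x + S.P (Complex.I • x) := by
    rw [smul_sub, TomB_II, sub_neg_eq_add]
  rw [A_apply S (S.A x), R_apply S (S.R x), A_apply, R_apply, e1, e2, map_add, map_sub, map_sub,
    map_add, TomB_PP, TomB_PP]
  module

theorem A_R (x : H) : S.A (S.R x) = (2 : ℂ) • S.A x - S.R (S.A x) := by
  have e1 : Complex.I • (S.P x + Complex.I • S.P (Complex.I • x)) =
      Complex.I • S.P x - S.P (Complex.I • x) := by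
    rw [smul_add, TomB_II, sub_eq_add_neg]
  have e2 : Complex.I • (S.P x - Complex.I • S.P (Complex.I • x)) =
      Complex.I • S.P x + S.P (Complex.I • x) := by
    rw [smul_sub, TomB_II, sub_neg_eq_add]
  rw [A_apply S (S.R x), R_apply S (S.A x), A_apply, R_apply, e1, e2, map_add, map_sub, map_sub,
    map_add, TomB_PP, TomB_PP]
  module

theorem norm_A_le (x : H) : ‖S.A x‖ ≤ 2 * ‖x‖ := by
  rw [A_apply]
  have h1 := norm_add_le (S.P x) (Complex.I • S.P (Complex.I • x))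
  rw [TomB_norm_I] at h1
  have h2 := S.TomB_norm_P x
  have h3 := S.TomB_norm_P (Complex.I • x)
  rw [TomB_norm_I] at h3
  linarith

theorem TomB_red {𝔅 : StarSubalgebra ℂ (H →L[ℂ] H)} (T : H →L[ℂ] H)
    (h : ∀ a ∈ 𝔅, star a = a → S.A (a S.Ω) = T (a S.Ω)) {a : H →L[ℂ] H} (ha : a ∈ 𝔅) :
    S.A ((star a) S.Ω) = T (a S.Ω) := by
  obtain ⟨b, hb, c, hc, hbs, hcs, he, hes⟩ := TomB_dec ha
  have e1 : (star a) S.Ω = b S.Ω + (-Complex.I) • c S.Ω := by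
    rw [hes, sub_apply, smul_apply, neg_smul, sub_eq_add_neg]
  have e2 : a S.Ω = b S.Ω + Complex.I • c S.Ω := by
    rw [he, add_apply, smul_apply]
  rw [e1, e2, A_add, A_smul, h b hb hbs, h c hc hcs, map_add, map_smul, map_neg, Complex.conj_I,
    neg_neg]

theorem A_M {a : H →L[ℂ] H} (ha : a ∈ S.M) :
    S.A ((star a) S.Ω) = (2 : ℂ) • a S.Ω - S.R (a S.Ω) := by
  refine S.TomB_red ((2 : ℂ) • (1 : H →L[ℂ] H) - S.R) ?_ ha
  intro a ha hs
  show S.A (a S.Ω) = (2 : ℂ) • a S.Ω - S.R (a S.Ω)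
  rw [A_apply, R_apply, S.P_of ha hs]
  module

theorem A_N {b : H →L[ℂ] H} (hb : b ∈ Com S.M) : S.A ((star b) S.Ω) = S.R (b S.Ω) := by
  refine S.TomB_red S.R ?_ hb
  intro b hb hs
  rw [A_apply, R_apply, S.P_I_of hb hs, smul_zero, add_zero, sub_zero]

theorem TomB_P_Ω : S.P S.Ω = S.Ω := S.P_of (one_mem S.M) (star_one _)

theorem TomB_PI_Ω : S.P (Complex.I • S.Ω) = 0 :=
  S.P_I_of (one_mem (Com S.M)) (star_one _)

theorem R_Ω : S.R S.Ω = S.Ω := by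
  rw [R_apply, TomB_P_Ω, TomB_PI_Ω, smul_zero, sub_zero]

theorem A_Ω : S.A S.Ω = S.Ω := by
  rw [A_apply, TomB_P_Ω, TomB_PI_Ω, smul_zero, add_zero]

theorem R_inj {x : H} (h : S.R x = 0) : x = 0 := by
  have h1 := S.re_inner_R x
  rw [h, inner_zero_right, Complex.zero_re] at h1
  have h2 : ‖S.P x‖ ^ 2 = 0 := by nlinarith [sq_nonneg ‖S.P x‖, sq_nonneg ‖S.P (Complex.I • x)‖]
  have h3 : ‖S.P (Complex.I • x)‖ ^ 2 = 0 := by
    nlinarith [sq_nonneg ‖S.P x‖, sq_nonneg ‖S.P (Complex.I • x)‖]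
  have h4 : S.P x = 0 := norm_eq_zero.mp (pow_eq_zero_iff (two_ne_zero) |>.mp h2)
  have h5 : S.P (Complex.I • x) = 0 := norm_eq_zero.mp (pow_eq_zero_iff (two_ne_zero) |>.mp h3)
  refine TomB_zero S.cycM fun a ha hs => ?_
  refine TomB_ext ?_ ?_
  · rw [S.TomB_PI' h4 ha hs, Complex.zero_re]
  · rw [← inner_smul_right, S.TomB_PI' h5 ha hs, mul_zero, Complex.zero_re]

theorem R_inj2 {x : H} (h : S.R x = (2 : ℂ) • x) : x = 0 := by
  have h1 := S.re_inner_R x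
  have h0 : (⟪x, (2 : ℂ) • x⟫_ℂ).re = 2 * ‖x‖ ^ 2 := by
    have h' : ⟪x, x⟫_ℂ = ((‖x‖ : ℝ) : ℂ) ^ 2 := inner_self_eq_norm_sq_to_K _
    rw [inner_smul_right, h']
    norm_cast
  rw [h, h0] at h1
  have h2 := S.TomB_P_sq x
  have h3 := S.TomB_P_sq' x
  have h4 : ‖S.P x‖ ^ 2 = ‖x‖ ^ 2 := by linarith
  have h5 : ‖S.P (Complex.I • x)‖ ^ 2 = ‖Complex.I • x‖ ^ 2 := by
    rw [TomB_norm_I]; linarith
  have h6 : x ∈ S.K := (Submodule.mem_iff_norm_starProjection S.K x).mpr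
    ((pow_left_inj₀ (norm_nonneg _) (norm_nonneg _) two_ne_zero).mp h4)
  have h7 : Complex.I • x ∈ S.K := (Submodule.mem_iff_norm_starProjection S.K _).mpr
    ((pow_left_inj₀ (norm_nonneg _) (norm_nonneg _) two_ne_zero).mp h5)
  refine TomB_zero S.cycN fun b hb hs => ?_
  have h8 : (⟪x, Complex.I • b S.Ω⟫_ℂ).re = 0 :=
    S.K_le h6 _ fun a ha hsa => S.TomB_ab ha hsa hb hs
  have h9 : (⟪Complex.I • x, Complex.I • b S.Ω⟫_ℂ).re = 0 :=
    S.K_le h7 _ fun a ha hsa => S.TomB_ab ha hsa hb hs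
  have h10 : ⟪x, b S.Ω⟫_ℂ = 0 := by
    refine TomB_ext ?_ ?_
    · rw [TomB_I, TomB_II, inner_neg_right, Complex.neg_re, neg_neg] at h9
      rw [h9, Complex.zero_re]
    · rw [← inner_smul_right, h8, mul_zero, Complex.zero_re]
  rw [← inner_conj_symm, h10, map_zero]

/-- Vectors `e Ω` with `e` self-adjoint in the centralizer. -/
theorem R_cent {e : H →L[ℂ] H} (he : e ∈ S.M) (hs : star e = e)
    (h : ∀ a ∈ S.M, ⟪S.Ω, e (a S.Ω)⟫_ℂ = ⟪S.Ω, a (e S.Ω)⟫_ℂ) : S.R (e S.Ω) = e S.Ω := by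
  have h1 : S.P (Complex.I • e S.Ω) = 0 := by
    refine S.TomB_PI fun a ha hsa => TomB_real ?_
    have h2 : ⟪a S.Ω, e S.Ω⟫_ℂ = ⟪S.Ω, a (e S.Ω)⟫_ℂ := by rw [TomB_star a, hsa]
    have h3 : ⟪e S.Ω, a S.Ω⟫_ℂ = ⟪S.Ω, e (a S.Ω)⟫_ℂ := by rw [TomB_star e, hs]
    rw [h2, h3, h a ha]
  rw [R_apply, S.P_of he hs, h1, smul_zero, sub_zero]

end Std

end Pool.Agent.MP_86f3ed.Ty
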