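import Mathlib

open scoped Topology
open Filter MeasureTheory

namespace Pool.Agent.MP_86f3ed.Ty

/-- The scalar kernel. -/
noncomputable def ker (a b τ : ℝ) : ℝ :=
  2 * Real.sqrt (a * b) / (Real.exp τ * a + Real.exp (-τ) * b)

theorem ker_nonneg {a b : ℝ} (ha : 0 ≤ a) (hb : 0 ≤ b) (τ : ℝ) : 0 ≤ ker a b τ := by
  unfold ker
  positivity

theorem ker_le_one {a b : ℝ} (ha : 0 ≤ a) (hb : 0 ≤ b) (τ : ℝ) : ker a b τ ≤ 1 := by
  unfold ker
  apply div_le_one_of_le₀ _ (by positivity)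
  have h1 : Real.exp τ * Real.exp (-τ) = 1 := by rw [← Real.exp_add]; simp
  have h2 : a * b = (Real.exp τ * a) * (Real.exp (-τ) * b) := by
    calc a * b = (Real.exp τ * Real.exp (-τ)) * (a * b) := by rw [h1, one_mul]
      _ = _ := by ring
  have h3 : 0 ≤ Real.exp τ * a := by positivity
  have h4 : 0 ≤ Real.exp (-τ) * b := by positivity
  have h5 : Real.sqrt (a * b) ≤ (Real.exp τ * a + Real.exp (-τ) * b) / 2 := by
    apply Real.sqrt_le_iff.2
    refine ⟨by positivity, ?_⟩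
    rw [h2]
    nlinarith [sq_nonneg (Real.exp τ * a - Real.exp (-τ) * b)]
  linarith

theorem ker_continuous {a b : ℝ} (ha : 0 < a) (hb : 0 < b) : Continuous (ker a b) := by
  unfold ker
  refine Continuous.div (by fun_prop) (by fun_prop) ?_
  intro τ
  positivity

theorem ker_le {a b δ C : ℝ} (hδ : 0 < δ) (ha : δ ≤ a) (hb : δ ≤ b) (ha' : a ≤ C) (hb' : b ≤ C)
    (τ : ℝ) : ker a b τ ≤ 2 * C / (δ * (Real.exp τ + Real.exp (-τ))) := by
  unfold ker
  have ha0 : 0 < a := lt_of_lt_of_le hδ ha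
  have hb0 : 0 < b := lt_of_lt_of_le hδ hb
  have hC : 0 < C := lt_of_lt_of_le ha0 ha'
  have h1 : Real.sqrt (a * b) ≤ C := by
    apply Real.sqrt_le_iff.2
    refine ⟨hC.le, ?_⟩
    nlinarith
  have e1 := Real.exp_pos τ
  have e2 := Real.exp_pos (-τ)
  have h2 : δ * (Real.exp τ + Real.exp (-τ)) ≤ Real.exp τ * a + Real.exp (-τ) * b := by
    nlinarith
  have h3 : 0 < δ * (Real.exp τ + Real.exp (-τ)) := by positivity
  exact div_le_div₀ (by positivity) (by linarith) h3 h2

theorem TomC2_eq {a b : ℝ} (ha : 0 < a) (hb : 0 < b) (τ : ℝ) :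
    ker a b τ = 2 * (Real.exp τ * Real.sqrt (a / b) /
      (1 + (Real.exp τ * Real.sqrt (a / b)) ^ 2)) := by
  unfold ker
  have e1 := Real.exp_pos τ
  have h1 : Real.sqrt (a * b) = Real.sqrt (a / b) * b := by
    have h2 : a * b = (a / b) * b ^ 2 := by field_simp
    rw [h2, Real.sqrt_mul (by positivity), Real.sqrt_sq hb.le]
  have h3 : (Real.exp τ * Real.sqrt (a / b)) ^ 2 = Real.exp τ ^ 2 * (a / b) := by
    rw [mul_pow, Real.sq_sqrt (by positivity)]
  rw [h1, h3, Real.exp_neg]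
  have h4 : 0 < 1 + Real.exp τ ^ 2 * (a / b) := by positivity
  have h5 : 0 < Real.exp τ * a + (Real.exp τ)⁻¹ * b := by positivity
  rw [mul_div_assoc', div_eq_div_iff h5.ne' h4.ne']
  field_simp
  ring

theorem TomC2_int {a b : ℝ} (ha : 0 < a) (hb : 0 < b) (c : ℝ) :
    ∫ τ in (-c)..c, ker a b τ =
      2 * Real.arctan (Real.exp c * Real.sqrt (a / b)) -
        2 * Real.arctan (Real.exp (-c) * Real.sqrt (a / b)) := by
  refine intervalIntegral.integral_eq_sub_of_hasDerivAt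
    (f := fun τ => 2 * Real.arctan (Real.exp τ * Real.sqrt (a / b))) ?_
    ((ker_continuous ha hb).intervalIntegrable _ _)
  intro τ _
  rw [TomC2_eq ha hb]
  have h1 : HasDerivAt (fun τ : ℝ => Real.exp τ * Real.sqrt (a / b))
      (Real.exp τ * Real.sqrt (a / b)) τ := (Real.hasDerivAt_exp τ).mul_const _
  have h2 := (h1.arctan).const_mul (2 : ℝ)
  have h3 : 2 * (Real.exp τ * Real.sqrt (a / b) / (1 + (Real.exp τ * Real.sqrt (a / b)) ^ 2)) =
      2 * (1 / (1 + (Real.exp τ * Real.sqrt (a / b)) ^ 2) * (Real.exp τ * Real.sqrt (a / b))) := by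
    ring
  rw [h3]
  exact h2

theorem TomC2_zero {a b : ℝ} (h : a = 0 ∨ b = 0) (τ : ℝ) : ker a b τ = 0 := by
  unfold ker
  have h1 : a * b = 0 := by rcases h with h | h <;> rw [h] <;> ring
  rw [h1]
  simp

theorem TomC2_cases {a b : ℝ} (ha : 0 ≤ a) (hb : 0 ≤ b) : (a = 0 ∨ b = 0) ∨ (0 < a ∧ 0 < b) := by
  rcases ha.eq_or_lt with h | h
  · exact Or.inl (Or.inl h.symm)
  · rcases hb.eq_or_lt with h' | h'
    · exact Or.inl (Or.inr h'.symm)
    · exact Or.inr ⟨h, h'⟩

theorem integral_ker_le {a b : ℝ} (ha : 0 ≤ a) (hb : 0 ≤ b) (c : ℝ) :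
    ∫ τ in (-c)..c, ker a b τ ≤ Real.pi := by
  rcases TomC2_cases ha hb with h | ⟨h, h'⟩
  · have h1 : (fun τ => ker a b τ) = fun _ => (0 : ℝ) := funext (TomC2_zero h)
    rw [h1]
    simp [Real.pi_pos.le]
  · rw [TomC2_int h h']
    have h1 := Real.arctan_lt_pi_div_two (Real.exp c * Real.sqrt (a / b))
    have h2 : 0 ≤ Real.arctan (Real.exp (-c) * Real.sqrt (a / b)) :=
      Real.arctan_nonneg.2 (by positivity)
    linarith

theorem integral_ker_nonneg {a b : ℝ} (ha : 0 ≤ a) (hb : 0 ≤ b) {c : ℝ} (hc : 0 ≤ c) :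
    0 ≤ ∫ τ in (-c)..c, ker a b τ :=
  intervalIntegral.integral_nonneg (by linarith) fun τ _ => ker_nonneg ha hb τ

theorem TomC2_top {r : ℝ} (hr : 0 < r) :
    Tendsto (fun c : ℝ => Real.arctan (Real.exp c * r)) atTop (𝓝 (Real.pi / 2)) := by
  have h1 : Tendsto (fun c : ℝ => Real.exp c * r) atTop atTop :=
    Real.tendsto_exp_atTop.atTop_mul_const hr
  exact (Real.tendsto_arctan_atTop.mono_right nhdsWithin_le_nhds).comp h1

theorem TomC2_bot (r : ℝ) :
    Tendsto (fun c : ℝ => Real.arctan (Real.exp (-c) * r)) atTop (𝓝 0) := by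
  have h1 : Tendsto (fun c : ℝ => Real.exp (-c) * r) atTop (𝓝 (0 * r)) :=
    (Real.tendsto_exp_neg_atTop_nhds_zero).mul_const r
  rw [zero_mul] at h1
  have h2 := (Real.continuous_arctan.tendsto 0).comp h1
  rwa [Real.arctan_zero] at h2

theorem tendsto_integral_ker {a b : ℝ} (ha : 0 < a) (hb : 0 < b) :
    Tendsto (fun c : ℝ => ∫ τ in (-c)..c, ker a b τ) atTop (𝓝 Real.pi) := by
  have h1 : (fun c : ℝ => ∫ τ in (-c)..c, ker a b τ) = fun c : ℝ =>
      2 * Real.arctan (Real.exp c * Real.sqrt (a / b)) -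
        2 * Real.arctan (Real.exp (-c) * Real.sqrt (a / b)) := funext (TomC2_int ha hb)
  rw [h1]
  have hr : 0 < Real.sqrt (a / b) := by positivity
  have h2 := ((TomC2_top hr).const_mul 2).sub ((TomC2_bot (Real.sqrt (a / b))).const_mul 2)
  have h3 : 2 * (Real.pi / 2) - 2 * 0 = Real.pi := by ring
  rwa [h3] at h2

/-- Uniform convergence after multiplication by `a b`. -/
theorem tendsto_integral_ker_unif {ε : ℝ} (hε : 0 < ε) :
    ∃ c₀ : ℝ, ∀ c, c₀ ≤ c → ∀ s ∈ Set.Icc (0 : ℝ) 2,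
      s * (2 - s) * (Real.pi - ∫ τ in (-c)..c, ker s (2 - s) τ) ≤ ε := by
  have hpi := Real.pi_pos
  set η : ℝ := ε / (2 * Real.pi) with hη
  have hη0 : 0 < η := by positivity
  set m := Real.sqrt (η / 2) with hm
  set M := Real.sqrt (2 / η) with hM
  have hm0 : 0 < m := by positivity
  have hM0 : 0 < M := by positivity
  have h2 := ((TomC2_top hm0).const_mul 2).sub ((TomC2_bot M).const_mul 2)
  have h3 : 2 * (Real.pi / 2) - 2 * 0 = Real.pi := by ring
  rw [h3] at h2
  have h4 := h2.eventually (lt_mem_nhds (show Real.pi - ε < Real.pi by linarith))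
  obtain ⟨c₁, hc₁⟩ := eventually_atTop.1 h4
  refine ⟨max c₁ 0, ?_⟩
  intro c hc s hs
  obtain ⟨hs0, hs2⟩ := hs
  have hc1 : c₁ ≤ c := (le_max_left _ _).trans hc
  have hc0 : 0 ≤ c := (le_max_right _ _).trans hc
  have h5 : 0 ≤ 2 - s := by linarith
  have h6 : 0 ≤ s * (2 - s) := mul_nonneg hs0 h5
  have h7 : s * (2 - s) ≤ 1 := by nlinarith [sq_nonneg (s - 1)]
  have h8 := integral_ker_le hs0 h5 c
  have h9 := integral_ker_nonneg hs0 h5 hc0
  by_cases hsmall : s * (2 - s) * Real.pi ≤ ε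
  · nlinarith
  · push Not at hsmall
    have h10 : η < s := by
      rw [hη, div_lt_iff₀ (by positivity)]
      nlinarith
    have h11 : η < 2 - s := by
      rw [hη, div_lt_iff₀ (by positivity)]
      nlinarith
    have hs' : 0 < s := hη0.trans h10
    have hs'' : 0 < 2 - s := hη0.trans h11
    have hr1 : m ≤ Real.sqrt (s / (2 - s)) := by
      apply Real.sqrt_le_sqrt
      rw [div_le_div_iff₀ (by norm_num) hs'']
      nlinarith
    have hr2 : Real.sqrt (s / (2 - s)) ≤ M := by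
      apply Real.sqrt_le_sqrt
      rw [div_le_div_iff₀ hs'' hη0]
      nlinarith
    have h12 := hc₁ c hc1
    have h13 : Real.arctan (Real.exp c * m) ≤
        Real.arctan (Real.exp c * Real.sqrt (s / (2 - s))) :=
      Real.arctan_mono (mul_le_mul_of_nonneg_left hr1 (Real.exp_pos c).le)
    have h14 : Real.arctan (Real.exp (-c) * Real.sqrt (s / (2 - s))) ≤
        Real.arctan (Real.exp (-c) * M) :=
      Real.arctan_mono (mul_le_mul_of_nonneg_left hr2 (Real.exp_pos (-c)).le)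
    have h15 := TomC2_int hs' hs'' c
    nlinarith

/-- The weight `1 / (e^τ + e^{-τ})` is half of the kernel. -/
theorem TomC2_weight (τ : ℝ) : 1 / (Real.exp τ + Real.exp (-τ)) = (1 / 2) * ker 1 1 τ := by
  unfold ker
  rw [mul_one, mul_one, mul_one, Real.sqrt_one]
  have : 0 < Real.exp τ + Real.exp (-τ) := by positivity
  field_simp

theorem integral_weight_le (c : ℝ) (hc : 0 ≤ c) :
    ∫ τ in (-c)..c, 1 / (Real.exp τ + Real.exp (-τ)) ≤ Real.pi := by
  have h1 : (fun τ : ℝ => 1 / (Real.exp τ + Real.exp (-τ))) = fun τ => (1 / 2) * ker 1 1 τ :=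
    funext TomC2_weight
  rw [h1, intervalIntegral.integral_const_mul]
  have h2 := integral_ker_le (a := 1) (b := 1) (by norm_num) (by norm_num) c
  have h3 := integral_ker_nonneg (a := 1) (b := 1) (by norm_num) (by norm_num) hc
  linarith

/-- The weight `1 / (e^τ + e^{-τ})` is integrable. -/
theorem integrable_weight : Integrable fun τ : ℝ => 1 / (Real.exp τ + Real.exp (-τ)) := by
  have hcont : Continuous fun τ : ℝ => 1 / (Real.exp τ + Real.exp (-τ)) := by
    refine Continuous.div (by fun_prop) (by fun_prop) ?_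
    intro τ
    positivity
  refine integrable_of_intervalIntegral_norm_bounded (l := atTop) (a := fun c : ℝ => -c)
    (b := fun c : ℝ => c) Real.pi ?_ tendsto_neg_atTop_atBot tendsto_id ?_
  · intro c
    exact (hcont.integrableOn_Icc (a := -c) (b := c)).mono_set Set.Ioc_subset_Icc_self
  · filter_upwards [eventually_ge_atTop (0 : ℝ)] with c hc
    have h1 : (fun τ : ℝ => ‖1 / (Real.exp τ + Real.exp (-τ))‖) =
        fun τ => 1 / (Real.exp τ + Real.exp (-τ)) := by
      funext τ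
      rw [Real.norm_of_nonneg (by positivity)]
    rw [h1]
    exact integral_weight_le c hc

end Pool.Agent.MP_86f3ed.Ty
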