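import Pool.Agent.H.MP_86f3ed_an.Ty.TomC1
import Pool.Agent.H.MP_86f3ed_an.Ty.TomC2

open scoped InnerProductSpace Topology
open Filter ContinuousLinearMap

namespace Pool.Agent.MP_86f3ed.Ty

open Pin

variable {H : Type*} [NormedAddCommGroup H] [InnerProductSpace ℂ H] [CompleteSpace H]

theorem TomC_mul_sum {n : ℕ} (E : Fin n → H →L[ℂ] H) (γ : Fin n → ℝ)
    (hEE : ∀ k l, E k * E l = if k = l then E k else 0) (k : Fin n) :
    E k * (∑ l, (γ l : ℂ) • E l) = (γ k : ℂ) • E k := by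
  rw [Finset.mul_sum]
  have h : ∀ l, E k * ((γ l : ℂ) • E l) = if k = l then (γ k : ℂ) • E k else 0 := by
    intro l
    rw [mul_smul_comm, hEE]
    split
    · next h => rw [h]
    · simp
  rw [Finset.sum_congr rfl fun l _ => h l, Finset.sum_ite_eq, if_pos (Finset.mem_univ _)]

theorem TomC_sum_mul {n : ℕ} (E : Fin n → H →L[ℂ] H) (γ : Fin n → ℝ)
    (hEE : ∀ k l, E k * E l = if k = l then E k else 0) (k : Fin n) :
    (∑ l, (γ l : ℂ) • E l) * E k = (γ k : ℂ) • E k := by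
  rw [Finset.sum_mul]
  have h : ∀ l, ((γ l : ℂ) • E l) * E k = if l = k then (γ k : ℂ) • E k else 0 := by
    intro l
    rw [smul_mul_assoc, hEE]
    split
    · next h => rw [h]
    · simp
  rw [Finset.sum_congr rfl fun l _ => h l, Finset.sum_ite_eq', if_pos (Finset.mem_univ _)]

theorem TomC_low {n : ℕ} (E : Fin n → H →L[ℂ] H) (γ : Fin n → ℝ) {δ : ℝ}
    (hE : ∀ k, star (E k) = E k)
    (hEE : ∀ k l, E k * E l = if k = l then E k else 0) (h1 : ∑ k, E k = 1)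
    (hγ : ∀ k, δ ≤ γ k) (x : H) :
    δ * ‖x‖ ^ 2 ≤ (⟪x, (∑ k, (γ k : ℂ) • E k) x⟫_ℂ).re := by
  have key : ∀ k, (⟪x, E k x⟫_ℂ).re = ‖E k x‖ ^ 2 := by
    intro k
    have h2 : E k x = E k (E k x) := by
      have := congrArg (fun S : H →L[ℂ] H => S x) (hEE k k)
      simpa using this.symm
    have h3 : ⟪x, E k (E k x)⟫_ℂ = ⟪E k x, E k x⟫_ℂ := by
      have h4 : E k x = (ContinuousLinearMap.adjoint (E k)) x := by
        rw [← ContinuousLinearMap.star_eq_adjoint, hE k]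
      conv_rhs => rw [h4, ContinuousLinearMap.adjoint_inner_left]
      rw [← h4]
    rw [h2, h3]
    rw [← h2, inner_self_eq_norm_sq_to_K]
    norm_cast
  have h2 : ‖x‖ ^ 2 = ∑ k, ‖E k x‖ ^ 2 := by
    have h3 : (⟪x, (∑ k, E k) x⟫_ℂ).re = ‖x‖ ^ 2 := by
      rw [h1, ContinuousLinearMap.one_apply, inner_self_eq_norm_sq_to_K]
      norm_cast
    rw [← h3, ContinuousLinearMap.sum_apply, inner_sum, Complex.re_sum]
    exact Finset.sum_congr rfl fun k _ => key k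
  rw [h2, ContinuousLinearMap.sum_apply, inner_sum, Complex.re_sum, Finset.mul_sum]
  refine Finset.sum_le_sum fun k _ => ?_
  rw [ContinuousLinearMap.smul_apply, inner_smul_right, Complex.re_ofReal_mul, key k]
  exact mul_le_mul_of_nonneg_right (hγ k) (by positivity)

/-- the approximations -/
noncomputable def TomC_y {m n : ℕ} (E : Fin m → H →L[ℂ] H) (γ : Fin m → ℝ)
    (F : Fin n → H →L[ℂ] H) (ρ : Fin n → ℝ) (Y : H →L[ℂ] H) (τ : ℝ) : H →L[ℂ] H :=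
  ∑ j, ∑ l, (ker (ρ l) (γ j) τ : ℂ) • (E j * Y * F l)

theorem TomC_y_eq {m n : ℕ} (E : Fin m → H →L[ℂ] H) (γ : Fin m → ℝ)
    (F : Fin n → H →L[ℂ] H) (ρ : Fin n → ℝ) (Y : H →L[ℂ] H) (τ : ℝ)
    (hE : ∀ k, star (E k) = E k) (hF : ∀ k, star (F k) = F k)
    (hEE : ∀ k l, E k * E l = if k = l then E k else 0)
    (hFF : ∀ k l, F k * F l = if k = l then F k else 0)
    (hγ : ∀ k, 0 < γ k) (hρ : ∀ k, 0 < ρ k) :
    (Real.exp τ : ℂ) • (TomC_y E γ F ρ Y τ * (∑ l, (ρ l : ℂ) • F l)) +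
      (Real.exp (-τ) : ℂ) • ((∑ j, (γ j : ℂ) • E j) * TomC_y E γ F ρ Y τ) =
      (2 : ℂ) • (CFC.sqrt (∑ j, (γ j : ℂ) • E j) * Y * CFC.sqrt (∑ l, (ρ l : ℂ) • F l)) := by
  rw [sqrt_fin_spec E γ hE hEE fun k => (hγ k).le, sqrt_fin_spec F ρ hF hFF fun k => (hρ k).le]
  have h1 : TomC_y E γ F ρ Y τ * (∑ l, (ρ l : ℂ) • F l) =
      ∑ j, ∑ l, ((ker (ρ l) (γ j) τ : ℂ) * (ρ l : ℂ)) • (E j * Y * F l) := by
    unfold TomC_y
    rw [Finset.sum_mul]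
    refine Finset.sum_congr rfl fun j _ => ?_
    rw [Finset.sum_mul]
    refine Finset.sum_congr rfl fun l _ => ?_
    rw [smul_mul_assoc, mul_assoc (E j * Y), TomC_mul_sum F ρ hFF, mul_smul_comm, smul_smul]
  have h2 : (∑ j, (γ j : ℂ) • E j) * TomC_y E γ F ρ Y τ =
      ∑ j, ∑ l, ((ker (ρ l) (γ j) τ : ℂ) * (γ j : ℂ)) • (E j * Y * F l) := by
    unfold TomC_y
    rw [Finset.mul_sum]
    refine Finset.sum_congr rfl fun j _ => ?_
    rw [Finset.mul_sum]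
    refine Finset.sum_congr rfl fun l _ => ?_
    rw [mul_smul_comm, ← mul_assoc, ← mul_assoc, TomC_sum_mul E γ hEE, smul_mul_assoc,
      smul_mul_assoc, smul_smul]
  have h3 : (∑ j, (Real.sqrt (γ j) : ℂ) • E j) * Y * (∑ l, (Real.sqrt (ρ l) : ℂ) • F l) =
      ∑ j, ∑ l, ((Real.sqrt (γ j) : ℂ) * (Real.sqrt (ρ l) : ℂ)) • (E j * Y * F l) := by
    rw [Finset.sum_mul, Finset.sum_mul]
    refine Finset.sum_congr rfl fun j _ => ?_
    rw [Finset.mul_sum]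
    refine Finset.sum_congr rfl fun l _ => ?_
    rw [smul_mul_assoc, smul_mul_assoc, mul_smul_comm, smul_smul]
  rw [h1, h2, h3, Finset.smul_sum, Finset.smul_sum, Finset.smul_sum, ← Finset.sum_add_distrib]
  refine Finset.sum_congr rfl fun j _ => ?_
  rw [Finset.smul_sum, Finset.smul_sum, Finset.smul_sum, ← Finset.sum_add_distrib]
  refine Finset.sum_congr rfl fun l _ => ?_
  rw [smul_smul, smul_smul, smul_smul, ← add_smul]
  congr 1
  have hpos : 0 < Real.exp τ * ρ l + Real.exp (-τ) * γ j :=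
    add_pos (mul_pos (Real.exp_pos _) (hρ l)) (mul_pos (Real.exp_pos _) (hγ j))
  have h4 : Real.exp τ * (ker (ρ l) (γ j) τ * ρ l) + Real.exp (-τ) * (ker (ρ l) (γ j) τ * γ j) =
      2 * (Real.sqrt (γ j) * Real.sqrt (ρ l)) := by
    unfold ker
    rw [Real.sqrt_mul (hρ l).le]
    field_simp
  exact_mod_cast h4

theorem TomC_y_inner {m n : ℕ} (E : Fin m → H →L[ℂ] H) (γ : Fin m → ℝ)
    (F : Fin n → H →L[ℂ] H) (ρ : Fin n → ℝ) (Y : H →L[ℂ] H) (τ : ℝ) (u v : H) :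
    ⟪u, TomC_y E γ F ρ Y τ v⟫_ℂ =
      ∑ j, ∑ l, (ker (ρ l) (γ j) τ : ℂ) * ⟪u, (E j * Y * F l) v⟫_ℂ := by
  unfold TomC_y
  rw [ContinuousLinearMap.sum_apply, inner_sum]
  refine Finset.sum_congr rfl fun j _ => ?_
  rw [ContinuousLinearMap.sum_apply, inner_sum]
  refine Finset.sum_congr rfl fun l _ => ?_
  rw [ContinuousLinearMap.smul_apply, inner_smul_right]

theorem TomC_y_cont {m n : ℕ} (E : Fin m → H →L[ℂ] H) (γ : Fin m → ℝ)
    (F : Fin n → H →L[ℂ] H) (ρ : Fin n → ℝ) (Y : H →L[ℂ] H)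
    (hγ : ∀ k, 0 < γ k) (hρ : ∀ k, 0 < ρ k) (u v : H) :
    Continuous fun τ => ⟪u, TomC_y E γ F ρ Y τ v⟫_ℂ := by
  simp_rw [TomC_y_inner]
  refine continuous_finset_sum _ fun j _ => continuous_finset_sum _ fun l _ => ?_
  exact (Complex.continuous_ofReal.comp (ker_continuous (hρ l) (hγ j))).mul continuous_const

theorem TomC_y_lim {m n : ℕ} (E : Fin m → H →L[ℂ] H) (γ : Fin m → ℝ)
    (F : Fin n → H →L[ℂ] H) (ρ : Fin n → ℝ) (Y : H →L[ℂ] H)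
    (hE1 : ∑ k, E k = 1) (hF1 : ∑ k, F k = 1)
    (hγ : ∀ k, 0 < γ k) (hρ : ∀ k, 0 < ρ k) (u v : H) :
    Tendsto (fun c : ℝ => ∫ τ in (-c)..c, ⟪u, TomC_y E γ F ρ Y τ v⟫_ℂ) atTop
      (𝓝 (Real.pi * ⟪u, Y v⟫_ℂ)) := by
  have hc : ∀ j l, Continuous fun τ => (ker (ρ l) (γ j) τ : ℂ) * ⟪u, (E j * Y * F l) v⟫_ℂ :=
    fun j l => (Complex.continuous_ofReal.comp (ker_continuous (hρ l) (hγ j))).mul
      continuous_const
  have h1 : ∀ c : ℝ, ∫ τ in (-c)..c, ⟪u, TomC_y E γ F ρ Y τ v⟫_ℂ =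
      ∑ j, ∑ l, ((∫ τ in (-c)..c, ker (ρ l) (γ j) τ : ℝ) : ℂ) * ⟪u, (E j * Y * F l) v⟫_ℂ := by
    intro c
    simp_rw [TomC_y_inner]
    rw [intervalIntegral.integral_finset_sum fun j _ =>
      (continuous_finset_sum _ fun l _ => hc j l).intervalIntegrable _ _]
    refine Finset.sum_congr rfl fun j _ => ?_
    rw [intervalIntegral.integral_finset_sum fun l _ => (hc j l).intervalIntegrable _ _]
    refine Finset.sum_congr rfl fun l _ => ?_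
    rw [intervalIntegral.integral_mul_const, intervalIntegral.integral_ofReal]
  simp_rw [h1]
  have h2 : (Real.pi : ℂ) * ⟪u, Y v⟫_ℂ = ∑ j, ∑ l, (Real.pi : ℂ) * ⟪u, (E j * Y * F l) v⟫_ℂ := by
    simp_rw [← Finset.mul_sum, ← inner_sum]
    congr 2
    have h3 : Y = (∑ j, E j) * Y * (∑ l, F l) := by rw [hE1, hF1, one_mul, mul_one]
    conv_lhs => rw [h3, Finset.sum_mul, Finset.sum_mul, ContinuousLinearMap.sum_apply]
    refine Finset.sum_congr rfl fun j _ => ?_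
    rw [Finset.mul_sum, ContinuousLinearMap.sum_apply]
  rw [h2]
  refine tendsto_finset_sum _ fun j _ => tendsto_finset_sum _ fun l _ => ?_
  refine Tendsto.mul_const _ ?_
  exact (Complex.continuous_ofReal.tendsto _).comp (tendsto_integral_ker (hρ l) (hγ j))

/-- The approximation of the solution, with a uniform constant. -/
theorem TomC_approx {g₁ g₂ Y : H →L[ℂ] H} {δ : ℝ} (hδ : 0 < δ) (hs₁ : star g₁ = g₁)
    (hs₂ : star g₂ = g₂) (h₁ : ∀ x, δ * ‖x‖ ^ 2 ≤ (⟪x, g₁ x⟫_ℂ).re)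
    (h₂ : ∀ x, δ * ‖x‖ ^ 2 ≤ (⟪x, g₂ x⟫_ℂ).re) (y : ℝ → H →L[ℂ] H)
    (hy : ∀ τ : ℝ, (Real.exp τ : ℂ) • (y τ * g₂) + (Real.exp (-τ) : ℂ) • (g₁ * y τ) =
      (2 : ℂ) • (CFC.sqrt g₁ * Y * CFC.sqrt g₂)) :
    ∃ M : ℝ, 0 ≤ M ∧ ∀ ε : ℝ, 0 < ε → ε ≤ 1 → ∃ z : ℝ → H →L[ℂ] H,
      (∀ u v, Continuous fun τ => ⟪u, z τ v⟫_ℂ) ∧
      (∀ u v, Tendsto (fun c : ℝ => ∫ τ in (-c)..c, ⟪u, z τ v⟫_ℂ) atTop
        (𝓝 (Real.pi * ⟪u, Y v⟫_ℂ))) ∧
      ∀ τ, ‖y τ - z τ‖ ≤ ε * M * (1 / (Real.exp τ + Real.exp (-τ))) := by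
  set K : ℝ := 1 / (2 * Real.sqrt δ) with hK
  have hK0 : 0 ≤ K := by positivity
  set S₁ : ℝ := ‖CFC.sqrt g₁‖
  set S₂ : ℝ := ‖CFC.sqrt g₂‖
  have hS₁ : 0 ≤ S₁ := norm_nonneg _
  have hS₂ : 0 ≤ S₂ := norm_nonneg _
  set B : ℝ := 2 * ((S₁ + K) * ‖Y‖ * (S₂ + K)) / δ with hB
  have hB0 : 0 ≤ B := by positivity
  refine ⟨(2 * (K * ‖Y‖ * (S₁ + S₂ + K)) + B) / δ, by positivity, ?_⟩
  intro ε hε hε1
  obtain ⟨m, E, γ, hE, hEE, hE1, hγ, -, hgE⟩ := exists_fin_spec hs₁ hδ h₁ hε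
  obtain ⟨n, F, ρ, hF, hFF, hF1, hρ, -, hgF⟩ := exists_fin_spec hs₂ hδ h₂ hε
  have hγ0 : ∀ k, 0 < γ k := fun k => lt_of_lt_of_le hδ (hγ k)
  have hρ0 : ∀ k, 0 < ρ k := fun k => lt_of_lt_of_le hδ (hρ k)
  set G₁ : H →L[ℂ] H := ∑ j, (γ j : ℂ) • E j with hG₁
  set G₂ : H →L[ℂ] H := ∑ l, (ρ l : ℂ) • F l with hG₂
  have hl₁ : ∀ x, δ * ‖x‖ ^ 2 ≤ (⟪x, G₁ x⟫_ℂ).re := TomC_low E γ hE hEE hE1 hγ
  have hl₂ : ∀ x, δ * ‖x‖ ^ 2 ≤ (⟪x, G₂ x⟫_ℂ).re := TomC_low F ρ hF hFF hF1 hρ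
  have hsG₁ : star G₁ = G₁ := by
    rw [hG₁, star_sum]
    refine Finset.sum_congr rfl fun j _ => ?_
    rw [star_smul, hE j]
    simp
  have hsG₂ : star G₂ = G₂ := by
    rw [hG₂, star_sum]
    refine Finset.sum_congr rfl fun j _ => ?_
    rw [star_smul, hF j]
    simp
  have hr₁ : ‖CFC.sqrt g₁ - CFC.sqrt G₁‖ ≤ ε * K := by
    refine (norm_sqrt_sub_le hδ hs₁ hsG₁ h₁ hl₁).trans ?_
    rw [hK, mul_one_div]
    gcongr
  have hr₂ : ‖CFC.sqrt g₂ - CFC.sqrt G₂‖ ≤ ε * K := by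
    refine (norm_sqrt_sub_le hδ hs₂ hsG₂ h₂ hl₂).trans ?_
    rw [hK, mul_one_div]
    gcongr
  have hεK : ε * K ≤ K := by nlinarith
  have hn₁ : ‖CFC.sqrt G₁‖ ≤ S₁ + K := by
    have : CFC.sqrt G₁ = CFC.sqrt g₁ - (CFC.sqrt g₁ - CFC.sqrt G₁) := by abel
    rw [this]
    exact (norm_sub_le _ _).trans (by linarith)
  have hn₂ : ‖CFC.sqrt G₂‖ ≤ S₂ + K := by
    have : CFC.sqrt G₂ = CFC.sqrt g₂ - (CFC.sqrt g₂ - CFC.sqrt G₂) := by abel
    rw [this]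
    exact (norm_sub_le _ _).trans (by linarith)
  refine ⟨TomC_y E γ F ρ Y, TomC_y_cont E γ F ρ Y hγ0 hρ0, TomC_y_lim E γ F ρ Y hE1 hF1 hγ0 hρ0,
    ?_⟩
  intro τ
  set z : H →L[ℂ] H := TomC_y E γ F ρ Y τ with hz
  have hzeq := TomC_y_eq E γ F ρ Y τ hE hF hEE hFF hγ0 hρ0
  rw [← hG₁, ← hG₂, ← hz] at hzeq
  set p : ℝ := Real.exp τ with hp
  set q : ℝ := Real.exp (-τ) with hq
  have hp0 : 0 < p := Real.exp_pos _
  have hq0 : 0 < q := Real.exp_pos _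
  -- the bound of z
  have hzb : δ * (p + q) * ‖z‖ ≤ 2 * ((S₁ + K) * ‖Y‖ * (S₂ + K)) := by
    refine (sylv_lower hδ.le hp0.le hq0.le hl₁ hl₂ z).trans ?_
    rw [hzeq, norm_smul]
    have h3 : ‖(2 : ℂ)‖ = 2 := by simp
    rw [h3]
    refine mul_le_mul_of_nonneg_left ?_ (by norm_num)
    refine (norm_mul_le _ _).trans ?_
    refine mul_le_mul ((norm_mul_le _ _).trans ?_) hn₂ (norm_nonneg _) (by positivity)
    exact mul_le_mul_of_nonneg_right hn₁ (norm_nonneg _)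
  have hzB : (p + q) * ‖z‖ ≤ B := by
    rw [hB, le_div_iff₀ hδ]
    nlinarith
  -- the difference
  have hd : (p : ℂ) • ((y τ - z) * g₂) + (q : ℂ) • (g₁ * (y τ - z)) =
      (2 : ℂ) • ((CFC.sqrt g₁ - CFC.sqrt G₁) * Y * CFC.sqrt g₂ +
        CFC.sqrt G₁ * Y * (CFC.sqrt g₂ - CFC.sqrt G₂)) -
      ((p : ℂ) • (z * (g₂ - G₂)) + (q : ℂ) • ((g₁ - G₁) * z)) := by
    have e1 : (p : ℂ) • ((y τ - z) * g₂) + (q : ℂ) • (g₁ * (y τ - z)) =
        ((p : ℂ) • (y τ * g₂) + (q : ℂ) • (g₁ * y τ)) -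
        ((p : ℂ) • (z * G₂) + (q : ℂ) • (G₁ * z)) -
        ((p : ℂ) • (z * (g₂ - G₂)) + (q : ℂ) • ((g₁ - G₁) * z)) := by
      rw [sub_mul, mul_sub, mul_sub, sub_mul]
      simp only [smul_sub]
      abel
    rw [e1, hy τ, hzeq, ← smul_sub]
    congr 2
    rw [sub_mul, sub_mul, mul_sub]
    abel
  have hdn : δ * (p + q) * ‖y τ - z‖ ≤ ε * (2 * (K * ‖Y‖ * (S₁ + S₂ + K)) + B) := by
    refine (sylv_lower hδ.le hp0.le hq0.le h₁ h₂ (y τ - z)).trans ?_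
    rw [hd]
    refine (norm_sub_le _ _).trans ?_
    have b1 : ‖(2 : ℂ) • ((CFC.sqrt g₁ - CFC.sqrt G₁) * Y * CFC.sqrt g₂ +
        CFC.sqrt G₁ * Y * (CFC.sqrt g₂ - CFC.sqrt G₂))‖ ≤
        2 * (ε * K * ‖Y‖ * S₂ + (S₁ + K) * ‖Y‖ * (ε * K)) := by
      rw [norm_smul]
      have h3 : ‖(2 : ℂ)‖ = 2 := by simp
      rw [h3]
      refine mul_le_mul_of_nonneg_left ?_ (by norm_num)
      refine (norm_add_le _ _).trans (add_le_add ?_ ?_)
      · refine (norm_mul_le _ _).trans ?_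
        refine mul_le_mul_of_nonneg_right ((norm_mul_le _ _).trans ?_) hS₂
        exact mul_le_mul_of_nonneg_right hr₁ (norm_nonneg _)
      · refine (norm_mul_le _ _).trans ?_
        refine mul_le_mul ((norm_mul_le _ _).trans ?_) hr₂ (norm_nonneg _) (by positivity)
        exact mul_le_mul_of_nonneg_right hn₁ (norm_nonneg _)
    have b2 : ‖(p : ℂ) • (z * (g₂ - G₂)) + (q : ℂ) • ((g₁ - G₁) * z)‖ ≤ ε * B := by
      have b3 : ‖(p : ℂ) • (z * (g₂ - G₂))‖ ≤ p * (‖z‖ * ε) := by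
        rw [norm_smul, Complex.norm_real, Real.norm_of_nonneg hp0.le]
        refine mul_le_mul_of_nonneg_left ?_ hp0.le
        exact (norm_mul_le _ _).trans (mul_le_mul_of_nonneg_left hgF (norm_nonneg _))
      have b4 : ‖(q : ℂ) • ((g₁ - G₁) * z)‖ ≤ q * (ε * ‖z‖) := by
        rw [norm_smul, Complex.norm_real, Real.norm_of_nonneg hq0.le]
        refine mul_le_mul_of_nonneg_left ?_ hq0.le
        exact (norm_mul_le _ _).trans (mul_le_mul_of_nonneg_right hgE (norm_nonneg _))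
      refine (norm_add_le _ _).trans ((add_le_add b3 b4).trans ?_)
      have : p * (‖z‖ * ε) + q * (ε * ‖z‖) = ε * ((p + q) * ‖z‖) := by ring
      rw [this]
      exact mul_le_mul_of_nonneg_left hzB hε.le
    refine (add_le_add b1 b2).trans (le_of_eq ?_)
    ring
  have hpq : 0 < p + q := by positivity
  have : ε * ((2 * (K * ‖Y‖ * (S₁ + S₂ + K)) + B) / δ) * (1 / (p + q)) =
      ε * (2 * (K * ‖Y‖ * (S₁ + S₂ + K)) + B) / (δ * (p + q)) := by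
    field_simp
  rw [this, le_div_iff₀ (by positivity)]
  linarith

/-- The core integral formula for the solutions of the Sylvester equations. -/
theorem core {g₁ g₂ Y : H →L[ℂ] H} {δ : ℝ} (hδ : 0 < δ) (hs₁ : star g₁ = g₁)
    (hs₂ : star g₂ = g₂) (h₁ : ∀ x, δ * ‖x‖ ^ 2 ≤ (⟪x, g₁ x⟫_ℂ).re)
    (h₂ : ∀ x, δ * ‖x‖ ^ 2 ≤ (⟪x, g₂ x⟫_ℂ).re) (y : ℝ → H →L[ℂ] H)
    (hy : ∀ τ : ℝ, (Real.exp τ : ℂ) • (y τ * g₂) + (Real.exp (-τ) : ℂ) • (g₁ * y τ) =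
      (2 : ℂ) • (CFC.sqrt g₁ * Y * CFC.sqrt g₂)) (u v : H) :
    Continuous (fun τ => ⟪u, y τ v⟫_ℂ) ∧
      Tendsto (fun c : ℝ => ∫ τ in (-c)..c, ⟪u, y τ v⟫_ℂ) atTop (𝓝 (Real.pi * ⟪u, Y v⟫_ℂ)) := by
  obtain ⟨M, hM, key⟩ := TomC_approx hδ hs₁ hs₂ h₁ h₂ y hy
  -- pointwise bound of the difference
  have hdiff : ∀ {z : ℝ → H →L[ℂ] H} {ε : ℝ},
      (∀ τ, ‖y τ - z τ‖ ≤ ε * M * (1 / (Real.exp τ + Real.exp (-τ)))) →
      ∀ τ, ‖⟪u, y τ v⟫_ℂ - ⟪u, z τ v⟫_ℂ‖ ≤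
        ε * (M * ‖u‖ * ‖v‖) * (1 / (Real.exp τ + Real.exp (-τ))) := by
    intro z ε hz τ
    rw [← inner_sub_right, ← ContinuousLinearMap.sub_apply]
    refine (norm_inner_le_norm _ _).trans ?_
    calc ‖u‖ * ‖(y τ - z τ) v‖ ≤ ‖u‖ * (‖y τ - z τ‖ * ‖v‖) :=
          mul_le_mul_of_nonneg_left (ContinuousLinearMap.le_opNorm _ _) (norm_nonneg _)
      _ ≤ ‖u‖ * (ε * M * (1 / (Real.exp τ + Real.exp (-τ))) * ‖v‖) :=
          mul_le_mul_of_nonneg_left (mul_le_mul_of_nonneg_right (hz τ) (norm_nonneg _))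
            (norm_nonneg _)
      _ = _ := by ring
  have hw : ∀ τ : ℝ, 1 / (Real.exp τ + Real.exp (-τ)) ≤ 1 := by
    intro τ
    rw [div_le_one (by positivity)]
    rcases le_total 0 τ with h | h
    · have := Real.one_le_exp h
      have := Real.exp_pos (-τ)
      linarith
    · have := Real.one_le_exp (neg_nonneg.2 h)
      have := Real.exp_pos τ
      linarith
  have hw0 : ∀ τ : ℝ, 0 ≤ 1 / (Real.exp τ + Real.exp (-τ)) := fun τ => by positivity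
  set N : ℝ := M * ‖u‖ * ‖v‖ with hN
  have hN0 : 0 ≤ N := by positivity
  have hcont : Continuous (fun τ => ⟪u, y τ v⟫_ℂ) := by
    refine continuous_of_uniform_approx_of_continuous fun U hU => ?_
    obtain ⟨r, hr, hrU⟩ := Metric.mem_uniformity_dist.1 hU
    set ε : ℝ := min 1 (r / (2 * (N + 1))) with hε
    have hε0 : 0 < ε := lt_min one_pos (by positivity)
    obtain ⟨z, hz1, -, hz3⟩ := key ε hε0 (min_le_left _ _)
    refine ⟨fun τ => ⟪u, z τ v⟫_ℂ, hz1 u v, fun τ => hrU ?_⟩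
    rw [dist_eq_norm]
    refine (hdiff hz3 τ).trans_lt ?_
    have h1 : ε * N * (1 / (Real.exp τ + Real.exp (-τ))) ≤ ε * N * 1 :=
      mul_le_mul_of_nonneg_left (hw τ) (by positivity)
    have h2 : ε * N ≤ r / (2 * (N + 1)) * N := mul_le_mul_of_nonneg_right (min_le_right _ _) hN0
    have h3 : r / (2 * (N + 1)) * N < r := by
      rw [div_mul_eq_mul_div, div_lt_iff₀ (by positivity)]
      nlinarith
    linarith
  refine ⟨hcont, ?_⟩
  rw [Metric.tendsto_atTop]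
  intro r hr
  set ε : ℝ := min 1 (r / (2 * (N * Real.pi + 1))) with hε
  have hpi := Real.pi_pos
  have hε0 : 0 < ε := lt_min one_pos (by positivity)
  obtain ⟨z, hz1, hz2, hz3⟩ := key ε hε0 (min_le_left _ _)
  obtain ⟨c₀, hc₀⟩ := (Metric.tendsto_atTop.1 (hz2 u v)) (r / 2) (by positivity)
  refine ⟨max c₀ 0, fun c hc => ?_⟩
  have hc1 : c₀ ≤ c := (le_max_left _ _).trans hc
  have hc2 : 0 ≤ c := (le_max_right _ _).trans hc
  have h1 := hc₀ c hc1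
  have h2 : dist (∫ τ in (-c)..c, ⟪u, y τ v⟫_ℂ) (∫ τ in (-c)..c, ⟪u, z τ v⟫_ℂ) ≤
      ε * N * Real.pi := by
    rw [dist_eq_norm, ← intervalIntegral.integral_sub (hcont.intervalIntegrable _ _)
      ((hz1 u v).intervalIntegrable _ _)]
    have hwc : Continuous fun τ : ℝ => ε * N * (1 / (Real.exp τ + Real.exp (-τ))) := by
      refine continuous_const.mul (continuous_const.div ?_ fun τ => ?_)
      · exact Real.continuous_exp.add (Real.continuous_exp.comp continuous_neg)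
      · positivity
    refine (intervalIntegral.norm_integral_le_of_norm_le (by linarith)
      (Filter.Eventually.of_forall fun τ _ => hdiff hz3 τ) (hwc.intervalIntegrable _ _)).trans ?_
    rw [intervalIntegral.integral_const_mul]
    exact mul_le_mul_of_nonneg_left (integral_weight_le c hc2) (by positivity)
  have h3 : ε * N * Real.pi ≤ r / (2 * (N * Real.pi + 1)) * (N * Real.pi) := by
    rw [mul_assoc]
    exact mul_le_mul_of_nonneg_right (min_le_right _ _) (by positivity)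
  have h4 : r / (2 * (N * Real.pi + 1)) * (N * Real.pi) < r / 2 := by
    rw [div_mul_eq_mul_div, div_lt_div_iff₀ (by positivity) (by positivity)]
    nlinarith [mul_nonneg hN0 hpi.le]
  calc dist (∫ τ in (-c)..c, ⟪u, y τ v⟫_ℂ) (Real.pi * ⟪u, Y v⟫_ℂ) ≤ _ := dist_triangle _ _ _
    _ < r := by linarith

end Pool.Agent.MP_86f3ed.Ty
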