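import Pool.Agent.H.MP_86f3ed_an.Sf.Spec

open scoped InnerProductSpace Topology
open Filter ContinuousLinearMap

namespace Pool.Agent.MP_86f3ed.Ty

open Pin

variable {H : Type*} [NormedAddCommGroup H] [InnerProductSpace ℂ H] [CompleteSpace H]

theorem tomC1_nonneg {a : H →L[ℂ] H} (hs : star a = a) (h : ∀ x, 0 ≤ (⟪x, a x⟫_ℂ).re) :
    0 ≤ a := by
  rw [ContinuousLinearMap.nonneg_iff_isPositive, ContinuousLinearMap.isPositive_def']
  refine ⟨hs, fun x => ?_⟩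
  rw [reApplyInnerSelf_apply, inner_re_symm]
  exact h x

theorem tomC1_re_real (r : ℝ) (x : H) : (⟪x, (r : ℂ) • x⟫_ℂ).re = r * ‖x‖ ^ 2 := by
  rw [inner_smul_right, inner_self_eq_norm_sq_to_K]
  have : (r : ℂ) * ((‖x‖ : ℝ) : ℂ) ^ 2 = ((r * ‖x‖ ^ 2 : ℝ) : ℂ) := by push_cast; ring
  exact (congrArg Complex.re this).trans (Complex.ofReal_re _)

theorem tomC1_norm_le {a : H →L[ℂ] H} (hs : star a = a) {r : ℝ} (hr : 0 ≤ r)
    (h0 : ∀ x, 0 ≤ (⟪x, a x⟫_ℂ).re) (h1 : ∀ x, (⟪x, a x⟫_ℂ).re ≤ r * ‖x‖ ^ 2) : ‖a‖ ≤ r := by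
  rw [CStarAlgebra.norm_le_iff_le_algebraMap a hr (tomC1_nonneg hs h0), ← sub_nonneg]
  have e : (algebraMap ℝ (H →L[ℂ] H) r) = (r : ℂ) • (1 : H →L[ℂ] H) := by
    rw [Algebra.algebraMap_eq_smul_one]
    ext x
    simp
  rw [e]
  refine tomC1_nonneg ?_ fun x => ?_
  · rw [star_sub, hs, star_smul, star_one]
    simp
  · rw [sub_apply, inner_sub_right, Complex.sub_re]
    have h2 : (((r : ℂ) • (1 : H →L[ℂ] H)) x) = (r : ℂ) • x := rfl
    rw [h2, tomC1_re_real]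
    have := h1 x
    linarith

/-- Lower bound for the Sylvester operator. -/
theorem sylv_lower {g₁ g₂ : H →L[ℂ] H} {δ p q : ℝ} (hδ : 0 ≤ δ) (hp : 0 ≤ p) (hq : 0 ≤ q)
    (h₁ : ∀ x, δ * ‖x‖ ^ 2 ≤ (⟪x, g₁ x⟫_ℂ).re) (h₂ : ∀ x, δ * ‖x‖ ^ 2 ≤ (⟪x, g₂ x⟫_ℂ).re)
    (y : H →L[ℂ] H) :
    δ * (p + q) * ‖y‖ ≤ ‖(p : ℂ) • (y * g₂) + (q : ℂ) • (g₁ * y)‖ := by
  set S : H →L[ℂ] H := (p : ℂ) • (y * g₂) + (q : ℂ) • (g₁ * y) with hS
  rcases (norm_nonneg y).eq_or_lt with hy | hy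
  · rw [← hy, mul_zero]
    exact norm_nonneg _
  set N := ‖y‖ with hN
  set F : ℝ → ℝ := fun t => p * (δ * t ^ 2 - N * Real.sqrt (N ^ 2 - t ^ 2) * ‖g₂‖) +
    q * (δ * t ^ 2) with hF
  have hFc : Continuous F := by
    have : Continuous fun t : ℝ => Real.sqrt (N ^ 2 - t ^ 2) :=
      Real.continuous_sqrt.comp (by fun_prop)
    fun_prop
  have key : ∀ t, 0 ≤ t → t < N → F t ≤ N * ‖S‖ := by
    intro t ht htN
    obtain ⟨ξ, hξ, hyξ⟩ := y.exists_lt_apply_of_lt_opNorm htN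
    have hξ1 : ‖ξ‖ ≤ 1 := hξ.le
    set u := ‖y ξ‖ with hu
    have huN : u ≤ N := by
      have := y.le_opNorm ξ
      nlinarith [norm_nonneg ξ]
    have huN' : u ≤ N * ‖ξ‖ := y.le_opNorm ξ
    have hu0 : 0 ≤ u := norm_nonneg _
    -- the remainder
    set r : H := (star y) (y ξ) - ((N ^ 2 : ℝ) : ℂ) • ξ with hr
    have hin : (⟪(star y) (y ξ), ξ⟫_ℂ).re = u ^ 2 := by
      rw [star_eq_adjoint, adjoint_inner_left]
      exact (norm_sq_eq_re_inner (𝕜 := ℂ) (y ξ)).symm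
    have hyy : ‖(star y) (y ξ)‖ ≤ N * u := by
      have := (star y).le_opNorm (y ξ)
      rwa [norm_star] at this
    have hrn : ‖r‖ ^ 2 ≤ N ^ 2 * (N ^ 2 - u ^ 2) := by
      have e : ‖r‖ ^ 2 = ‖(star y) (y ξ)‖ ^ 2 -
          2 * (⟪(star y) (y ξ), ((N ^ 2 : ℝ) : ℂ) • ξ⟫_ℂ).re + ‖((N ^ 2 : ℝ) : ℂ) • ξ‖ ^ 2 :=
        norm_sub_sq (𝕜 := ℂ) _ _
      have e2 : (⟪(star y) (y ξ), ((N ^ 2 : ℝ) : ℂ) • ξ⟫_ℂ).re = N ^ 2 * u ^ 2 := by
        rw [inner_smul_right, Complex.re_ofReal_mul, hin]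
      have e3 : ‖((N ^ 2 : ℝ) : ℂ) • ξ‖ ≤ N ^ 2 := by
        rw [norm_smul, Complex.norm_real, Real.norm_eq_abs, abs_of_nonneg (sq_nonneg N)]
        nlinarith [sq_nonneg N, norm_nonneg ξ]
      have e4 : ‖((N ^ 2 : ℝ) : ℂ) • ξ‖ ^ 2 ≤ (N ^ 2) ^ 2 :=
        pow_le_pow_left₀ (norm_nonneg _) e3 2
      have e5 : ‖(star y) (y ξ)‖ ^ 2 ≤ (N * u) ^ 2 := pow_le_pow_left₀ (norm_nonneg _) hyy 2
      rw [e, e2]
      nlinarith
    have hrn' : ‖r‖ ≤ N * Real.sqrt (N ^ 2 - t ^ 2) := by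
      have hnn : 0 ≤ N ^ 2 - t ^ 2 := by nlinarith
      refine abs_le_of_sq_le_sq' ?_ (by positivity) |>.2
      rw [mul_pow, Real.sq_sqrt hnn]
      refine hrn.trans ?_
      have : t ^ 2 ≤ u ^ 2 := pow_le_pow_left₀ ht hyξ.le 2
      nlinarith [sq_nonneg N]
    -- the value of the form
    have hval : (⟪y ξ, S ξ⟫_ℂ).re = p * (⟪(star y) (y ξ), g₂ ξ⟫_ℂ).re +
        q * (⟪y ξ, g₁ (y ξ)⟫_ℂ).re := by
      have e : S ξ = (p : ℂ) • y (g₂ ξ) + (q : ℂ) • g₁ (y ξ) := rfl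
      rw [e, inner_add_right, inner_smul_right, inner_smul_right, Complex.add_re,
        Complex.re_ofReal_mul, Complex.re_ofReal_mul, star_eq_adjoint, adjoint_inner_left]
    have hup : (⟪y ξ, S ξ⟫_ℂ).re ≤ N * ‖S‖ := by
      have a1 : (⟪y ξ, S ξ⟫_ℂ).re ≤ ‖y ξ‖ * ‖S ξ‖ :=
        (Complex.re_le_norm _).trans (norm_inner_le_norm _ _)
      have a2 : ‖S ξ‖ ≤ ‖S‖ := by
        have := S.le_opNorm ξ
        nlinarith [norm_nonneg S]
      exact a1.trans (mul_le_mul huN a2 (norm_nonneg _) hy.le)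
    have hsplit : (⟪(star y) (y ξ), g₂ ξ⟫_ℂ).re = N ^ 2 * (⟪ξ, g₂ ξ⟫_ℂ).re + (⟪r, g₂ ξ⟫_ℂ).re := by
      have e : (star y) (y ξ) = ((N ^ 2 : ℝ) : ℂ) • ξ + r := by
        rw [hr]; abel
      rw [e, inner_add_left, Complex.add_re, inner_smul_left, Complex.conj_ofReal,
        Complex.re_ofReal_mul]
    have hrg : -(N * Real.sqrt (N ^ 2 - t ^ 2) * ‖g₂‖) ≤ (⟪r, g₂ ξ⟫_ℂ).re := by
      have a1 : |(⟪r, g₂ ξ⟫_ℂ).re| ≤ ‖r‖ * ‖g₂ ξ‖ :=
        (Complex.abs_re_le_norm _).trans (norm_inner_le_norm _ _)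
      have a2 : ‖g₂ ξ‖ ≤ ‖g₂‖ := by
        have := g₂.le_opNorm ξ
        nlinarith [norm_nonneg g₂]
      have a3 : ‖r‖ * ‖g₂ ξ‖ ≤ N * Real.sqrt (N ^ 2 - t ^ 2) * ‖g₂‖ :=
        mul_le_mul hrn' a2 (norm_nonneg _) (by positivity)
      have := (abs_le.mp a1).1
      linarith
    have hlow2 : δ * t ^ 2 - N * Real.sqrt (N ^ 2 - t ^ 2) * ‖g₂‖ ≤
        (⟪(star y) (y ξ), g₂ ξ⟫_ℂ).re := by
      rw [hsplit]
      have b1 := h₂ ξ
      have b2 : t ^ 2 ≤ (N * ‖ξ‖) ^ 2 := pow_le_pow_left₀ ht (hyξ.le.trans huN') 2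
      have b3 : N ^ 2 * (δ * ‖ξ‖ ^ 2) ≤ N ^ 2 * (⟪ξ, g₂ ξ⟫_ℂ).re :=
        mul_le_mul_of_nonneg_left b1 (sq_nonneg N)
      have b4 : δ * t ^ 2 ≤ δ * (N * ‖ξ‖) ^ 2 := mul_le_mul_of_nonneg_left b2 hδ
      nlinarith
    have hlow1 : δ * t ^ 2 ≤ (⟪y ξ, g₁ (y ξ)⟫_ℂ).re := by
      have b1 := h₁ (y ξ)
      have b2 : t ^ 2 ≤ u ^ 2 := pow_le_pow_left₀ ht hyξ.le 2
      have b4 : δ * t ^ 2 ≤ δ * u ^ 2 := mul_le_mul_of_nonneg_left b2 hδ
      linarith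
    calc F t ≤ p * (⟪(star y) (y ξ), g₂ ξ⟫_ℂ).re + q * (⟪y ξ, g₁ (y ξ)⟫_ℂ).re :=
          add_le_add (mul_le_mul_of_nonneg_left hlow2 hp) (mul_le_mul_of_nonneg_left hlow1 hq)
      _ = (⟪y ξ, S ξ⟫_ℂ).re := hval.symm
      _ ≤ N * ‖S‖ := hup
  have hlim : F N ≤ N * ‖S‖ := by
    refine le_of_tendsto (hFc.tendsto N |>.mono_left (nhdsWithin_le_nhds (s := Set.Iio N))) ?_
    have : Set.Ioo 0 N ∈ 𝓝[<] N := Ioo_mem_nhdsLT hy
    filter_upwards [this] with t ht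
    exact key t ht.1.le ht.2
  have hFN : F N = N * (δ * (p + q) * N) := by
    simp only [hF, sub_self, Real.sqrt_zero]
    ring
  rw [hFN] at hlim
  exact le_of_mul_le_mul_left hlim hy

theorem tomC1_Q_nest {g : H →L[ℂ] H} {q : ℝ → H →L[ℂ] H}
    (hq : Sf.SpecFam (⊥ : StarSubalgebra ℂ (H →L[ℂ] H)) g q) {c : ℕ → ℝ} (hc0 : ∀ k, 0 ≤ c k)
    (hc : Monotone c) {Q : ℕ → H →L[ℂ] H} (hQ0 : Q 0 = 1) (hQ : ∀ k, Q (k + 1) = q (c (k + 1)))
    {k l : ℕ} (hkl : k ≤ l) : Q k * Q l = Q l ∧ Q l * Q k = Q l := by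
  rcases k with _ | k
  · rw [hQ0, one_mul, mul_one]; exact ⟨rfl, rfl⟩
  · rcases l with _ | l
    · omega
    · rw [hQ, hQ]
      exact hq.nest _ _ (hc0 _) (hc hkl)

/-- Approximation of a positive operator by operators with finite spectrum. -/
theorem exists_fin_spec {g : H →L[ℂ] H} (hs : star g = g) {δ : ℝ} (hδ : 0 < δ)
    (h : ∀ x, δ * ‖x‖ ^ 2 ≤ (⟪x, g x⟫_ℂ).re) {ε : ℝ} (hε : 0 < ε) :
    ∃ (n : ℕ) (E : Fin n → H →L[ℂ] H) (γ : Fin n → ℝ), (∀ k, star (E k) = E k) ∧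
      (∀ k l, E k * E l = if k = l then E k else 0) ∧ ∑ k, E k = 1 ∧ (∀ k, δ ≤ γ k) ∧
      (∀ k, γ k ≤ ‖g‖ + δ) ∧ ‖g - ∑ k, (γ k : ℂ) • E k‖ ≤ ε := by
  have hcom : g ∈ Com (⊥ : StarSubalgebra ℂ (H →L[ℂ] H)) := by
    rw [mem_Com]
    intro a ha
    obtain ⟨z, rfl⟩ := StarSubalgebra.mem_bot.1 ha
    exact (Algebra.commutes z g)
  have hnn : ∀ x, 0 ≤ RCLike.re ⟪x, g x⟫_ℂ := fun x =>
    (by positivity : 0 ≤ δ * ‖x‖ ^ 2).trans (h x)
  obtain ⟨q, hq⟩ := Sf.exists_spec (⊥ : StarSubalgebra ℂ (H →L[ℂ] H)) hcom hs hnn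
  set M := ⌈‖g‖ / ε⌉₊ with hM
  set e' : ℝ := ‖g‖ / (M + 1) with he'
  have hM1 : (0 : ℝ) < M + 1 := by positivity
  have he'0 : 0 ≤ e' := by positivity
  have he'ε : e' ≤ ε := by
    rw [he', div_le_iff₀ hM1]
    have h1 : ‖g‖ / ε ≤ M := Nat.le_ceil _
    rw [div_le_iff₀ hε] at h1
    nlinarith
  set c : ℕ → ℝ := fun k => δ + k * e' with hc
  have hc0 : ∀ k, 0 ≤ c k := fun k => by
    show 0 ≤ δ + k * e'
    positivity
  have hcδ : ∀ k, δ ≤ c k := fun k => by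
    have : 0 ≤ (k : ℝ) * e' := by positivity
    show δ ≤ δ + k * e'
    linarith
  have hcm : Monotone c := by
    intro a b hab
    have : (a : ℝ) * e' ≤ b * e' := mul_le_mul_of_nonneg_right (by exact_mod_cast hab) he'0
    show δ + a * e' ≤ δ + b * e'
    linarith
  have hcM : c (M + 1) = ‖g‖ + δ := by
    show δ + ((M + 1 : ℕ) : ℝ) * e' = ‖g‖ + δ
    rw [he']
    push_cast
    field_simp
    ring
  have hcs : ∀ k, c (k + 1) = c k + e' := by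
    intro k
    show δ + ((k + 1 : ℕ) : ℝ) * e' = δ + k * e' + e'
    push_cast; ring
  set Q : ℕ → H →L[ℂ] H := fun k => if k = 0 then 1 else q (c k) with hQdef
  have hQ0 : Q 0 = 1 := by simp [hQdef]
  have hQs : ∀ k, Q (k + 1) = q (c (k + 1)) := fun k => by simp [hQdef]
  have nest : ∀ {k l : ℕ}, k ≤ l → Q k * Q l = Q l ∧ Q l * Q k = Q l := fun hkl =>
    tomC1_Q_nest hq hc0 hcm hQ0 hQs hkl
  have hQstar : ∀ k, star (Q k) = Q k := by
    intro k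
    rcases k with _ | k
    · rw [hQ0, star_one]
    · rw [hQs]; exact hq.star_q _ (hc0 _)
  have hQcomm : ∀ k, Q k * g = g * Q k := by
    intro k
    rcases k with _ | k
    · rw [hQ0, one_mul, mul_one]
    · rw [hQs]; exact hq.comm _ (hc0 _)
  have hQend : Q (M + 1) = 0 := by
    rw [hQs]
    refine hq.zero _ (hc0 _) ?_
    rw [hcM]; linarith
  set E : ℕ → H →L[ℂ] H := fun k => Q k - Q (k + 1) with hE
  have hEs : ∀ k, star (E k) = E k := fun k => by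
    show star (Q k - Q (k + 1)) = Q k - Q (k + 1)
    rw [star_sub, hQstar, hQstar]
  have hEi : ∀ k, E k * E k = E k := fun k => by
    show (Q k - Q (k + 1)) * (Q k - Q (k + 1)) = Q k - Q (k + 1)
    rw [sub_mul, mul_sub, mul_sub, (nest (le_refl k)).1, (nest (Nat.le_succ k)).1,
      (nest (Nat.le_succ k)).2, (nest (le_refl (k + 1))).1]
    abel
  have hElt : ∀ {k l : ℕ}, k < l → E k * E l = 0 ∧ E l * E k = 0 := by
    intro k l hkl
    have h1 : k ≤ l := hkl.le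
    have h2 : k ≤ l + 1 := by omega
    have h3 : k + 1 ≤ l := hkl
    have h4 : k + 1 ≤ l + 1 := by omega
    constructor
    · show (Q k - Q (k + 1)) * (Q l - Q (l + 1)) = 0
      rw [sub_mul, mul_sub, mul_sub, (nest h1).1, (nest h2).1, (nest h3).1, (nest h4).1]
      abel
    · show (Q l - Q (l + 1)) * (Q k - Q (k + 1)) = 0
      rw [sub_mul, mul_sub, mul_sub, (nest h1).2, (nest h2).2, (nest h3).2, (nest h4).2]
      abel
  have hEg : ∀ k, E k * g = g * E k := fun k => by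
    show (Q k - Q (k + 1)) * g = g * (Q k - Q (k + 1))
    rw [sub_mul, mul_sub, hQcomm, hQcomm]
  have hsum : ∑ k ∈ Finset.range (M + 1), E k = 1 := by
    have := Finset.sum_range_sub' Q (M + 1)
    rw [hQ0, hQend, sub_zero] at this
    exact this
  have hsumF : ∑ k : Fin (M + 1), E k = 1 := by
    rw [Fin.sum_univ_eq_sum_range (fun k => E k) (M + 1), hsum]
  -- the form on the pieces
  have hlow : ∀ k x, c k * ‖E k x‖ ^ 2 ≤ (⟪E k x, g (E k x)⟫_ℂ).re := by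
    intro k x
    rcases k with _ | k
    · have : c 0 = δ := by show δ + ((0 : ℕ) : ℝ) * e' = δ; simp
      rw [this]
      exact h _
    · have h1 : Q (k + 1) (E (k + 1) x) = E (k + 1) x := by
        have : Q (k + 1) * E (k + 1) = E (k + 1) := by
          show Q (k + 1) * (Q (k + 1) - Q (k + 1 + 1)) = Q (k + 1) - Q (k + 1 + 1)
          rw [mul_sub, (nest (le_refl _)).1, (nest (Nat.le_succ _)).1]
        exact congrArg (fun T : H →L[ℂ] H => T x) this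
      rw [hQs] at h1
      have h2 := hq.low _ (hc0 (k + 1)) (E (k + 1) x)
      rw [h1] at h2
      exact h2
  have hupp : ∀ k x, (⟪E k x, g (E k x)⟫_ℂ).re ≤ c (k + 1) * ‖E k x‖ ^ 2 := by
    intro k x
    have h1 : Q (k + 1) (E k x) = 0 := by
      have : Q (k + 1) * E k = 0 := by
        show Q (k + 1) * (Q k - Q (k + 1)) = 0
        rw [mul_sub, (nest (Nat.le_succ _)).2, (nest (le_refl _)).1, sub_self]
      exact congrArg (fun T : H →L[ℂ] H => T x) this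
    rw [hQs] at h1
    have h2 := hq.up _ (hc0 (k + 1)) (E k x)
    rw [h1, sub_zero] at h2
    exact h2
  -- the difference
  set D : H →L[ℂ] H := g - ∑ k : Fin (M + 1), ((c k : ℝ) : ℂ) • E k with hD
  have hDs : star D = D := by
    rw [hD, star_sub, hs, star_sum]
    refine congrArg (fun T => g - T) (Finset.sum_congr rfl fun k _ => ?_)
    rw [star_smul, hEs]
    simp
  have hxx : ∀ x, ∑ k : Fin (M + 1), ‖E k x‖ ^ 2 = ‖x‖ ^ 2 := by
    intro x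
    have h1 : ∀ k : ℕ, ‖E k x‖ ^ 2 = (⟪x, E k x⟫_ℂ).re := by
      intro k
      have e1 : ⟪x, (star (E k)) (E k x)⟫_ℂ = ⟪E k x, E k x⟫_ℂ := by
        rw [star_eq_adjoint, adjoint_inner_right]
      rw [hEs] at e1
      have e2 : E k (E k x) = E k x := congrArg (fun T : H →L[ℂ] H => T x) (hEi k)
      rw [e2] at e1
      rw [e1]
      exact norm_sq_eq_re_inner (𝕜 := ℂ) (E k x)
    simp only [h1]
    rw [← Complex.re_sum, ← inner_sum, ← sum_apply, hsumF]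
    exact (norm_sq_eq_re_inner (𝕜 := ℂ) x).symm
  have hDx : ∀ x, (⟪x, D x⟫_ℂ).re = ∑ k : Fin (M + 1), ((⟪E k x, g (E k x)⟫_ℂ).re -
      c k * ‖E k x‖ ^ 2) := by
    intro x
    have h1 : g = ∑ k : Fin (M + 1), E k * g * E k := by
      calc g = g * ∑ k : Fin (M + 1), E k := by rw [hsumF, mul_one]
        _ = ∑ k : Fin (M + 1), g * E k := Finset.mul_sum _ _ _
        _ = ∑ k : Fin (M + 1), E k * g * E k := by
          refine Finset.sum_congr rfl fun k _ => ?_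
          rw [hEg, mul_assoc, hEi]
    have h2 : ∀ k : ℕ, (⟪x, (E k * g * E k) x⟫_ℂ).re = (⟪E k x, g (E k x)⟫_ℂ).re := by
      intro k
      have : (E k * g * E k) x = E k (g (E k x)) := rfl
      rw [this]
      conv_lhs => rw [← hEs k]
      rw [star_eq_adjoint, adjoint_inner_right, ← star_eq_adjoint, hEs]
    have h3 : ∀ k : ℕ, (⟪x, (((c k : ℝ) : ℂ) • E k) x⟫_ℂ).re = c k * ‖E k x‖ ^ 2 := by
      intro k
      have e1 : (((c k : ℝ) : ℂ) • E k) x = ((c k : ℝ) : ℂ) • E k (E k x) := by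
        have : E k (E k x) = E k x := congrArg (fun T : H →L[ℂ] H => T x) (hEi k)
        rw [this]; rfl
      rw [e1, inner_smul_right, Complex.re_ofReal_mul]
      congr 1
      conv_lhs => rw [← hEs k]
      rw [star_eq_adjoint, adjoint_inner_right, ← star_eq_adjoint, hEs]
      exact (norm_sq_eq_re_inner (𝕜 := ℂ) (E k x)).symm
    have h4 : D = ∑ k : Fin (M + 1), (E k * g * E k - ((c k : ℝ) : ℂ) • E k) := by
      rw [hD, Finset.sum_sub_distrib, ← h1]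
    rw [h4, sum_apply, inner_sum, Complex.re_sum]
    refine Finset.sum_congr rfl fun k _ => ?_
    rw [sub_apply, inner_sub_right, Complex.sub_re, h2, h3]
  refine ⟨M + 1, fun k => E k, fun k => c k, fun k => hEs k, fun k l => ?_, hsumF,
    fun k => hcδ k, fun k => ?_, ?_⟩
  · split_ifs with hkl
    · rw [hkl]; exact hEi l
    · rcases lt_or_gt_of_ne hkl with h1 | h1
      · exact (hElt h1).1
      · exact (hElt h1).2
  · rw [← hcM]
    exact hcm k.2.le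
  · refine le_trans (tomC1_norm_le hDs he'0 (fun x => ?_) fun x => ?_) he'ε
    · rw [hDx]
      exact Finset.sum_nonneg fun k _ => sub_nonneg.2 (hlow k x)
    · rw [hDx, ← hxx, Finset.mul_sum]
      refine Finset.sum_le_sum fun k _ => ?_
      have := hupp k x
      rw [hcs] at this
      linarith

/-- Square roots of operators which are bounded below. -/
theorem norm_sqrt_sub_le {a b : H →L[ℂ] H} {δ : ℝ} (hδ : 0 < δ) (ha : star a = a)
    (hb : star b = b) (h₁ : ∀ x, δ * ‖x‖ ^ 2 ≤ (⟪x, a x⟫_ℂ).re)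
    (h₂ : ∀ x, δ * ‖x‖ ^ 2 ≤ (⟪x, b x⟫_ℂ).re) :
    ‖CFC.sqrt a - CFC.sqrt b‖ ≤ ‖a - b‖ / (2 * Real.sqrt δ) := by
  have nn : ∀ {a : H →L[ℂ] H}, star a = a → (∀ x, δ * ‖x‖ ^ 2 ≤ (⟪x, a x⟫_ℂ).re) → 0 ≤ a :=
    fun hs h => tomC1_nonneg hs fun x => (by positivity : 0 ≤ δ * ‖x‖ ^ 2).trans (h x)
  have low : ∀ {a : H →L[ℂ] H}, star a = a → (∀ x, δ * ‖x‖ ^ 2 ≤ (⟪x, a x⟫_ℂ).re) →
      ∀ x, Real.sqrt δ * ‖x‖ ^ 2 ≤ (⟪x, CFC.sqrt a x⟫_ℂ).re := by
    intro a hs h x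
    have e1 : (((δ : ℝ) : ℂ) • (1 : H →L[ℂ] H)) ≤ a := by
      rw [← sub_nonneg]
      refine tomC1_nonneg ?_ fun x => ?_
      · rw [star_sub, hs, star_smul, star_one]
        simp
      · rw [sub_apply, inner_sub_right, Complex.sub_re]
        have h2 : ((((δ : ℝ) : ℂ) • (1 : H →L[ℂ] H)) x) = (δ : ℂ) • x := rfl
        rw [h2, tomC1_re_real]
        have := h x
        linarith
    have e2 : CFC.sqrt (((δ : ℝ) : ℂ) • (1 : H →L[ℂ] H)) =
        ((Real.sqrt δ : ℝ) : ℂ) • (1 : H →L[ℂ] H) := by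
      refine CFC.sqrt_unique ?_ ?_
      · rw [smul_mul_smul_comm, one_mul, ← Complex.ofReal_mul, Real.mul_self_sqrt hδ.le]
      · refine tomC1_nonneg ?_ fun x => ?_
        · rw [star_smul, star_one]
          simp
        · have h2 : ((((Real.sqrt δ : ℝ) : ℂ) • (1 : H →L[ℂ] H)) x) = (Real.sqrt δ : ℂ) • x := rfl
          rw [h2, tomC1_re_real]
          positivity
    have e3 := CFC.sqrt_le_sqrt _ _ e1
    rw [e2, ← sub_nonneg, ContinuousLinearMap.nonneg_iff_isPositive] at e3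
    have e4 : 0 ≤ (⟪x, (CFC.sqrt a - ((Real.sqrt δ : ℝ) : ℂ) • (1 : H →L[ℂ] H)) x⟫_ℂ).re :=
      e3.re_inner_nonneg_right x
    rw [sub_apply, inner_sub_right, Complex.sub_re] at e4
    have h2 : ((((Real.sqrt δ : ℝ) : ℂ) • (1 : H →L[ℂ] H)) x) = (Real.sqrt δ : ℂ) • x := rfl
    rw [h2, tomC1_re_real] at e4
    linarith
  have hsq : 0 < Real.sqrt δ := Real.sqrt_pos.2 hδ
  have h := sylv_lower (p := 1) (q := 1) hsq.le zero_le_one zero_le_one (low ha h₁) (low hb h₂)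
    (CFC.sqrt a - CFC.sqrt b)
  have e : ((1 : ℝ) : ℂ) • ((CFC.sqrt a - CFC.sqrt b) * CFC.sqrt b) +
      ((1 : ℝ) : ℂ) • (CFC.sqrt a * (CFC.sqrt a - CFC.sqrt b)) = a - b := by
    rw [Complex.ofReal_one, one_smul, one_smul, sub_mul, mul_sub,
      CFC.sqrt_mul_sqrt_self a (nn ha h₁), CFC.sqrt_mul_sqrt_self b (nn hb h₂)]
    abel
  rw [e] at h
  rw [le_div_iff₀ (by positivity)]
  linarith

/-- The square root of an operator with finite spectrum. -/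
theorem sqrt_fin_spec {n : ℕ} (E : Fin n → H →L[ℂ] H) (γ : Fin n → ℝ)
    (hE : ∀ k, star (E k) = E k) (hEE : ∀ k l, E k * E l = if k = l then E k else 0)
    (hγ : ∀ k, 0 ≤ γ k) : CFC.sqrt (∑ k, (γ k : ℂ) • E k) = ∑ k, (Real.sqrt (γ k) : ℂ) • E k := by
  refine CFC.sqrt_unique ?_ ?_
  · rw [Finset.sum_mul_sum]
    refine Finset.sum_congr rfl fun k _ => ?_
    rw [Finset.sum_eq_single k]
    · rw [smul_mul_smul_comm, hEE, if_pos rfl, ← Complex.ofReal_mul, Real.mul_self_sqrt (hγ k)]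
    · intro l _ hl
      rw [smul_mul_smul_comm, hEE, if_neg (Ne.symm hl), smul_zero]
    · intro hk
      exact absurd (Finset.mem_univ k) hk
  · refine Finset.sum_nonneg fun k _ => ?_
    have h1 : (Real.sqrt (γ k) : ℂ) • E k =
        star (((Real.sqrt (Real.sqrt (γ k)) : ℝ) : ℂ) • E k) *
          (((Real.sqrt (Real.sqrt (γ k)) : ℝ) : ℂ) • E k) := by
      have hk := hEE k k
      rw [if_pos rfl] at hk
      rw [star_smul, hE, smul_mul_smul_comm, hk]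
      have : star ((Real.sqrt (Real.sqrt (γ k)) : ℝ) : ℂ) =
          ((Real.sqrt (Real.sqrt (γ k)) : ℝ) : ℂ) := Complex.conj_ofReal _
      rw [this, ← Complex.ofReal_mul, Real.mul_self_sqrt (Real.sqrt_nonneg _)]
    rw [h1]
    exact star_mul_self_nonneg _

end Pool.Agent.MP_86f3ed.Ty
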