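import Pool.Agent.H.MP_86f3ed_an.Ty.TomS

open scoped InnerProductSpace Topology
open Filter ContinuousLinearMap

namespace Pool.Agent.MP_86f3ed.Ty

open Pin

attribute [local instance] InnerProductSpace.complexToReal

variable {H : Type*} [NormedAddCommGroup H] [InnerProductSpace ℂ H] [CompleteSpace H]

theorem TomJ_sa {T : H →L[ℂ] H} (hT : star T = T) (x y : H) : ⟪T x, y⟫_ℂ = ⟪x, T y⟫_ℂ := by
  have h := ContinuousLinearMap.adjoint_inner_left T y x
  rw [← ContinuousLinearMap.star_eq_adjoint, hT] at h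
  exact h

theorem TomJ_dense {T : H →L[ℂ] H} (hT : star T = T) (hinj : ∀ x, T x = 0 → x = 0) :
    DenseRange T := by
  have h1 : (LinearMap.range (T : H →ₗ[ℂ] H))ᗮ = ⊥ := by
    rw [Submodule.eq_bot_iff]
    intro x hx
    apply hinj
    rw [← inner_self_eq_zero (𝕜 := ℂ), TomJ_sa hT]
    rw [Submodule.mem_orthogonal'] at hx
    exact hx _ ⟨T x, rfl⟩
  have h2 := (Submodule.topologicalClosure_eq_top_iff (K := LinearMap.range (T : H →ₗ[ℂ] H))).mpr h1
  intro x
  have h3 : x ∈ (LinearMap.range (T : H →ₗ[ℂ] H)).topologicalClosure := by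
    rw [h2]; trivial
  exact h3

theorem TomJ_nonneg {B : H →L[ℂ] H} (hs : ∀ x y, ⟪B x, y⟫_ℂ = ⟪x, B y⟫_ℂ)
    (h0 : ∀ x, 0 ≤ (⟪x, B x⟫_ℂ).re) : 0 ≤ B := by
  rw [ContinuousLinearMap.nonneg_iff_isPositive]
  refine ⟨fun x y => hs x y, fun x => ?_⟩
  have := h0 x
  rw [← hs] at this
  exact this

theorem TomJ_ext {X : Type*} [TopologicalSpace X] [T2Space X] {T : H → H} (hd : DenseRange T)
    {g h : H → X} (hg : Continuous g) (hh : Continuous h) (e : ∀ x, g (T x) = h (T x)) (x : H) :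
    g x = h x := congrFun (hd.equalizer hg hh (funext e)) x

/-- The polar decomposition of the antilinear operator `A`. -/
theorem exists_polarJ {R T : H →L[ℂ] H} {A : H → H} (hR : star R = R)
    (hadd : ∀ x y, A (x + y) = A x + A y) (hsmul : ∀ (c : ℂ) x, A (c • x) = (starRingEnd ℂ) c • A x)
    (hinner : ∀ x y, ⟪A x, y⟫_ℂ = ⟪A y, x⟫_ℂ) (hAR : ∀ x, A (R x) = (2 : ℂ) • A x - R (A x))
    (hT : star T = T) (hT0 : ∀ x, 0 ≤ (⟪x, T x⟫_ℂ).re) (hTT : ∀ x, A (A x) = T (T x))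
    (hTR : T * R = R * T) (hinj : ∀ x, T x = 0 → x = 0) :
    ∃ J : H → H, (∀ x y, J (x + y) = J x + J y) ∧ (∀ (c : ℂ) x, J (c • x) =
      (starRingEnd ℂ) c • J x) ∧ (∀ x y, ⟪J x, J y⟫_ℂ = ⟪y, x⟫_ℂ) ∧ (∀ x, J (J x) = x) ∧
      (∀ x, J (T x) = A x) ∧ (∀ x, T (J x) = A x) ∧ ∀ x, J (R x) = (2 : ℂ) • J x - R (J x) := by
  have hsa := fun x y => TomJ_sa hT x y
  have hdense := TomJ_dense hT hinj
  -- norm of `A x`
  have hinA : ∀ x y, ⟪A x, A y⟫_ℂ = ⟪T y, T x⟫_ℂ := by
    intro x y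
    rw [hinner, hTT, hsa]
  have hnorm : ∀ x, ‖A x‖ = ‖T x‖ := by
    intro x
    have h1 := hinA x x
    rw [inner_self_eq_norm_sq_to_K, inner_self_eq_norm_sq_to_K] at h1
    have h2 : ‖A x‖ ^ 2 = ‖T x‖ ^ 2 := by exact_mod_cast h1
    exact (pow_left_inj₀ (norm_nonneg _) (norm_nonneg _) two_ne_zero).mp h2
  -- `A` as a semilinear map
  let AL : H →ₛₗ[starRingEnd ℂ] H :=
    { toFun := A
      map_add' := hadd
      map_smul' := hsmul }
  have hALb : ∀ x, ‖AL x‖ ≤ ‖T‖ * ‖x‖ := fun x => by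
    show ‖A x‖ ≤ _
    rw [hnorm]
    exact T.le_opNorm x
  let AC : H →SL[starRingEnd ℂ] H := AL.mkContinuous ‖T‖ hALb
  have hAC : ∀ x, AC x = A x := fun x => rfl
  have hAcont : Continuous A := AC.continuous
  have hTcube : ∀ x, A (T (T (T (T (A x))))) = T (T (T (T (T (T x))))) := by
    intro x
    have e : ∀ y, A (T (T y)) = T (T (A y)) := fun y => by rw [← hTT, ← hTT]
    rw [e, e, hTT]
  -- the operator `A T A`
  let B : H →L[ℂ] H :=
    LinearMap.mkContinuous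
      { toFun := fun x => A (T (A x))
        map_add' := fun x y => by rw [hadd, map_add, hadd]
        map_smul' := fun c x => by
          rw [hsmul, map_smul, hsmul, RingHom.id_apply, Complex.conj_conj] }
      (‖T‖ * (‖T‖ * ‖T‖)) (fun x => by
        show ‖A (T (A x))‖ ≤ _
        rw [hnorm, mul_assoc, mul_assoc]
        refine (T.le_opNorm _).trans ?_
        gcongr
        refine (T.le_opNorm _).trans ?_
        gcongr
        rw [hnorm]
        exact T.le_opNorm x)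
  have hB : ∀ x, B x = A (T (A x)) := fun x => rfl
  have hBnn : 0 ≤ B := by
    apply TomJ_nonneg
    · intro x y
      rw [hB, hB, hinner, ← inner_conj_symm x, hinner (T (A y)), inner_conj_symm, hsa]
    · intro x
      rw [hB, ← inner_conj_symm, hinner, Complex.conj_re]
      exact hT0 _
  have hTnn : 0 ≤ T * T * T := by
    apply TomJ_nonneg
    · intro x y
      show ⟪T (T (T x)), y⟫_ℂ = ⟪x, T (T (T y))⟫_ℂ
      rw [hsa, hsa, hsa]
    · intro x
      show 0 ≤ (⟪x, T (T (T x))⟫_ℂ).re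
      rw [← hsa]
      exact hT0 _
  have hBT : B = T * T * T := by
    rw [← CFC.mul_self_eq_mul_self_iff B (T * T * T) hBnn hTnn]
    ext x
    show B (B x) = T (T (T (T (T (T x)))))
    rw [hB, hB, hTT, hTcube]
  have hATd : ∀ x, A (T (A x)) = T (A (A x)) := by
    intro x
    have h := congrArg (fun U : H →L[ℂ] H => U x) hBT
    rw [hTT]
    exact h
  have hAdense : DenseRange A := by
    have h1 : DenseRange (fun x => T (T x)) := hdense.comp hdense T.continuous
    have h2 : Set.range (fun x => T (T x)) ⊆ Set.range A := by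
      rintro _ ⟨x, rfl⟩
      exact ⟨A x, hTT x⟩
    exact Dense.mono h2 h1
  have hAT : ∀ x, A (T x) = T (A x) := by
    exact TomJ_ext hAdense (hAcont.comp T.continuous) (T.continuous.comp hAcont) hATd
  -- the extension
  let J : H →SL[starRingEnd ℂ] H := AL.extendOfNorm (T : H →ₗ[ℂ] H)
  have hbd : ∀ x, ‖AL x‖ ≤ 1 * ‖(T : H →ₗ[ℂ] H) x‖ := fun x => by
    rw [one_mul]; exact (hnorm x).le
  have hJT : ∀ x, J (T x) = A x := fun x =>
    LinearMap.extendOfNorm_eq (f := AL) (e := (T : H →ₗ[ℂ] H)) hdense ⟨1, hbd⟩ x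
  have hJin : ∀ x y, ⟪J x, J y⟫_ℂ = ⟪y, x⟫_ℂ := by
    have h1 : ∀ x y, ⟪J (T x), J y⟫_ℂ = ⟪y, T x⟫_ℂ := by
      intro x
      exact TomJ_ext hdense (g := fun y => ⟪J (T x), J y⟫_ℂ) (h := fun y => ⟪y, T x⟫_ℂ)
        (continuous_const.inner J.continuous) (continuous_id.inner continuous_const) fun y => by
          show ⟪J (T x), J (T y)⟫_ℂ = ⟪T y, T x⟫_ℂ
          rw [hJT, hJT, hinA]
    intro x y
    exact TomJ_ext hdense (g := fun x => ⟪J x, J y⟫_ℂ) (h := fun x => ⟪y, x⟫_ℂ)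
        (J.continuous.inner continuous_const) (continuous_const.inner continuous_id)
        (fun x => h1 x y) x
  have hTJ : ∀ x, T (J x) = A x := by
    exact TomJ_ext hdense (T.continuous.comp J.continuous) hAcont fun x => by
          show T (J (T x)) = A (T x)
          rw [hJT, hAT]
  refine ⟨J, fun x y => map_add J x y, fun c x => ?_, hJin, ?_, hJT, hTJ, ?_⟩
  · exact J.map_smulₛₗ c x
  · intro x
    have h : T (T (J (J x) - x)) = 0 := by
      rw [map_sub, map_sub, hTJ, ← hAT, hTJ, hTT, sub_self]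
    have h2 := hinj _ (hinj _ h)
    exact sub_eq_zero.mp h2
  · exact TomJ_ext hdense (h := fun x => (2 : ℂ) • J x - R (J x)) (J.continuous.comp R.continuous)
        ((J.continuous.const_smul (2 : ℂ)).sub (R.continuous.comp J.continuous)) fun x => by
          show J (R (T x)) = (2 : ℂ) • J (T x) - R (J (T x))
          have e : R (T x) = T (R x) := (congrArg (fun U : H →L[ℂ] H => U x) hTR).symm
          rw [e, hJT, hJT, hAR]

namespace Std

variable (S : Std H)

/-- The modulus of `A`. -/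
noncomputable def T : H →L[ℂ] H := CFC.sqrt ((2 : ℂ) • S.R - S.R * S.R)

theorem TomJ_T_nn : 0 ≤ S.T := CFC.sqrt_nonneg _

theorem TomJ_arg_nn : 0 ≤ (2 : ℂ) • S.R - S.R * S.R := by
  apply TomJ_nonneg
  · intro x y
    show ⟪(2 : ℂ) • S.R x - S.R (S.R x), y⟫_ℂ = ⟪x, (2 : ℂ) • S.R y - S.R (S.R y)⟫_ℂ
    rw [← S.A_A, ← S.A_A, S.A_inner, ← inner_conj_symm x, S.A_inner (S.A y), inner_conj_symm]
  · intro x
    show 0 ≤ (⟪x, (2 : ℂ) • S.R x - S.R (S.R x)⟫_ℂ).re
    rw [← S.A_A, ← inner_conj_symm, S.A_inner, Complex.conj_re]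
    exact inner_self_nonneg (𝕜 := ℂ)

theorem T_star : star S.T = S.T := (IsSelfAdjoint.of_nonneg S.TomJ_T_nn).star_eq

theorem T_nonneg (x : H) : 0 ≤ (⟪x, S.T x⟫_ℂ).re := by
  have h := (ContinuousLinearMap.nonneg_iff_isPositive _).mp S.TomJ_T_nn
  exact h.re_inner_nonneg_right x

theorem T_T (x : H) : S.T (S.T x) = (2 : ℂ) • S.R x - S.R (S.R x) := by
  have h := CFC.sqrt_mul_sqrt_self ((2 : ℂ) • S.R - S.R * S.R) S.TomJ_arg_nn
  exact congrArg (fun U : H →L[ℂ] H => U x) h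

theorem T_R : S.T * S.R = S.R * S.T := by
  have h : Commute ((2 : ℂ) • S.R - S.R * S.R) S.R := by
    apply Commute.sub_left
    · exact (Commute.refl S.R).smul_left _
    · exact (Commute.refl S.R).mul_left (Commute.refl S.R)
  have h2 : Commute S.T S.R := by
    unfold T
    rw [CFC.sqrt_eq_cfc]
    exact Commute.cfc_nnreal h _
  exact h2.eq

theorem T_inj {x : H} (h : S.T x = 0) : x = 0 := by
  have h1 : S.R ((2 : ℂ) • x - S.R x) = 0 := by
    rw [map_sub, map_smul, ← S.T_T, h, map_zero]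
  have h2 := S.R_inj h1
  exact S.R_inj2 (sub_eq_zero.mp h2).symm

/-- Eigenvectors of `R` for the eigenvalue `1`. -/
theorem T_of_R {x : H} (h : S.R x = x) : S.T x = x := by
  have h1 : S.T (S.T x) = x := by
    rw [S.T_T, h, h, two_smul, add_sub_cancel_right]
  have h2 : S.T (S.T x - x) = -(S.T x - x) := by
    rw [map_sub, h1, neg_sub]
  have h3 := S.T_nonneg (S.T x - x)
  rw [h2, inner_neg_right, Complex.neg_re] at h3
  have h4 : (⟪S.T x - x, S.T x - x⟫_ℂ).re = ‖S.T x - x‖ ^ 2 := by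
    have := inner_self_eq_norm_sq (𝕜 := ℂ) (S.T x - x)
    exact this
  rw [h4] at h3
  have h5 : ‖S.T x - x‖ = 0 := by nlinarith [norm_nonneg (S.T x - x)]
  exact sub_eq_zero.mp (norm_eq_zero.mp h5)

theorem T_Ω : S.T S.Ω = S.Ω := S.T_of_R S.R_Ω

theorem T_dense : DenseRange S.T := TomJ_dense S.T_star fun _ h => S.T_inj h

theorem swap_T : S.swap.T = S.T := by
  unfold T
  congr 1
  ext x
  show (2 : ℂ) • S.swap.R x - S.swap.R (S.swap.R x) = (2 : ℂ) • S.R x - S.R (S.R x)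
  rw [S.swap_R, S.swap_R, map_sub, map_smul]
  module

theorem exists_J : ∃ J : H → H, (∀ x y, J (x + y) = J x + J y) ∧ (∀ (c : ℂ) x, J (c • x) =
      (starRingEnd ℂ) c • J x) ∧ (∀ x y, ⟪J x, J y⟫_ℂ = ⟪y, x⟫_ℂ) ∧ (∀ x, J (J x) = x) ∧
      (∀ x, J (S.T x) = S.A x) ∧ (∀ x, S.T (J x) = S.A x) ∧
      ∀ x, J (S.R x) = (2 : ℂ) • J x - S.R (J x) :=
  exists_polarJ S.R_star S.A_add S.A_smul S.A_inner S.A_R S.T_star S.T_nonneg
    (fun x => by rw [S.A_A, S.T_T]) S.T_R fun _ h => S.T_inj h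

/-- The modular conjugation. -/
noncomputable def J : H → H := S.exists_J.choose

theorem J_add (x y : H) : S.J (x + y) = S.J x + S.J y := S.exists_J.choose_spec.1 x y

theorem J_smul (c : ℂ) (x : H) : S.J (c • x) = (starRingEnd ℂ) c • S.J x :=
  S.exists_J.choose_spec.2.1 c x

theorem J_inner (x y : H) : ⟪S.J x, S.J y⟫_ℂ = ⟪y, x⟫_ℂ := S.exists_J.choose_spec.2.2.1 x y

theorem J_J (x : H) : S.J (S.J x) = x := S.exists_J.choose_spec.2.2.2.1 x

theorem J_T (x : H) : S.J (S.T x) = S.A x := S.exists_J.choose_spec.2.2.2.2.1 x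

theorem T_J (x : H) : S.T (S.J x) = S.A x := S.exists_J.choose_spec.2.2.2.2.2.1 x

theorem J_R (x : H) : S.J (S.R x) = (2 : ℂ) • S.J x - S.R (S.J x) :=
  S.exists_J.choose_spec.2.2.2.2.2.2 x

theorem J_norm (x : H) : ‖S.J x‖ = ‖x‖ := by
  have h1 := S.J_inner x x
  rw [inner_self_eq_norm_sq_to_K, inner_self_eq_norm_sq_to_K] at h1
  have h2 : ‖S.J x‖ ^ 2 = ‖x‖ ^ 2 := by exact_mod_cast h1
  exact (pow_left_inj₀ (norm_nonneg _) (norm_nonneg _) two_ne_zero).mp h2

theorem TomJ_J_sub (x y : H) : S.J (x - y) = S.J x - S.J y := by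
  have h : S.J (-y) = -S.J y := by
    have := S.J_smul (-1) y
    rw [map_neg, map_one, neg_one_smul, neg_one_smul] at this
    exact this
  rw [sub_eq_add_neg, S.J_add, h, ← sub_eq_add_neg]

theorem TomJ_J_cont : Continuous S.J := by
  have h : Isometry S.J := by
    apply Isometry.of_dist_eq
    intro x y
    rw [dist_eq_norm, dist_eq_norm, ← S.TomJ_J_sub, S.J_norm]
  exact h.continuous

theorem J_Ω : S.J S.Ω = S.Ω := by
  have h := S.J_T S.Ω
  rw [S.T_Ω, S.A_Ω] at h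
  exact h

theorem swap_J : S.swap.J = S.J := by
  apply S.T_dense.equalizer S.swap.TomJ_J_cont S.TomJ_J_cont
  funext x
  show S.swap.J (S.T x) = S.J (S.T x)
  rw [S.J_T, ← S.swap_A, ← S.swap.J_T, S.swap_T]

/-- The operator `J b J`. -/
theorem exists_conj (b : H →L[ℂ] H) : ∃ X : H →L[ℂ] H, (∀ x, X x = S.J (b (S.J x))) ∧
    ‖X‖ ≤ ‖b‖ ∧ ∀ x, (star X) x = S.J ((star b) (S.J x)) := by
  let X : H →L[ℂ] H :=
    LinearMap.mkContinuous
      { toFun := fun x => S.J (b (S.J x))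
        map_add' := fun x y => by rw [S.J_add, map_add, S.J_add]
        map_smul' := fun c x => by
          rw [S.J_smul, map_smul, S.J_smul, RingHom.id_apply, Complex.conj_conj] }
      ‖b‖ (fun x => by
        show ‖S.J (b (S.J x))‖ ≤ _
        rw [S.J_norm]
        refine (b.le_opNorm _).trans ?_
        rw [S.J_norm])
  have hX : ∀ x, X x = S.J (b (S.J x)) := fun x => rfl
  refine ⟨X, hX, LinearMap.mkContinuous_norm_le _ (norm_nonneg _) _, fun x => ?_⟩
  refine ext_inner_right ℂ fun y => ?_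
  rw [ContinuousLinearMap.star_eq_adjoint, ContinuousLinearMap.adjoint_inner_left, hX]
  conv_rhs => rw [← S.J_J y]
  conv_lhs => rw [← S.J_J x]
  rw [S.J_inner, S.J_inner, ContinuousLinearMap.star_eq_adjoint,
    ContinuousLinearMap.adjoint_inner_right]

end Std

end Pool.Agent.MP_86f3ed.Ty
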