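import Pool.Agent.H.MP_86f3ed_an.Ty.TomRN
import Pool.Agent.H.MP_86f3ed_an.Ty.TomJ

open scoped InnerProductSpace Topology
open Filter ContinuousLinearMap

namespace Pool.Agent.MP_86f3ed.Ty

open Pin

attribute [local instance] InnerProductSpace.complexToReal

variable {H : Type*} [NormedAddCommGroup H] [InnerProductSpace ℂ H] [CompleteSpace H]

namespace Std

variable (S : Std H)

/-- `2 - R` -/
noncomputable def R2 : H →L[ℂ] H := (2 : ℂ) • 1 - S.R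

theorem R2_apply (x : H) : S.R2 x = (2 : ℂ) • x - S.R x := rfl

theorem TomD_inner_star (a : H →L[ℂ] H) (x y : H) : ⟪a x, y⟫_ℂ = ⟪x, (star a) y⟫_ℂ := by
  rw [star_eq_adjoint, adjoint_inner_right]

theorem TomD_star_inner (a : H →L[ℂ] H) (x y : H) : ⟪(star a) x, y⟫_ℂ = ⟪x, a y⟫_ℂ := by
  rw [star_eq_adjoint, adjoint_inner_left]

theorem TomD_R2_star : star S.R2 = S.R2 := by
  unfold R2
  rw [star_sub, star_smul, star_one, S.R_star]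
  congr 2
  exact Complex.conj_ofNat 2

theorem TomD_inner_R (x y : H) : ⟪x, S.R y⟫_ℂ = ⟪S.R x, y⟫_ℂ := by
  rw [TomD_inner_star, S.R_star]

theorem TomD_inner_R2 (x y : H) : ⟪x, S.R2 y⟫_ℂ = ⟪S.R2 x, y⟫_ℂ := by
  rw [TomD_inner_star, S.TomD_R2_star]

theorem TomD_A_cont : Continuous S.A := by
  let f : H →+ H := AddMonoidHom.mk' S.A S.A_add
  exact AddMonoidHomClass.continuous_of_bound f 2 S.norm_A_le

theorem TomD_inner_A (x y : H) : ⟪x, S.A y⟫_ℂ = ⟪y, S.A x⟫_ℂ := by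
  rw [← inner_conj_symm x, S.A_inner, inner_conj_symm]

/-- `x` is a solution of the Radon-Nikodym problem for `b` and `τ`. -/
def Sol (b x : H →L[ℂ] H) (τ : ℝ) : Prop :=
  ∀ z ∈ S.M, (Real.exp τ : ℂ) * ⟪(star z) S.Ω, x S.Ω⟫_ℂ +
      (Real.exp (-τ) : ℂ) * ⟪(star x) S.Ω, z S.Ω⟫_ℂ = 2 * ⟪b S.Ω, z S.Ω⟫_ℂ

/-- The test of the operator identity on the vectors `z₁ Ω`, `z₂ Ω`. -/
theorem TomD_test {b x z₁ z₂ : H →L[ℂ] H} {τ : ℝ} (hb : b ∈ Com S.M) (hx : x ∈ S.M)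
    (h : S.Sol b x τ) (h1 : z₁ ∈ Com S.M) (h2 : z₂ ∈ Com S.M) :
    (Real.exp τ : ℂ) * ⟪S.R (z₁ S.Ω), x (S.R2 (z₂ S.Ω))⟫_ℂ +
      (Real.exp (-τ) : ℂ) * ⟪S.R2 (z₁ S.Ω), x (S.R (z₂ S.Ω))⟫_ℂ =
      2 * ⟪z₁ S.Ω, S.A (b (S.A (z₂ S.Ω)))⟫_ℂ := by
  obtain ⟨a₁, ha₁, e1, e1s, r1⟩ := S.exists_r0 h1
  obtain ⟨a₂, ha₂, e2, e2s, r2⟩ := S.exists_r0 h2
  have ha₁s : star a₁ ∈ S.M := star_mem ha₁
  have ha₂s : star a₂ ∈ S.M := star_mem ha₂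
  have h1s : star z₁ ∈ Com S.M := star_mem h1
  have h2s : star z₂ ∈ Com S.M := star_mem h2
  have hxs : star x ∈ S.M := star_mem hx
  have hAz₁ : S.A (z₁ S.Ω) = (star a₁) S.Ω := by
    have h3 := S.A_N h1s
    rw [star_star] at h3
    rw [h3, e1s]
  have hAz₂ : S.A (z₂ S.Ω) = (star a₂) S.Ω := by
    have h3 := S.A_N h2s
    rw [star_star] at h3
    rw [h3, e2s]
  -- the first term
  have t1 : ⟪S.R (z₁ S.Ω), x (S.R2 (z₂ S.Ω))⟫_ℂ = ⟪(star (a₂ * star a₁)) S.Ω, x S.Ω⟫_ℂ := by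
    have h3 := r2 (star a₁ * x) (mul_mem ha₁s hx)
    have h4 : ⟪(star (star a₁ * x)) S.Ω, a₂ S.Ω⟫_ℂ = ⟪a₁ S.Ω, x (a₂ S.Ω)⟫_ℂ := by
      rw [star_mul, star_star]
      show ⟪(star x) (a₁ S.Ω), a₂ S.Ω⟫_ℂ = _
      rw [TomD_star_inner]
    have h5 : ⟪(star z₂) S.Ω, (star a₁ * x) S.Ω⟫_ℂ = ⟪a₁ S.Ω, x (z₂ S.Ω)⟫_ℂ := by
      rw [TomD_star_inner]
      show ⟪S.Ω, z₂ ((star a₁) (x S.Ω))⟫_ℂ = _
      rw [← S.comm ha₁s h2, ← TomD_inner_star, S.comm hx h2]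
    have h6 : ⟪(star a₂) S.Ω, (star a₁ * x) S.Ω⟫_ℂ = ⟪(star (a₂ * star a₁)) S.Ω, x S.Ω⟫_ℂ := by
      rw [star_mul, star_star]
      show ⟪(star a₂) S.Ω, (star a₁) (x S.Ω)⟫_ℂ = ⟪a₁ ((star a₂) S.Ω), x S.Ω⟫_ℂ
      rw [← TomD_inner_star]
    rw [h4, h5, h6] at h3
    rw [R2_apply, ← e1, ← e2, map_sub, map_smul, inner_sub_right, inner_smul_right, ← h3]
    ring
  -- the second term
  have t2 : ⟪S.R2 (z₁ S.Ω), x (S.R (z₂ S.Ω))⟫_ℂ = ⟪(star x) S.Ω, (a₂ * star a₁) S.Ω⟫_ℂ := by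
    have h3 := r1 (star (x * a₂)) (star_mem (mul_mem hx ha₂))
    rw [star_star] at h3
    have h4 : ⟪(star a₁) S.Ω, (star (x * a₂)) S.Ω⟫_ℂ =
        (starRingEnd ℂ) ⟪(star x) S.Ω, (a₂ * star a₁) S.Ω⟫_ℂ := by
      rw [star_mul, inner_conj_symm]
      show ⟪(star a₁) S.Ω, (star a₂) ((star x) S.Ω)⟫_ℂ = ⟪a₂ ((star a₁) S.Ω), (star x) S.Ω⟫_ℂ
      rw [TomD_inner_star a₂]
    have h5 : ⟪(x * a₂) S.Ω, a₁ S.Ω⟫_ℂ = (starRingEnd ℂ) ⟪a₁ S.Ω, x (a₂ S.Ω)⟫_ℂ := by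
      rw [inner_conj_symm]; rfl
    have h6 : ⟪(star z₁) S.Ω, (star (x * a₂)) S.Ω⟫_ℂ =
        (starRingEnd ℂ) ⟪z₁ S.Ω, x (a₂ S.Ω)⟫_ℂ := by
      rw [inner_conj_symm, TomD_star_inner, ← S.comm (star_mem (mul_mem hx ha₂)) h1,
        ← TomD_inner_star]
      rfl
    rw [h4, h5, h6] at h3
    have h7 := congrArg (starRingEnd ℂ) h3
    rw [map_add, map_mul, Complex.conj_conj, Complex.conj_conj, Complex.conj_conj,
      Complex.conj_ofNat] at h7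
    rw [R2_apply, ← e1, ← e2, inner_sub_left, inner_smul_left, Complex.conj_ofNat, ← h7]
    ring
  have t3 : ⟪z₁ S.Ω, S.A (b (S.A (z₂ S.Ω)))⟫_ℂ = ⟪b S.Ω, (a₂ * star a₁) S.Ω⟫_ℂ := by
    rw [TomD_inner_A, hAz₁, hAz₂, ← S.comm ha₂s hb, TomD_star_inner]
    rfl
  rw [t1, t2, t3]
  exact h _ (mul_mem ha₂ ha₁s)

theorem TomD_ext {x y : H} (h : ∀ z ∈ Com S.M, ⟪z S.Ω, x⟫_ℂ = ⟪z S.Ω, y⟫_ℂ) : x = y := by
  refine ext_inner_left ℂ fun v => ?_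
  have h1 : Continuous fun v : H => ⟪v, x⟫_ℂ := by fun_prop
  have h2 : Continuous fun v : H => ⟪v, y⟫_ℂ := by fun_prop
  have h3 := Continuous.ext_on S.cycN h1 h2 (by
    rintro _ ⟨z, hz, rfl⟩
    exact h z hz)
  exact congrFun h3 v

theorem Sol_op {b x : H →L[ℂ] H} {τ : ℝ} (hb : b ∈ Com S.M) (hx : x ∈ S.M) (h : S.Sol b x τ)
    (v : H) : (Real.exp τ : ℂ) • S.R (x (S.R2 v)) + (Real.exp (-τ) : ℂ) • S.R2 (x (S.R v)) =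
      (2 : ℂ) • S.A (b (S.A v)) := by
  have hA := S.TomD_A_cont
  have h1 : Continuous fun v : H => (Real.exp τ : ℂ) • S.R (x (S.R2 v)) +
      (Real.exp (-τ) : ℂ) • S.R2 (x (S.R v)) := by fun_prop
  have h2 : Continuous fun v : H => (2 : ℂ) • S.A (b (S.A v)) :=
    (hA.comp (b.continuous.comp hA)).const_smul _
  have h3 := Continuous.ext_on S.cycN h1 h2 (by
    rintro _ ⟨z₂, hz₂, rfl⟩
    refine S.TomD_ext fun z₁ hz₁ => ?_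
    rw [inner_add_right, inner_smul_right, inner_smul_right, inner_smul_right, TomD_inner_R,
      TomD_inner_R2]
    exact S.TomD_test hb hx h hz₁ hz₂)
  exact congrFun h3 v

theorem Sol_op_star {b x : H →L[ℂ] H} {τ : ℝ} (hb : b ∈ Com S.M) (hx : x ∈ S.M)
    (h : S.Sol b x τ) (v : H) :
    (Real.exp τ : ℂ) • S.R2 ((star x) (S.R v)) + (Real.exp (-τ) : ℂ) • S.R ((star x) (S.R2 v)) =
      (2 : ℂ) • S.A ((star b) (S.A v)) := by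
  refine ext_inner_left ℂ fun w => ?_
  have h1 := congrArg (fun u : H => ⟪u, v⟫_ℂ) (S.Sol_op hb hx h w)
  have e1 : ⟪S.R (x (S.R2 w)), v⟫_ℂ = ⟪w, S.R2 ((star x) (S.R v))⟫_ℂ := by
    rw [← TomD_inner_R, TomD_inner_star x, ← TomD_inner_R2]
  have e2 : ⟪S.R2 (x (S.R w)), v⟫_ℂ = ⟪w, S.R ((star x) (S.R2 v))⟫_ℂ := by
    rw [← TomD_inner_R2, TomD_inner_star x, ← TomD_inner_R]
  have e3 : ⟪S.A (b (S.A w)), v⟫_ℂ = ⟪w, S.A ((star b) (S.A v))⟫_ℂ := by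
    rw [S.A_inner, ← TomD_star_inner, TomD_inner_A]
  rw [inner_add_left, inner_smul_left, inner_smul_left, inner_smul_left, Complex.conj_ofReal,
    Complex.conj_ofReal, Complex.conj_ofNat, e1, e2, e3] at h1
  rw [inner_add_right, inner_smul_right, inner_smul_right, inner_smul_right]
  exact h1

theorem TomD_R2_Ω : S.R2 S.Ω = S.Ω := by
  rw [R2_apply, S.R_Ω, two_smul, add_sub_cancel_right]

theorem Sol_vec {b x : H →L[ℂ] H} {τ : ℝ} (hb : b ∈ Com S.M) (hx : x ∈ S.M) (h : S.Sol b x τ) :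
    (Real.exp τ : ℂ) • S.R (x S.Ω) + (Real.exp (-τ) : ℂ) • S.R2 (x S.Ω) =
      (2 : ℂ) • S.A (b S.Ω) := by
  have h1 := S.Sol_op hb hx h S.Ω
  rw [S.TomD_R2_Ω, S.R_Ω, S.A_Ω] at h1
  exact h1

theorem Sol_vec_star {b x : H →L[ℂ] H} {τ : ℝ} (hb : b ∈ Com S.M) (hx : x ∈ S.M)
    (h : S.Sol b x τ) :
    (Real.exp (-τ) : ℂ) • S.R ((star x) S.Ω) + (Real.exp τ : ℂ) • S.R2 ((star x) S.Ω) =
      (2 : ℂ) • S.A ((star b) S.Ω) := by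
  have h1 := S.Sol_op_star hb hx h S.Ω
  rw [S.TomD_R2_Ω, S.R_Ω, S.A_Ω] at h1
  rw [add_comm]
  exact h1

end Std

end Pool.Agent.MP_86f3ed.Ty
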