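import Pool.Agent.H.MP_86f3ed_an.Ty.TomA

open scoped InnerProductSpace Topology
open Filter ContinuousLinearMap

namespace Pool.Agent.MP_86f3ed.Ty

open Pin

attribute [local instance] InnerProductSpace.complexToReal

variable {H : Type*} [NormedAddCommGroup H] [InnerProductSpace ℂ H] [CompleteSpace H]

theorem TomH_inner_in (j : Fin 2) (x : PiLp 2 (fun _ : Fin 2 => H)) (y : H) :
    ⟪x, kap1_in j y⟫_ℂ = ⟪x j, y⟫_ℂ := by
  rw [PiLp.inner_apply, Finset.sum_eq_single j]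
  · rw [kap1_in_apply, if_pos rfl]
  · intro i _ hi
    rw [kap1_in_apply, if_neg hi, inner_zero_right]
  · intro h
    exact absurd (Finset.mem_univ j) h

theorem TomH_inner_in' (j : Fin 2) (x : PiLp 2 (fun _ : Fin 2 => H)) (y : H) :
    ⟪kap1_in j y, x⟫_ℂ = ⟪y, x j⟫_ℂ := by
  rw [← inner_conj_symm, TomH_inner_in, inner_conj_symm]

theorem TomH_norm_coord (j : Fin 2) (x : PiLp 2 (fun _ : Fin 2 => H)) : ‖x j‖ ≤ ‖x‖ :=
  PiLp.norm_apply_le x j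

theorem TomH_norm_in (j : Fin 2) (y : H) :
    ‖(kap1_in j y : PiLp 2 (fun _ : Fin 2 => H))‖ = ‖y‖ := by
  have h1 : ‖(kap1_in j y : PiLp 2 (fun _ : Fin 2 => H))‖ ^ 2 = ‖y‖ ^ 2 := by
    have h2 := TomH_inner_in j (kap1_in j y : PiLp 2 (fun _ : Fin 2 => H)) y
    rw [kap1_in_apply, if_pos rfl] at h2
    have h3 := congrArg Complex.re h2
    rw [inner_self_eq_norm_sq_to_K, inner_self_eq_norm_sq_to_K] at h3
    exact_mod_cast h3
  exact (sq_eq_sq₀ (norm_nonneg _) (norm_nonneg _)).mp h1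

/-- The projections onto the closure of `{(a Ω, t a ξ)}`. -/
theorem TomH_proj (M : StarSubalgebra ℂ (H →L[ℂ] H)) (Ω ξ : H) (t : ℝ) (ht : 0 < t)
    (h : ∀ a ∈ M, ⟪ξ, a Ω⟫_ℂ = ⟪star a Ω, ξ⟫_ℂ) :
    ∃ E : PiLp 2 (fun _ : Fin 2 => H) →L[ℂ] PiLp 2 (fun _ : Fin 2 => H),
      (∀ i j : Fin 2, (kap1_pr i).comp (E.comp (kap1_in j)) ∈ Com M) ∧
      (∀ x y, ⟪E x, y⟫_ℂ = ⟪x, E y⟫_ℂ) ∧ (∀ x, ‖E x‖ ≤ ‖x‖) ∧
      E (kap1_in 0 Ω) + (t : ℂ) • E (kap1_in 1 ξ) = kap1_in 0 Ω + (t : ℂ) • kap1_in 1 ξ ∧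
      ∀ a ∈ M, ‖E (kap1_in 1 (a Ω))‖ ≤ t * ‖a‖ * ‖ξ‖ := by
  set V : PiLp 2 (fun _ : Fin 2 => H) := kap1_in 0 Ω + (t : ℂ) • kap1_in 1 ξ with hV
  have hV0 : V 0 = Ω := by
    show (kap1_in 0 Ω : PiLp 2 (fun _ : Fin 2 => H)) 0
      + (t : ℂ) • (kap1_in 1 ξ : PiLp 2 (fun _ : Fin 2 => H)) 0 = Ω
    rw [kap1_in_apply, kap1_in_apply, if_pos rfl, if_neg (by decide), smul_zero, add_zero]
  have hV1 : V 1 = (t : ℂ) • ξ := by
    show (kap1_in 0 Ω : PiLp 2 (fun _ : Fin 2 => H)) 1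
      + (t : ℂ) • (kap1_in 1 ξ : PiLp 2 (fun _ : Fin 2 => H)) 1 = (t : ℂ) • ξ
    rw [kap1_in_apply, kap1_in_apply, if_pos rfl, if_neg (by decide), zero_add]
  let L0 : Submodule ℂ (PiLp 2 (fun _ : Fin 2 => H)) :=
    { carrier := {w | ∃ b ∈ M, w = kap1_amp b V}
      add_mem' := by
        rintro _ _ ⟨b, hb, rfl⟩ ⟨b', hb', rfl⟩
        refine ⟨b + b', add_mem hb hb', ?_⟩
        apply PiLp.ext
        intro i
        rfl
      zero_mem' := by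
        refine ⟨0, zero_mem _, ?_⟩
        apply PiLp.ext
        intro i
        rfl
      smul_mem' := by
        rintro c _ ⟨b, hb, rfl⟩
        refine ⟨c • b, SMulMemClass.smul_mem c hb, ?_⟩
        apply PiLp.ext
        intro i
        rfl }
  set L := L0.topologicalClosure with hL
  haveI : CompleteSpace L := (Submodule.isClosed_topologicalClosure L0).completeSpace_coe
  have hinv : ∀ a ∈ M, ∀ w ∈ L, kap1_amp a w ∈ L := by
    intro a ha w hw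
    have h1 : ∀ w ∈ L0, kap1_amp a w ∈ L0 := by
      rintro _ ⟨b, hb, rfl⟩
      refine ⟨a * b, mul_mem ha hb, ?_⟩
      apply PiLp.ext
      intro i
      rfl
    have h2 : Set.MapsTo (kap1_amp (ι := Fin 2) a) (L0 : Set _) (L0 : Set _) := h1
    exact h2.closure (kap1_amp a).continuous hw
  have hcomm : ∀ a ∈ M, ∀ w, L.starProjection (kap1_amp a w) = kap1_amp a (L.starProjection w) := by
    intro a ha w
    apply Submodule.eq_starProjection_of_mem_of_inner_eq_zero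
    · exact hinv a ha _ (Submodule.starProjection_apply_mem L w)
    · intro w' hw'
      rw [← map_sub, kap1_adj]
      exact Submodule.starProjection_inner_eq_zero _ _ (hinv _ (star_mem ha) _ hw')
  have hVL : V ∈ L := by
    apply Submodule.le_topologicalClosure
    refine ⟨1, one_mem _, ?_⟩
    apply PiLp.ext
    intro i
    rfl
  refine ⟨L.starProjection, ?_, ?_, ?_, ?_, ?_⟩
  · intro i j
    rw [mem_Com]
    intro a ha
    ext x
    show a (kap1_pr i (L.starProjection (kap1_in j x)))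
      = kap1_pr i (L.starProjection (kap1_in j (a x)))
    rw [← kap1_amp_in, hcomm a ha]
    rfl
  · intro x y
    exact L.inner_starProjection_left_eq_right x y
  · exact fun x => L.norm_starProjection_apply_le x
  · rw [← map_smul, ← map_add]
    exact Submodule.starProjection_eq_self_iff.2 hVL
  · intro a ha
    set x : PiLp 2 (fun _ : Fin 2 => H) := kap1_in 1 (a Ω) with hx
    have key : ∀ w ∈ L, ‖⟪w, x⟫_ℂ‖ ≤ t * ‖a‖ * ‖ξ‖ * ‖w‖ := by
      intro w hw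
      have hcl : IsClosed {w : PiLp 2 (fun _ : Fin 2 => H) | ‖⟪w, x⟫_ℂ‖ ≤ t * ‖a‖ * ‖ξ‖ * ‖w‖} :=
        isClosed_le (by fun_prop) (by fun_prop)
      refine closure_minimal ?_ hcl hw
      rintro _ ⟨b, hb, rfl⟩
      show ‖⟪kap1_amp b V, x⟫_ℂ‖ ≤ t * ‖a‖ * ‖ξ‖ * ‖kap1_amp b V‖
      rw [hx, TomH_inner_in, kap1_amp_apply, hV1, map_smul, inner_smul_left, norm_mul]
      have e1 : ‖(starRingEnd ℂ) (t : ℂ)‖ = t := by
        rw [Complex.conj_ofReal, Complex.norm_real, Real.norm_eq_abs, abs_of_pos ht]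
      rw [e1]
      have e2 : ⟪b ξ, a Ω⟫_ℂ = ⟪star a (b Ω), ξ⟫_ℂ := by
        have h1 := h (star b * a) (mul_mem (star_mem hb) ha)
        rw [star_mul, star_star] at h1
        have h2 : ⟪b ξ, a Ω⟫_ℂ = ⟪ξ, star b (a Ω)⟫_ℂ := by
          rw [ContinuousLinearMap.star_eq_adjoint, ContinuousLinearMap.adjoint_inner_right]
        rw [h2]
        exact h1
      rw [e2]
      have e3 : ‖⟪star a (b Ω), ξ⟫_ℂ‖ ≤ ‖a‖ * ‖b Ω‖ * ‖ξ‖ := by
        refine (norm_inner_le_norm _ _).trans ?_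
        refine mul_le_mul_of_nonneg_right ?_ (norm_nonneg _)
        refine (ContinuousLinearMap.le_opNorm _ _).trans_eq ?_
        rw [norm_star]
      have e4 : ‖b Ω‖ ≤ ‖kap1_amp (ι := Fin 2) b V‖ := by
        have := TomH_norm_coord 0 (kap1_amp (ι := Fin 2) b V)
        rw [kap1_amp_apply, hV0] at this
        exact this
      calc t * ‖⟪star a (b Ω), ξ⟫_ℂ‖ ≤ t * (‖a‖ * ‖b Ω‖ * ‖ξ‖) := by gcongr
        _ ≤ t * (‖a‖ * ‖kap1_amp (ι := Fin 2) b V‖ * ‖ξ‖) := by gcongr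
        _ = _ := by ring
    have h1 := key _ (Submodule.starProjection_apply_mem L x)
    have h2 : ⟪L.starProjection x, x⟫_ℂ = ((‖L.starProjection x‖ ^ 2 : ℝ) : ℂ) := by
      have h3 : ⟪L.starProjection x, x⟫_ℂ = ⟪L.starProjection x, L.starProjection x⟫_ℂ := by
        have h4 : ⟪L.starProjection x, x - L.starProjection x⟫_ℂ = 0 := by
          rw [← inner_conj_symm, Submodule.starProjection_inner_eq_zero _ _
            (Submodule.starProjection_apply_mem L x), map_zero]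
        rw [inner_sub_right, sub_eq_zero] at h4
        exact h4
      rw [h3, inner_self_eq_norm_sq_to_K]
      norm_cast
    rw [h2, Complex.norm_real, Real.norm_eq_abs, abs_of_nonneg (by positivity), sq] at h1
    by_cases h0 : ‖L.starProjection x‖ = 0
    · rw [h0]
      positivity
    · have h5 : 0 < ‖L.starProjection x‖ := lt_of_le_of_ne (norm_nonneg _) (Ne.symm h0)
      exact le_of_mul_le_mul_right h1 h5

namespace Std

variable (S : Std H)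

/-- The hypothesis on self-adjoint elements, for all elements. -/
theorem TomH_lin {ξ : H} (h : ∀ a ∈ S.M, star a = a → (⟪ξ, a S.Ω⟫_ℂ).im = 0) :
    ∀ a ∈ S.M, ⟪ξ, a S.Ω⟫_ℂ = ⟪star a S.Ω, ξ⟫_ℂ := by
  have hs : ∀ a ∈ S.M, star a = a → ⟪ξ, a S.Ω⟫_ℂ = ⟪a S.Ω, ξ⟫_ℂ := by
    intro a ha hsa
    rw [← inner_conj_symm (a S.Ω) ξ]
    exact (Complex.conj_eq_iff_im.mpr (h a ha hsa)).symm
  intro a ha
  have h1 := hs (a + star a) (add_mem ha (star_mem ha)) (by rw [star_add, star_star, add_comm])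
  have h2 := hs (Complex.I • (a - star a)) (S.M.smul_mem (sub_mem ha (star_mem ha)) _) (by
    rw [star_smul, star_sub, star_star, Complex.star_def, Complex.conj_I, neg_smul, ← smul_neg,
      neg_sub])
  have e1 : (a + star a) S.Ω = a S.Ω + star a S.Ω := rfl
  have e2 : (Complex.I • (a - star a)) S.Ω = Complex.I • (a S.Ω - star a S.Ω) := rfl
  rw [e1, inner_add_right, inner_add_left] at h1
  rw [e2, inner_smul_right, inner_smul_left, inner_sub_right, inner_sub_left, Complex.conj_I] at h2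
  have h3 : ⟪ξ, a S.Ω⟫_ℂ - ⟪ξ, star a S.Ω⟫_ℂ = -(⟪a S.Ω, ξ⟫_ℂ - ⟪star a S.Ω, ξ⟫_ℂ) := by
    have h4 := congrArg (fun z => -Complex.I * z) h2
    rw [← mul_assoc, ← mul_assoc, neg_mul, neg_mul_neg, Complex.I_mul_I, neg_neg, one_mul,
      neg_one_mul] at h4
    exact h4
  linear_combination (1 / 2 : ℂ) * h1 + (1 / 2 : ℂ) * h3

/-- Elements of the commutant which send `Ω` close to `ξ`. -/
theorem TomH_approx {ξ : H} (h : ∀ a ∈ S.M, ⟪ξ, a S.Ω⟫_ℂ = ⟪star a S.Ω, ξ⟫_ℂ) (n : ℕ) :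
    ∃ y ∈ Com S.M, ‖star y S.Ω‖ ≤ ‖ξ‖ ∧ ∀ a ∈ S.M,
      ‖y S.Ω - ξ‖ ≤ ‖ξ - a S.Ω‖ + 1 / ((n : ℝ) + 1) * (‖a‖ * ‖ξ‖) := by
  set t : ℝ := 1 / ((n : ℝ) + 1) with htd
  have ht : 0 < t := Nat.one_div_pos_of_nat
  obtain ⟨E, hE1, hE2, hE3, hE4, hE5⟩ := TomH_proj S.M S.Ω ξ t ht h
  have htc : (t : ℂ) ≠ 0 := Complex.ofReal_ne_zero.mpr ht.ne'
  set e21 : H →L[ℂ] H := (kap1_pr 1).comp (E.comp (kap1_in 0)) with he21
  set e12 : H →L[ℂ] H := (kap1_pr 0).comp (E.comp (kap1_in 1)) with he12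
  have hstar : star e21 = e12 := by
    rw [ContinuousLinearMap.star_eq_adjoint]
    symm
    rw [ContinuousLinearMap.eq_adjoint_iff]
    intro x y
    show ⟪E (kap1_in 1 x) 0, y⟫_ℂ = ⟪x, E (kap1_in 0 y) 1⟫_ℂ
    rw [← TomH_inner_in, hE2, TomH_inner_in']
  refine ⟨(t : ℂ)⁻¹ • e21, (Com S.M).smul_mem (hE1 1 0) _, ?_, ?_⟩
  · rw [star_smul, hstar]
    show ‖(starRingEnd ℂ) ((t : ℂ)⁻¹) • E (kap1_in 1 S.Ω) 0‖ ≤ ‖ξ‖
    rw [norm_smul]
    have e1 : ‖(starRingEnd ℂ) ((t : ℂ)⁻¹)‖ = t⁻¹ := by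
      rw [map_inv₀, Complex.conj_ofReal, norm_inv, Complex.norm_real, Real.norm_eq_abs,
        abs_of_pos ht]
    rw [e1]
    have h1 := hE5 1 (one_mem _)
    have h2 := TomH_norm_coord 0 (E (kap1_in 1 S.Ω))
    have h3 : ‖(1 : H →L[ℂ] H)‖ ≤ 1 := ContinuousLinearMap.norm_id_le
    have h4 : ‖E (kap1_in 1 S.Ω) 0‖ ≤ t * ‖ξ‖ := by
      refine h2.trans (h1.trans ?_)
      refine mul_le_mul_of_nonneg_right ?_ (norm_nonneg _)
      nlinarith
    calc t⁻¹ * ‖E (kap1_in 1 S.Ω) 0‖ ≤ t⁻¹ * (t * ‖ξ‖) := by gcongr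
      _ = ‖ξ‖ := by field_simp
  · intro a ha
    have h1 := congrArg (fun w : PiLp 2 (fun _ : Fin 2 => H) => w 1) hE4
    have h2 : E (kap1_in 0 S.Ω) 1 + (t : ℂ) • E (kap1_in 1 ξ) 1
        = (kap1_in 0 S.Ω : PiLp 2 (fun _ : Fin 2 => H)) 1
          + (t : ℂ) • (kap1_in 1 ξ : PiLp 2 (fun _ : Fin 2 => H)) 1 := h1
    rw [kap1_in_apply, kap1_in_apply, if_neg (by decide), if_pos rfl, zero_add] at h2
    have h3 : ((t : ℂ)⁻¹ • e21) S.Ω - ξ = -(E (kap1_in 1 ξ) 1) := by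
      show (t : ℂ)⁻¹ • E (kap1_in 0 S.Ω) 1 - ξ = _
      rw [eq_sub_of_add_eq h2, smul_sub, smul_smul, smul_smul, inv_mul_cancel₀ htc, one_smul,
        one_smul]
      abel
    rw [h3, norm_neg]
    have h4 : kap1_in 1 ξ = (kap1_in 1 (ξ - a S.Ω) : PiLp 2 (fun _ : Fin 2 => H))
        + kap1_in 1 (a S.Ω) := by
      rw [← map_add, sub_add_cancel]
    calc ‖E (kap1_in 1 ξ) 1‖ ≤ ‖E (kap1_in 1 ξ)‖ := TomH_norm_coord 1 _
      _ ≤ ‖E (kap1_in 1 (ξ - a S.Ω))‖ + ‖E (kap1_in 1 (a S.Ω))‖ := by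
        rw [h4, map_add]
        exact norm_add_le _ _
      _ ≤ ‖ξ - a S.Ω‖ + t * ‖a‖ * ‖ξ‖ := by
        refine add_le_add ?_ (hE5 a ha)
        exact (hE3 _).trans_eq (TomH_norm_in 1 _)
      _ = _ := by ring

/-- The vectors with `⟪ξ, a Ω⟫` real for all self-adjoint `a` in `M` are in the closure of
`N_s Ω`. -/
theorem mem_swap_K {ξ : H} (h : ∀ a ∈ S.M, star a = a → (⟪ξ, a S.Ω⟫_ℂ).im = 0) :
    ξ ∈ S.swap.K := by
  have hl := S.TomH_lin h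
  choose y hyN hyb hya using S.TomH_approx hl
  have hdense : Dense {x : H | ∃ a ∈ S.M, x = a S.Ω} := S.cycM
  -- strong convergence
  have hY : Tendsto (fun n => y n S.Ω) atTop (𝓝 ξ) := by
    rw [tendsto_iff_norm_sub_tendsto_zero, Metric.tendsto_atTop]
    intro ε hε
    obtain ⟨_, ⟨a, ha, rfl⟩, hd⟩ := hdense.exists_dist_lt ξ (half_pos hε)
    rw [dist_eq_norm] at hd
    have h1 : Tendsto (fun n : ℕ => 1 / ((n : ℝ) + 1) * (‖a‖ * ‖ξ‖)) atTop (𝓝 0) := by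
      have h2 := (tendsto_one_div_add_atTop_nhds_zero_nat (𝕜 := ℝ)).mul_const (‖a‖ * ‖ξ‖)
      rwa [zero_mul] at h2
    obtain ⟨N, hN⟩ := (Metric.tendsto_atTop.mp h1) (ε / 2) (half_pos hε)
    refine ⟨N, fun n hn => ?_⟩
    have h3 := hN n hn
    rw [Real.dist_eq, sub_zero] at h3
    rw [Real.dist_eq, sub_zero, abs_of_nonneg (norm_nonneg _)]
    have h4 := hya n a ha
    have h5 := le_abs_self (1 / ((n : ℝ) + 1) * (‖a‖ * ‖ξ‖))
    linarith
  -- weak convergence of the adjoints on the orbit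
  have hW : ∀ a ∈ S.M, Tendsto (fun n => ⟪star (y n) S.Ω, a S.Ω⟫_ℂ) atTop (𝓝 ⟪ξ, a S.Ω⟫_ℂ) := by
    intro a ha
    have h1 : ∀ n, ⟪star (y n) S.Ω, a S.Ω⟫_ℂ = ⟪star a S.Ω, y n S.Ω⟫_ℂ := by
      intro n
      rw [ContinuousLinearMap.star_eq_adjoint, ContinuousLinearMap.star_eq_adjoint,
        ContinuousLinearMap.adjoint_inner_left, ContinuousLinearMap.adjoint_inner_left,
        S.comm ha (hyN n)]
    simp_rw [h1]
    rw [hl a ha]
    exact tendsto_const_nhds.inner hY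
  -- weak convergence
  have hWW : ∀ v : H, Tendsto (fun n => ⟪star (y n) S.Ω, v⟫_ℂ) atTop (𝓝 ⟪ξ, v⟫_ℂ) := by
    intro v
    rw [Metric.tendsto_atTop]
    intro ε hε
    have hδ : 0 < ε / (2 * (2 * ‖ξ‖ + 1)) := by positivity
    obtain ⟨_, ⟨a, ha, rfl⟩, hd⟩ := hdense.exists_dist_lt v hδ
    rw [dist_eq_norm] at hd
    obtain ⟨N, hN⟩ := (Metric.tendsto_atTop.mp (hW a ha)) (ε / 2) (half_pos hε)
    refine ⟨N, fun n hn => ?_⟩
    have h3 := hN n hn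
    rw [dist_eq_norm] at h3 ⊢
    have h4 : ⟪star (y n) S.Ω, v⟫_ℂ - ⟪ξ, v⟫_ℂ = ⟪star (y n) S.Ω - ξ, v - a S.Ω⟫_ℂ
        + (⟪star (y n) S.Ω, a S.Ω⟫_ℂ - ⟪ξ, a S.Ω⟫_ℂ) := by
      rw [inner_sub_right, inner_sub_left, inner_sub_left]
      ring
    rw [h4]
    have h5 : ‖⟪star (y n) S.Ω - ξ, v - a S.Ω⟫_ℂ‖ ≤ (2 * ‖ξ‖) * ‖v - a S.Ω‖ := by
      refine (norm_inner_le_norm _ _).trans ?_
      refine mul_le_mul_of_nonneg_right ?_ (norm_nonneg _)
      refine (norm_sub_le _ _).trans ?_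
      have := hyb n
      linarith
    have h6 : (2 * ‖ξ‖) * ‖v - a S.Ω‖ ≤ ε / 2 := by
      have h7 : (2 * ‖ξ‖) * ‖v - a S.Ω‖ ≤ (2 * ‖ξ‖ + 1) * (ε / (2 * (2 * ‖ξ‖ + 1))) := by
        gcongr
        linarith
      refine h7.trans_eq ?_
      field_simp
    calc _ ≤ ‖⟪star (y n) S.Ω - ξ, v - a S.Ω⟫_ℂ‖
          + ‖⟪star (y n) S.Ω, a S.Ω⟫_ℂ - ⟪ξ, a S.Ω⟫_ℂ‖ := norm_add_le _ _
      _ < ε := by linarith
  -- conclusion
  show ξ ∈ closure (S.swap.K0 : Set H)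
  refine kap1_closure (S.swap.K0 : Set H) (zero_mem _) (fun r hr r' hr' => add_mem hr hr')
    (fun c r hr => ?_) ξ ?_
  · have h1 : (c : ℂ) • r = c • r := Complex.coe_smul c r
    rw [h1]
    exact S.swap.K0.smul_mem c hr
  · intro w hw
    have h1 : ∀ n, (⟪y n S.Ω, w⟫_ℂ).re + (⟪star (y n) S.Ω, w⟫_ℂ).re = 0 := by
      intro n
      have h2 := hw ((y n + star (y n)) S.Ω) ⟨y n + star (y n),
        add_mem (hyN n) (star_mem (hyN n)), by rw [star_add, star_star, add_comm], rfl⟩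
      have h3 : (y n + star (y n)) S.Ω = y n S.Ω + star (y n) S.Ω := rfl
      rw [h3, inner_add_right, Complex.add_re] at h2
      have h4 : ∀ u : H, (⟪u, w⟫_ℂ).re = (⟪w, u⟫_ℂ).re := fun u => by
        rw [← inner_conj_symm, Complex.conj_re]
      rw [h4, h4]
      exact h2
    have h5 : Tendsto (fun n => (⟪y n S.Ω, w⟫_ℂ).re + (⟪star (y n) S.Ω, w⟫_ℂ).re) atTop
        (𝓝 ((⟪ξ, w⟫_ℂ).re + (⟪ξ, w⟫_ℂ).re)) := by
      refine Tendsto.add ?_ ?_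
      · exact (Complex.continuous_re.tendsto _).comp (hY.inner tendsto_const_nhds)
      · exact (Complex.continuous_re.tendsto _).comp (hWW w)
    simp_rw [h1] at h5
    have h6 := tendsto_nhds_unique h5 tendsto_const_nhds
    rw [← inner_conj_symm, Complex.conj_re]
    linarith

end Std

end Pool.Agent.MP_86f3ed.Ty
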