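import Pool.Agent.H.MP_86f3ed_an.Ty.TomB

open scoped InnerProductSpace Topology
open Filter ContinuousLinearMap

namespace Pool.Agent.MP_86f3ed.Ty

open Pin

attribute [local instance] InnerProductSpace.complexToReal

variable {H : Type*} [NormedAddCommGroup H] [InnerProductSpace ℂ H] [CompleteSpace H]


omit [CompleteSpace H] in
theorem TomRN_add_mul (x : H →L[ℂ] H) (y : H) : (0 + x) y = x y := by rw [zero_add]

theorem TomRN_star_left (a : H →L[ℂ] H) (x y : H) : ⟪(star a) x, y⟫_ℂ = ⟪x, a y⟫_ℂ := by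
  rw [ContinuousLinearMap.star_eq_adjoint]; exact ContinuousLinearMap.adjoint_inner_left _ _ _

theorem TomRN_star_right (a : H →L[ℂ] H) (x y : H) : ⟪x, (star a) y⟫_ℂ = ⟪a x, y⟫_ℂ := by
  rw [ContinuousLinearMap.star_eq_adjoint]; exact ContinuousLinearMap.adjoint_inner_right _ _ _

theorem TomRN_sa (f : ℝ → ℝ) (T : H →L[ℂ] H) : star (cfc f T) = cfc f T :=
  (cfc_predicate f T : IsSelfAdjoint (cfc f T))

theorem TomRN_self (a : H →L[ℂ] H) (ha : star a = a) (x : H) :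
    ⟪x, a (a x)⟫_ℂ = ((‖a x‖ ^ 2 : ℝ) : ℂ) := by
  rw [← TomRN_star_left, ha, inner_self_eq_norm_sq_to_K]
  push_cast
  rfl

/-- The positive function `δ ^ 2 + max s 0`. -/
noncomputable def TomRN_phi (δ s : ℝ) : ℝ := δ ^ 2 + max s 0

theorem TomRN_phi_pos {δ : ℝ} (hδ : 0 < δ) (s : ℝ) : 0 < TomRN_phi δ s := by
  unfold TomRN_phi; positivity

theorem TomRN_phi_cont (δ : ℝ) : Continuous (TomRN_phi δ) := by
  unfold TomRN_phi; fun_prop

theorem TomRN_lim {I : Type*} (𝒰 : Ultrafilter I) (x : I → H →L[ℂ] H) {β : ℝ} (hβ : 0 ≤ β)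
    (hx : ∀ i, ‖x i‖ ≤ β) : ∃ y : H →L[ℂ] H, ‖y‖ ≤ β ∧
      ∀ u v, Tendsto (fun i => ⟪u, x i v⟫_ℂ) 𝒰 (𝓝 ⟪u, y v⟫_ℂ) := by
  rcases hβ.eq_or_lt with h0 | h0
  · refine ⟨0, by rw [norm_zero]; exact hβ, fun u v => ?_⟩
    have : ∀ i, x i = 0 := fun i => norm_le_zero_iff.mp (by rw [h0]; exact hx i)
    simp [this]
  · obtain ⟨E, hE1, hE2⟩ := exists_limit 𝒰
      (fun i => ((β : ℂ)⁻¹) • LinearMap.mulLeft ℂ (x i)) (by
        intro i S
        rw [LinearMap.smul_apply, LinearMap.mulLeft_apply, norm_smul, norm_inv,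
          Complex.norm_real, Real.norm_of_nonneg hβ]
        calc β⁻¹ * ‖x i * S‖ ≤ β⁻¹ * (β * ‖S‖) := by
              refine mul_le_mul_of_nonneg_left ?_ (by positivity)
              exact (norm_mul_le _ _).trans (mul_le_mul_of_nonneg_right (hx i) (norm_nonneg _))
          _ = ‖S‖ := by rw [← mul_assoc, inv_mul_cancel₀ h0.ne', one_mul])
    refine ⟨(β : ℂ) • E 1, ?_, fun u v => ?_⟩
    · rw [norm_smul, Complex.norm_real, Real.norm_of_nonneg hβ]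
      have h1 : ‖E 1‖ ≤ 1 := (hE1 1).trans ContinuousLinearMap.norm_id_le
      calc β * ‖E 1‖ ≤ β * 1 := mul_le_mul_of_nonneg_left h1 hβ
        _ = β := mul_one β
    · have h1 := (hE2 1 u v).const_mul (β : ℂ)
      have hb0 : (β : ℂ) ≠ 0 := by exact_mod_cast h0.ne'
      have h2 : ∀ i, (β : ℂ) * ⟪u, (((β : ℂ)⁻¹) • LinearMap.mulLeft ℂ (x i)) 1 v⟫_ℂ =
          ⟪u, x i v⟫_ℂ := by
        intro i
        rw [LinearMap.smul_apply, LinearMap.mulLeft_apply, mul_one, smul_apply,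
          inner_smul_right, ← mul_assoc, mul_inv_cancel₀ hb0, one_mul]
      simp only [h2] at h1
      rw [smul_apply, inner_smul_right]
      exact h1

namespace Std

variable (S : Std H)

/-- The inequality behind the Radon-Nikodym lemma. -/
theorem rn_ineq {b z : H →L[ℂ] H} (hb : b ∈ Com S.M) (hz : z ∈ S.M) {ε : ℝ} (hε : 0 < ε) :
    ∃ x ∈ S.M, ‖x‖ ≤ 1 ∧ (⟪(star z) S.Ω, x S.Ω⟫_ℂ).im = 0 ∧ (⟪(star x) S.Ω, z S.Ω⟫_ℂ).im = 0 ∧
      0 ≤ (⟪(star z) S.Ω, x S.Ω⟫_ℂ).re ∧ 0 ≤ (⟪(star x) S.Ω, z S.Ω⟫_ℂ).re ∧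
      ‖⟪b S.Ω, z S.Ω⟫_ℂ‖ ^ 2 ≤ ‖b‖ ^ 2 * ((⟪(star z) S.Ω, x S.Ω⟫_ℂ).re + ε) *
        ((⟪(star x) S.Ω, z S.Ω⟫_ℂ).re + ε) := by
  set δ : ℝ := ε / (1 + ‖S.Ω‖ ^ 2) with hδ
  have hδ0 : 0 < δ := by positivity
  have hδε : δ * ‖S.Ω‖ ^ 2 ≤ ε := by
    rw [hδ, div_mul_eq_mul_div, div_le_iff₀ (by positivity)]
    nlinarith [sq_nonneg ‖S.Ω‖]
  have hφ0 : ∀ s, 0 < TomRN_phi δ s := TomRN_phi_pos hδ0
  have hφc : Continuous (TomRN_phi δ) := TomRN_phi_cont δ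
  have hs0 : ∀ s, 0 < Real.sqrt (Real.sqrt (TomRN_phi δ s)) := fun s =>
    Real.sqrt_pos.mpr (Real.sqrt_pos.mpr (hφ0 s))
  have hsc : Continuous fun s => Real.sqrt (Real.sqrt (TomRN_phi δ s)) := by fun_prop
  have hic : Continuous fun s => (Real.sqrt (Real.sqrt (TomRN_phi δ s)))⁻¹ :=
    hsc.inv₀ fun s => (hs0 s).ne'
  have hmc : Continuous fun s : ℝ => Real.sqrt (max s 0) := by fun_prop
  have hii : Continuous fun s => (Real.sqrt (Real.sqrt (TomRN_phi δ s)))⁻¹ *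
      (Real.sqrt (Real.sqrt (TomRN_phi δ s)))⁻¹ := hic.mul hic
  have hmi : Continuous fun s => Real.sqrt (max s 0) *
      (Real.sqrt (Real.sqrt (TomRN_phi δ s)))⁻¹ := hmc.mul hic
  have hm0 : Continuous fun s : ℝ => max s 0 := by fun_prop
  set T : H →L[ℂ] H := star z * z with hT
  have hmul : ∀ f g : ℝ → ℝ, Continuous f → Continuous g →
      cfc f T * cfc g T = cfc (fun s => f s * g s) T := fun f g hf hg =>
    (cfc_mul f g T hf.continuousOn hg.continuousOn).symm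
  have hTm : T ∈ S.M := mul_mem (star_mem hz) hz
  have hcl : IsClosed (S.M : Set (H →L[ℂ] H)) := by
    have := isClosed_Com (Com S.M)
    rwa [S.bic] at this
  have hmem : ∀ f : ℝ → ℝ, cfc f T ∈ S.M := fun f =>
    cfc_mem (𝕜 := ℝ) (𝕜' := ℂ) (hs := hcl) f hTm
  have hTsa : IsSelfAdjoint T := by
    rw [hT]; exact IsSelfAdjoint.star_mul_self z
  have hT0 : 0 ≤ T := star_mul_self_nonneg z
  have hTmax : cfc (fun s : ℝ => max s 0) T = T := by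
    conv_rhs => rw [← cfc_id ℝ T hTsa]
    refine cfc_congr fun s hs => ?_
    have := spectrum_nonneg_of_nonneg hT0 hs
    simp [max_eq_left this]
  set p : H →L[ℂ] H := cfc (fun s => (Real.sqrt (Real.sqrt (TomRN_phi δ s)))⁻¹) T with hp
  set q : H →L[ℂ] H := cfc (fun s => Real.sqrt (Real.sqrt (TomRN_phi δ s))) T with hq
  set r : H →L[ℂ] H := cfc (fun s => Real.sqrt (max s 0) *
    (Real.sqrt (Real.sqrt (TomRN_phi δ s)))⁻¹) T with hr
  have hps : star p = p := TomRN_sa _ _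
  have hqs : star q = q := TomRN_sa _ _
  have hrs : star r = r := TomRN_sa _ _
  have hpq : p * q = 1 := by
    rw [hp, hq, hmul _ _ hic hsc, ← cfc_one ℝ T hTsa]
    refine cfc_congr fun s _ => ?_
    simp [inv_mul_cancel₀ (hs0 s).ne']
  have hppT : p * p * T = r * r := by
    conv_lhs => rw [← hTmax]
    rw [hp, hr, hmul _ _ hic hic, hmul _ _ hii hm0, hmul _ _ hmi hmi]
    refine cfc_congr fun s _ => ?_
    have h1 := Real.mul_self_sqrt (le_max_right s 0)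
    show _ = (Real.sqrt (max s 0) * _) * (Real.sqrt (max s 0) * _)
    rw [mul_mul_mul_comm, h1]
    ring
  have hqq : q * q = (cfc (fun s => δ ^ 2 * (Real.sqrt (TomRN_phi δ s))⁻¹) T) + r * r := by
    have hc1 : Continuous fun s => δ ^ 2 * (Real.sqrt (TomRN_phi δ s))⁻¹ :=
      continuous_const.mul ((Real.continuous_sqrt.comp hφc).inv₀ fun s =>
        (Real.sqrt_pos.mpr (hφ0 s)).ne')
    rw [hq, hr, hmul _ _ hsc hsc, hmul _ _ hmi hmi,
      ← cfc_add (a := T) (f := fun s => δ ^ 2 * (Real.sqrt (TomRN_phi δ s))⁻¹)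
        (g := fun s => Real.sqrt (max s 0) * (Real.sqrt (Real.sqrt (TomRN_phi δ s)))⁻¹ *
        (Real.sqrt (max s 0) * (Real.sqrt (Real.sqrt (TomRN_phi δ s)))⁻¹))
        (hf := hc1.continuousOn) (hg := (hmi.mul hmi).continuousOn)]
    refine cfc_congr fun s _ => ?_
    have h1 := Real.mul_self_sqrt (le_max_right s 0)
    have h2 := Real.mul_self_sqrt (Real.sqrt_nonneg (TomRN_phi δ s))
    have h3 := Real.mul_self_sqrt (hφ0 s).le
    have h4 : (Real.sqrt (Real.sqrt (TomRN_phi δ s)))⁻¹ *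
        (Real.sqrt (Real.sqrt (TomRN_phi δ s)))⁻¹ = (Real.sqrt (TomRN_phi δ s))⁻¹ := by
      rw [← mul_inv, h2]
    show Real.sqrt (Real.sqrt (TomRN_phi δ s)) * Real.sqrt (Real.sqrt (TomRN_phi δ s)) =
      δ ^ 2 * (Real.sqrt (TomRN_phi δ s))⁻¹ + (Real.sqrt (max s 0) * _) *
        (Real.sqrt (max s 0) * _)
    rw [mul_mul_mul_comm, h1, h4, h2, ← add_mul]
    have h5 : (δ ^ 2 + max s 0) = TomRN_phi δ s := rfl
    rw [h5]
    have h6 : Real.sqrt (TomRN_phi δ s) ≠ 0 := (Real.sqrt_pos.mpr (hφ0 s)).ne'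
    field_simp
    rw [sq, h3]
  have hnorm : ‖cfc (fun s => δ ^ 2 * (Real.sqrt (TomRN_phi δ s))⁻¹) T‖ ≤ δ := by
    refine norm_cfc_le hδ0.le fun s _ => ?_
    have h6 : 0 < Real.sqrt (TomRN_phi δ s) := Real.sqrt_pos.mpr (hφ0 s)
    rw [Real.norm_of_nonneg (by positivity), ← div_eq_mul_inv, div_le_iff₀ h6, sq]
    refine mul_le_mul_of_nonneg_left ?_ hδ0.le
    refine Real.le_sqrt_of_sq_le ?_
    unfold TomRN_phi
    linarith [le_max_right s 0]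
  set x : H →L[ℂ] H := p * p * star z with hx
  have hxm : x ∈ S.M := mul_mem (mul_mem (hmem _) (hmem _)) (star_mem hz)
  have hx1 : ‖x‖ ≤ 1 := by
    have h1 : x * star x = cfc (fun s => max s 0 * (TomRN_phi δ s)⁻¹) T := by
      have h2 : x * star x = p * p * T * (p * p) := by
        rw [hx, star_mul, star_mul, star_star, hps, hT]
        noncomm_ring
      rw [h2]
      conv_lhs => rw [← hTmax]
      have hc2 : Continuous fun s => (Real.sqrt (Real.sqrt (TomRN_phi δ s)))⁻¹ *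
        (Real.sqrt (Real.sqrt (TomRN_phi δ s)))⁻¹ := hic.mul hic
      have hc3 : Continuous fun s => (Real.sqrt (Real.sqrt (TomRN_phi δ s)))⁻¹ *
        (Real.sqrt (Real.sqrt (TomRN_phi δ s)))⁻¹ * max s 0 := hc2.mul hm0
      rw [hp, hmul _ _ hic hic, hmul _ _ hc2 hm0, hmul _ _ hc3 hc2]
      refine cfc_congr fun s _ => ?_
      have h2 := Real.mul_self_sqrt (Real.sqrt_nonneg (TomRN_phi δ s))
      have h3 := Real.mul_self_sqrt (hφ0 s).le
      have h4 : (Real.sqrt (Real.sqrt (TomRN_phi δ s)))⁻¹ *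
          (Real.sqrt (Real.sqrt (TomRN_phi δ s)))⁻¹ = (Real.sqrt (TomRN_phi δ s))⁻¹ := by
        rw [← mul_inv, h2]
      show (Real.sqrt (Real.sqrt (TomRN_phi δ s)))⁻¹ *
          (Real.sqrt (Real.sqrt (TomRN_phi δ s)))⁻¹ * max s 0 *
          ((Real.sqrt (Real.sqrt (TomRN_phi δ s)))⁻¹ *
          (Real.sqrt (Real.sqrt (TomRN_phi δ s)))⁻¹) = _
      rw [h4, mul_comm _ (max s 0), mul_assoc, ← mul_inv, h3]
    have h2 : ‖x * star x‖ ≤ 1 := by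
      rw [h1]
      refine norm_cfc_le zero_le_one fun s _ => ?_
      have h5 := hφ0 s
      have h6 := le_max_right s 0
      rw [Real.norm_of_nonneg (by positivity), ← div_eq_mul_inv, div_le_one h5]
      unfold TomRN_phi
      nlinarith [sq_nonneg δ]
    rw [CStarRing.norm_self_mul_star] at h2
    nlinarith [norm_nonneg x]
  have e1 : ⟪(star z) S.Ω, x S.Ω⟫_ℂ = ((‖p ((star z) S.Ω)‖ ^ 2 : ℝ) : ℂ) := by
    rw [← TomRN_self p hps]; rfl
  have e2 : ⟪(star x) S.Ω, z S.Ω⟫_ℂ = ((‖r S.Ω‖ ^ 2 : ℝ) : ℂ) := by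
    rw [TomRN_star_left, ← TomRN_self r hrs]
    have : x (z S.Ω) = (p * p * T) S.Ω := rfl
    rw [this, hppT]; rfl
  have e3 : ‖q S.Ω‖ ^ 2 ≤ ‖r S.Ω‖ ^ 2 + ε := by
    have h1 : ((‖q S.Ω‖ ^ 2 : ℝ) : ℂ) = ⟪S.Ω, (cfc (fun s => δ ^ 2 *
        (Real.sqrt (TomRN_phi δ s))⁻¹) T) S.Ω⟫_ℂ + ((‖r S.Ω‖ ^ 2 : ℝ) : ℂ) := by
      rw [← TomRN_self q hqs, ← TomRN_self r hrs, ← inner_add_right]
      have : q (q S.Ω) = (q * q) S.Ω := rfl
      rw [this, hqq]; rfl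
    have h2 := congrArg Complex.re h1
    rw [Complex.add_re, Complex.ofReal_re, Complex.ofReal_re] at h2
    have h3 : (⟪S.Ω, (cfc (fun s => δ ^ 2 *
        (Real.sqrt (TomRN_phi δ s))⁻¹) T) S.Ω⟫_ℂ).re ≤ ε := by
      refine (Complex.re_le_norm _).trans ?_
      refine (norm_inner_le_norm _ _).trans ?_
      refine le_trans ?_ hδε
      calc _ ≤ ‖S.Ω‖ * (δ * ‖S.Ω‖) := by
            refine mul_le_mul_of_nonneg_left ?_ (norm_nonneg _)
            exact (le_opNorm _ _).trans (mul_le_mul_of_nonneg_right hnorm (norm_nonneg _))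
        _ = _ := by ring
    linarith
  have e4 : ‖⟪b S.Ω, z S.Ω⟫_ℂ‖ ≤ ‖b‖ * ‖p ((star z) S.Ω)‖ * ‖q S.Ω‖ := by
    have h1 : z S.Ω = z (p (q S.Ω)) := by
      have : (p * q) S.Ω = S.Ω := by rw [hpq]; rfl
      conv_lhs => rw [← this]
      rfl
    have h2 : ⟪b S.Ω, z S.Ω⟫_ℂ = ⟪b (p ((star z) S.Ω)), q S.Ω⟫_ℂ := by
      rw [h1, ← TomRN_star_left z, ← TomRN_star_left p, hps, S.comm (star_mem hz) hb,
        S.comm (hmem _) hb]
    rw [h2]
    refine (norm_inner_le_norm _ _).trans ?_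
    exact mul_le_mul_of_nonneg_right (le_opNorm _ _) (norm_nonneg _)
  refine ⟨x, hxm, hx1, ?_, ?_, ?_, ?_, ?_⟩
  · rw [e1, Complex.ofReal_im]
  · rw [e2, Complex.ofReal_im]
  · rw [e1, Complex.ofReal_re]; positivity
  · rw [e2, Complex.ofReal_re]; positivity
  · rw [e1, e2, Complex.ofReal_re, Complex.ofReal_re]
    calc ‖⟪b S.Ω, z S.Ω⟫_ℂ‖ ^ 2 ≤ (‖b‖ * ‖p ((star z) S.Ω)‖ * ‖q S.Ω‖) ^ 2 :=
          pow_le_pow_left₀ (norm_nonneg _) e4 2
      _ = ‖b‖ ^ 2 * ‖p ((star z) S.Ω)‖ ^ 2 * ‖q S.Ω‖ ^ 2 := by ring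
      _ ≤ ‖b‖ ^ 2 * (‖p ((star z) S.Ω)‖ ^ 2 + ε) * (‖r S.Ω‖ ^ 2 + ε) := by
          refine mul_le_mul ?_ e3 (by positivity) (by positivity)
          exact mul_le_mul_of_nonneg_left (by linarith) (by positivity)

/-- The bilinear form of the Radon-Nikodym lemma. -/
noncomputable def TomRN_B (τ : ℝ) : (H →L[ℂ] H) →ₗ[ℂ] (H →L[ℂ] H) →ₗ[ℂ] ℂ :=
  LinearMap.mk₂ ℂ (fun z x => (Real.exp τ : ℂ) * ⟪(star z) S.Ω, x S.Ω⟫_ℂ +
      (Real.exp (-τ) : ℂ) * ⟪(star x) S.Ω, z S.Ω⟫_ℂ)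
    (by
      intro m₁ m₂ n
      rw [star_add, add_apply, add_apply, inner_add_left, inner_add_right]
      ring)
    (by
      intro c m n
      rw [star_smul, smul_apply, smul_apply, inner_smul_left, inner_smul_right, smul_eq_mul,
        RCLike.star_def, Complex.conj_conj]
      ring)
    (by
      intro m n₁ n₂
      rw [star_add, add_apply, add_apply, inner_add_left, inner_add_right]
      ring)
    (by
      intro c m n
      rw [star_smul, smul_apply, smul_apply, inner_smul_left, inner_smul_right, smul_eq_mul,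
        RCLike.star_def, Complex.conj_conj]
      ring)

theorem TomRN_B_apply (τ : ℝ) (z x : H →L[ℂ] H) : S.TomRN_B τ z x =
    (Real.exp τ : ℂ) * ⟪(star z) S.Ω, x S.Ω⟫_ℂ + (Real.exp (-τ) : ℂ) *
      ⟪(star x) S.Ω, z S.Ω⟫_ℂ := rfl

theorem TomRN_sup {b z : H →L[ℂ] H} (hb : b ∈ Com S.M) (hz : z ∈ S.M) (τ : ℝ) {η : ℝ}
    (hη : 0 < η) : ∃ x ∈ S.M, ‖x‖ ≤ ‖b‖ ∧
      (2 * ⟪b S.Ω, z S.Ω⟫_ℂ).re ≤ (S.TomRN_B τ z x).re + η := by
  have hk : 0 ≤ ‖b‖ * (Real.exp τ + Real.exp (-τ)) := by positivity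
  obtain ⟨x, hx, hx1, hi1, hi2, hp, hq, hle⟩ := S.rn_ineq hb hz
    (show 0 < η / (‖b‖ * (Real.exp τ + Real.exp (-τ)) + 1) by positivity)
  set ε := η / (‖b‖ * (Real.exp τ + Real.exp (-τ)) + 1) with hε
  have hε0 : 0 < ε := by positivity
  have hεη : ‖b‖ * (Real.exp τ + Real.exp (-τ)) * ε ≤ η := by
    rw [hε, mul_div_assoc', div_le_iff₀ (by positivity)]
    nlinarith
  refine ⟨(‖b‖ : ℂ) • x, S.M.smul_mem hx _, ?_, ?_⟩
  · rw [norm_smul, Complex.norm_real, norm_norm]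
    nlinarith [norm_nonneg b]
  · set p := (⟪(star z) S.Ω, x S.Ω⟫_ℂ).re with hpd
    set q := (⟪(star x) S.Ω, z S.Ω⟫_ℂ).re with hqd
    have e1 : ⟪(star z) S.Ω, x S.Ω⟫_ℂ = (p : ℂ) := Complex.ext (by simp [hpd]) (by simp [hi1])
    have e2 : ⟪(star x) S.Ω, z S.Ω⟫_ℂ = (q : ℂ) := Complex.ext (by simp [hqd]) (by simp [hi2])
    have e3 : (S.TomRN_B τ z ((‖b‖ : ℂ) • x)).re =
        ‖b‖ * (Real.exp τ * p + Real.exp (-τ) * q) := by
      rw [map_smul, TomRN_B_apply, e1, e2, smul_eq_mul, ← Complex.ofReal_mul, ← Complex.ofReal_mul,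
        ← Complex.ofReal_add, ← Complex.ofReal_mul, Complex.ofReal_re]
    rw [e3]
    have h1 : (2 * ⟪b S.Ω, z S.Ω⟫_ℂ).re ≤ 2 * ‖⟪b S.Ω, z S.Ω⟫_ℂ‖ := by
      refine (Complex.re_le_norm _).trans ?_
      rw [norm_mul]
      simp
    have h2 : 2 * ‖⟪b S.Ω, z S.Ω⟫_ℂ‖ ≤ ‖b‖ * (Real.exp τ * (p + ε) + Real.exp (-τ) * (q + ε)) := by
      rw [← pow_le_pow_iff_left₀ (by positivity) (by positivity) two_ne_zero]
      have h3 : Real.exp τ * Real.exp (-τ) = 1 := by rw [← Real.exp_add]; simp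
      have h4 : 4 * ((p + ε) * (q + ε)) ≤
          (Real.exp τ * (p + ε) + Real.exp (-τ) * (q + ε)) ^ 2 := by
        have h5 : (Real.exp τ * (p + ε) + Real.exp (-τ) * (q + ε)) ^ 2 =
            (Real.exp τ * (p + ε) - Real.exp (-τ) * (q + ε)) ^ 2 +
              4 * ((Real.exp τ * Real.exp (-τ)) * ((p + ε) * (q + ε))) := by ring
        rw [h5, h3, one_mul]
        nlinarith [sq_nonneg (Real.exp τ * (p + ε) - Real.exp (-τ) * (q + ε))]
      calc (2 * ‖⟪b S.Ω, z S.Ω⟫_ℂ‖) ^ 2 = 4 * ‖⟪b S.Ω, z S.Ω⟫_ℂ‖ ^ 2 := by ring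
        _ ≤ 4 * (‖b‖ ^ 2 * (p + ε) * (q + ε)) := by linarith
        _ = ‖b‖ ^ 2 * (4 * ((p + ε) * (q + ε))) := by ring
        _ ≤ ‖b‖ ^ 2 * (Real.exp τ * (p + ε) + Real.exp (-τ) * (q + ε)) ^ 2 :=
            mul_le_mul_of_nonneg_left h4 (by positivity)
        _ = _ := by ring
    nlinarith

theorem TomRN_fin {b : H →L[ℂ] H} (hb : b ∈ Com S.M) (τ : ℝ) (F : Finset S.M) {ε : ℝ}
    (hε : 0 < ε) : ∃ x ∈ S.M, ‖x‖ ≤ ‖b‖ ∧ ∀ z ∈ F,
      ‖S.TomRN_B τ (z : H →L[ℂ] H) x - 2 * ⟪b S.Ω, (z : H →L[ℂ] H) S.Ω⟫_ℂ‖ ≤ ε := by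
  classical
  by_contra hcon
  set Φ : (H →L[ℂ] H) →ₗ[ℂ] (F → ℂ) := LinearMap.pi fun i => S.TomRN_B τ (i.1 : H →L[ℂ] H)
    with hΦ
  set t : F → ℂ := fun i => 2 * ⟪b S.Ω, (i.1 : H →L[ℂ] H) S.Ω⟫_ℂ with ht
  set C : Set (F → ℂ) := Φ '' {x | x ∈ S.M ∧ ‖x‖ ≤ ‖b‖} with hC
  have hconv : Convex ℝ C := by
    have h1 : Convex ℝ {x : H →L[ℂ] H | x ∈ S.M ∧ ‖x‖ ≤ ‖b‖} := by
      intro x hx y hy r s hr hs hrs
      refine ⟨?_, ?_⟩
      · have e1 : r • x = (r : ℂ) • x := (Complex.coe_smul r x).symm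
        have e2 : s • y = (s : ℂ) • y := (Complex.coe_smul s y).symm
        rw [e1, e2]
        exact add_mem (S.M.smul_mem hx.1 _) (S.M.smul_mem hy.1 _)
      · refine (norm_add_le _ _).trans ?_
        rw [norm_smul, norm_smul, Real.norm_of_nonneg hr, Real.norm_of_nonneg hs]
        calc r * ‖x‖ + s * ‖y‖ ≤ r * ‖b‖ + s * ‖b‖ := add_le_add
              (mul_le_mul_of_nonneg_left hx.2 hr) (mul_le_mul_of_nonneg_left hy.2 hs)
          _ = ‖b‖ := by rw [← add_mul, hrs, one_mul]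
    have h2 := h1.is_linear_image (f := fun x => Φ x)
      ⟨fun x y => map_add _ _ _, fun c x => by
        show Φ (c • x) = c • Φ x
        rw [← Complex.coe_smul c x, map_smul]
        exact Complex.coe_smul c (Φ x)⟩
    exact h2
  have ht' : t ∉ closure C := by
    intro htc
    rw [Metric.mem_closure_iff] at htc
    obtain ⟨w, ⟨x, hx, rfl⟩, hd⟩ := htc ε hε
    refine hcon ⟨x, hx.1, hx.2, fun z hz => ?_⟩
    have h1 := (dist_le_pi_dist t (Φ x) ⟨z, hz⟩).trans hd.le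
    rw [dist_comm, dist_eq_norm] at h1
    exact h1
  obtain ⟨f, u, h1, h2⟩ := RCLike.geometric_hahn_banach_closed_point (𝕜 := ℂ) hconv.closure
    isClosed_closure ht'
  set c : F → ℂ := fun i => f fun j => if i = j then 1 else 0 with hc
  have hf : ∀ w : F → ℂ, f w = ∑ i, c i * w i := by
    intro w
    have := LinearMap.pi_apply_eq_sum_univ (f : (F → ℂ) →ₗ[ℂ] ℂ) w
    rw [ContinuousLinearMap.coe_coe] at this
    rw [this]
    exact Finset.sum_congr rfl fun i _ => by rw [smul_eq_mul, mul_comm]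
  set z0 : H →L[ℂ] H := ∑ i : F, c i • (i.1 : H →L[ℂ] H) with hz0
  have hz0m : z0 ∈ S.M := sum_mem fun i _ => S.M.smul_mem i.1.2 _
  have e1 : ∀ x, f (Φ x) = S.TomRN_B τ z0 x := by
    intro x
    rw [hf, hz0, map_sum, LinearMap.sum_apply]
    exact Finset.sum_congr rfl fun i _ => by rw [map_smul, LinearMap.smul_apply, smul_eq_mul]; rfl
  have e2 : f t = 2 * ⟪b S.Ω, z0 S.Ω⟫_ℂ := by
    rw [hf, hz0, sum_apply, inner_sum, Finset.mul_sum]
    refine Finset.sum_congr rfl fun i _ => ?_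
    rw [smul_apply, inner_smul_right, ht]
    ring
  obtain ⟨x, hx, hxb, hle⟩ := S.TomRN_sup hb hz0m τ (sub_pos.mpr h2)
  rw [← e2, ← e1] at hle
  have h3 := h1 (Φ x) (subset_closure ⟨x, ⟨hx, hxb⟩, rfl⟩)
  have h4 : (f t).re = RCLike.re (f t) := rfl
  have h5 : (f (Φ x)).re = RCLike.re (f (Φ x)) := rfl
  rw [h4, h5] at hle
  linarith

/-- The linear Radon-Nikodym lemma. -/
theorem exists_tau {b : H →L[ℂ] H} (hb : b ∈ Com S.M) (τ : ℝ) :
    ∃ x ∈ S.M, ‖x‖ ≤ ‖b‖ ∧ ∀ z ∈ S.M, (Real.exp τ : ℂ) * ⟪(star z) S.Ω, x S.Ω⟫_ℂ +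
      (Real.exp (-τ) : ℂ) * ⟪(star x) S.Ω, z S.Ω⟫_ℂ = 2 * ⟪b S.Ω, z S.Ω⟫_ℂ := by
  classical
  have h0 : ∀ i : Finset S.M × ℕ, ∃ x ∈ S.M, ‖x‖ ≤ ‖b‖ ∧ ∀ z ∈ i.1,
      ‖S.TomRN_B τ (z : H →L[ℂ] H) x - 2 * ⟪b S.Ω, (z : H →L[ℂ] H) S.Ω⟫_ℂ‖ ≤
        1 / ((i.2 : ℝ) + 1) := fun i => S.TomRN_fin hb τ i.1 (by positivity)
  choose X hXm hXb hX using h0
  obtain ⟨x, hxb, hx⟩ := TomRN_lim (Ultrafilter.of (atTop : Filter (Finset S.M × ℕ))) X
    (norm_nonneg b) hXb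
  refine ⟨x, ?_, hxb, fun z hz => ?_⟩
  · rw [← S.bic, mem_Com]
    intro a ha
    refine ContinuousLinearMap.ext fun v => ?_
    refine ext_inner_left ℂ fun u => ?_
    have h1 := hx ((star a) u) v
    have h2 := hx u (a v)
    have h3 : ∀ i, ⟪(star a) u, X i v⟫_ℂ = ⟪u, X i (a v)⟫_ℂ := fun i => by
      rw [TomRN_star_left, S.comm (hXm i) ha]
    simp only [h3] at h1
    have h4 := tendsto_nhds_unique h1 h2
    rw [TomRN_star_left] at h4
    exact h4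
  · have h1 : Tendsto (fun i => S.TomRN_B τ z (X i))
        (Ultrafilter.of (atTop : Filter (Finset S.M × ℕ))) (𝓝 (2 * ⟪b S.Ω, z S.Ω⟫_ℂ)) := by
      refine Tendsto.mono_left ?_ (Ultrafilter.of_le _)
      rw [Metric.tendsto_atTop]
      intro ε hε
      obtain ⟨n, hn⟩ := exists_nat_one_div_lt hε
      refine ⟨({⟨z, hz⟩}, n), fun i hi => ?_⟩
      rw [dist_eq_norm]
      refine lt_of_le_of_lt (hX i ⟨z, hz⟩ (hi.1 (Finset.mem_singleton_self _))) ?_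
      refine lt_of_le_of_lt ?_ hn
      have : (n : ℝ) ≤ i.2 := by exact_mod_cast hi.2
      exact one_div_le_one_div_of_le (by positivity) (by linarith)
    have h2 : Tendsto (fun i => S.TomRN_B τ z (X i))
        (Ultrafilter.of (atTop : Filter (Finset S.M × ℕ))) (𝓝 (S.TomRN_B τ z x)) := by
      have ha : Tendsto (fun i => ⟪(star z) S.Ω, X i S.Ω⟫_ℂ)
          (Ultrafilter.of (atTop : Filter (Finset S.M × ℕ))) (𝓝 ⟪(star z) S.Ω, x S.Ω⟫_ℂ) := hx _ _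
      have hb' : Tendsto (fun i => ⟪(star (X i)) S.Ω, z S.Ω⟫_ℂ)
          (Ultrafilter.of (atTop : Filter (Finset S.M × ℕ))) (𝓝 ⟪(star x) S.Ω, z S.Ω⟫_ℂ) := by
        simp only [TomRN_star_left]
        exact hx _ _
      exact (ha.const_mul _).add (hb'.const_mul _)
    have h3 := tendsto_nhds_unique h2 h1
    rw [TomRN_B_apply] at h3
    exact h3

/-- The case `τ = 0`. -/
theorem exists_r0 {z : H →L[ℂ] H} (hz : z ∈ Com S.M) :
    ∃ a ∈ S.M, a S.Ω = S.R (z S.Ω) ∧ (star a) S.Ω = S.R ((star z) S.Ω) ∧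
      ∀ m ∈ S.M, ⟪(star a) S.Ω, m S.Ω⟫_ℂ + ⟪(star m) S.Ω, a S.Ω⟫_ℂ =
        2 * ⟪(star z) S.Ω, m S.Ω⟫_ℂ := by
  have hsa : ∀ y : H →L[ℂ] H, y ∈ Com S.M → star y = y → ∃ a ∈ S.M, star a = a ∧
      a S.Ω = S.R (y S.Ω) ∧ ∀ m ∈ S.M, ⟪a S.Ω, m S.Ω⟫_ℂ + ⟪(star m) S.Ω, a S.Ω⟫_ℂ =
        2 * ⟪y S.Ω, m S.Ω⟫_ℂ := by
    intro y hy hys
    obtain ⟨x, hx, -, h1⟩ := S.exists_tau hy 0
    simp only [Real.exp_zero, neg_zero, Complex.ofReal_one, one_mul] at h1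
    have h2 : ∀ m ∈ S.M, ⟪x S.Ω, m S.Ω⟫_ℂ + ⟪(star m) S.Ω, (star x) S.Ω⟫_ℂ =
        2 * ⟪y S.Ω, m S.Ω⟫_ℂ := by
      intro m hm
      have h3 := congrArg (starRingEnd ℂ) (h1 (star m) (star_mem hm))
      have h5 : ⟪(star m) S.Ω, y S.Ω⟫_ℂ = ⟪y S.Ω, m S.Ω⟫_ℂ := by
        rw [TomRN_star_left, S.comm hm hy, ← TomRN_star_left, hys]
      rw [map_add, inner_conj_symm, inner_conj_symm, star_star, map_mul, inner_conj_symm,
        Complex.conj_ofNat, h5] at h3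
      exact h3
    have hsm : star ((2 : ℂ)⁻¹ • (x + star x)) = (2 : ℂ)⁻¹ • (x + star x) := by
      rw [star_smul, star_add, star_star, add_comm (star x) x, RCLike.star_def, map_inv₀,
        Complex.conj_ofNat]
    have ham : (2 : ℂ)⁻¹ • (x + star x) ∈ S.M := S.M.smul_mem (add_mem hx (star_mem hx)) _
    have h3 : ∀ m ∈ S.M, ⟪((2 : ℂ)⁻¹ • (x + star x)) S.Ω, m S.Ω⟫_ℂ +
        ⟪(star m) S.Ω, ((2 : ℂ)⁻¹ • (x + star x)) S.Ω⟫_ℂ = 2 * ⟪y S.Ω, m S.Ω⟫_ℂ := by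
      intro m hm
      rw [smul_apply, add_apply, inner_smul_left, inner_smul_right, inner_add_left,
        inner_add_right, map_inv₀, Complex.conj_ofNat]
      linear_combination (1 / 2 : ℂ) * h1 m hm + (1 / 2 : ℂ) * h2 m hm
    set a := (2 : ℂ)⁻¹ • (x + star x) with ha
    refine ⟨a, ham, hsm, ?_, h3⟩
    have hP : S.P (y S.Ω) = a S.Ω := by
      have hK : a S.Ω ∈ S.K := subset_closure ⟨a, ham, hsm, rfl⟩
      have h4 : y S.Ω - a S.Ω ∈ S.Kᗮ := by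
        rw [Submodule.mem_orthogonal]
        intro u hu
        show (⟪u, y S.Ω - a S.Ω⟫_ℂ).re = 0
        refine S.K_le hu _ fun m hm hms => ?_
        have h5 := congrArg Complex.re (h3 m hm)
        rw [hms, Complex.add_re] at h5
        have h6 : (⟪a S.Ω, m S.Ω⟫_ℂ).re = (⟪m S.Ω, a S.Ω⟫_ℂ).re := by
          rw [← inner_conj_symm, Complex.conj_re]
        have h7 : (2 * ⟪y S.Ω, m S.Ω⟫_ℂ).re = 2 * (⟪m S.Ω, y S.Ω⟫_ℂ).re := by
          rw [← inner_conj_symm (m S.Ω) (y S.Ω), Complex.conj_re]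
          simp
        rw [inner_sub_right, Complex.sub_re]
        linarith
      show S.K.starProjection (y S.Ω) = a S.Ω
      exact Submodule.eq_starProjection_of_mem_of_inner_eq_zero hK fun w hw =>
        (Submodule.mem_orthogonal' _ _).mp h4 w hw
    rw [R_apply, hP, S.P_I_of hy hys, smul_zero, sub_zero]
  have hz' : star z ∈ Com S.M := star_mem hz
  have hI : (starRingEnd ℂ) Complex.I = -Complex.I := Complex.conj_I
  obtain ⟨a1, ha1, hs1, hR1, h1⟩ := hsa ((2 : ℂ)⁻¹ • (z + star z))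
    ((Com S.M).smul_mem (add_mem hz hz') _) (by
      rw [star_smul, star_add, star_star, add_comm (star z) z, RCLike.star_def, map_inv₀,
        Complex.conj_ofNat])
  obtain ⟨a2, ha2, hs2, hR2, h2⟩ := hsa ((2 : ℂ)⁻¹ • ((-Complex.I) • (z - star z)))
    ((Com S.M).smul_mem ((Com S.M).smul_mem (sub_mem hz hz') _) _) (by
      rw [star_smul, star_smul, star_sub, star_star, RCLike.star_def, map_inv₀,
        Complex.conj_ofNat, map_neg, hI, neg_neg, neg_smul, ← smul_neg, neg_sub])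
  have hstar : star (a1 + Complex.I • a2) = a1 - Complex.I • a2 := by
    rw [star_add, star_smul, hs1, hs2, RCLike.star_def, hI, neg_smul, sub_eq_add_neg]
  have hII : Complex.I * ((2 : ℂ)⁻¹ * -Complex.I) = (2 : ℂ)⁻¹ := by
    have := Complex.I_mul_I
    linear_combination (-(2 : ℂ)⁻¹) * this
  have e1 : (a1 + Complex.I • a2) S.Ω = S.R (z S.Ω) := by
    rw [add_apply, smul_apply, hR1, hR2, ← map_smul, ← map_add]
    congr 1
    simp only [smul_apply, add_apply, sub_apply, smul_smul, hII]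
    rw [← smul_add]
    have : z S.Ω + (star z) S.Ω + (z S.Ω - (star z) S.Ω) = (2 : ℂ) • z S.Ω := by
      rw [two_smul]; abel
    rw [this, smul_smul, inv_mul_cancel₀ two_ne_zero, one_smul]
  have e2 : (a1 - Complex.I • a2) S.Ω = S.R ((star z) S.Ω) := by
    rw [sub_apply, smul_apply, hR1, hR2, ← map_smul, ← map_sub]
    congr 1
    simp only [smul_apply, add_apply, sub_apply, smul_smul, hII]
    rw [← smul_sub]
    have : z S.Ω + (star z) S.Ω - (z S.Ω - (star z) S.Ω) = (2 : ℂ) • (star z) S.Ω := by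
      rw [two_smul]; abel
    rw [this, smul_smul, inv_mul_cancel₀ two_ne_zero, one_smul]
  refine ⟨a1 + Complex.I • a2, add_mem ha1 (S.M.smul_mem ha2 _), e1, by rw [hstar, e2], ?_⟩
  intro m hm
  rw [hstar]
  have h3 := h1 m hm
  have h4 := h2 m hm
  simp only [smul_apply, add_apply, sub_apply, inner_smul_left, inner_smul_right, inner_add_left,
    inner_add_right, inner_sub_left, map_inv₀, Complex.conj_ofNat, map_neg, hI, neg_neg] at h3 h4 ⊢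
  have hI2 := Complex.I_mul_I
  linear_combination h3 + Complex.I * h4 + (⟪z S.Ω, m S.Ω⟫_ℂ - ⟪(star z) S.Ω, m S.Ω⟫_ℂ) * hI2

end Std

end Pool.Agent.MP_86f3ed.Ty
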