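import Pool.Agent.H.MP_86f3ed_an.Ty.TomB
import Pool.Agent.H.MP_86f3ed_an.Ty.TomH

open scoped InnerProductSpace Topology
open Filter ContinuousLinearMap

namespace Pool.Agent.MP_86f3ed.Ty

open Pin

attribute [local instance] InnerProductSpace.complexToReal

variable {H : Type*} [NormedAddCommGroup H] [InnerProductSpace ℂ H] [CompleteSpace H]

namespace Std

variable (S : Std H)

theorem TomS_re (x y : H) : (⟪Complex.I • x, y⟫_ℂ).re = (⟪x, y⟫_ℂ).im := by
  rw [inner_smul_left, Complex.conj_I]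
  simp

theorem TomS_re' (x y : H) : (⟪x, Complex.I • y⟫_ℂ).re = -(⟪x, y⟫_ℂ).im := by
  rw [inner_smul_right]
  simp

theorem TomS_II (x : H) : Complex.I • (Complex.I • x) = -x := by
  rw [smul_smul, Complex.I_mul_I, neg_one_smul]

theorem TomS_Pmem (x : H) : S.P x ∈ S.K := Submodule.starProjection_apply_mem _ _

theorem TomS_orth (x : H) {v : H} (hv : v ∈ S.K) : (⟪x - S.P x, v⟫_ℂ).re = 0 :=
  Submodule.starProjection_inner_eq_zero (K := S.K) x v hv

theorem TomS_mem (x : H) : x + Complex.I • S.P (Complex.I • x) ∈ S.swap.K := by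
  refine S.mem_swap_K fun a ha hs => ?_
  have hv : a S.Ω ∈ S.K := S.K0.le_topologicalClosure ⟨a, ha, hs, rfl⟩
  have h1 := S.TomS_orth (Complex.I • x) hv
  have h2 : Complex.I • (x + Complex.I • S.P (Complex.I • x))
      = Complex.I • x - S.P (Complex.I • x) := by
    rw [smul_add, TomS_II, sub_eq_add_neg]
  rw [← TomS_re, h2]
  exact h1

theorem TomS_perp (x : H) {w : H} (hw : w ∈ S.swap.K) :
    (⟪w, Complex.I • S.P x⟫_ℂ).re = 0 := by
  refine S.swap.K_le hw _ fun b hb hs => ?_
  have h0 : S.P (Complex.I • b S.Ω) = 0 := S.P_I_of hb hs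
  have h1 := S.TomS_orth (Complex.I • b S.Ω) (S.TomS_Pmem x)
  rw [h0, sub_zero, TomS_re] at h1
  show (⟪b S.Ω, Complex.I • S.P x⟫_ℂ).re = 0
  rw [TomS_re', h1, neg_zero]

theorem swap_P (x : H) : S.swap.P x = x + Complex.I • S.P (Complex.I • x) := by
  refine Submodule.eq_starProjection_of_mem_of_inner_eq_zero (K := S.swap.K) (S.TomS_mem x)
    fun w hw => ?_
  have h1 := S.TomS_perp (Complex.I • x) hw
  have h2 : x - (x + Complex.I • S.P (Complex.I • x)) = -(Complex.I • S.P (Complex.I • x)) := by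
    abel
  rw [h2]
  show (⟪-(Complex.I • S.P (Complex.I • x)), w⟫_ℂ).re = 0
  rw [inner_neg_left, Complex.neg_re, ← inner_conj_symm, Complex.conj_re, h1, neg_zero]

theorem swap_R (x : H) : S.swap.R x = (2 : ℂ) • x - S.R x := by
  rw [R_apply, R_apply, swap_P, swap_P, smul_add, TomS_II, TomS_II, two_smul, map_neg]
  abel

theorem swap_A (x : H) : S.swap.A x = S.A x := by
  rw [A_apply, A_apply, swap_P, swap_P, smul_add, TomS_II, TomS_II, map_neg]
  abel

end Std

end Pool.Agent.MP_86f3ed.Ty
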