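import Pool.Agent.H.MP_86f3ed_an.Ty.Nst

open scoped InnerProductSpace Topology
open Filter ContinuousLinearMap

namespace Pool.Agent.MP_86f3ed.Ty

open Pin

variable {H : Type*} [NormedAddCommGroup H] [InnerProductSpace ℂ H] [CompleteSpace H]

/-- The adjoint of a column contraction is a row contraction.

PROOF. Let `w = ∑ j, adjoint (V j) (η j)`. `‖w‖^2 = re ⟪w, w⟫ = re ∑ ⟪V j w, η j⟫... ≤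
∑ ‖V j w‖ ‖η j‖ ≤ √(∑ ‖V j w‖^2) √(∑ ‖η j‖^2) ≤ ‖w‖ √(∑ ‖η j‖^2)`. Cancel `‖w‖`. -/
theorem row_le {G G' : Type*} [NormedAddCommGroup G] [InnerProductSpace ℂ G] [CompleteSpace G]
    [NormedAddCommGroup G'] [InnerProductSpace ℂ G'] [CompleteSpace G'] {p : ℕ}
    (V : Fin p → (G →L[ℂ] G')) (hV : ∀ ξ, ∑ j, ‖V j ξ‖ ^ 2 ≤ ‖ξ‖ ^ 2) (η : Fin p → G') :
    ‖∑ j, adjoint (V j) (η j)‖ ^ 2 ≤ ∑ j, ‖η j‖ ^ 2 := by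
  set w := ∑ j, adjoint (V j) (η j) with hw
  have h1 : ‖w‖ ^ 2 = ∑ j, RCLike.re ⟪η j, V j w⟫_ℂ := by
    have h2 : ‖w‖ ^ 2 = RCLike.re ⟪w, w⟫_ℂ := by
      rw [inner_self_eq_norm_sq]
    rw [h2]
    conv_lhs => rw [hw, sum_inner, map_sum]
    refine Finset.sum_congr rfl fun j _ => ?_
    rw [adjoint_inner_left, ← hw]
  have h2 : ‖w‖ ^ 2 ≤ ∑ j, ‖η j‖ * ‖V j w‖ := by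
    rw [h1]
    refine Finset.sum_le_sum fun j _ => ?_
    exact (RCLike.re_le_norm _).trans (norm_inner_le_norm _ _)
  have h3 : (∑ j, ‖η j‖ * ‖V j w‖) ^ 2 ≤ (∑ j, ‖η j‖ ^ 2) * ∑ j, ‖V j w‖ ^ 2 :=
    Finset.sum_mul_sq_le_sq_mul_sq _ _ _
  have h4 : (0 : ℝ) ≤ ∑ j, ‖η j‖ ^ 2 := Finset.sum_nonneg fun j _ => by positivity
  have h5 : (‖w‖ ^ 2) ^ 2 ≤ (∑ j, ‖η j‖ ^ 2) * ‖w‖ ^ 2 := by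
    calc (‖w‖ ^ 2) ^ 2 ≤ (∑ j, ‖η j‖ * ‖V j w‖) ^ 2 :=
          pow_le_pow_left₀ (by positivity) h2 2
      _ ≤ (∑ j, ‖η j‖ ^ 2) * ∑ j, ‖V j w‖ ^ 2 := h3
      _ ≤ (∑ j, ‖η j‖ ^ 2) * ‖w‖ ^ 2 := mul_le_mul_of_nonneg_left (hV w) h4
  rcases eq_or_lt_of_le (show (0 : ℝ) ≤ ‖w‖ ^ 2 by positivity) with h6 | h6
  · rw [← h6]; exact h4
  · have h7 : ‖w‖ ^ 2 * ‖w‖ ^ 2 ≤ (∑ j, ‖η j‖ ^ 2) * ‖w‖ ^ 2 := by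
      rw [← pow_two]; exact h5
    exact le_of_mul_le_mul_right h7 h6

/-- An abstract variational lemma.

PROOF. `w = A κ₁'` is admissible in `hv₀`, `w = C κ₀'` in `hv₁`:
`re ⟪κ₀ - κ₀', A κ₁' - κ₀'⟫ ≤ 0` and `re ⟪κ₁ - κ₁', C κ₀' - κ₁'⟫ ≤ 0`. Expand and add:
`re (⟪κ₀, A κ₁'⟫ - ⟪κ₀, κ₀'⟫ - ⟪κ₀', A κ₁'⟫ + ‖κ₀'‖^2 + ⟪κ₁, C κ₀'⟫ - ⟪κ₁, κ₁'⟫ - ⟪κ₁', C κ₀'⟫ +
‖κ₁'‖^2) ≤ 0`. By `hA`: `⟪κ₀, A κ₁'⟫ = ⟪adjoint A κ₀, κ₁'⟫`, so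
`|re ⟪κ₀, A κ₁'⟫ - re ⟪κ₁, κ₁'⟫| ≤ a ‖κ₁'‖ ≤ a`, and similarly with `hC`. So
`‖κ₀'‖^2 + ‖κ₁'‖^2 - re ⟪κ₀', A κ₁'⟫ - re ⟪κ₁', C κ₀'⟫ ≤ a + c`. Finally
`‖κ₀' - A κ₁'‖^2 = ‖κ₀'‖^2 + ‖A κ₁'‖^2 - 2 re ⟪κ₀', A κ₁'⟫ ≤ ‖κ₀'‖^2 + ‖κ₁'‖^2 -
2 re ⟪κ₀', A κ₁'⟫` and `0 ≤ ‖κ₁' - C κ₀'‖^2 ≤ ‖κ₁'‖^2 + ‖κ₀'‖^2 - 2 re ⟪κ₁', C κ₀'⟫`; the sum of
the two right hand sides is at most `2 (a + c)`. -/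
theorem var_abs {G : Type*} [NormedAddCommGroup G] [InnerProductSpace ℂ G] [CompleteSpace G]
    {κ₀ κ₁ κ₀' κ₁' : G} {A C : G →L[ℂ] G} {a c : ℝ}
    (hA1 : ∀ ξ, ‖A ξ‖ ≤ ‖ξ‖) (hC1 : ∀ ξ, ‖C ξ‖ ≤ ‖ξ‖)
    (hA : ‖adjoint A κ₀ - κ₁‖ ≤ a) (hC : ‖adjoint C κ₁ - κ₀‖ ≤ c)
    (h0 : ‖κ₀'‖ ≤ 1) (h1 : ‖κ₁'‖ ≤ 1)
    (hv₀ : RCLike.re ⟪κ₀ - κ₀', A κ₁' - κ₀'⟫_ℂ ≤ 0)
    (hv₁ : RCLike.re ⟪κ₁ - κ₁', C κ₀' - κ₁'⟫_ℂ ≤ 0) :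
    ‖κ₀' - A κ₁'‖ ^ 2 ≤ 2 * (a + c) := by
  have e1 : -a ≤ RCLike.re ⟪κ₀, A κ₁'⟫_ℂ - RCLike.re ⟪κ₁, κ₁'⟫_ℂ := by
    have h2 : RCLike.re ⟪adjoint A κ₀ - κ₁, κ₁'⟫_ℂ
        = RCLike.re ⟪κ₀, A κ₁'⟫_ℂ - RCLike.re ⟪κ₁, κ₁'⟫_ℂ := by
      rw [inner_sub_left, adjoint_inner_left, map_sub]
    rw [← h2]
    have h3 : |RCLike.re ⟪adjoint A κ₀ - κ₁, κ₁'⟫_ℂ| ≤ a := by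
      refine (RCLike.abs_re_le_norm _).trans ((norm_inner_le_norm _ _).trans ?_)
      have h4 := norm_nonneg (adjoint A κ₀ - κ₁)
      calc ‖adjoint A κ₀ - κ₁‖ * ‖κ₁'‖ ≤ ‖adjoint A κ₀ - κ₁‖ * 1 :=
            mul_le_mul_of_nonneg_left h1 h4
        _ ≤ a := by rw [mul_one]; exact hA
    exact (abs_le.1 h3).1
  have e2 : -c ≤ RCLike.re ⟪κ₁, C κ₀'⟫_ℂ - RCLike.re ⟪κ₀, κ₀'⟫_ℂ := by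
    have h2 : RCLike.re ⟪adjoint C κ₁ - κ₀, κ₀'⟫_ℂ
        = RCLike.re ⟪κ₁, C κ₀'⟫_ℂ - RCLike.re ⟪κ₀, κ₀'⟫_ℂ := by
      rw [inner_sub_left, adjoint_inner_left, map_sub]
    rw [← h2]
    have h3 : |RCLike.re ⟪adjoint C κ₁ - κ₀, κ₀'⟫_ℂ| ≤ c := by
      refine (RCLike.abs_re_le_norm _).trans ((norm_inner_le_norm _ _).trans ?_)
      have h4 := norm_nonneg (adjoint C κ₁ - κ₀)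
      calc ‖adjoint C κ₁ - κ₀‖ * ‖κ₀'‖ ≤ ‖adjoint C κ₁ - κ₀‖ * 1 :=
            mul_le_mul_of_nonneg_left h0 h4
        _ ≤ c := by rw [mul_one]; exact hC
    exact (abs_le.1 h3).1
  rw [inner_sub_left, inner_sub_right, inner_sub_right, map_sub, map_sub, map_sub,
    inner_self_eq_norm_sq] at hv₀ hv₁
  have n1 : ‖κ₀' - A κ₁'‖ ^ 2 = ‖κ₀'‖ ^ 2 - 2 * RCLike.re ⟪κ₀', A κ₁'⟫_ℂ + ‖A κ₁'‖ ^ 2 :=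
    norm_sub_sq _ _
  have n2 : ‖κ₁' - C κ₀'‖ ^ 2 = ‖κ₁'‖ ^ 2 - 2 * RCLike.re ⟪κ₁', C κ₀'⟫_ℂ + ‖C κ₀'‖ ^ 2 :=
    norm_sub_sq _ _
  have n3 : 0 ≤ ‖κ₁' - C κ₀'‖ ^ 2 := by positivity
  have n4 : ‖A κ₁'‖ ^ 2 ≤ ‖κ₁'‖ ^ 2 := pow_le_pow_left₀ (norm_nonneg _) (hA1 _) 2
  have n5 : ‖C κ₀'‖ ^ 2 ≤ ‖κ₀'‖ ^ 2 := pow_le_pow_left₀ (norm_nonneg _) (hC1 _) 2
  linarith

end Pool.Agent.MP_86f3ed.Ty
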