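import Pool.Agent.H.MP_86f3ed_an.Ty.Var
import Pool.Agent.H.MP_86f3ed_an.Ty.Pol
import Pool.Agent.H.MP_86f3ed_an.Ty.Loop

open scoped InnerProductSpace Topology
open Filter ContinuousLinearMap

namespace Pool.Agent.MP_86f3ed.Ty

open Pin

variable {H : Type*} [NormedAddCommGroup H] [InnerProductSpace ℂ H] [CompleteSpace H]

/-- The square root of `1 / p`. -/
theorem VarB_r {p : ℕ} (hp : 0 < p) : (√(1 / p : ℝ)) * √(1 / p : ℝ) = 1 / p ∧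
    ∑ _j : Fin p, (1 / p : ℝ) = 1 := by
  have hp' : (0 : ℝ) < p := by exact_mod_cast hp
  refine ⟨Real.mul_self_sqrt (by positivity), ?_⟩
  rw [Finset.sum_const, Finset.card_univ, Fintype.card_fin, nsmul_eq_mul]
  field_simp

theorem VarB_col {n p : ℕ} {y : Fin p → H →L[ℂ] H} (hy : ∑ j, star (y j) * y j = 1)
    (ξ : KK H n) : ∑ j, ‖am H n (y j) ξ‖ ^ 2 = ‖ξ‖ ^ 2 := by
  have h : ((∑ j, ‖am H n (y j) ξ‖ ^ 2 : ℝ) : ℂ) = ((‖ξ‖ ^ 2 : ℝ) : ℂ) := by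
    push_cast
    have h1 : ∀ j, ((‖am H n (y j) ξ‖ : ℂ)) ^ 2 = ⟪ξ, am H n (star (y j) * y j) ξ⟫_ℂ := by
      intro j
      have := vf_star_mul ξ (y j)
      rw [vf] at this
      rw [this]
      push_cast
      rfl
    rw [Finset.sum_congr rfl fun j _ => h1 j, ← inner_sum]
    have h2 : ∑ j, am H n (star (y j) * y j) ξ = ξ := by
      rw [← sum_apply, ← map_sum, hy, am_one_apply]
    rw [h2, inner_self_eq_norm_sq_to_K]
    rfl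
  exact_mod_cast h

theorem VarB_iso {n : ℕ} {u : H →L[ℂ] H} (hu : star u * u = 1) (ξ : KK H n) :
    ‖am H n u ξ‖ = ‖ξ‖ := by
  have h := VarB_col (n := n) (p := 1) (y := fun _ => u) (by simpa using hu) ξ
  rw [Finset.sum_const, Finset.card_univ, Fintype.card_fin, one_smul] at h
  exact (sq_eq_sq₀ (norm_nonneg _) (norm_nonneg _)).mp h

theorem VarB_iso' {u : H →L[ℂ] H} (hu : star u * u = 1) (x : H) : ‖u x‖ = ‖x‖ := by
  have h : ⟪u x, u x⟫_ℂ = ⟪x, x⟫_ℂ := by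
    rw [← adjoint_inner_right, ← star_eq_adjoint]
    show ⟪x, (star u * u) x⟫_ℂ = _
    rw [hu]; rfl
  rw [@norm_eq_sqrt_re_inner ℂ, @norm_eq_sqrt_re_inner ℂ _ _ _ _ x, h]

theorem VarB_adj_le {G : Type*} [NormedAddCommGroup G] [InnerProductSpace ℂ G] [CompleteSpace G]
    {V : G →L[ℂ] G} (hV : ∀ ξ, ‖V ξ‖ ≤ ‖ξ‖) (ξ : G) : ‖adjoint V ξ‖ ≤ ‖ξ‖ := by
  have h : ‖adjoint V‖ ≤ 1 := by
    rw [LinearIsometryEquiv.norm_map]
    exact opNorm_le_bound _ zero_le_one fun x => by rw [one_mul]; exact hV x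
  calc ‖adjoint V ξ‖ ≤ ‖adjoint V‖ * ‖ξ‖ := le_opNorm _ _
    _ ≤ 1 * ‖ξ‖ := mul_le_mul_of_nonneg_right h (norm_nonneg _)
    _ = ‖ξ‖ := one_mul _

theorem VarB_adj_sum {G : Type*} [NormedAddCommGroup G] [InnerProductSpace ℂ G] [CompleteSpace G]
    {p : ℕ} (V Y : Fin p → G →L[ℂ] G) (x : G) :
    adjoint (∑ j, (adjoint (V j)).comp (Y j)) x = ∑ j, adjoint (Y j) (V j x) := by
  refine ext_inner_left ℂ fun w => ?_
  rw [adjoint_inner_right, inner_sum, sum_apply, sum_inner]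
  refine Finset.sum_congr rfl fun j _ => ?_
  rw [adjoint_inner_right, comp_apply, adjoint_inner_left]

theorem VarB_adj_smul {G : Type*} [NormedAddCommGroup G] [InnerProductSpace ℂ G] [CompleteSpace G]
    (Y : G →L[ℂ] G) (r : ℝ) (x : G) :
    adjoint (((r : ℝ) : ℂ) • Y) x = adjoint Y (((r : ℝ) : ℂ) • x) := by
  refine ext_inner_left ℂ fun w => ?_
  rw [adjoint_inner_right, adjoint_inner_right, smul_apply, inner_smul_left, inner_smul_right,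
    Complex.conj_ofReal]

/-- The vector `y j z₁` has `1/p` times the functional of `z₀` on `Com 𝔄`.

PROOF. `c (y j z₁) = √(1/p) • c (u j z₀) = √(1/p) • u j (c z₀)` (`u j ∈ 𝔄`, `c ∈ Com 𝔄`) and `u j` is an
isometry; `√(1/p)^2 = 1/p`. -/
theorem norm_y_z {𝔄 : StarSubalgebra ℂ (H →L[ℂ] H)} {p : ℕ} {u : Fin p → H →L[ℂ] H}
    (hu : ∀ j, u j ∈ 𝔄) (huu : ∀ j, star (u j) * u j = 1) (L : Loop 𝔄 p u) (j : Fin p)
    {c : H →L[ℂ] H} (hc : c ∈ Com 𝔄) : ‖c (L.y j L.z₁)‖ = √(1 / p) * ‖c L.z₀‖ := by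
  have h1 : c (u j L.z₀) = u j (c L.z₀) := by
    have h := mem_Com.mp hc (u j) (hu j)
    have h2 := congrArg (fun T : H →L[ℂ] H => T L.z₀) h
    exact h2.symm
  rw [L.y_z, map_smul, h1, norm_smul, VarB_iso' (huu j), Complex.norm_real, Real.norm_eq_abs,
    abs_of_nonneg (Real.sqrt_nonneg _)]

/-- The two nearest points are nearly exchanged by the averaged intertwiners.

Notation: `μ = 1/p`, `r = √μ`, `T = 6 * (p + 2) * δ`.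

PROOF. `exists_near` (`𝔓 = Com 𝔄`) for `z₀, D.κ₀` and for `z₁, D.κ₁` gives `κ₀'`, `κ₁'`; `exact_mass`
(hypotheses `hm₀`, `hm₁`, cyclicity `L.cyc₀`, `L.cyc₁`) gives exactness of the mass; with `c = 1`
`‖κ₀'‖ = ‖κ₁'‖ = 1`. `exists_V` gives `V j` for every `j` and `exists_R` gives `R`. Define
`A = ∑ j, r • (adjoint (V j)) ∘ am (y j)`, `C = ∑ j, r • (adjoint (R j)) ∘ am (u' j)`.
(1) `A` is a contraction: `‖A ξ‖ ≤ ∑ r ‖am (y j) ξ‖ ≤ √(∑ r²) √(∑ ‖am (y j) ξ‖^2) = ‖ξ‖`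
(`∑ r² = 1`, `∑ ‖am (y j) ξ‖^2 = re ⟪ξ, am (∑ star (y j) * y j) ξ⟫ = ‖ξ‖^2`). `C` is a contraction by
`row_le`: `‖C ξ‖^2 ≤ ∑ ‖r • am (u' j) ξ‖^2 = ∑ μ ‖ξ‖^2 = ‖ξ‖^2`.
(2) `A κ₁' ∈ VV (Com 𝔄) z₀ n`: for `c ∈ Com 𝔄`, `am c (adjoint (V j) (am (y j) κ₁')) =
adjoint (V j) (am (c * y j) κ₁')` (`IsR.adj`), norm `≤ ‖am (c * y j) κ₁'‖ ≤ ‖c (y j z₁)‖ = r ‖c z₀‖`
(`κ₁' ∈ VV`, `c * y j ∈ Com 𝔄`, `norm_y_z`); so `‖am c (A κ₁')‖ ≤ ∑ r * r * ‖c z₀‖ = ‖c z₀‖`.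
`C κ₀' ∈ VV (Com 𝔄) z₁ n`: `am c (C κ₀') = ∑ adjoint (R j) (r • am (c * u' j) κ₀')`, by `row_le` its
norm squared is at most `∑ μ ‖am (c * u' j) κ₀'‖^2 ≤ ∑ μ ‖c (u' j z₀)‖^2 = ‖c z₁‖^2` (`L.marg`).
(3) `adjoint A κ₀ = ∑ am (star (y j)) (V j (r • κ₀))` and
`κ₁ = ∑ am (star (y j)) (am (y j) κ₁)`, so by `row_le` (for the family `am (y j)`)
`‖adjoint A κ₀ - κ₁‖^2 ≤ ∑ ‖V j (r • κ₀) - am (y j) κ₁‖^2 ≤ p T`.
`adjoint C κ₁ = ∑ r • am (star (u' j)) (R j κ₁)` and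
`κ₀ = ∑ r • am (star (u' j)) (r • am (u' j) κ₀)`; the family `r • am (u' j)` satisfies
`∑ ‖r • am (u' j) ξ‖^2 = ‖ξ‖^2`, so `‖adjoint C κ₁ - κ₀‖^2 ≤ T ≤ p T`.
(4) `var_abs` with `a = c = √(p T)`: `‖κ₀' - A κ₁'‖^2 ≤ 4 √(p T)`. -/
theorem exists_primes {𝔄 : StarSubalgebra ℂ (H →L[ℂ] H)} {n p : ℕ} (hp : 0 < p)
    {u : Fin p → H →L[ℂ] H} (hu : ∀ j, u j ∈ 𝔄) (huu : ∀ j, star (u j) * u j = 1)
    (L : Loop 𝔄 p u) {δ : ℝ} (hδ : 0 < δ) (D : Rig H n p L.y L.u' δ)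
    (hm₀ : ∀ c ∈ Com 𝔄, ‖c L.z₀‖ ≤ ‖am H n c D.κ₀‖)
    (hm₁ : ∀ c ∈ Com 𝔄, ‖c L.z₁‖ ≤ ‖am H n c D.κ₁‖) :
    ∃ (κ₀' κ₁' : KK H n) (V : Fin p → (KK H n →L[ℂ] KK H n)),
      (∀ c ∈ Com 𝔄, ‖am H n c κ₀'‖ = ‖c L.z₀‖) ∧ (∀ c ∈ Com 𝔄, ‖am H n c κ₁'‖ = ‖c L.z₁‖) ∧
      (∀ j, IsR (V j)) ∧ (∀ j ξ, ‖V j ξ‖ ≤ ‖ξ‖) ∧
      ‖κ₀' - ∑ j, ((√(1 / p) : ℝ) : ℂ) • adjoint (V j) (am H n (L.y j) κ₁')‖ ^ 2 ≤
        4 * √(p * (6 * (p + 2) * δ)) := by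
  classical
  obtain ⟨hrr, hsum⟩ := VarB_r hp
  have hp' : (0 : ℝ) < p := by exact_mod_cast hp
  set r : ℝ := √(1 / p : ℝ) with hr
  have hr0 : 0 ≤ r := Real.sqrt_nonneg _
  have hrn : ‖((r : ℝ) : ℂ)‖ = r := by
    rw [Complex.norm_real, Real.norm_eq_abs, abs_of_nonneg hr0]
  set T : ℝ := 6 * (p + 2) * δ with hT
  have hT0 : 0 ≤ T := by positivity
  -- nearest points
  obtain ⟨κ₀', hκ₀', hv₀⟩ := exists_near (Com 𝔄) L.z₀ D.κ₀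
  obtain ⟨κ₁', hκ₁', hv₁⟩ := exists_near (Com 𝔄) L.z₁ D.κ₁
  have he₀ := exact_mass L.cyc₀ hm₀ hκ₀' hv₀
  have he₁ := exact_mass L.cyc₁ hm₁ hκ₁' hv₁
  have hn₀ : ‖κ₀'‖ = 1 := by
    have h := he₀ 1 (Com 𝔄).one_mem
    have h2 : (1 : H →L[ℂ] H) L.z₀ = L.z₀ := rfl
    rw [am_one_apply, h2, L.norm_z₀] at h
    exact h
  have hn₁ : ‖κ₁'‖ = 1 := by
    have h := he₁ 1 (Com 𝔄).one_mem
    have h2 : (1 : H →L[ℂ] H) L.z₁ = L.z₁ := rfl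
    rw [am_one_apply, h2, L.norm_z₁] at h
    exact h
  choose V hVR hV1 hVd using fun j => exists_V hp hδ L.y_sum L.u'_iso D j
  obtain ⟨R, hRR, hR1, hRd⟩ := exists_R hp hδ L.y_sum L.u'_iso D
  set A : KK H n →L[ℂ] KK H n :=
    ∑ j, (adjoint (V j)).comp (((r : ℝ) : ℂ) • am H n (L.y j)) with hA
  set C : KK H n →L[ℂ] KK H n :=
    ∑ j, (adjoint (R j)).comp (((r : ℝ) : ℂ) • am H n (L.u' j)) with hC
  have hAx : ∀ ξ, A ξ = ∑ j, ((r : ℝ) : ℂ) • adjoint (V j) (am H n (L.y j) ξ) := by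
    intro ξ
    rw [hA, sum_apply]
    refine Finset.sum_congr rfl fun j _ => ?_
    rw [comp_apply, smul_apply, map_smul]
  have hCx : ∀ ξ, C ξ = ∑ j, adjoint (R j) (((r : ℝ) : ℂ) • am H n (L.u' j) ξ) := by
    intro ξ
    rw [hC, sum_apply]
    refine Finset.sum_congr rfl fun j _ => ?_
    rw [comp_apply, smul_apply]
  have hcol := VarB_col (n := n) L.y_sum
  have hru : ∀ (c : H →L[ℂ] H) (ξ : KK H n) (j : Fin p),
      ‖((r : ℝ) : ℂ) • am H n (c * L.u' j) ξ‖ ^ 2 = (1 / p) * ‖am H n (c * L.u' j) ξ‖ ^ 2 := by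
    intro c ξ j
    rw [norm_smul, hrn, mul_pow, pow_two r, hrr]
  have hru' : ∀ (ξ : KK H n), ∑ j, ‖((r : ℝ) : ℂ) • am H n (L.u' j) ξ‖ ^ 2 = ‖ξ‖ ^ 2 := by
    intro ξ
    have h : ∀ j, ‖((r : ℝ) : ℂ) • am H n (L.u' j) ξ‖ ^ 2 = (1 / p) * ‖ξ‖ ^ 2 := by
      intro j
      have h := hru 1 ξ j
      rw [one_mul] at h
      rw [h, VarB_iso (L.u'_iso j)]
    rw [Finset.sum_congr rfl fun j _ => h j, ← Finset.sum_mul, hsum, one_mul]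
  -- (1) contractions
  have hA1 : ∀ ξ, ‖A ξ‖ ≤ ‖ξ‖ := by
    intro ξ
    rw [hAx]
    calc ‖∑ j, ((r : ℝ) : ℂ) • adjoint (V j) (am H n (L.y j) ξ)‖
        ≤ ∑ j, ‖((r : ℝ) : ℂ) • adjoint (V j) (am H n (L.y j) ξ)‖ := norm_sum_le _ _
      _ ≤ ∑ j, r * ‖am H n (L.y j) ξ‖ := by
          refine Finset.sum_le_sum fun j _ => ?_
          rw [norm_smul, hrn]
          exact mul_le_mul_of_nonneg_left (VarB_adj_le (hV1 j) _) hr0
      _ ≤ √(∑ _j : Fin p, r ^ 2) * √(∑ j, ‖am H n (L.y j) ξ‖ ^ 2) :=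
          Real.sum_mul_le_sqrt_mul_sqrt _ _ _
      _ = ‖ξ‖ := by
          rw [hcol, Real.sqrt_sq (norm_nonneg _)]
          simp only [pow_two r, hrr]
          rw [hsum, Real.sqrt_one, one_mul]
  have hC1 : ∀ ξ, ‖C ξ‖ ≤ ‖ξ‖ := by
    intro ξ
    have h := row_le R hR1 fun j => ((r : ℝ) : ℂ) • am H n (L.u' j) ξ
    rw [← hCx, hru'] at h
    exact (sq_le_sq₀ (norm_nonneg _) (norm_nonneg _)).mp h
  -- (2) admissibility
  have hAV : A κ₁' ∈ VV (Com 𝔄) L.z₀ n := by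
    intro c hc
    rw [hAx, map_sum]
    calc ‖∑ j, am H n c (((r : ℝ) : ℂ) • adjoint (V j) (am H n (L.y j) κ₁'))‖
        ≤ ∑ j, ‖am H n c (((r : ℝ) : ℂ) • adjoint (V j) (am H n (L.y j) κ₁'))‖ :=
          norm_sum_le _ _
      _ ≤ ∑ _j : Fin p, (1 / p : ℝ) * ‖c L.z₀‖ := by
          refine Finset.sum_le_sum fun j _ => ?_
          rw [map_smul, norm_smul, hrn, ← (hVR j).adj, ← am_mul_apply]
          have h1 := VarB_adj_le (hV1 j) (am H n (c * L.y j) κ₁')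
          have h2 := hκ₁' (c * L.y j) ((Com 𝔄).mul_mem hc (L.y_mem j))
          have h3 : ‖(c * L.y j) L.z₁‖ = r * ‖c L.z₀‖ := norm_y_z hu huu L j hc
          rw [h3] at h2
          calc r * ‖adjoint (V j) (am H n (c * L.y j) κ₁')‖ ≤ r * (r * ‖c L.z₀‖) :=
                mul_le_mul_of_nonneg_left (h1.trans h2) hr0
            _ = (1 / p : ℝ) * ‖c L.z₀‖ := by rw [← mul_assoc, hrr]
      _ = ‖c L.z₀‖ := by rw [← Finset.sum_mul, hsum, one_mul]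
  have hCV : C κ₀' ∈ VV (Com 𝔄) L.z₁ n := by
    intro c hc
    have h1 : am H n c (C κ₀') = ∑ j, adjoint (R j) (((r : ℝ) : ℂ) • am H n (c * L.u' j) κ₀') := by
      rw [hCx, map_sum]
      refine Finset.sum_congr rfl fun j _ => ?_
      rw [← (hRR j).adj, map_smul, ← am_mul_apply]
    have h2 := row_le R hR1 fun j => ((r : ℝ) : ℂ) • am H n (c * L.u' j) κ₀'
    rw [← h1] at h2
    have h3 : ∑ j, ‖((r : ℝ) : ℂ) • am H n (c * L.u' j) κ₀'‖ ^ 2 ≤ ‖c L.z₁‖ ^ 2 := by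
      rw [L.marg c hc]
      refine Finset.sum_le_sum fun j _ => ?_
      rw [hru]
      refine mul_le_mul_of_nonneg_left ?_ (by positivity)
      exact pow_le_pow_left₀ (norm_nonneg _)
        (hκ₀' (c * L.u' j) ((Com 𝔄).mul_mem hc (L.u'_mem j))) 2
    exact (sq_le_sq₀ (norm_nonneg _) (norm_nonneg _)).mp (h2.trans h3)
  -- (3) the adjoints
  have hAa : ‖adjoint A D.κ₀ - D.κ₁‖ ≤ √(p * T) := by
    have h1 : adjoint A D.κ₀ - D.κ₁ = ∑ j, adjoint (am H n (L.y j))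
        (V j (((r : ℝ) : ℂ) • D.κ₀) - am H n (L.y j) D.κ₁) := by
      have h2 : ∑ j, adjoint (am H n (L.y j)) (am H n (L.y j) D.κ₁) = D.κ₁ := by
        have h3 : ∀ j, adjoint (am H n (L.y j)) (am H n (L.y j) D.κ₁) =
            am H n (star (L.y j) * L.y j) D.κ₁ := by
          intro j
          rw [am_mul_apply, map_star, star_eq_adjoint]
        rw [Finset.sum_congr rfl fun j _ => h3 j, ← sum_apply, ← map_sum,
          L.y_sum, am_one_apply]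
      rw [hA, VarB_adj_sum]
      conv_lhs => rw [← h2]
      rw [← Finset.sum_sub_distrib]
      refine Finset.sum_congr rfl fun j _ => ?_
      rw [VarB_adj_smul, ← map_sub, map_smul]
    have h4 := row_le (fun j => am H n (L.y j)) (fun ξ => (hcol ξ).le)
      (fun j => V j (((r : ℝ) : ℂ) • D.κ₀) - am H n (L.y j) D.κ₁)
    rw [← h1] at h4
    refine Real.le_sqrt_of_sq_le (h4.trans ?_)
    calc ∑ j, ‖V j (((r : ℝ) : ℂ) • D.κ₀) - am H n (L.y j) D.κ₁‖ ^ 2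
        ≤ ∑ _j : Fin p, T := Finset.sum_le_sum fun j _ => by rw [norm_sub_rev]; exact hVd j
      _ = p * T := by rw [Finset.sum_const, Finset.card_univ, Fintype.card_fin, nsmul_eq_mul]
  have hCa : ‖adjoint C D.κ₁ - D.κ₀‖ ≤ √(p * T) := by
    have h1 : adjoint C D.κ₁ - D.κ₀ = ∑ j, adjoint (((r : ℝ) : ℂ) • am H n (L.u' j))
        (R j D.κ₁ - ((r : ℝ) : ℂ) • am H n (L.u' j) D.κ₀) := by
      have h2 : ∑ j, adjoint (((r : ℝ) : ℂ) • am H n (L.u' j))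
          (((r : ℝ) : ℂ) • am H n (L.u' j) D.κ₀) = D.κ₀ := by
        have h3 : ∀ j, adjoint (((r : ℝ) : ℂ) • am H n (L.u' j))
            (((r : ℝ) : ℂ) • am H n (L.u' j) D.κ₀) = (((1 / p : ℝ)) : ℂ) • D.κ₀ := by
          intro j
          rw [VarB_adj_smul, smul_smul, map_smul, ← Complex.ofReal_mul, hrr]
          have h5 : adjoint (am H n (L.u' j)) (am H n (L.u' j) D.κ₀) = D.κ₀ := by
            have h6 : adjoint (am H n (L.u' j)) (am H n (L.u' j) D.κ₀) =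
                am H n (star (L.u' j) * L.u' j) D.κ₀ := by
              rw [am_mul_apply, map_star, star_eq_adjoint]
            rw [h6, L.u'_iso, am_one_apply]
          rw [h5]
        rw [Finset.sum_congr rfl fun j _ => h3 j, ← Finset.sum_smul, ← Complex.ofReal_sum, hsum,
          Complex.ofReal_one, one_smul]
      rw [hC, VarB_adj_sum]
      conv_lhs => rw [← h2]
      rw [← Finset.sum_sub_distrib]
      refine Finset.sum_congr rfl fun j _ => ?_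
      rw [← map_sub]
    have h4 := row_le (fun j => ((r : ℝ) : ℂ) • am H n (L.u' j))
      (fun ξ => by
        have h := hru' ξ
        simp only [smul_apply]
        exact h.le)
      (fun j => R j D.κ₁ - ((r : ℝ) : ℂ) • am H n (L.u' j) D.κ₀)
    rw [← h1] at h4
    refine Real.le_sqrt_of_sq_le (h4.trans ?_)
    calc ∑ j, ‖R j D.κ₁ - ((r : ℝ) : ℂ) • am H n (L.u' j) D.κ₀‖ ^ 2
        = ∑ j, ‖((r : ℝ) : ℂ) • am H n (L.u' j) D.κ₀ - R j D.κ₁‖ ^ 2 :=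
          Finset.sum_congr rfl fun j _ => by rw [norm_sub_rev]
      _ ≤ T := hRd
      _ ≤ p * T := by
          have h5 : (1 : ℝ) ≤ p := by exact_mod_cast hp
          nlinarith
  -- (4) conclusion
  refine ⟨κ₀', κ₁', V, he₀, he₁, hVR, hV1, ?_⟩
  rw [← hAx]
  have h := var_abs hA1 hC1 hAa hCa hn₀.le hn₁.le (hv₀ _ hAV) (hv₁ _ hCV)
  calc ‖κ₀' - A κ₁'‖ ^ 2 ≤ 2 * (√(p * T) + √(p * T)) := h
    _ = 4 * √(p * T) := by ring

end Pool.Agent.MP_86f3ed.Ty
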