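import Pool.Agent.H.MP_86f3ed_an.Ty.Om

open scoped InnerProductSpace Topology
open Filter ContinuousLinearMap

namespace Pool.Agent.MP_86f3ed.Ty

open Pin

variable {H : Type*} [NormedAddCommGroup H] [InnerProductSpace ℂ H] [CompleteSpace H]

/-- Polarization of a quadratic identity. -/
theorem Zeta_polar {𝔄 : StarSubalgebra ℂ (H →L[ℂ] H)} {v w : H →L[ℂ] H} {Ω : H} {p q : ℕ}
    (ξ : Fin q → H) (η : Fin p → H)
    (hst : ∀ x ∈ Com (Com 𝔄), ‖x Ω‖ ^ 2 =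
      (1 / 2) * (∑ j, ‖x (v (ξ j))‖ ^ 2 + ∑ j, ‖x (w (η j))‖ ^ 2))
    {x y : H →L[ℂ] H} (hx : x ∈ Com (Com 𝔄)) (hy : y ∈ Com (Com 𝔄)) :
    ⟪x Ω, y Ω⟫_ℂ = (1 / 2) * (∑ j, ⟪x (v (ξ j)), y (v (ξ j))⟫_ℂ +
      ∑ j, ⟪x (w (η j)), y (w (η j))⟫_ℂ) := by
  have hc : ∀ x ∈ Com (Com 𝔄), (‖x Ω‖ : ℂ) ^ 2 =
      (1 / 2) * (∑ j, (‖x (v (ξ j))‖ : ℂ) ^ 2 + ∑ j, (‖x (w (η j))‖ : ℂ) ^ 2) := by
    intro x hx
    have h := congrArg (fun r : ℝ => (r : ℂ)) (hst x hx)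
    simp only [Complex.ofReal_mul, Complex.ofReal_add, Complex.ofReal_sum, Complex.ofReal_pow,
      Complex.ofReal_div, Complex.ofReal_one, Complex.ofReal_ofNat] at h
    exact h
  have hp : ∀ z : H, ⟪x z, y z⟫_ℂ = ((‖(x + y) z‖ : ℂ) ^ 2 - (‖(x - y) z‖ : ℂ) ^ 2 +
      ((‖(x - Complex.I • y) z‖ : ℂ) ^ 2 - (‖(x + Complex.I • y) z‖ : ℂ) ^ 2) * Complex.I) / 4 :=
    fun z => inner_eq_sum_norm_sq_div_four (𝕜 := ℂ) (x z) (y z)
  have hIy : Complex.I • y ∈ Com (Com 𝔄) := (Com (Com 𝔄)).smul_mem hy _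
  rw [hp Ω, hc _ (add_mem hx hy), hc _ (sub_mem hx hy), hc _ (sub_mem hx hIy),
    hc _ (add_mem hx hIy)]
  simp only [hp]
  simp only [← Finset.sum_div, Finset.sum_add_distrib, Finset.sum_sub_distrib, ← Finset.sum_mul]
  ring

/-- Extraction of a vector fixed by `J` from a corner.

PROOF. `M = Com (Com 𝔄)`; `Com M = Com 𝔄` by `com3`. Let `e = v * star v ∈ M`, selfadjoint.
(1) `e` is in the centralizer: for `a ∈ M`, `⟪Ω, e (a Ω)⟫ = ⟪Ω, a (e Ω)⟫`. Polarize the hypothesis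
`hst`: the sesquilinear form `⟪x Ω, y Ω⟫` (`x, y ∈ M`) equals
`(1/2) (∑ ⟪x (v (ξ j)), y (v (ξ j))⟫ + ∑ ⟪x (w (η j)), y (w (η j))⟫)` (both sides are sesquilinear
in `x, y` and agree for `x = y`; polarization with `x + y, x - y, x + i y, x - i y`). With `x = e`,
`y = a`: since `star e = e`, `e * v = v`, `e * w = v * star v * w = 0`:
`⟪Ω, e (a Ω)⟫ = ⟪e Ω, a Ω⟫ = (1/2) ∑ ⟪v (ξ j), a (v (ξ j))⟫`, and with `x = 1`, `y = a * e`
`⟪Ω, a (e Ω)⟫ = (1/2) ∑ ⟪v (ξ j), a (v (ξ j))⟫` as well. So `J (e Ω) = e Ω` by `hJ.cent`.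
(2) By `hJ.M_to_N` applied to `star v` there is `b ∈ Com M` with `J (star v (J x)) = b x` for all
`x`. Put `Z = √2 • star v (b Ω)`. Since `b Ω = J (star v (J Ω)) = J (star v Ω)`,
`J (b Ω) = star v Ω`; and `J (star v y) = J (star v (J (J y))) = b (J y)`. So
`J Z = √2 • J (star v (b Ω)) = √2 • b (J (b Ω)) = √2 • b (star v Ω) = √2 • star v (b Ω) = Z`
because `b` commutes with `star v ∈ M`.
(3) `star b x = J (v (J x))` for all `x` (from `⟪b x, y⟫ = ⟪J (star v (J x)), y⟫ =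
⟪J y, star v (J x)⟫ = ⟪v (J y), J x⟫ = ⟪x, J (v (J y))⟫`, using `hJ.inner`, `hJ.invol`), so
`star b (b x) = J (v (star v (J x))) = J (e (J x))` and `star b (b Ω) = J (e Ω) = e Ω`.
(4) For `x ∈ M`: `‖x Z‖^2 = 2 ‖x (star v (b Ω))‖^2 = 2 ‖b (x (star v Ω))‖^2
= 2 re ⟪x (star v Ω), star b (b (x (star v Ω)))⟫ = 2 re ⟪x (star v Ω), x (star v (star b (b Ω)))⟫`
(`star b * b` commutes with `M`) `= 2 re ⟪x (star v Ω), x (star v (e Ω))⟫ = 2 ‖(x * star v) Ω‖^2`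
(`star v * e = star v`). By `hst` for `x * star v`: `= ∑ ‖x (star v (v (ξ j)))‖^2 +
∑ ‖x (star v (w (η j)))‖^2 = ∑ ‖x (ξ j)‖^2` (`star v * v = 1`, `star v * w = 0`). -/
theorem exists_zeta {𝔄 : StarSubalgebra ℂ (H →L[ℂ] H)} {v w : H →L[ℂ] H}
    (hv : v ∈ Com (Com 𝔄)) (hw : w ∈ Com (Com 𝔄)) (hvv : star v * v = 1)
    (hvw : star v * w = 0) {Ω : H} {p q : ℕ} (ξ : Fin q → H) (η : Fin p → H)
    {J : H → H} (hJ : TomitaJ (Com (Com 𝔄)) Ω J)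
    (hst : ∀ x ∈ Com (Com 𝔄), ‖x Ω‖ ^ 2 =
      (1 / 2) * (∑ j, ‖x (v (ξ j))‖ ^ 2 + ∑ j, ‖x (w (η j))‖ ^ 2)) :
    ∃ Z : H, J Z = Z ∧ ∀ x ∈ Com (Com 𝔄), ‖x Z‖ ^ 2 = ∑ j, ‖x (ξ j)‖ ^ 2 := by
  have hsv : star v ∈ Com (Com 𝔄) := star_mem hv
  have he : v * star v ∈ Com (Com 𝔄) := mul_mem hv hsv
  have hse : star (v * star v) = v * star v := by rw [star_mul, star_star]
  have hvv' : ∀ x, star v (v x) = x := fun x => by
    have h := congrArg (fun T : H →L[ℂ] H => T x) hvv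
    exact h
  have hvw' : ∀ x, star v (w x) = 0 := fun x => by
    have h := congrArg (fun T : H →L[ℂ] H => T x) hvw
    exact h
  have hadj : ∀ (T : H →L[ℂ] H) (x y : H), ⟪x, T y⟫_ℂ = ⟪star T x, y⟫_ℂ := fun T x y => by
    rw [star_eq_adjoint, adjoint_inner_left]
  have hev : ∀ x, (v * star v) (v x) = v x := fun x => by
    show v (star v (v x)) = v x
    rw [hvv']
  have hew : ∀ x, (v * star v) (w x) = 0 := fun x => by
    show v (star v (w x)) = 0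
    rw [hvw', map_zero]
  -- the projection is in the centralizer
  have hcent : ∀ a ∈ Com (Com 𝔄), ⟪Ω, (v * star v) (a Ω)⟫_ℂ = ⟪Ω, a ((v * star v) Ω)⟫_ℂ := by
    intro a ha
    have h1 := Zeta_polar ξ η hst (one_mem _) (mul_mem he ha)
    have h2 := Zeta_polar ξ η hst (one_mem _) (mul_mem ha he)
    have h3 : ∀ z : H, ⟪(1 : H →L[ℂ] H) z, ((v * star v) * a) z⟫_ℂ =
        ⟪(v * star v) z, a z⟫_ℂ := by
      intro z
      show ⟪z, (v * star v) (a z)⟫_ℂ = _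
      rw [hadj, hse]
    have h4 : ∀ z : H, ⟪(1 : H →L[ℂ] H) z, (a * (v * star v)) z⟫_ℂ =
        ⟪z, a ((v * star v) z)⟫_ℂ := fun z => rfl
    have h5 : ⟪Ω, (v * star v) (a Ω)⟫_ℂ = ⟪(1 : H →L[ℂ] H) Ω, ((v * star v) * a) Ω⟫_ℂ := rfl
    have h6 : ⟪Ω, a ((v * star v) Ω)⟫_ℂ = ⟪(1 : H →L[ℂ] H) Ω, (a * (v * star v)) Ω⟫_ℂ := rfl
    rw [h5, h6, h1, h2]
    simp only [h3, h4, hev, hew, map_zero, inner_zero_left, inner_zero_right]
  have hJe : J ((v * star v) Ω) = (v * star v) Ω := hJ.cent _ he hse hcent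
  obtain ⟨b, hb, hbJ⟩ := hJ.M_to_N _ hsv
  have hcomm : ∀ a ∈ Com (Com 𝔄), ∀ x, a (b x) = b (a x) := fun a ha x =>
    congrArg (fun T : H →L[ℂ] H => T x) (mem_Com.mp hb a ha)
  have hsb : star b ∈ Com (Com (Com 𝔄)) := star_mem hb
  have hcomm' : ∀ a ∈ Com (Com 𝔄), ∀ x, a (star b x) = star b (a x) := fun a ha x =>
    congrArg (fun T : H →L[ℂ] H => T x) (mem_Com.mp hsb a ha)
  have hJb : J (b Ω) = star v Ω := by rw [← hbJ, hJ.fix, hJ.invol]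
  have hJv : ∀ y, J (star v y) = b (J y) := fun y => by rw [← hbJ, hJ.invol]
  have hstar : ∀ x, star b x = J (v (J x)) := by
    intro x
    refine ext_inner_right ℂ fun y => ?_
    rw [← hadj, ← hbJ]
    calc ⟪x, J (star v (J y))⟫_ℂ = ⟪J (J x), J (star v (J y))⟫_ℂ := by rw [hJ.invol x]
      _ = ⟪star v (J y), J x⟫_ℂ := hJ.inner _ _
      _ = ⟪J y, v (J x)⟫_ℂ := by rw [hadj]
      _ = ⟪J (v (J x)), J (J y)⟫_ℂ := (hJ.inner _ _).symm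
      _ = ⟪J (v (J x)), y⟫_ℂ := by rw [hJ.invol y]
  have hbb : star b (b Ω) = (v * star v) Ω := by
    rw [hstar, hJb]
    exact hJe
  have hc : (starRingEnd ℂ) ((Real.sqrt 2 : ℝ) : ℂ) = ((Real.sqrt 2 : ℝ) : ℂ) :=
    Complex.conj_ofReal _
  refine ⟨((Real.sqrt 2 : ℝ) : ℂ) • star v (b Ω), ?_, ?_⟩
  · rw [hJ.smul, hc, hJv, hJb, hcomm _ hsv]
  · intro x hx
    have hy : x * star v ∈ Com (Com 𝔄) := mul_mem hx hsv
    have h1 : x (star v (b Ω)) = b ((x * star v) Ω) := by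
      rw [← hcomm _ hy]
      rfl
    have h2 : star b (b ((x * star v) Ω)) = (x * star v) Ω := by
      rw [← hcomm _ hy, ← hcomm' _ hy, hbb]
      show x (star v (v (star v Ω))) = x (star v Ω)
      rw [hvv']
    have h3 : ‖b ((x * star v) Ω)‖ ^ 2 = ‖(x * star v) Ω‖ ^ 2 := by
      have h4 : ⟪b ((x * star v) Ω), b ((x * star v) Ω)⟫_ℂ =
          ⟪(x * star v) Ω, (x * star v) Ω⟫_ℂ := by
        rw [hadj, h2]
      rw [inner_self_eq_norm_sq_to_K, inner_self_eq_norm_sq_to_K] at h4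
      exact_mod_cast h4
    rw [map_smul, norm_smul, mul_pow, h1, h3, hst _ hy, Complex.norm_real,
      Real.norm_of_nonneg (Real.sqrt_nonneg 2), Real.sq_sqrt (by norm_num)]
    have h5 : ∀ j, (x * star v) (v (ξ j)) = x (ξ j) := fun j => by
      show x (star v (v (ξ j))) = x (ξ j)
      rw [hvv']
    have h6 : ∀ j, (x * star v) (w (η j)) = 0 := fun j => by
      show x (star v (w (η j))) = 0
      rw [hvw', map_zero]
    simp only [h5, h6, norm_zero]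
    simp

end Pool.Agent.MP_86f3ed.Ty
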